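import Mathlib

set_option autoImplicit false

namespace H17AG

open Finset

/-- The window sum `a(n) + ... + a(n-r+1)`; indices `≤ 0` are read as `0`. -/
def S (r : ℕ) (a : ℕ → ℕ) (n : ℕ) : ℕ := ∑ s ∈ range r, a (n - s)

/-- Nondecreasing sequences of positive integers (with `a 0 = 0`) solving the equation. -/
def Sol (r : ℕ) (a : ℕ → ℕ) : Prop :=
  a 0 = 0 ∧ (∀ n ≥ 1, 0 < a n) ∧ Monotone a ∧ ∀ n ≥ 1, a (S r a n) = n

/-- The almost Golomb sequence: each term is as small as possible given the earlier terms. -/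
def AlmostGolomb (r : ℕ) (a : ℕ → ℕ) : Prop :=
  Sol r a ∧ ∀ b, Sol r b → ∀ n, (∀ k < n, a k = b k) → a n ≤ b n

/-- The number of times `n` occurs. -/
noncomputable def N (a : ℕ → ℕ) (n : ℕ) : ℕ∞ := {i | 1 ≤ i ∧ a i = n}.encard

def g (r : ℕ) : ℕ → ℕ
  | 0 => 0
  | 1 => 1
  | 2 => 2
  | 3 => 2
  | p + 4 => if ∑ s ∈ range r, g r (min (g r (p + 3) + 1 - s) (p + 3)) ≤ p + 4
      then g r (p + 3) + 1 else g r (p + 3)
decreasing_by all_goals omega

theorem st (r p : ℕ) : g r p ≤ g r (p + 1) ∧ g r (p + 1) ≤ g r p + 1 := by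
  rcases p with _ | _ | _ | p
  iterate 3 simp [g]
  rw [show p + 1 + 1 + 1 + 1 = p + 4 from rfl, g]
  split_ifs <;> simp

theorem mono (r : ℕ) : Monotone (g r) := monotone_nat_of_le_succ fun p => (st r p).1

theorem lip (r p k : ℕ) : g r (p + k) ≤ g r p + k := by
  induction k with
  | zero => rfl
  | succ k ih => exact (st r (p + k)).2.trans (by omega)

theorem eq (r p : ℕ) : g r (p + 4) =
    if S r (g r) (g r (p + 3) + 1) ≤ p + 4 then g r (p + 3) + 1 else g r (p + 3) := by
  have := lip r 3 p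
  rw [g, S, sum_congr rfl fun s _ => by
    rw [min_eq_left (by rw [add_comm 3, g] at this; omega)]]

theorem sS (r : ℕ) (hr : 2 ≤ r) (a : ℕ → ℕ) (m : ℕ) :
    S r a (m + 1) + a (m + 1 - r) = S r a m + a (m + 1) := by
  obtain ⟨r, rfl⟩ := Nat.exists_eq_add_of_le' hr
  rw [S, S, sum_range_succ', sum_range_succ _ (r + 1)]
  simp only [Nat.add_sub_add_right, show r + 2 = r + 1 + 1 from rfl, Nat.sub_zero]
  omega

section
variable {r : ℕ} (hr : 2 ≤ r)
include hr

theorem Sm : Monotone (S r (g r)) := monotone_nat_of_le_succ fun m => by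
  have := sS r hr (g r) m
  have := mono r (Nat.sub_le (m + 1) r)
  omega

theorem base : S r (g r) 1 = 1 ∧ S r (g r) 2 = 3 ∧ 4 ≤ S r (g r) 3 ∧ S r (g r) 3 ≤ 5 ∧
    S r (g r) 3 ≤ r + 2 := by
  have a := sS r hr (g r) 0
  have b := sS r hr (g r) 1
  have c := sS r hr (g r) 2
  have : S r (g r) 0 = 0 := by simp [S, g]
  rw [Nat.sub_eq_zero_of_le (by omega)] at a b
  rcases hr.eq_or_lt with rfl | h
  · simp only [g, zero_add, Nat.reduceAdd, Nat.reduceSub] at *; omega
  · rw [Nat.sub_eq_zero_of_le (by omega)] at c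
    simp only [g, zero_add, Nat.reduceAdd] at *; omega

theorem key (p : ℕ) : ∀ m ≥ 3, (m ≤ g r p ↔ S r (g r) m ≤ p) := by
  obtain ⟨b1, b2, b3, b4, b5⟩ := base hr
  induction p using Nat.strong_induction_on with
  | _ p ih =>
  intro m hm
  by_cases h : p ≤ 3
  · have := mono r h
    have := Sm hr hm
    rw [g] at *
    omega
  obtain ⟨p, rfl⟩ := Nat.exists_eq_add_of_le' (show 4 ≤ p by omega)
  have a := mono r (show 3 ≤ p + 3 by omega)
  have a' := lip r 3 p
  rw [g] at a a'
  rw [add_comm] at a'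
  have i := ih (p + 3) (by omega)
  have e := eq r p
  generalize hv : g r (p + 3) = v at *
  split_ifs at e with c <;> rw [e]
  · refine ⟨fun h => (Sm hr h).trans c, fun h => not_lt.mp fun f => ?_⟩
    have := i (v + 1) (by omega)
    have := Sm hr (show v + 1 + 1 ≤ m from f)
    have := sS r hr (g r) (v + 1)
    suffices g r (v + 1 + 1 - r) < g r (v + 1 + 1) by omega
    by_cases d : v = p + 2
    · have := mono r (show v + 1 + 1 - r ≤ p + 3 by omega)
      rw [show v + 1 + 1 = p + 4 by omega] at *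
      omega
    by_cases d : 3 ≤ g r (v + 1 + 1 - r)
    · have := ih (v + 1 + 1 - r) (by omega) _ d
      have := ih (v + 1 + 1) (by omega) (g r (v + 1 + 1 - r) + 1) (by omega)
      have := sS r hr (g r) (g r (v + 1 + 1 - r))
      have := (mono r (show g r (v + 1 + 1 - r) + 1 ≤ g r (v + 1 + 1 - r) + 1 - r + r by
        omega)).trans (lip r _ r)
      have : r ≤ v + 1 + 1 := by
        by_contra f
        rw [Nat.sub_eq_zero_of_le (by omega), g] at d
        omega
      omega
    by_cases d' : v + 1 + 1 - r ≤ 1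
    · have := mono r d'
      have := mono r (show 2 ≤ v + 1 + 1 by omega)
      simp only [g] at *; omega
    · have := ih (v + 1 + 1) (by omega) 3 le_rfl
      omega
  · refine ⟨fun h => ((i m hm).mp h).trans (by omega), fun h => not_lt.mp fun f => ?_⟩
    exact c ((Sm hr f).trans h)

theorem strict (m : ℕ) (hm : 3 ≤ m) : g r (S r (g r) m) = m := by
  refine le_antisymm ?_ ((key hr _ m hm).mpr le_rfl)
  obtain ⟨p, hp⟩ := Nat.exists_eq_add_of_le' ((base hr).2.2.1.trans (Sm hr hm))
  have := key hr (p + 3) m hm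
  have := (st r (p + 3)).2
  rw [hp]
  exact this.trans (by omega)

theorem sol : Sol r (g r) := by
  obtain ⟨b1, b2, b3, b4⟩ := base hr
  refine ⟨by rw [g], fun n h => lt_of_lt_of_le (by rw [g]; omega) (mono r h), mono r, fun n h => ?_⟩
  rcases n with _ | _ | _ | n
  · omega
  · rw [b1, g]
  · rw [b2, g]
  · exact strict hr _ (by omega)

omit hr in
theorem lt (n : ℕ) (h : 3 ≤ n) : g r n < n := by
  have := lip r 3 (n - 3)
  rw [Nat.add_sub_cancel' h, g] at this
  omega

theorem ag : AlmostGolomb r (g r) := by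
  refine ⟨sol hr, fun b ⟨h0, h1, h2, h3⟩ n h => ?_⟩
  have e : ∀ m < n, S r b m = S r (g r) m := fun m a => sum_congr rfl fun s _ => (h _ (by omega)).symm
  by_cases c : 3 ≤ g r n
  · have := (key hr n _ c).mp le_rfl
    have a := (base hr).2.2.1.trans ((Sm hr c).trans this)
    rw [← h3 (g r n) (by omega), e _ (lt n (by omega))]
    exact h2 (by assumption)
  rcases n with _ | _ | n
  · simp [g]
  · rw [g]; exact h1 _ le_rfl
  by_contra f
  have a := h2 (show 2 ≤ n + 1 + 1 by omega)
  have := h1 2 (by omega)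
  have s := sS r hr b 1
  rw [e 1 (by omega), (base hr).1, Nat.sub_eq_zero_of_le (by omega), h0,
    show b (1 + 1) = 1 by simp only [Nat.reduceAdd]; omega] at s
  have := h3 2 (by omega)
  rw [show S r b 2 = 2 from s] at this
  omega

theorem uniq {a : ℕ → ℕ} (h : AlmostGolomb r a) : a = g r := funext fun n => by
  induction n using Nat.strong_induction_on with
  | _ n ih => exact (h.2 _ (sol hr) n ih).antisymm ((ag hr).2 _ h.1 n fun k f => (ih k f).symm)

theorem win (A : ℕ) (hA : 3 ≤ A) (hA' : g r r ≤ A) (n : ℕ) : g r (n + r) ≤ g r n + A := by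
  obtain ⟨b1, b2, b3, b4, b5⟩ := base hr
  induction n using Nat.strong_induction_on with
  | _ n ih =>
  rcases n.eq_zero_or_pos with rfl | h
  · simpa [g]
  by_contra f
  have v := (sol hr).2.1 n h
  have v' := lip r 0 n
  rw [g, zero_add] at v'
  have a := (key hr (n + r) (g r n + 1 + A) (by omega)).mp (by omega)
  have b : n < S r (g r) (g r n + 1) := by
    by_cases c : 2 ≤ g r n
    · exact not_le.mp fun d => by have := (key hr n (g r n + 1) (by omega)).mpr d; omega
    · have := Sm hr (show 2 ≤ g r n + 1 by omega)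
      by_contra d
      have := mono r (show 2 ≤ n by omega)
      rw [g] at this; omega
  suffices S r (g r) (g r n + 1) + r ≤ S r (g r) (g r n + 1 + A) by omega
  by_cases c : g r n + 1 + A ≤ r
  · have : ∀ u, u + 1 + A ≤ r → S r (g r) (u + 1) + r ≤ S r (g r) (u + 1 + A) := by
      intro u hu
      induction u with
      | zero => have := key hr r (0 + 1 + A) (by omega); rw [zero_add] at *; omega
      | succ u ihu =>
        have x := sS r hr (g r) (u + 1)
        have y := sS r hr (g r) (u + 1 + A)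
        have := mono r (show u + 1 + 1 ≤ u + 1 + A + 1 by omega)
        rw [Nat.sub_eq_zero_of_le (by omega)] at x y
        rw [add_right_comm (u + 1)]
        have := ihu (by omega)
        omega
    exact this _ c
  rw [S, S]
  refine le_trans (le_of_eq ?_) (sum_le_sum (f := fun s => g r (g r n + 1 - s) + 1) fun s hs => ?_)
  · simp [sum_add_distrib]
  rw [mem_range] at hs
  by_cases d : g r n + 1 ≤ s
  · rw [Nat.sub_eq_zero_of_le d, g]
    exact (sol hr).2.1 _ (by omega)
  obtain ⟨i, e, i1, i2⟩ : ∃ i, g r n + 1 - s = i ∧ 1 ≤ i ∧ i ≤ n + 1 := ⟨_, rfl, by omega, by omega⟩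
  rw [show g r n + 1 + A - s = i + A by omega, e]
  by_cases w : 3 ≤ g r i
  · refine (key hr _ _ (by omega)).mpr ?_
    have := (key hr i _ w).mp le_rfl
    have := sS r hr (g r) (g r i)
    have := Sm hr w
    have := lt (r := r) i (by omega)
    have := (mono r (show g r i + 1 ≤ g r i + 1 - r + r by omega)).trans
      (ih (g r i + 1 - r) (by omega))
    omega
  rcases i1.eq_or_lt with rfl | i1
  · have := mono r (show 2 ≤ 1 + A by omega)
    simp only [g] at *; omega
  · have := key hr (i + A) 3 le_rfl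
    omega

theorem Neq (m : ℕ) (hm : 3 ≤ m) : N (g r) m = (g r (m + 1) - g r (m + 1 - r) : ℕ) := by
  have := sS r hr (g r) m
  have := Sm hr hm
  have := (base hr).2.2.1
  rw [N, show {i | 1 ≤ i ∧ g r i = m} = Ico (S r (g r) m) (S r (g r) (m + 1)) by
    ext i
    have := key hr i m hm
    have := key hr i (m + 1) (by omega)
    simp only [Set.mem_ofPred_eq, mem_coe, mem_Ico]
    omega, Set.encard_coe_eq_coe_finsetCard, Nat.card_Ico]
  congr 1
  omega

theorem Nle (A : ℕ) (hA : 3 ≤ A) (hA' : g r r ≤ A) : ⨆ n ≥ 1, N (g r) n ≤ A := by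
  obtain ⟨b1, b2, b3, b4, b5⟩ := base hr
  refine iSup₂_le fun m hm => ?_
  by_cases c : 3 ≤ m
  · have := (mono r (show m + 1 ≤ m + 1 - r + r by omega)).trans (win hr A hA hA' _)
    rw [Neq hr m c, Nat.cast_le]
    omega
  by_cases d : m = 1
  · refine (Set.encard_le_encard (s := {i | 1 ≤ i ∧ g r i = m}) (t := {1})
      fun i ⟨h1, h2⟩ => ?_).trans (by simp; omega)
    by_contra f
    have := mono r (show 2 ≤ i by simp at f; omega)
    rw [g] at this; omega
  refine (Set.encard_le_encard (s := {i | 1 ≤ i ∧ g r i = m}) (t := Ico 2 5)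
    fun i ⟨h1, h2⟩ => ?_).trans ?_
  · have := key hr i 3 le_rfl
    rcases h1.eq_or_lt with rfl | h1
    · rw [g] at h2; omega
    · simp; omega
  · rw [Set.encard_coe_eq_coe_finsetCard, Nat.cast_le]
    simp; omega

end

theorem Meq {r : ℕ} (hr : 5 ≤ r) : 3 ≤ g r r ∧ ⨆ n ≥ 1, N (g r) n = g r r := by
  have h : 2 ≤ r := by omega
  have := (key h r 3 le_rfl).mpr ((base h).2.2.2.1.trans hr)
  refine ⟨this, le_antisymm (Nle h _ this le_rfl) (le_iSup₂_of_le (r - 1) (by omega) ?_)⟩
  rw [Neq h _ (by omega), Nat.sub_add_cancel (by omega)]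
  simp [g]

end H17AG
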