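import Mathlib

set_option autoImplicit false

namespace H17Box

open FreeGroup Set

abbrev F := FreeGroup Bool

abbrev B (n : ℕ) := {g : F // g.norm ≤ n}

instance (n : ℕ) : Finite (B n) := by
  have := (List.finite_length_le (Bool × Bool) n).to_subtype
  exact Finite.of_injective (fun g : B n => (⟨g.1.toWord, g.2⟩ : {l : List (Bool × Bool) | l.length ≤ n}))
    fun a b h => Subtype.ext (toWord_injective (congrArg Subtype.val h))

theorem ex_phi (n : ℕ) : ∃ φ : F →* Equiv.Perm (B n), ∀ g g' : F, g.norm ≤ n → g'.norm ≤ n →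
    φ g = φ g' → g = g' := by
  have : ∀ i : Bool, ∃ σ : Equiv.Perm (B n), ∀ a : {g : B n // (of i * g.1).norm ≤ n},
      σ a.1 = ⟨of i * a.1.1, a.2⟩ := fun i =>
    Equiv.Perm.exists_extending_pair _ (fun a : {g : B n // (of i * g.1).norm ≤ n} =>
      (⟨of i * a.1.1, a.2⟩ : B n)) Subtype.val_injective fun a b h =>
      Subtype.ext (Subtype.ext (mul_left_cancel (congrArg Subtype.val h)))
  choose σ hσ using this
  have key : ∀ (L : List (Bool × Bool)) (h : L.length ≤ n),
      lift σ (mk L) ⟨1, by simp⟩ = ⟨mk L, norm_mk_le.trans h⟩ := by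
    intro L
    induction L with
    | nil => intro _; rfl
    | cons x L ih =>
      intro h
      have h' : L.length ≤ n := by simp at h; omega
      have h2 : (mk (x :: L)).norm ≤ n := norm_mk_le.trans h
      have e : mk (x :: L) = mk [x] * mk L := rfl
      obtain ⟨i, _ | _⟩ := x
      · have e2 : mk [(i, false)] = (of i)⁻¹ := rfl
        have := hσ i ⟨⟨_, h2⟩, by
          change (of i * (mk [(i, false)] * mk L)).norm ≤ n
          rw [e2, mul_inv_cancel_left]; exact norm_mk_le.trans h'⟩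
        rw [map_congr_arg e, _root_.map_mul, Equiv.Perm.mul_apply, ih h', e2, _root_.map_inv, lift_apply_of,
          Equiv.Perm.inv_eq_iff_eq, this]
        exact Subtype.ext (by simp [e, e2])
      · have e2 : mk [(i, true)] = of i := rfl
        rw [map_congr_arg e, _root_.map_mul, Equiv.Perm.mul_apply, ih h', e2, lift_apply_of]
        exact hσ i ⟨⟨_, norm_mk_le.trans h'⟩, h2⟩
  refine ⟨lift σ, fun g g' h1 h2 h => ?_⟩
  have a := key g.toWord h1
  have b := key g'.toWord h2
  simp only [mk_toWord] at a b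
  rw [h, b] at a
  exact (congrArg Subtype.val a).symm
where map_congr_arg {n : ℕ} {σ : Bool → Equiv.Perm (B n)} {a b : F} (h : a = b) :
  lift σ a = lift σ b := by rw [h]

noncomputable def phi (n : ℕ) : F →* Equiv.Perm (B n) := (ex_phi n).choose

def X : Type := Σ n, Equiv.Perm (B n)

instance : Countable X := inferInstanceAs (Countable (Σ n, Equiv.Perm (B n)))

noncomputable instance : MulAction F X where
  smul g x := ⟨x.1, phi x.1 g * x.2⟩
  one_smul x := by change (⟨x.1, _ * x.2⟩ : X) = x; rw [_root_.map_one, one_mul]; rfl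
  mul_smul a b x := by
    change (⟨x.1, _ * x.2⟩ : X) = ⟨x.1, phi x.1 a * (phi x.1 b * x.2)⟩
    rw [_root_.map_mul, mul_assoc]

theorem lev_smul (g : F) (x : X) : (g • x).1 = x.1 := rfl

theorem free (x : X) (g g' : F) (h1 : g.norm ≤ x.1) (h2 : g'.norm ≤ x.1) (h : g • x = g' • x) :
    g = g' :=
  (ex_phi x.1).choose_spec g g' h1 h2 (mul_right_cancel (eq_of_heq (Sigma.mk.inj h).2))

theorem fin_lev (n : ℕ) : {x : X | x.1 = n}.Finite :=
  (finite_range fun σ : Equiv.Perm (B n) => (⟨n, σ⟩ : X)).subset (by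
    rintro ⟨_, σ⟩ rfl
    exact ⟨σ, rfl⟩)

noncomputable def rho (x y : X) : ℕ := sInf {k | ∃ g : F, g.norm = k ∧ g • y = x}

theorem rho_le {x y : X} {g : F} (h : g • y = x) : rho x y ≤ g.norm := Nat.sInf_le ⟨g, rfl, h⟩

theorem rho_spec {x y : X} (h : ∃ g : F, g • y = x) : ∃ g : F, g.norm = rho x y ∧ g • y = x := by
  obtain ⟨g, hg⟩ := h
  exact Nat.sInf_mem (s := {k | ∃ g : F, g.norm = k ∧ g • y = x}) ⟨_, g, rfl, hg⟩

theorem ex_D (n : ℕ) : ∃ D, n < D ∧ ∀ x y : X, x.1 = n → y.1 = n → rho x y ≤ D := by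
  obtain ⟨D, hD⟩ := (((fin_lev n).prod (fin_lev n)).image fun p => rho p.1 p.2).bddAbove
  exact ⟨max D (n + 1), by omega, fun x y hx hy =>
    (hD ⟨(x, y), ⟨hx, hy⟩, rfl⟩).trans (le_max_left _ _)⟩

noncomputable def D (n : ℕ) : ℕ := (ex_D n).choose

open Classical in
noncomputable def dd (x y : X) : ℕ := if ∃ g : F, g • y = x then rho x y else D x.1 + D y.1

theorem sym {x y : X} (h : ∃ g : F, g • y = x) : ∃ g : F, g • x = y := by
  obtain ⟨g, rfl⟩ := h
  exact ⟨g⁻¹, inv_smul_smul _ _⟩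

theorem rho_comm_le {x y : X} (h : ∃ g : F, g • y = x) : rho y x ≤ rho x y := by
  obtain ⟨g, h1, rfl⟩ := rho_spec h
  rw [← h1, ← norm_inv_eq]
  exact rho_le (inv_smul_smul _ _)

theorem dd_tri (x y z : X) : dd x z ≤ dd x y + dd y z := by
  unfold dd
  by_cases h1 : ∃ g : F, g • y = x <;> by_cases h2 : ∃ g : F, g • z = y
  · obtain ⟨a, a1, a2⟩ := rho_spec h1
    obtain ⟨b, b1, b2⟩ := rho_spec h2
    have : (a * b) • z = x := by rw [mul_smul, b2, a2]
    rw [if_pos h1, if_pos h2, if_pos ⟨_, this⟩, ← a1, ← b1]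
    exact (rho_le this).trans (norm_mul_le _ _)
  · obtain ⟨a, rfl⟩ := h1
    rw [if_neg h2, if_neg, lev_smul]
    · omega
    · rintro ⟨g, hg⟩
      exact h2 ⟨a⁻¹ * g, by rw [mul_smul, hg, inv_smul_smul]⟩
  · obtain ⟨a, rfl⟩ := h2
    rw [if_neg h1, if_neg, lev_smul]
    · omega
    · rintro ⟨g, hg⟩
      exact h1 ⟨g * a⁻¹, by rw [mul_smul, inv_smul_smul, hg]⟩
  · rw [if_neg h1, if_neg h2]
    split_ifs with h
    · obtain ⟨g, rfl⟩ := h
      have : rho (g • z) z ≤ D z.1 := (ex_D z.1).choose_spec.2 _ _ rfl rfl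
      omega
    · omega

noncomputable instance : MetricSpace X where
  dist x y := dd x y
  dist_self x := by
    have : rho x x ≤ _ := rho_le (one_smul F x)
    simp only [dd, if_pos (⟨1, one_smul F x⟩ : ∃ g : F, g • x = x)]
    simpa using this
  dist_comm x y := by
    congr 1
    unfold dd
    by_cases h : ∃ g : F, g • y = x
    · rw [if_pos h, if_pos (sym h)]
      exact le_antisymm (rho_comm_le (sym h)) (rho_comm_le h)
    · rw [if_neg h, if_neg fun h' => h (sym h'), add_comm]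
  dist_triangle x y z := by exact_mod_cast dd_tri x y z
  eq_of_dist_eq_zero {x y} h := by
    have h : dd x y = 0 := by exact_mod_cast h
    unfold dd at h
    split_ifs at h with h1
    · obtain ⟨g, h2, rfl⟩ := rho_spec h1
      rw [norm_eq_zero.mp (h2.trans h), one_smul]
    · have : x.1 < D x.1 := (ex_D x.1).choose_spec.1
      omega

theorem dist_def (x y : X) : dist x y = dd x y := rfl

theorem near {x y : X} {n : ℕ} (h : dist x y ≤ n) : (∃ g : F, g.norm ≤ n ∧ g • y = x) ∨
    (x.1 < n ∧ y.1 < n) := by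
  have h : dd x y ≤ n := by rw [dist_def] at h; exact_mod_cast h
  unfold dd at h
  split_ifs at h with h1
  · obtain ⟨g, h2, h3⟩ := rho_spec h1
    exact Or.inl ⟨g, h2 ▸ h, h3⟩
  · have : x.1 < D x.1 := (ex_D x.1).choose_spec.1
    have : y.1 < D y.1 := (ex_D y.1).choose_spec.1
    omega

theorem dist_smul_le (g : F) (x : X) : dist (g • x) x ≤ g.norm := by
  rw [dist_def, dd, if_pos ⟨g, rfl⟩]
  exact_mod_cast rho_le rfl

theorem bdd_geom (R : ℝ) : ∃ N : ℕ, ∀ x : X,
    (Metric.ball x R).Finite ∧ (Metric.ball x R).ncard ≤ N := by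
  have h1 : {y : X | y.1 < ⌈R⌉₊}.Finite :=
    ((finite_Iio ⌈R⌉₊).biUnion fun n _ => fin_lev n).subset fun y hy => mem_biUnion hy rfl
  refine ⟨Nat.card (B ⌈R⌉₊) + {y : X | y.1 < ⌈R⌉₊}.ncard, fun x => ?_⟩
  have h2 : Metric.ball x R ⊆ (fun g : B ⌈R⌉₊ => g.1 • x) '' univ ∪ {y : X | y.1 < ⌈R⌉₊} := by
    intro y hy
    rcases near ((le_of_lt hy).trans (Nat.le_ceil R)) with ⟨g, a, b⟩ | h
    · exact Or.inl ⟨⟨g, a⟩, trivial, b⟩
    · exact Or.inr h.1
  have h3 := (finite_univ.image fun g : B ⌈R⌉₊ => g.1 • x).union h1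
  refine ⟨h3.subset h2, (ncard_le_ncard h2 h3).trans ((ncard_union_le _ _).trans ?_)⟩
  exact Nat.add_le_add_right ((ncard_image_le finite_univ).trans (ncard_univ _).le) _

theorem not_A (S : ℝ) (A : X → Set (X × ℕ)) (h1 : ∀ x, (A x).Finite) (h2 : ∀ x, (A x).Nonempty)
    (h3 : ∀ x, ∀ w ∈ A x, dist w.1 x ≤ S)
    (h4 : ∀ x y, dist x y < 2 →
      ((symmDiff (A x) (A y)).ncard : ℝ) < 1 / 2 * ((A x ∩ A y).ncard : ℝ)) : False := by
  classical
  set n := ⌈S⌉₊
  have k1 : ∀ x y : X, ∃ g : F, x.1 = n + 1 → dist y x ≤ S → g.norm ≤ n ∧ g • y = x := by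
    intro x y
    by_cases h : x.1 = n + 1 ∧ dist y x ≤ S
    · rcases near (x := x) (y := y) (n := n) (by
        rw [dist_comm]; exact h.2.trans (Nat.le_ceil S)) with ⟨g, hg⟩ | h'
      · exact ⟨g, fun _ _ => hg⟩
      · omega
    · exact ⟨1, fun a b => absurd ⟨a, b⟩ h⟩
  choose L hL using k1
  let P : X → Bool × Bool → Set (X × ℕ) := fun x l => {w ∈ A x | L x w.1 ∈ startsWith l}
  let p : X → Bool × Bool → ℝ := fun x l => (P x l).ncard / (A x).ncard
  have pos : ∀ x, (0 : ℝ) < (A x).ncard := fun x => by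
    exact_mod_cast (ncard_pos (h1 x)).mpr (h2 x)
  have fP : ∀ x l, (P x l).Finite := fun x l => (h1 x).subset fun w hw => hw.1
  have k2 : ∀ x, p x (true, true) + p x (true, false) + (p x (false, true) + p x (false, false)) ≤ 1 := by
    intro x
    have d : ∀ l l', l ≠ l' → Disjoint (P x l) (P x l') := fun l l' h =>
      disjoint_left.mpr fun w a b => disjoint_left.mp (startsWith.disjoint_iff_ne.mpr h) a.2 b.2
    have := ncard_le_ncard (s := (P x (true, true) ∪ P x (true, false)) ∪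
      (P x (false, true) ∪ P x (false, false))) (t := A x)
      (by rintro w ((h | h) | (h | h)) <;> exact h.1) (h1 x)
    rw [ncard_union_eq (by simp [d]) ((fP _ _).union (fP _ _)) ((fP _ _).union (fP _ _)),
      ncard_union_eq (d _ _ (by simp)) (fP _ _) (fP _ _),
      ncard_union_eq (d _ _ (by simp)) (fP _ _) (fP _ _)] at this
    simp only [p, ← add_div]
    rw [div_le_one (pos x)]
    exact_mod_cast this
  have k3 : ∀ (i : Bool) (x : X), x.1 = n + 1 → 2 / 3 ≤ p (of i • x) (i, true) + p x (i, false) := by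
    intro i x hx
    have a1 := h4 (of i • x) x ((dist_smul_le _ _).trans_lt (by simp))
    have a2 : A (of i • x) ∩ A x ⊆ P (of i • x) (i, true) ∪ P x (i, false) := by
      rintro w ⟨b1, b2⟩
      obtain ⟨c1, c2⟩ := hL (of i • x) w.1 hx (h3 _ _ b1)
      obtain ⟨c3, c4⟩ := hL x w.1 hx (h3 _ _ b2)
      have c5 : w.1.1 = n + 1 := by rw [← hx, ← c4]; rfl
      have := free w.1 (L (of i • x) w.1) (of i * L x w.1) (by omega)
        ((FreeGroup.norm_mul_le _ _).trans (by rw [norm_of]; omega)) (by rw [mul_smul, c2, c4])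
      by_cases h : L x w.1 ∈ startsWith (i, false)
      · exact Or.inr ⟨b2, h⟩
      · exact Or.inl ⟨b1, this ▸ startsWith_mk_mul (w := (i, true)) _ h⟩
    have a3 : ((A (of i • x) ∩ A x).ncard : ℝ) ≤ (P (of i • x) (i, true)).ncard +
        (P x (i, false)).ncard := by
      exact_mod_cast (ncard_le_ncard a2 ((fP _ _).union (fP _ _))).trans (ncard_union_le _ _)
    have a4 : ∀ y, (y = of i • x ∨ y = x) → ((A y).ncard : ℝ) ≤
        3 / 2 * (A (of i • x) ∩ A x).ncard := by
      intro y hy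
      have : A y ⊆ (A (of i • x) ∩ A x) ∪ symmDiff (A (of i • x)) (A x) := by
        intro w hw
        rcases hy with rfl | rfl <;> simp only [mem_union, mem_inter_iff, mem_symmDiff] <;> tauto
      have : ((A y).ncard : ℝ) ≤ (A (of i • x) ∩ A x).ncard +
          (symmDiff (A (of i • x)) (A x)).ncard := by
        exact_mod_cast (ncard_le_ncard this (((h1 _).inter_of_left _).union
          ((h1 _).symmDiff (h1 _)))).trans (ncard_union_le _ _)
      linarith
    have a5 := a4 _ (Or.inl rfl)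
    have a6 := a4 _ (Or.inr rfl)
    have a7 := pos x
    have a8 : (0 : ℝ) < 3 / 2 * (A (of i • x) ∩ A x).ncard := by linarith
    calc (2 / 3 : ℝ) ≤ ((P (of i • x) (i, true)).ncard + (P x (i, false)).ncard) /
          (3 / 2 * (A (of i • x) ∩ A x).ncard) := by rw [le_div_iff₀ a8]; linarith
      _ ≤ _ := by
          rw [add_div]
          exact add_le_add (div_le_div_of_nonneg_left (by positivity) (pos _) a5)
            (div_le_div_of_nonneg_left (by positivity) (pos _) a6)
  let T := (fin_lev (n + 1)).toFinset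
  have k4 : ∀ i : Bool, 2 / 3 * (T.card : ℝ) ≤ ∑ x ∈ T, (p x (i, true) + p x (i, false)) := by
    intro i
    rw [Finset.sum_add_distrib, ← Finset.sum_equiv (s := T) (t := T) (MulAction.toPerm (of i))
      (f := fun x => p (of i • x) (i, true)) (g := fun x => p x (i, true))
      (fun x => by simp [T, lev_smul]) (fun _ _ => rfl), ← Finset.sum_add_distrib]
    have := Finset.card_nsmul_le_sum T _ _ fun x hx => k3 i x (by simpa [T] using hx)
    rwa [nsmul_eq_mul, mul_comm] at this
  have k5 := Finset.sum_le_card_nsmul T _ _ fun x _ => k2 x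
  rw [Finset.sum_add_distrib, nsmul_eq_mul] at k5
  have k6 : (0 : ℝ) < T.card := by
    exact_mod_cast Finset.card_pos.mpr ⟨show X from ⟨n + 1, 1⟩, (fin_lev (n + 1)).mem_toFinset.mpr rfl⟩
  linarith [k4 true, k4 false]

end H17Box
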