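import Mathlib

set_option autoImplicit false

namespace H17Der

variable {T T' N N' : Type}

/-- Derivation trees for a set of context-free rules. -/
inductive Der (P : Set (ContextFreeRule T N)) : List (Symbol T N) → List T → Prop
  | nil : Der P [] []
  | term (t : T) {s : List (Symbol T N)} {w : List T} : Der P s w →
      Der P (Symbol.terminal t :: s) (t :: w)
  | nt (r : ContextFreeRule T N) {s : List (Symbol T N)} {u w : List T} : r ∈ P →
      Der P r.output u → Der P s w → Der P (Symbol.nonterminal r.input :: s) (u ++ w)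

theorem der_nil {P : Set (ContextFreeRule T N)} {w : List T} : Der P [] w ↔ w = [] := by
  constructor
  · intro h; cases h; rfl
  · rintro rfl; exact Der.nil

theorem der_term {P : Set (ContextFreeRule T N)} {t : T} {s : List (Symbol T N)} {w : List T} :
    Der P (Symbol.terminal t :: s) w ↔ ∃ w', w = t :: w' ∧ Der P s w' := by
  constructor
  · intro h; cases h with
    | term _ h => exact ⟨_, rfl, h⟩
  · rintro ⟨w', rfl, h⟩; exact Der.term t h

theorem der_nt {P : Set (ContextFreeRule T N)} {A : N} {s : List (Symbol T N)} {w : List T} :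
    Der P (Symbol.nonterminal A :: s) w ↔
      ∃ r ∈ P, r.input = A ∧ ∃ u w', w = u ++ w' ∧ Der P r.output u ∧ Der P s w' := by
  constructor
  · intro h
    generalize hs : Symbol.nonterminal A :: s = s' at h
    cases h with
    | nil => simp at hs
    | term _ h => simp at hs
    | nt r hr h1 h2 =>
      simp only [List.cons.injEq, Symbol.nonterminal.injEq] at hs
      obtain ⟨rfl, rfl⟩ := hs
      exact ⟨r, hr, rfl, _, _, rfl, h1, h2⟩
  · rintro ⟨r, hr, rfl, u, w', rfl, h1, h2⟩; exact Der.nt r hr h1 h2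

theorem der_one {P : Set (ContextFreeRule T N)} {A : N} {w : List T} :
    Der P [Symbol.nonterminal A] w ↔ ∃ r ∈ P, r.input = A ∧ Der P r.output w := by
  rw [der_nt]
  constructor
  · rintro ⟨r, hr, h, u, w', rfl, h1, h2⟩
    rw [der_nil.mp h2, List.append_nil]
    exact ⟨r, hr, h, h1⟩
  · rintro ⟨r, hr, h, h1⟩
    exact ⟨r, hr, h, w, [], by simp, h1, Der.nil⟩

theorem Der.append {P : Set (ContextFreeRule T N)} {s s' : List (Symbol T N)} {w w' : List T}
    (h : Der P s w) (h' : Der P s' w') : Der P (s ++ s') (w ++ w') := by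
  induction h with
  | nil => simpa using h'
  | term t _ ih => exact Der.term t ih
  | nt r hr h1 _ _ ih2 =>
    rw [List.append_assoc]
    exact Der.nt r hr h1 ih2

theorem Der.split {P : Set (ContextFreeRule T N)} (s : List (Symbol T N)) :
    ∀ {s' : List (Symbol T N)} {w : List T}, Der P (s ++ s') w →
      ∃ u v, w = u ++ v ∧ Der P s u ∧ Der P s' v := by
  induction s with
  | nil => intro s' w h; exact ⟨[], w, rfl, Der.nil, h⟩
  | cons a s ih =>
    intro s' w h
    cases a with
    | terminal t =>
      obtain ⟨w', rfl, h'⟩ := der_term.mp h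
      obtain ⟨u, v, rfl, h1, h2⟩ := ih h'
      exact ⟨t :: u, v, rfl, Der.term t h1, h2⟩
    | nonterminal A =>
      obtain ⟨r, hr, rfl, x, w', rfl, h0, h'⟩ := der_nt.mp h
      obtain ⟨u, v, rfl, h1, h2⟩ := ih h'
      exact ⟨x ++ u, v, by simp, Der.nt r hr h0 h1, h2⟩

theorem der_terminals (P : Set (ContextFreeRule T N)) (w : List T) :
    Der P (w.map Symbol.terminal) w := by
  induction w with
  | nil => exact Der.nil
  | cons a w ih => exact Der.term a ih

theorem der_iff_derives (g : ContextFreeGrammar T) (s : List (Symbol T g.NT)) (w : List T) :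
    Der (↑g.rules) s w ↔ g.Derives s (w.map Symbol.terminal) := by
  constructor
  · intro h
    induction h with
    | nil => exact ContextFreeGrammar.Derives.refl _
    | term t _ ih => exact ih.append_left [Symbol.terminal t]
    | @nt r s u w hr _ _ ih1 ih2 =>
      have h1 : g.Produces [Symbol.nonterminal r.input] r.output :=
        ⟨r, hr, ContextFreeRule.Rewrites.input_output⟩
      have h2 := (h1.trans_derives ih1).append_right s
      rw [List.map_append]
      exact h2.trans (ih2.append_left _)
  · intro h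
    induction h using Relation.ReflTransGen.head_induction_on with
    | refl => exact der_terminals _ w
    | head h1 _ ih =>
      obtain ⟨r, hr, h1⟩ := h1
      obtain ⟨p, q, rfl, rfl⟩ := h1.exists_parts
      obtain ⟨u, v, rfl, h2, h3⟩ := Der.split _ ih
      obtain ⟨u1, u2, rfl, h4, h5⟩ := Der.split _ h2
      exact (h4.append (der_one.mpr ⟨r, hr, rfl, h5⟩)).append h3

theorem mem_language_iff_der (g : ContextFreeGrammar T) (w : List T) :
    w ∈ g.language ↔ Der (↑g.rules) [Symbol.nonterminal g.initial] w := by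
  rw [der_iff_derives, ContextFreeGrammar.mem_language_iff]

theorem Der.letters {P : Set (ContextFreeRule T N)} (X : Set T)
    (hP : ∀ r ∈ P, ∀ t, Symbol.terminal t ∈ r.output → t ∈ X) {s : List (Symbol T N)}
    {w : List T} (h : Der P s w) : (∀ t, Symbol.terminal t ∈ s → t ∈ X) → ∀ x ∈ w, x ∈ X := by
  induction h with
  | nil => simp
  | term t _ ih =>
    intro hs x hx
    rcases List.mem_cons.mp hx with rfl | hx
    · exact hs _ (by simp)
    · exact ih (fun t ht => hs t (by simp [ht])) x hx
  | nt r hr _ _ ih1 ih2 =>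
    intro hs x hx
    rcases List.mem_append.mp hx with hx | hx
    · exact ih1 (hP r hr) x hx
    · exact ih2 (fun t ht => hs t (by simp [ht])) x hx

/-- renaming of nonterminals -/
def mapS (e : N → N') : Symbol T N → Symbol T N'
  | Symbol.terminal t => Symbol.terminal t
  | Symbol.nonterminal n => Symbol.nonterminal (e n)

def mapR (e : N → N') (r : ContextFreeRule T N) : ContextFreeRule T N' :=
  ⟨e r.input, r.output.map (mapS e)⟩

theorem der_map (e : N → N') (he : Function.Injective e) (P : Set (ContextFreeRule T N))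
    (s : List (Symbol T N)) (w : List T) :
    Der (mapR e '' P) (s.map (mapS e)) w ↔ Der P s w := by
  constructor
  · intro h
    generalize hs : s.map (mapS e) = s' at h
    induction h generalizing s with
    | nil =>
      rw [List.map_eq_nil_iff] at hs
      subst hs; exact Der.nil
    | term t _ ih =>
      obtain ⟨a, s0, rfl, ha, hs0⟩ := List.map_eq_cons_iff.mp hs
      cases a with
      | terminal t' =>
        simp only [mapS, Symbol.terminal.injEq] at ha
        subst ha
        exact Der.term _ (ih s0 hs0)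
      | nonterminal n => simp [mapS] at ha
    | nt r hr _ _ ih1 ih2 =>
      obtain ⟨a, s0, rfl, ha, hs0⟩ := List.map_eq_cons_iff.mp hs
      obtain ⟨r0, hr0, rfl⟩ := hr
      cases a with
      | terminal t' => simp [mapS] at ha
      | nonterminal n =>
        simp only [mapS, mapR, Symbol.nonterminal.injEq] at ha
        obtain rfl := he ha
        exact Der.nt r0 hr0 (ih1 r0.output rfl) (ih2 s0 hs0)
  · intro h
    induction h with
    | nil => exact Der.nil
    | term t _ ih => exact Der.term t ih
    | nt r hr _ _ ih1 ih2 => exact Der.nt (mapR e r) ⟨r, hr, rfl⟩ ih1 ih2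

theorem forall₂_append_left {α β : Type} {R : α → β → Prop} (u : List α) :
    ∀ {v : List α} {w : List β}, List.Forall₂ R (u ++ v) w →
      ∃ w1 w2, w = w1 ++ w2 ∧ List.Forall₂ R u w1 ∧ List.Forall₂ R v w2 := by
  induction u with
  | nil => intro v w h; exact ⟨[], w, rfl, List.Forall₂.nil, h⟩
  | cons a u ih =>
    intro v w h
    obtain ⟨b, w', hab, h', rfl⟩ := List.forall₂_cons_left_iff.mp h
    obtain ⟨w1, w2, rfl, h1, h2⟩ := ih h'
    exact ⟨b :: w1, w2, rfl, List.Forall₂.cons hab h1, h2⟩

theorem finite_forall₂ {α β : Type} {R : α → β → Prop} (hR : ∀ a, {b | R a b}.Finite)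
    (l : List α) : {l' | List.Forall₂ R l l'}.Finite := by
  induction l with
  | nil => simp
  | cons a l ih =>
    refine (((hR a).prod ih).image (fun p : β × List β => p.1 :: p.2)).subset ?_
    intro l' h
    obtain ⟨b, w', hab, h', rfl⟩ := List.forall₂_cons_left_iff.mp h
    exact ⟨(b, w'), ⟨hab, h'⟩, rfl⟩

section master

variable {J M : Type} (P : J → Set (ContextFreeRule T N)) (S : J → N) (ρ : J → T → T' → Prop)
  (τ : List T' → M) (op : M → M → M) (A : Set M)

def lift (j : J) : Symbol T N → Symbol T' (Option (J × N × M)) → Prop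
  | Symbol.terminal x, Symbol.terminal y => ρ j x y
  | Symbol.nonterminal n, Symbol.nonterminal o => ∃ m, o = some (j, n, m)
  | _, _ => False

def val : List (Symbol T' (Option (J × N × M))) → M
  | [] => τ []
  | Symbol.terminal y :: s => op (τ [y]) (val s)
  | Symbol.nonterminal (some (_, _, m)) :: s => op m (val s)
  | Symbol.nonterminal none :: s => val s

def rules : Set (ContextFreeRule T' (Option (J × N × M))) :=
  {r' | ∃ j, ∃ r ∈ P j, List.Forall₂ (lift ρ j) r.output r'.output ∧
    (r'.input = some (j, r.input, val τ op r'.output) ∨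
      (r'.input = none ∧ r.input = S j ∧ val τ op r'.output ∈ A))}

theorem lift_finite [Finite M] (hρ : ∀ j x, {y | ρ j x y}.Finite) (j : J) (a : Symbol T N) :
    {b : Symbol T' (Option (J × N × M)) | lift ρ j a b}.Finite := by
  cases a with
  | terminal x =>
    refine ((hρ j x).image Symbol.terminal).subset ?_
    intro b hb
    cases b with
    | terminal y => exact ⟨y, hb, rfl⟩
    | nonterminal o => exact absurd hb (by simp [lift])
  | nonterminal n =>
    refine (Set.finite_range (fun m : M => Symbol.nonterminal (some (j, n, m)))).subset ?_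
    intro b hb
    cases b with
    | terminal y => exact absurd hb (by simp [lift])
    | nonterminal o =>
      obtain ⟨m, rfl⟩ := hb
      exact ⟨m, rfl⟩

theorem rules_finite [Finite J] [Finite M] (hP : ∀ j, (P j).Finite)
    (hρ : ∀ j x, {y | ρ j x y}.Finite) : (rules P S ρ τ op A).Finite := by
  have h1 : ∀ j, ∀ r ∈ P j, {r' : ContextFreeRule T' (Option (J × N × M)) |
      List.Forall₂ (lift ρ j) r.output r'.output ∧
      (r'.input = some (j, r.input, val τ op r'.output) ∨ r'.input = none)}.Finite := by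
    intro j r _
    have h := finite_forall₂ (lift_finite (N := N) (M := M) ρ hρ j) r.output
    refine ((h.image fun o => (⟨some (j, r.input, val τ op o), o⟩ : ContextFreeRule T' _)).union
      (h.image fun o => (⟨none, o⟩ : ContextFreeRule T' _))).subset ?_
    rintro ⟨i, o⟩ ⟨h1, h2 | h2⟩
    · left; exact ⟨o, h1, by simp only at h2; rw [h2]⟩
    · right; exact ⟨o, h1, by simp only at h2; rw [h2]⟩
  refine (Set.finite_iUnion fun j => (hP j).biUnion (h1 j)).subset ?_
  rintro r' ⟨j, r, hr, h2, h3⟩
  simp only [Set.mem_iUnion]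
  exact ⟨j, r, hr, h2, h3.imp id fun h => h.1⟩

theorem master_sound (hτ : ∀ u v, τ (u ++ v) = op (τ u) (τ v))
    {s' : List (Symbol T' (Option (J × N × M)))} {w : List T'}
    (h : Der (rules P S ρ τ op A) s' w) : ∀ j s, List.Forall₂ (lift ρ j) s s' →
      ∃ u, Der (P j) s u ∧ List.Forall₂ (ρ j) u w ∧ τ w = val τ op s' := by
  induction h with
  | nil =>
    intro j s hs
    rw [List.forall₂_nil_right_iff] at hs
    subst hs
    exact ⟨[], Der.nil, List.Forall₂.nil, rfl⟩
  | @term y s' w _ ih =>
    intro j s hs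
    obtain ⟨a, s0, ha, hs0, rfl⟩ := List.forall₂_cons_right_iff.mp hs
    obtain ⟨u, h1, h2, h3⟩ := ih j s0 hs0
    cases a with
    | terminal x =>
      refine ⟨x :: u, Der.term x h1, List.Forall₂.cons ha h2, ?_⟩
      rw [val, ← h3, ← hτ]; rfl
    | nonterminal n => exact absurd ha (by simp [lift])
  | @nt r' s' w1 w2 hr' _ _ ih1 ih2 =>
    intro j s hs
    obtain ⟨a, s0, ha, hs0, rfl⟩ := List.forall₂_cons_right_iff.mp hs
    obtain ⟨u2, h1, h2, h3⟩ := ih2 j s0 hs0
    cases a with
    | terminal x => exact absurd ha (by simp [lift])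
    | nonterminal n =>
      obtain ⟨m, hm⟩ := ha
      obtain ⟨j', r, hr, h4, h5 | h5⟩ := hr'
      · rw [hm] at h5
        simp only [Option.some.injEq, Prod.mk.injEq] at h5
        obtain ⟨rfl, rfl, rfl⟩ := h5
        obtain ⟨u1, k1, k2, k3⟩ := ih1 j r.output h4
        refine ⟨u1 ++ u2, Der.nt r hr k1 h1, List.rel_append k2 h2, ?_⟩
        rw [hm, val, hτ, k3, h3]
      · rw [hm] at h5; simp at h5

theorem master_complete (hτ : ∀ u v, τ (u ++ v) = op (τ u) (τ v)) (j : J)
    {s : List (Symbol T N)} {u : List T} (h : Der (P j) s u) : ∀ w, List.Forall₂ (ρ j) u w →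
      ∃ s', List.Forall₂ (lift ρ j) s s' ∧ Der (rules P S ρ τ op A) s' w ∧
        val τ op s' = τ w := by
  induction h with
  | nil =>
    intro w hw
    rw [List.forall₂_nil_left_iff] at hw
    subst hw
    exact ⟨[], List.Forall₂.nil, Der.nil, rfl⟩
  | term x _ ih =>
    intro w hw
    obtain ⟨y, w', hxy, h', rfl⟩ := List.forall₂_cons_left_iff.mp hw
    obtain ⟨s', h1, h2, h3⟩ := ih w' h'
    refine ⟨Symbol.terminal y :: s', List.Forall₂.cons hxy h1, Der.term y h2, ?_⟩
    rw [val, h3, ← hτ]; rfl
  | nt r hr _ _ ih1 ih2 =>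
    intro w hw
    obtain ⟨w1, w2, rfl, k1, k2⟩ := forall₂_append_left _ hw
    obtain ⟨o, h1, h2, h3⟩ := ih1 w1 k1
    obtain ⟨s', h4, h5, h6⟩ := ih2 w2 k2
    refine ⟨Symbol.nonterminal (some (j, r.input, val τ op o)) :: s',
      List.Forall₂.cons ⟨_, rfl⟩ h4,
      Der.nt ⟨some (j, r.input, val τ op o), o⟩ ⟨j, r, hr, h1, Or.inl rfl⟩ h2 h5, ?_⟩
    rw [val, hτ, h3, h6]

theorem master (hτ : ∀ u v, τ (u ++ v) = op (τ u) (τ v)) (w : List T') :
    Der (rules P S ρ τ op A) [Symbol.nonterminal none] w ↔
      ∃ j u, Der (P j) [Symbol.nonterminal (S j)] u ∧ List.Forall₂ (ρ j) u w ∧ τ w ∈ A := by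
  rw [der_one]
  constructor
  · rintro ⟨r', ⟨j, r, hr, h1, h2⟩, h3, h4⟩
    rcases h2 with h2 | ⟨_, h5, h6⟩
    · rw [h3] at h2; simp at h2
    obtain ⟨u, k1, k2, k3⟩ := master_sound P S ρ τ op A hτ h4 j r.output h1
    exact ⟨j, u, der_one.mpr ⟨r, hr, h5, k1⟩, k2, k3 ▸ h6⟩
  · rintro ⟨j, u, h1, h2, h3⟩
    obtain ⟨r, hr, h4, h5⟩ := der_one.mp h1
    obtain ⟨o, k1, k2, k3⟩ := master_complete P S ρ τ op A hτ j h5 w h2
    exact ⟨⟨none, o⟩, ⟨j, r, hr, k1, Or.inr ⟨rfl, h4, k3 ▸ h3⟩⟩, rfl, k2⟩

end master

end H17Der
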