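import Mathlib

namespace H17CFG

variable {T : Type}

/-- Meaning of a symbol, given a meaning of the nonterminals. -/
def symSem {N : Type} (S : N → Language T) : Symbol T N → Language T
  | Symbol.terminal a => {[a]}
  | Symbol.nonterminal A => S A

/-- Meaning of a sentential form. -/
def formSem {N : Type} (S : N → Language T) (s : List (Symbol T N)) : Language T :=
  (s.map (symSem S)).prod

lemma formSem_nil {N : Type} (S : N → Language T) : formSem S [] = 1 := rfl

lemma formSem_cons {N : Type} (S : N → Language T) (a : Symbol T N) (s : List (Symbol T N)) :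
    formSem S (a :: s) = symSem S a * formSem S s := by
  simp [formSem]

lemma formSem_append {N : Type} (S : N → Language T) (s t : List (Symbol T N)) :
    formSem S (s ++ t) = formSem S s * formSem S t := by
  simp [formSem]

lemma mem_formSem_terminal {N : Type} (S : N → Language T) (w : List T) :
    w ∈ formSem S (w.map (Symbol.terminal : T → Symbol T N)) := by
  induction w with
  | nil => simp [formSem]
  | cons a w ih =>
    rw [List.map_cons, formSem_cons, Language.mem_mul]
    exact ⟨[a], rfl, w, ih, rfl⟩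

lemma mem_formSem_t {N : Type} (S : N → Language T) (a : T) (s : List (Symbol T N)) (w : List T) :
    w ∈ formSem S (Symbol.terminal a :: s) ↔ ∃ w', w' ∈ formSem S s ∧ w = a :: w' := by
  rw [formSem_cons, Language.mem_mul]
  constructor
  · rintro ⟨x, hx, y, hy, rfl⟩
    have : x = [a] := hx
    subst this
    exact ⟨y, hy, rfl⟩
  · rintro ⟨w', h, rfl⟩
    exact ⟨[a], rfl, w', h, rfl⟩

lemma mem_formSem_n {N : Type} (S : N → Language T) (A : N) (s : List (Symbol T N)) (w : List T) :
    w ∈ formSem S (Symbol.nonterminal A :: s) ↔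
      ∃ x w', x ∈ S A ∧ w' ∈ formSem S s ∧ w = x ++ w' := by
  rw [formSem_cons, Language.mem_mul]
  constructor
  · rintro ⟨x, hx, y, hy, rfl⟩
    exact ⟨x, y, hx, hy, rfl⟩
  · rintro ⟨x, y, hx, hy, rfl⟩
    exact ⟨x, hx, y, hy, rfl⟩

lemma mem_formSem_nil {N : Type} (S : N → Language T) (w : List T) :
    w ∈ formSem S ([] : List (Symbol T N)) ↔ w = [] := by
  rw [formSem_nil, Language.mem_one]

theorem derives_sound (g : ContextFreeGrammar T) (S : g.NT → Language T)
    (hS : ∀ r ∈ g.rules, ∀ w ∈ formSem S r.output, w ∈ S r.input)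
    {s t : List (Symbol T g.NT)} (h : g.Derives s t) : ∀ w ∈ formSem S t, w ∈ formSem S s := by
  induction h with
  | refl => exact fun w hw => hw
  | tail _ hp ih =>
    intro w hw
    apply ih
    obtain ⟨r, hr, hrw⟩ := hp
    obtain ⟨p, q, rfl, rfl⟩ := hrw.exists_parts
    simp only [formSem_append, Language.mem_mul] at hw ⊢
    obtain ⟨x, ⟨a, ha, b, hb, rfl⟩, c, hc, rfl⟩ := hw
    refine ⟨a ++ b, ⟨a, ha, b, ?_, rfl⟩, c, hc, rfl⟩
    rw [mem_formSem_n]
    exact ⟨b, [], hS r hr b hb, by simp [mem_formSem_nil], by simp⟩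

theorem language_sound (g : ContextFreeGrammar T) (S : g.NT → Language T)
    (hS : ∀ r ∈ g.rules, ∀ w ∈ formSem S r.output, w ∈ S r.input) :
    ∀ w ∈ g.language, w ∈ S g.initial := by
  intro w hw
  rw [ContextFreeGrammar.mem_language_iff] at hw
  have := derives_sound g S hS hw w (mem_formSem_terminal S w)
  rw [mem_formSem_n] at this
  obtain ⟨x, y, hx, hy, rfl⟩ := this
  rw [mem_formSem_nil] at hy
  subst hy
  simpa using hx

lemma step (g : ContextFreeGrammar T) (r : ContextFreeRule T g.NT) (hr : r ∈ g.rules) :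
    g.Derives [Symbol.nonterminal r.input] r.output :=
  ContextFreeGrammar.Produces.single ⟨r, hr, ContextFreeRule.Rewrites.input_output⟩

end H17CFG
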