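import Mathlib

set_option autoImplicit false

namespace Pool.Agent.Lib.helper17.OC

open FirstOrder FirstOrder.Language

variable {L : FirstOrder.Language.{0, 0}} {α β γ : Type}

def Same (L : FirstOrder.Language.{0, 0}) {N N' : Type*} [L.Structure N] [L.Structure N']
    (v : α → N) (v' : α → N') : Prop :=
  ∀ φ : L.Formula α, φ.Realize v ↔ φ.Realize v'

section
variable {N N' N'' : Type*} [L.Structure N] [L.Structure N'] [L.Structure N'']

lemma Same.refl (v : α → N) : Same L v v := fun _ => Iff.rfl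
lemma Same.symm {v : α → N} {v' : α → N'} (h : Same L v v') : Same L v' v := fun φ => (h φ).symm
lemma Same.trans {v : α → N} {v' : α → N'} {v'' : α → N''} (h : Same L v v') (h' : Same L v' v'') :
    Same L v v'' := fun φ => (h φ).trans (h' φ)
lemma Same.comp {v : α → N} {v' : α → N'} (h : Same L v v') (g : β → α) :
    Same L (v ∘ g) (v' ∘ g) :=
  fun φ => by rw [← Formula.realize_relabel, ← Formula.realize_relabel]; exact h _
lemma Same.eq {v : α → N} {v' : α → N'} (h : Same L v v') (a b : α) : v a = v b ↔ v' a = v' b := by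
  simpa using h ((Term.var a).equal (Term.var b))
end

/-- finitely many types of finite tuples -/
def FinTp (L : FirstOrder.Language.{0, 0}) (M : Type) [L.Structure M] : Prop :=
  ∀ (α : Type) [Finite α], ∃ (P : Type) (_ : Finite P) (code : (α → M) → P),
    ∀ v v', code v = code v' → Same L v v'

variable {M : Type} [L.Structure M] {N : Type*} [L.Structure N]

lemma isol (h : FinTp L M) [Finite α] (v0 : α → M) :
    ∃ θ : L.Formula α, θ.Realize v0 ∧ ∀ v : α → M, θ.Realize v → Same L v v0 := by
  obtain ⟨P, _, code, hc⟩ := h α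
  have : ∀ p : P, ∃ φ : L.Formula α, φ.Realize v0 ∧
      ∀ v, code v = p → φ.Realize v → Same L v v0 := fun p => by
    by_cases k : ∃ v, code v = p ∧ ¬ Same L v v0
    · obtain ⟨v, e, hv⟩ := k
      obtain ⟨φ, hφ⟩ := not_forall.1 hv
      by_cases k0 : φ.Realize v0
      · exact ⟨φ, k0, fun w e' hw =>
          (hφ (iff_of_true ((hc _ _ (e'.trans e.symm) φ).1 hw) k0)).elim⟩
      · exact ⟨φ.not, Formula.realize_not.2 k0, fun w e' hw => (hφ (iff_of_false
          (fun a => Formula.realize_not.1 hw ((hc _ _ (e'.trans e.symm) φ).2 a)) k0)).elim⟩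
    · exact ⟨⊤, by simp, fun v e _ => by_contra fun hv => k ⟨v, e, hv⟩⟩
  choose φ h1 h2 using this
  exact ⟨Formula.iInf φ, Formula.realize_iInf.2 h1,
    fun v hv => h2 _ v rfl (Formula.realize_iInf.1 hv _)⟩

variable [N ⊨ L.completeTheory M]

lemma transfer [Finite α] (φ : L.Formula α) (h : ∀ v : α → M, φ.Realize v) (v : α → N) :
    φ.Realize v := by
  let σ : L.Sentence := Formula.iAlls α (φ.relabel Sum.inr)
  have h0 : M ⊨ σ := by
    simp only [σ, Sentence.Realize, Formula.realize_iAlls, Formula.realize_relabel]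
    intro i; exact h _
  have h1 : N ⊨ σ := (realize_iff_of_model_completeTheory M N σ).2 h0
  simp only [σ, Sentence.Realize, Formula.realize_iAlls, Formula.realize_relabel] at h1
  exact h1 v

lemma same_of_isol [Finite α] {θ : L.Formula α} {v0 : α → M}
    (h : ∀ v : α → M, θ.Realize v → Same L v v0) {v : α → N} (hv : θ.Realize v) : Same L v v0 := by
  have k : ∀ φ : L.Formula α, φ.Realize v0 → φ.Realize v := fun φ hφ =>
    Formula.realize_imp.1 (transfer (M := M) (θ.imp φ) (fun w => Formula.realize_imp.2 fun hw =>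
      (h w hw φ).2 hφ) v) hv
  refine fun φ => ⟨fun hφ => ?_, k φ⟩
  by_contra e
  exact Formula.realize_not.1 (k φ.not (Formula.realize_not.2 e)) hφ

lemma a1 (h : FinTp L M) [Finite α] (v : α → N) : ∃ v0 : α → M, Same L v v0 := by
  obtain ⟨P, _, code, hc⟩ := h α
  choose θ h1 h2 using fun v0 : α → M => isol h v0
  choose r hr using fun p : Set.range code => p.2
  obtain ⟨p, hp⟩ := Formula.realize_iSup.1 (transfer (M := M) (Formula.iSup fun p => θ (r p))
    (fun w => Formula.realize_iSup.2 ⟨⟨_, w, rfl⟩, (hc _ _ (hr ⟨_, w, rfl⟩) _).1 (h1 _)⟩) v)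
  exact ⟨_, same_of_isol (h2 _) hp⟩

lemma a2 (h : FinTp L M) [Finite α] [Finite β] {v : α → N} {v0 : α → M} (hv : Same L v v0)
    (w0 : β → M) : ∃ w : β → N, Same L (Sum.elim w v) (Sum.elim w0 v0) := by
  obtain ⟨θ, h1, h2⟩ := isol h (Sum.elim w0 v0)
  have := (hv (Formula.iExs β (θ.relabel Sum.swap))).2 (by
      simp only [Formula.realize_iExs, Formula.realize_relabel]
      exact ⟨w0, by convert h1 using 1; funext x; rcases x with x | x <;> rfl⟩)
  simp only [Formula.realize_iExs, Formula.realize_relabel] at this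
  obtain ⟨w, hw⟩ := this
  exact ⟨w, same_of_isol h2 (by convert hw using 1; funext x; rcases x with x | x <;> rfl)⟩

lemma a0 (h : FinTp L M) [Finite β] (w0 : β → M) : ∃ w : β → N, Same L w w0 := by
  obtain ⟨u, hu⟩ := a1 (N := N) h (Empty.elim : Empty → N)
  obtain ⟨w, hw⟩ := a2 h hu w0
  exact ⟨w, hw.comp Sum.inl⟩

end Pool.Agent.Lib.helper17.OC
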