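import Mathlib
import Pool.Agent.Lib.helper17.OC

set_option autoImplicit false

namespace Pool.Agent.Lib.helper17.CO

open FirstOrder FirstOrder.Language Pool.Agent.Lib.helper17.OC

inductive Rel : ℕ → Type
  | C : Rel 3

def L : FirstOrder.Language.{0, 0} := ⟨fun _ => Empty, Rel⟩

abbrev M : Type := {x : ℝ // Irrational x}

def cyc (a b c : M) : Prop := (a < b ∧ b < c) ∨ (b < c ∧ c < a) ∨ (c < a ∧ a < b)

instance : L.Structure M where
  funMap f := f.elim
  RelMap r x := match r, x with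
    | .C, x => cyc (x 0) (x 1) (x 2)

instance : Nonempty M := ⟨⟨_, irrational_sqrt_two⟩⟩
instance : DenselyOrdered M := ⟨fun a b h => by
  obtain ⟨r, h1, h2, h3⟩ := exists_irrational_btwn (show a.1 < b.1 from h)
  exact ⟨⟨r, h1⟩, h2, h3⟩⟩
instance : NoMinOrder M := ⟨fun a => by
  obtain ⟨r, h1, -, h3⟩ := exists_irrational_btwn (show a.1 - 1 < a.1 by linarith)
  exact ⟨⟨r, h1⟩, h3⟩⟩
instance : NoMaxOrder M := ⟨fun a => by
  obtain ⟨r, h1, h2, -⟩ := exists_irrational_btwn (show a.1 < a.1 + 1 by linarith)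
  exact ⟨⟨r, h1⟩, h2⟩⟩

def PI (f g : M × M → M) (I : Set (M × M)) : Prop := ∀ p ∈ I, ∀ q ∈ I, f p < f q ↔ g p < g q

lemma PI.symm {f g : M × M → M} {I : Set (M × M)} (h : PI f g I) : PI g f I :=
  fun p hp q hq => (h p hp q hq).symm

lemma PI.forth {f g : M × M → M} (hs : ∀ a b, ∃ p, f p = a ∧ g p = b)
    {I : Set (M × M)} (hI : I.Finite) (h : PI f g I) (w : M) :
    ∃ p, f p = w ∧ PI f g (insert p I) := by
  classical
  by_cases hw : ∃ p ∈ I, f p = w
  · obtain ⟨p, hp, e⟩ := hw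
    exact ⟨p, e, by rwa [Set.insert_eq_of_mem hp]⟩
  obtain ⟨w', h1, h2⟩ := Order.exists_between_finsets
    ((hI.toFinset.filter fun p => f p < w).image g) ((hI.toFinset.filter fun p => w < f p).image g)
    (by
      simp only [Finset.mem_image, Finset.mem_filter, Set.Finite.mem_toFinset]
      rintro _ ⟨p, ⟨hp, h1⟩, rfl⟩ _ ⟨q, ⟨hq, h2⟩, rfl⟩
      exact (h p hp q hq).1 (h1.trans h2))
  simp only [Finset.mem_image, Finset.mem_filter, Set.Finite.mem_toFinset] at h1 h2
  obtain ⟨p, rfl, rfl⟩ := hs w w'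
  have k : ∀ q ∈ I, (f q < f p ∧ g q < g p) ∨ (f p < f q ∧ g p < g q) := fun q hq => by
    rcases lt_trichotomy (f q) (f p) with e | e | e
    · exact Or.inl ⟨e, h1 _ ⟨q, ⟨hq, e⟩, rfl⟩⟩
    · exact (hw ⟨q, hq, e⟩).elim
    · exact Or.inr ⟨e, h2 _ ⟨q, ⟨hq, e⟩, rfl⟩⟩
  refine ⟨p, rfl, ?_⟩
  rintro a (rfl | ha) b (rfl | hb)
  · simp
  · rcases k b hb with ⟨x, y⟩ | ⟨x, y⟩
    · exact iff_of_false x.not_gt y.not_gt
    · exact iff_of_true x y
  · rcases k a ha with ⟨x, y⟩ | ⟨x, y⟩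
    · exact iff_of_true x y
    · exact iff_of_false x.not_gt y.not_gt
  · exact h a ha b hb

variable {α β γ : Type}

lemma term_var {α : Type*} (t : L.Term α) : ∃ a, t = Term.var a := by
  cases t with
  | var a => exact ⟨a, rfl⟩
  | func f _ => exact f.elim

theorem qe {n : ℕ} (φ : L.BoundedFormula β n) :
    ∀ I : Set (M × M), I.Finite → PI Prod.fst Prod.snd I →
      ∀ (v v' : β → M) (xs xs' : Fin n → M), (∀ b, (v b, v' b) ∈ I) →
        (∀ i, (xs i, xs' i) ∈ I) → (φ.Realize v xs ↔ φ.Realize v' xs') := by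
  induction φ with
  | falsum => exact fun _ _ _ _ _ _ _ _ _ => Iff.rfl
  | @equal n t1 t2 =>
    obtain ⟨a, rfl⟩ := term_var t1
    obtain ⟨b, rfl⟩ := term_var t2
    intro I _ hI v v' xs xs' h1 h2
    have k : ∀ c, (Sum.elim v xs c, Sum.elim v' xs' c) ∈ I := by
      rintro (c | c)
      · exact h1 c
      · exact h2 c
    have e1 := hI _ (k a) _ (k b)
    have e2 := hI _ (k b) _ (k a)
    change Sum.elim v xs a = Sum.elim v xs b ↔ Sum.elim v' xs' a = Sum.elim v' xs' b
    simp only [le_antisymm_iff, ← not_lt] at *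
    rw [e1, e2]
  | @rel n l r ts =>
    choose x hx using fun i => term_var (ts i)
    intro I _ hI v v' xs xs' h1 h2
    have k : ∀ c, (Sum.elim v xs c, Sum.elim v' xs' c) ∈ I := by
      rintro (c | c)
      · exact h1 c
      · exact h2 c
    have e := fun i j => hI _ (k (x i)) _ (k (x j))
    simp only [BoundedFormula.Realize, hx, Term.realize_var]
    cases r
    change cyc _ _ _ ↔ cyc _ _ _
    simp only [cyc] at e ⊢
    rw [e, e, e]
  | imp φ ψ ih1 ih2 =>
    intro I hf hI v v' xs xs' k1 k2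
    simp only [BoundedFormula.Realize]
    rw [ih1 I hf hI v v' xs xs' k1 k2, ih2 I hf hI v v' xs xs' k1 k2]
  | @all n φ ih =>
    intro I hf hI v v' xs xs' k1 k2
    simp only [BoundedFormula.Realize]
    have k : ∀ p : M × M, PI Prod.fst Prod.snd (insert p I) →
        (φ.Realize v (Fin.snoc xs p.1) ↔ φ.Realize v' (Fin.snoc xs' p.2)) := fun p hp =>
      ih _ (hf.insert p) hp _ _ _ _ (fun b => Or.inr (k1 b)) (fun i => by
        refine Fin.lastCases ?_ (fun j => ?_) i
        · simp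
        · simp [k2 j])
    constructor
    · intro H w
      obtain ⟨p, rfl, hp⟩ := hI.symm.forth (fun a b => ⟨(b, a), rfl, rfl⟩) hf w
      exact (k p hp.symm).1 (H _)
    · intro H w
      obtain ⟨p, rfl, hp⟩ := hI.forth (fun a b => ⟨(a, b), rfl, rfl⟩) hf w
      exact (k p hp).2 (H _)

lemma same_of [Finite α] {v v' : α → M} (h : ∀ a b, v a < v b ↔ v' a < v' b) : Same L v v' := by
  intro φ
  refine qe φ (Set.range fun a => (v a, v' a)) (Set.finite_range _) ?_ v v' _ _
    (fun b => ⟨b, rfl⟩) (fun i => i.elim0)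
  rintro _ ⟨a, rfl⟩ _ ⟨b, rfl⟩; exact h a b

lemma finTp : FinTp L M := fun α _ =>
  ⟨α → α → Prop, inferInstance, fun v a b => v a < v b,
    fun _ _ e => same_of fun a b => iff_of_eq (congrFun (congrFun e a) b)⟩

noncomputable def sg (x : M) : M := ⟨-x.1⁻¹, x.2.inv.neg⟩

lemma sg_lt (x y : M) : sg x < sg y ↔ (x < y ∧ (0 < x.1 ∨ y.1 < 0)) ∨ (0 < x.1 ∧ y.1 < 0) := by
  have hx := x.2.ne_zero
  have hy := y.2.ne_zero
  change -x.1⁻¹ < -y.1⁻¹ ↔ (x.1 < y.1 ∧ _) ∨ _
  rw [neg_lt_neg_iff]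
  rcases hx.lt_or_gt with a | a <;> rcases hy.lt_or_gt with b | b
  · rw [inv_lt_inv_of_neg b a]; simp [b, a.not_gt]
  · simp [a.not_gt, b.not_gt]; exact ((inv_lt_zero.2 a).trans (inv_pos.2 b)).le
  · simp [a, b]; exact (inv_lt_zero.2 b).trans (inv_pos.2 a)
  · rw [inv_lt_inv₀ b a]; simp [a, b.not_gt]

lemma sg_cyc (a b c : M) : cyc (sg a) (sg b) (sg c) ↔ cyc a b c := by
  have ha := a.2.ne_zero.lt_or_gt
  have hb := b.2.ne_zero.lt_or_gt
  have hc := c.2.ne_zero.lt_or_gt
  simp only [cyc, sg_lt]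
  simp only [← Subtype.coe_lt_coe]
  generalize a.1 = x at *
  generalize b.1 = y at *
  generalize c.1 = z at *
  grind

noncomputable def sigma : M ≃[L] M where
  toFun := sg
  invFun := sg
  left_inv x := Subtype.ext (by simp [sg, inv_neg])
  right_inv x := Subtype.ext (by simp [sg, inv_neg])
  map_fun' f := f.elim
  map_rel' r x := by cases r; exact sg_cyc _ _ _

lemma same_inc {a b c d a' b' c' d' : M} (h1 : a < b) (h2 : b < c) (h3 : c < d)
    (k1 : a' < b') (k2 : b' < c') (k3 : c' < d') : Same L ![a, b, c, d] ![a', b', c', d'] := by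
  have s : ∀ {a b c d : M}, a < b → b < c → c < d → StrictMono ![a, b, c, d] := fun h1 h2 h3 => by
    refine Fin.strictMono_iff_lt_succ.2 fun i => ?_
    fin_cases i <;> assumption
  exact same_of fun i j => (s h1 h2 h3).lt_iff_lt.trans (s k1 k2 k3).lt_iff_lt.symm

lemma rot {a b c d : M} (h1 : a < b) (h2 : b < c) (h3 : c < d) :
    Same L ![a, b, c, d] ![b, c, d, a] := by
  obtain ⟨p, hp, -, p0⟩ := exists_irrational_btwn (show (-1 : ℝ) < 0 by norm_num)
  obtain ⟨q, hq, q0, q1⟩ := exists_irrational_btwn (show (0 : ℝ) < 1 by norm_num)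
  obtain ⟨r, hr, r0, r1⟩ := exists_irrational_btwn (show (1 : ℝ) < 2 by norm_num)
  obtain ⟨s, hs, s0, -⟩ := exists_irrational_btwn (show (2 : ℝ) < 3 by norm_num)
  let P : M := ⟨p, hp⟩
  let Q : M := ⟨q, hq⟩
  let R : M := ⟨r, hr⟩
  let S : M := ⟨s, hs⟩
  have e1 : Same L ![a, b, c, d] ![P, Q, R, S] :=
    same_inc h1 h2 h3 (p0.trans q0) (q1.trans r0) (r1.trans s0)
  have e2 : Same L ![a, b, c, d] ![sg Q, sg R, sg S, sg P] :=
    same_inc h1 h2 h3 ((sg_lt _ _).2 (Or.inl ⟨q1.trans r0, Or.inl q0⟩))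
      ((sg_lt _ _).2 (Or.inl ⟨r1.trans s0, Or.inl (by change 0 < r; linarith)⟩))
      ((sg_lt _ _).2 (Or.inr ⟨by change 0 < s; linarith, p0⟩))
  have e3 : Same L ![sg Q, sg R, sg S, sg P] ![Q, R, S, P] := fun φ => by
    rw [← StrongHomClass.realize_formula sigma φ (v := ![Q, R, S, P])]
    apply iff_of_eq; congr 1; funext i; fin_cases i <;> rfl
  refine e2.trans (e3.trans ?_)
  convert (e1.comp ![1, 2, 3, 0]).symm using 1 <;> funext i <;> fin_cases i <;> rfl

lemma pos_eq [Fintype γ] (t : γ → M) {x x' : M}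
    (h1 : {c | t c < x}.ncard = {c | t c < x'}.ncard) (h2 : (∃ c, t c = x) ↔ ∃ c, t c = x') (c : γ) :
    (t c < x ↔ t c < x') ∧ (x < t c ↔ x' < t c) := by
  have e : {c | t c < x} = {c | t c < x'} := by
    rcases le_total x x' with h | h
    · exact Set.eq_of_subset_of_ncard_le (fun c hc => lt_of_lt_of_le hc h) h1.ge
    · exact (Set.eq_of_subset_of_ncard_le (fun c hc => lt_of_lt_of_le hc h) h1.le).symm
  have e' : ∀ c, t c < x ↔ t c < x' := fun c => Set.ext_iff.1 e c
  refine ⟨e' c, ?_⟩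
  by_cases k : ∃ c, t c = x
  · obtain ⟨c2, k2⟩ := h2.1 k
    obtain ⟨c1, k1⟩ := k
    have a := e' c1
    have b := e' c2
    rw [k1] at a; rw [k2] at b
    have : x = x' := le_antisymm (not_lt.1 fun h => lt_irrefl _ (b.1 h))
      (not_lt.1 fun h => lt_irrefl _ (a.2 h))
    rw [this]
  · have k' := mt h2.2 k
    push Not at k k'
    have := e' c
    have := k c
    have := k' c
    grind

lemma count0 {ι δ : Type} [Fintype ι] [Fintype δ] [Fintype γ] (a : ι → δ → M) (t : γ → M)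
    (h : ∀ i j, Same L (Sum.elim (a i) t) (Sum.elim (a j) t) → i = j) :
    Fintype.card ι ≤ ((Fintype.card γ + 1) * 2) ^ Fintype.card δ *
      (2 ^ Fintype.card δ) ^ Fintype.card δ := by
  classical
  let code : ι → (δ → Fin (Fintype.card γ + 1) × Prop) × (δ → δ → Prop) := fun i =>
    (fun d => (⟨{c | t c < a i d}.ncard, Nat.lt_succ_of_le (by
      simpa using Set.ncard_le_ncard (Set.subset_univ {c | t c < a i d}))⟩, ∃ c, t c = a i d),
      fun d e => a i d < a i e)
  have : Function.Injective code := fun i j e => h i j (same_of fun x y => by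
    have e1 := fun d => congrFun (congrArg Prod.fst e) d
    have k := fun d => pos_eq t (congrArg (fun p => p.1.1) (e1 d)) (iff_of_eq (congrArg Prod.snd (e1 d)))
    rcases x with x | x <;> rcases y with y | y
    · exact iff_of_eq (congrFun (congrFun (congrArg Prod.snd e) x) y)
    · exact (k x y).2
    · exact (k y x).1
    · rfl)
  simpa using Fintype.card_le_of_injective code this

lemma count {N : Type*} [L.Structure N] [N ⊨ L.completeTheory M] {ι δ : Type} [Fintype ι]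
    [Fintype δ] [Fintype γ] (a : ι → δ → N) (t : γ → N)
    (h : ∀ i j, Same L (Sum.elim (a i) t) (Sum.elim (a j) t) → i = j) :
    Fintype.card ι ≤ ((Fintype.card γ + 1) * 2) ^ Fintype.card δ *
      (2 ^ Fintype.card δ) ^ Fintype.card δ := by
  obtain ⟨v, hv⟩ := a1 finTp (Sum.elim (fun p : ι × δ => a p.1 p.2) t)
  have k : ∀ i, Same L (Sum.elim (a i) t) (Sum.elim (fun d => v (.inl (i, d))) (v ∘ Sum.inr)) :=
    fun i => by
      convert hv.comp (Sum.map (fun d => (i, d)) id) using 1 <;> funext x <;>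
        rcases x with x | x <;> rfl
  exact count0 (fun i d => v (.inl (i, d))) (v ∘ Sum.inr) fun i j e =>
    h i j ((k i).trans (e.trans (k j).symm))

end Pool.Agent.Lib.helper17.CO
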