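import Mathlib

set_option autoImplicit false

namespace Pool.Agent.Lib.helper17.VCDefs

open FirstOrder FirstOrder.Language

/-- the set `ψ(N; c)` defined by an instance of a parameter-free formula `ψ(x; z)` -/
def inst {L : FirstOrder.Language.{0, 0}} {N : Type*} [L.Structure N] {k : ℕ}
    (ψ : L.Formula (Unit ⊕ Fin k)) (c : Fin k → N) : Set N :=
  {x | ψ.Realize (Sum.elim (fun _ => x) c)}

/-- `ψ(x; z)` has independence dimension at most one: no two instances are independent -/
def IndDimLeOne {L : FirstOrder.Language.{0, 0}} (N : Type*) [L.Structure N] {k : ℕ}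
    (ψ : L.Formula (Unit ⊕ Fin k)) : Prop :=
  ¬ ∃ c c' : Fin k → N, (inst ψ c ∩ inst ψ c').Nonempty ∧ (inst ψ c ∩ (inst ψ c')ᶜ).Nonempty ∧
    ((inst ψ c)ᶜ ∩ inst ψ c').Nonempty ∧ ((inst ψ c)ᶜ ∩ (inst ψ c')ᶜ).Nonempty

/-- every instance `φ(x; b)` is a finite Boolean combination of instances of formulas of
independence dimension at most one -/
def WeaklyVCMinimal (L : FirstOrder.Language.{0, 0}) (N : Type*) [L.Structure N] : Prop :=
  ∀ (n : ℕ) (φ : L.Formula (Unit ⊕ Fin n)) (b : Fin n → N), inst φ b ∈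
    BooleanSubalgebra.closure {D : Set N | ∃ (k : ℕ) (ψ : L.Formula (Unit ⊕ Fin k))
      (c : Fin k → N), IndDimLeOne N ψ ∧ D = inst ψ c}

end Pool.Agent.Lib.helper17.VCDefs
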