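import Mathlib
import Pool.Agent.Lib.helper17.CO
import Pool.Agent.Lib.helper17.VCDefs

set_option autoImplicit false

namespace Pool.Agent.Lib.helper17.CO

open FirstOrder FirstOrder.Language Pool.Agent.Lib.helper17.OC Pool.Agent.Lib.helper17.VCDefs

lemma sort3 {D : Set M} (p : Fin 3 → M) (hp : Function.Injective p) (h : ∀ i, p i ∈ D) :
    ∃ a b c, a ∈ D ∧ b ∈ D ∧ c ∈ D ∧ a < b ∧ b < c := by
  have h0 := h 0
  have h1 := h 1
  have h2 := h 2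
  have e1 : p 0 ≠ p 1 := fun e => by simpa using hp e
  have e2 : p 0 ≠ p 2 := fun e => by simpa using hp e
  have e3 : p 1 ≠ p 2 := fun e => by simpa using hp e
  rcases e1.lt_or_gt with a | a <;> rcases e2.lt_or_gt with b | b <;>
    rcases e3.lt_or_gt with c | c <;>
    first
    | exact ⟨_, _, _, h0, h1, h2, a, c⟩
    | exact ⟨_, _, _, h0, h2, h1, b, c⟩
    | exact ⟨_, _, _, h1, h0, h2, a, b⟩
    | exact ⟨_, _, _, h1, h2, h0, c, b⟩
    | exact ⟨_, _, _, h2, h0, h1, b, a⟩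
    | exact ⟨_, _, _, h2, h1, h0, c, a⟩

lemma indep0 {k : ℕ} (ψ : L.Formula (Unit ⊕ Fin k)) (c : Fin k → M) {a b x y : M} (h1 : a < b)
    (h2 : b < x) (h3 : x < y) :
    ∃ c' : Fin k → M, (a ∈ inst ψ c' ↔ b ∈ inst ψ c) ∧ (b ∈ inst ψ c' ↔ x ∈ inst ψ c) ∧
      (x ∈ inst ψ c' ↔ y ∈ inst ψ c) ∧ (y ∈ inst ψ c' ↔ a ∈ inst ψ c) := by
  obtain ⟨c', hc⟩ := a2 finTp (rot h1 h2 h3) c
  have k : ∀ i : Fin 4, ![a, b, x, y] i ∈ inst ψ c' ↔ ![b, x, y, a] i ∈ inst ψ c := fun i => by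
    have := hc.comp (Sum.elim (fun _ : Unit => Sum.inr i) Sum.inl) ψ
    refine (iff_of_eq ?_).trans (this.trans (iff_of_eq ?_)) <;> refine congrArg ψ.Realize ?_ <;>
      funext z <;> rcases z with z | z <;> rfl
  exact ⟨c', k 0, k 1, k 2, k 3⟩

lemma indep1 {k : ℕ} (ψ : L.Formula (Unit ⊕ Fin k)) (c : Fin k → M) (p q : Fin 3 → M)
    (hp : Function.Injective p) (hq : Function.Injective q) (h1 : ∀ i, p i ∈ inst ψ c)
    (h2 : ∀ i, q i ∈ (inst ψ c)ᶜ) : ∃ (c' : Fin k → M) (u : Fin 4 → M),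
      u 0 ∈ inst ψ c ∩ inst ψ c' ∧ u 1 ∈ inst ψ c ∩ (inst ψ c')ᶜ ∧
      u 2 ∈ (inst ψ c)ᶜ ∩ inst ψ c' ∧ u 3 ∈ (inst ψ c)ᶜ ∩ (inst ψ c')ᶜ := by
  obtain ⟨a, b, d, ha, hb, hd, ab, bd⟩ := sort3 p hp h1
  obtain ⟨x, y, z, hx, hy, hz, xy, yz⟩ := sort3 q hq h2
  rcases lt_trichotomy b y with h | h | h
  · obtain ⟨c', k1, k2, k3, k4⟩ := indep0 ψ c ab h yz
    exact ⟨c', ![a, b, z, y], ⟨ha, k1.2 hb⟩, ⟨hb, fun e => hy (k2.1 e)⟩, ⟨hz, k4.2 ha⟩,
      ⟨hy, fun e => hz (k3.1 e)⟩⟩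
  · exact (hy (h ▸ hb)).elim
  · obtain ⟨c', k1, k2, k3, k4⟩ := indep0 ψ c xy h bd
    exact ⟨c', ![b, d, y, x], ⟨hb, k3.2 hd⟩, ⟨hd, fun e => hx (k4.1 e)⟩, ⟨hy, k2.2 hb⟩,
      ⟨hx, fun e => hy (k1.1 e)⟩⟩

variable {N : Type*} [L.Structure N] [N ⊨ L.completeTheory M]

omit [N ⊨ L.completeTheory M] in
lemma inst_tr {δ : Type} {k : ℕ} (ψ : L.Formula (Unit ⊕ Fin k)) {v : δ → N} {v0 : δ → M}
    (h : Same L v v0) (i : δ) (g : Fin k → δ) : v i ∈ inst ψ (v ∘ g) ↔ v0 i ∈ inst ψ (v0 ∘ g) := by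
  have := h.comp (Sum.elim (fun _ : Unit => i) g) ψ
  refine (iff_of_eq ?_).trans (this.trans (iff_of_eq ?_)) <;> refine congrArg ψ.Realize ?_ <;>
      funext z <;> rcases z with z | z <;> rfl

lemma fin_or {k : ℕ} (ψ : L.Formula (Unit ⊕ Fin k)) (h : IndDimLeOne N ψ) (c : Fin k → N) :
    (inst ψ c).Finite ∨ (inst ψ c)ᶜ.Finite := by
  by_contra hc
  push Not at hc
  let p : Fin 3 → N := fun i => hc.1.natEmbedding _ i
  let q : Fin 3 → N := fun i => hc.2.natEmbedding _ i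
  obtain ⟨v, hv⟩ := a1 finTp (Sum.elim (Sum.elim p q) c)
  obtain ⟨c', u, k0, k1, k2, k3⟩ := indep1 ψ (v ∘ Sum.inr) (fun i => v (.inl (.inl i)))
    (fun i => v (.inl (.inr i)))
    (fun i j e => Fin.ext ((hc.1.natEmbedding _).injective (Subtype.ext
      ((hv.eq (.inl (.inl i)) (.inl (.inl j))).2 e))))
    (fun i j e => Fin.ext ((hc.2.natEmbedding _).injective (Subtype.ext
      ((hv.eq (.inl (.inr i)) (.inl (.inr j))).2 e))))
    (fun i => (inst_tr ψ hv (.inl (.inl i)) Sum.inr).1 (hc.1.natEmbedding _ i).2)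
    (fun i e => (hc.2.natEmbedding _ i).2 ((inst_tr ψ hv (.inl (.inr i)) Sum.inr).2 e))
  obtain ⟨w, hw⟩ := a0 (N := N) finTp (Sum.elim u (Sum.elim (v ∘ Sum.inr) c'))
  have t1 := fun i => inst_tr ψ hw (.inl i) (Sum.inr ∘ Sum.inl)
  have t2 := fun i => inst_tr ψ hw (.inl i) (Sum.inr ∘ Sum.inr)
  exact h ⟨_, _, ⟨_, (t1 0).2 k0.1, (t2 0).2 k0.2⟩, ⟨_, (t1 1).2 k1.1, fun e => k1.2 ((t2 1).1 e)⟩,
    ⟨_, fun e => k2.1 ((t1 2).1 e), (t2 2).2 k2.2⟩,
    ⟨_, fun e => k3.1 ((t1 3).1 e), fun e => k3.2 ((t2 3).1 e)⟩⟩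

def arc : L.Formula (Unit ⊕ Fin 2) :=
  Relations.formula (L := L) Rel.C ![Term.var (.inr 0), Term.var (.inl ()), Term.var (.inr 1)]

lemma r_arc (x : M) (c : Fin 2 → M) : x ∈ inst arc c ↔ cyc (c 0) x (c 1) :=
  Formula.realize_rel

lemma inf_tr {k : ℕ} (ψ : L.Formula (Unit ⊕ Fin k)) {c : Fin k → N} {c0 : Fin k → M}
    (h : Same L c c0) (hi : (inst ψ c0).Infinite) : (inst ψ c).Infinite := by
  intro hf
  let e := hi.natEmbedding
  obtain ⟨w, hw⟩ := a2 finTp h (fun i : Fin (hf.toFinset.card + 1) => (e i).1)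
  have h1 : ∀ i, w i ∈ hf.toFinset := fun i => by
    rw [Set.Finite.mem_toFinset]
    exact (inst_tr ψ hw (.inl i) Sum.inr).2 (e i).2
  have h2 : Function.Injective w := fun i j hij => by
    have := (hw.eq (.inl i) (.inl j)).1 hij
    exact Fin.ext (e.injective (Subtype.ext this))
  have := Finset.card_le_card_of_injOn (s := Finset.univ) w (fun i _ => h1 i) h2.injOn
  simp at this

theorem not_weak : ¬ WeaklyVCMinimal L N := by
  intro h
  obtain ⟨a⟩ : Nonempty M := inferInstance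
  obtain ⟨b, ab⟩ := exists_gt a
  obtain ⟨c, hc⟩ := a0 (N := N) finTp ![a, b]
  have key : (inst arc c).Finite ∨ (inst arc c)ᶜ.Finite := by
    have := h 2 arc c
    generalize inst arc c = D at this
    induction this using BooleanSubalgebra.closure_bot_sup_induction with
    | mem x hx => obtain ⟨k, ψ, c, h1, rfl⟩ := hx; exact fin_or ψ h1 c
    | bot => exact Or.inl Set.finite_empty
    | sup x _ y _ hx hy =>
      rcases hx with hx | hx
      · rcases hy with hy | hy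
        · exact Or.inl (hx.union hy)
        · exact Or.inr (hy.subset fun z hz e => hz (Or.inr e))
      · exact Or.inr (hx.subset fun z hz e => hz (Or.inl e))
    | compl x _ hx => rw [compl_compl]; exact hx.symm
  rcases key with k | k
  · exact inf_tr arc hc ((Set.Ioo_infinite ab).mono fun x hx => (r_arc _ _).2 (Or.inl hx)) k
  · refine inf_tr arc.not hc ((Set.Ioi_infinite b).mono fun x hx => ?_) k
    have hx' : b < x := hx
    refine Formula.realize_not.2 fun e => ?_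
    rcases (r_arc x _).1 e with ⟨-, e⟩ | ⟨e, -⟩ | ⟨e, -⟩
    · exact e.not_gt hx'
    · exact e.not_gt hx'
    · exact e.not_gt ab

end Pool.Agent.Lib.helper17.CO
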