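import Mathlib

set_option autoImplicit false

namespace H17Grid

open Finset BigOperators

def sg (b : Bool) : ℝ := if b then 1 else -1

def L {r : ℕ} (m : Fin r → ℝ) (ξ : Fin r → Bool) : ℝ := ∑ c, sg (ξ c) * m c

theorem tang {z τ : ℝ} (hz : 0 ≤ z) (hτ : 0 ≤ τ) (m : ℕ) :
    τ ^ m * ((m + 1) * z - m * τ) ≤ z ^ (m + 1) := by
  have := pow_add_mul_le_add_pow (b := z - τ) hτ (by linarith) (m + 1)
  rw [add_sub_cancel, Nat.add_sub_cancel, pow_succ] at this
  push_cast at this
  linarith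

theorem jens {ι : Type} [Fintype ι] (g Z : ι → ℝ) (hg : ∀ i, 0 ≤ g i) (hZ : ∀ i, 0 ≤ Z i)
    (h1 : 𝔼 i, g i = 1) (k : ℕ) : (𝔼 i, g i * Z i) ^ k ≤ 𝔼 i, g i * Z i ^ k := by
  rcases k with _ | m
  · simp [h1]
  have h0 : 0 ≤ 𝔼 i, g i * Z i := expect_nonneg fun i _ => mul_nonneg (hg i) (hZ i)
  set M := 𝔼 i, g i * Z i with hM
  refine le_trans (le_of_eq ?_) (expect_le_expect fun i _ =>
    mul_le_mul_of_nonneg_left (tang (hZ i) h0 m) (hg i))
  have : ∀ i, g i * (M ^ m * ((m + 1) * Z i - m * M)) =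
      M ^ m * (m + 1) * (g i * Z i) - M ^ m * m * M * g i := fun i => by ring
  simp only [this, expect_sub_distrib, ← mul_expect, ← hM, h1]
  ring

theorem epow {X : Type} [Fintype X] (f : X → ℝ) (b : ℕ) :
    𝔼 y : Fin b → X, ∏ i, f (y i) = (𝔼 x, f x) ^ b := by
  rw [expect_pow, Fintype.piFinset_univ]

theorem even_part (θ : ℝ) (b : ℕ) : 2 + b * (b - 1) * θ ^ 2 ≤ (1 + θ) ^ b + (1 - θ) ^ b ∧
    2 * b * θ ^ 2 ≤ θ * ((1 + θ) ^ b - (1 - θ) ^ b) := by
  induction b with
  | zero => norm_num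
  | succ b ih =>
    have h : (0 : ℝ) ≤ b * (b - 1) := by
      rcases b with _ | b
      · simp
      · push_cast; rw [add_sub_cancel_right]; positivity
    have := mul_le_mul_of_nonneg_left ih.1 (sq_nonneg θ)
    have := mul_nonneg h (sq_nonneg (θ ^ 2))
    push_cast
    constructor <;> simp only [pow_succ (_ + _), pow_succ (_ - _)] <;> nlinarith [ih.1, ih.2]

theorem two_e {ι : Type} [Fintype ι] (e : ι → ι) (he : Function.Involutive e) (f : ι → ℝ) :
    𝔼 i, f i = 𝔼 i, (f i + f (e i)) / 2 := by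
  rw [← expect_div, expect_add_distrib, ← Fintype.expect_equiv he.toPerm (fun i => f (e i)) f
    fun _ => rfl]
  ring

theorem L_pow {r : ℕ} (m : Fin r → ℝ) (c : Fin r) (b : ℕ) :
    1 + (b + 1) * b / 2 * m c ^ 2 ≤ 𝔼 ξ, (1 + L m ξ) ^ (b + 1) := by
  have h1 : m c ^ 2 ≤ 𝔼 ξ, L m ξ ^ 2 := by
    rw [two_e (fun ξ => Function.update ξ c (!ξ c)) (fun ξ => by simp)]
    refine le_expect univ_nonempty fun ξ _ => ?_
    simp only [L]
    rw [← add_sum_erase _ _ (mem_univ c), ← add_sum_erase _ _ (mem_univ c),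
      sum_congr rfl (g := fun x => sg (ξ x) * m x) (s₁ := univ.erase c)
        (f := fun x => sg (Function.update ξ c (!ξ c) x) * m x)
        fun x hx => by rw [Function.update_of_ne (ne_of_mem_erase hx)], Function.update_self]
    generalize ∑ x ∈ univ.erase c, sg (ξ x) * m x = A
    cases ξ c <;> simp [sg] <;> nlinarith [sq_nonneg A]
  rw [two_e (fun ξ c => !ξ c) (fun ξ => by simp)]
  refine le_trans ?_ (expect_le_expect (f := fun ξ => 1 + (b + 1) * b / 2 * L m ξ ^ 2) fun ξ _ => ?_)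
  · rw [expect_add_distrib, ← mul_expect, Fintype.expect_const]
    gcongr
  · have : L m (fun c => !ξ c) = - L m ξ := by
      rw [L, L, ← sum_neg_distrib]
      exact sum_congr rfl fun c _ => by cases ξ c <;> simp [sg]
    have h := (even_part (L m ξ) (b + 1)).1
    rw [this, ← sub_eq_add_neg]
    push_cast at h
    linarith

theorem L_exp {r : ℕ} (m : Fin r → ℝ) : 𝔼 ξ, Real.exp (L m ξ) ≤ Real.exp (∑ c, m c ^ 2 / 2) := by
  simp only [L, Real.exp_sum]
  rw [Fintype.expect_eq_sum_div_card, ← Fintype.piFinset_univ,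
    ← prod_univ_sum (fun _ => univ) fun c β => Real.exp (sg β * m c), div_le_iff₀ (by positivity)]
  simp only [Fintype.card_fun, Fintype.card_bool, Nat.cast_pow, Nat.cast_ofNat]
  rw [← card_univ, ← prod_const, ← prod_mul_distrib]
  refine prod_le_prod (fun c _ => by positivity) fun c _ => ?_
  have := Real.cosh_le_exp_half_sq (m c)
  rw [Real.cosh_eq] at this
  simp [sg]
  linarith

theorem L_lin {X : Type} [Fintype X] {r : ℕ} (f : X → ℝ) (q : X → Fin r → ℝ) (ξ : Fin r → Bool) :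
    𝔼 y, f y * L (q y) ξ = L (fun c => 𝔼 y, f y * q y c) ξ := by
  simp only [L, mul_sum, expect_sum_comm, mul_expect, mul_left_comm]

theorem L_abs {r : ℕ} (m : Fin r → ℝ) (ξ : Fin r → Bool) : |L m ξ| ≤ ∑ c, |m c| :=
  (abs_sum_le_sum_abs _ _).trans (sum_le_sum fun c _ => by cases ξ c <;> simp [sg])

theorem key {X : Type} [Fintype X] [Nonempty X] {r : ℕ} (hr : 0 < r) (κ : X → Fin r)
    (W : X → X → ℝ) (hW : ∀ x y, 0 ≤ W x y) (hκ : ∀ x y, κ x = κ y → W x y = 0) (m k : ℕ)
    (ε δ : ℝ) (e0 : 0 ≤ ε) (e1 : ε ≤ 1 / 3) (d0 : 0 ≤ δ) (d1 : δ ≤ 1 / 3)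
    (d2 : (1 + 3 * δ) ^ m ≤ 1 + (m + 1) * m / 2 * (ε / r) ^ 2) :
    (𝔼 x, 𝔼 y, W x y) ^ ((m + 1) * (2 * k)) * (1 + δ) ^ (m * (2 * k)) ≤
      Real.exp (18 * (m + 1) ^ 2 * ε ^ 4 / r) *
        𝔼 y : Fin (m + 1) → X, (𝔼 x, ∏ i, W x (y i)) ^ (2 * k) := by
  have r0 : (0 : ℝ) < r := by exact_mod_cast hr
  let I : X → Fin r → ℝ := fun y c => if κ y = c then 1 else 0
  let α : Fin r → ℝ := fun c => 𝔼 y, I y c
  have I0 : ∀ y c, 0 ≤ I y c := fun y c => by simp only [I]; positivity
  have α0 : ∀ c, 0 ≤ α c := fun c => expect_nonneg fun y _ => I0 y c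
  let w : Fin r → ℝ := fun c => if 1 / (2 * r) ≤ α c then 1 / (r * α c) else 0
  have w0 : ∀ c, 0 ≤ w c := fun c => by have := α0 c; simp only [w]; positivity
  have w1 : ∀ c, 1 / (2 * r) ≤ α c → w c * α c = 1 / r := fun c h => by
    have : 0 < α c := lt_of_lt_of_le (by positivity) h
    simp only [w, if_pos h]; field_simp
  have w2 : ∀ c, w c * α c ≤ 1 / r ∧ w c ≤ 2 := fun c => by
    by_cases h : 1 / (2 * r) ≤ α c
    · refine ⟨(w1 c h).le, le_of_mul_le_mul_right ?_ (show (0 : ℝ) < 1 / (2 * r) by positivity)⟩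
      refine (mul_le_mul_of_nonneg_left h (w0 c)).trans ((w1 c h).trans ?_).le
      field_simp
    · simp only [w, if_neg h]; exact ⟨by rw [zero_mul]; positivity, by norm_num⟩
  let q : X → Fin r → ℝ := fun y c => ε * w c * (I y c - α c)
  have q0 : ∀ y c, |q y c| ≤ ε * (w c * I y c + w c * α c) := fun y c => by
    have := mul_nonneg (mul_nonneg e0 (w0 c)) (I0 y c)
    have := mul_nonneg (mul_nonneg e0 (w0 c)) (α0 c)
    rw [abs_le]; simp only [q]; constructor <;> linarith
  have u0 : ∀ y ξ, |L (q y) ξ| ≤ 3 * ε := fun y ξ => by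
    refine (L_abs _ _).trans ((sum_le_sum fun c _ => q0 y c).trans ?_)
    have a := sum_le_card_nsmul univ _ _ fun c _ => (w2 c).1
    rw [card_univ, Fintype.card_fin, nsmul_eq_mul, mul_one_div_cancel r0.ne'] at a
    rw [← mul_sum, sum_add_distrib, mul_comm]
    gcongr
    simp only [I, mul_ite, mul_one, mul_zero, sum_ite_eq, mem_univ, if_true]
    linarith [(w2 (κ y)).2]
  have u1 : ∀ y ξ, 0 ≤ 1 + L (q y) ξ := fun y ξ => by linarith [(abs_le.mp (u0 y ξ)).1]
  have q1 : ∀ c, 𝔼 y, q y c = 0 := fun c => by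
    simp only [q, ← mul_expect, expect_sub_distrib, Fintype.expect_const, α, sub_self, mul_zero]
  have u2 : ∀ (f : X → ℝ) ξ, 𝔼 y, f y * (1 + L (q y) ξ) =
      𝔼 y, f y + L (fun c => 𝔼 y, f y * q y c) ξ := fun f ξ => by
    simp only [mul_add, mul_one, expect_add_distrib, L_lin]
  have u3 : ∀ ξ, 𝔼 y, (1 + L (q y) ξ) = 1 := fun ξ => by simpa [q1, L] using u2 (fun _ => 1) ξ
  let g : (Fin (m + 1) → X) → ℝ := fun y => 𝔼 ξ, ∏ i, (1 + L (q (y i)) ξ)
  have g0 : ∀ y, 0 ≤ g y := fun y => expect_nonneg fun ξ _ => prod_nonneg fun i _ => u1 _ _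
  have g1 : 𝔼 y, g y = 1 := by
    rw [expect_comm, expect_congr rfl fun ξ _ => epow (fun y => 1 + L (q y) ξ) _]
    simp only [u3, one_pow, Fintype.expect_const]
  have g2 : 𝔼 y, g y ^ 2 ≤ Real.exp (18 * (m + 1) ^ 2 * ε ^ 4 / r) := by
    simp only [g, sq (𝔼 _, _), expect_mul_expect, ← prod_mul_distrib]
    rw [expect_comm]
    refine expect_le univ_nonempty fun ξ _ => ?_
    rw [expect_comm, expect_congr rfl fun ξ' _ =>
      epow (fun y => (1 + L (q y) ξ) * (1 + L (q y) ξ')) _]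
    let μ : Fin r → ℝ := fun c => 𝔼 y, (1 + L (q y) ξ) * q y c
    refine le_trans (expect_le_expect fun ξ' _ => ?_) ((L_exp fun c => (m + 1) * μ c).trans
      (Real.exp_le_exp.mpr ((sum_le_card_nsmul _ _ (((m + 1) * (6 * ε ^ 2 / r)) ^ 2 / 2)
        fun c _ => ?_).trans_eq ?_)))
    · refine (pow_le_pow_left₀ (expect_nonneg fun y _ => mul_nonneg (u1 _ _) (u1 _ _))
        (b := Real.exp (L μ ξ')) ?_ _).trans_eq ?_
      · rw [u2, u3, add_comm]; exact Real.add_one_le_exp _
      · rw [← Real.exp_nat_mul, L, L, mul_sum]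
        push_cast
        simp only [mul_left_comm]
    · have : |μ c| ≤ 6 * ε ^ 2 / r := by
        simp only [μ, add_mul, one_mul, expect_add_distrib, q1, zero_add]
        refine (abs_expect_le _ _).trans ((expect_le_expect fun y _ => (abs_mul _ _).trans_le
          (mul_le_mul (u0 y ξ) (q0 y c) (abs_nonneg _) (by positivity))).trans ?_)
        simp only [← mul_expect, expect_add_distrib, Fintype.expect_const]
        have := mul_le_mul_of_nonneg_left (w2 c).1 (show 0 ≤ 6 * ε ^ 2 by positivity)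
        rw [mul_one_div] at this
        exact le_of_eq_of_le (by simp only [α]; ring) this
      rw [mul_pow, mul_pow, ← sq_abs (μ c)]
      gcongr
    · rw [card_univ, Fintype.card_fin, nsmul_eq_mul]; field_simp; ring
  let Z : (Fin (m + 1) → X) → ℝ := fun y => 𝔼 x, ∏ i, W x (y i)
  have Z0 : ∀ y, 0 ≤ Z y := fun y => expect_nonneg fun ξ _ => prod_nonneg fun i _ => hW _ _
  let D : X → ℝ := fun x => 𝔼 y, W x y
  have D0 : ∀ x, 0 ≤ D x := fun x => expect_nonneg fun y _ => hW x y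
  set d := 𝔼 x, D x with hd
  have d00 : 0 ≤ d := expect_nonneg fun x _ => D0 x
  let J : X → ℝ := fun x => if 1 / (2 * r) ≤ α (κ x) then 1 else 0
  have J1 : 1 / 2 ≤ 𝔼 x, J x := by
    have a : ∀ x, J x = 1 - ∑ c, (if 1 / (2 * r) ≤ α c then 0 else 1) * I x c := fun x => by
      simp only [I, J, mul_ite, mul_one, mul_zero, sum_ite_eq, mem_univ, if_true]
      split_ifs <;> simp
    simp only [a, expect_sub_distrib, expect_sum_comm, ← mul_expect, Fintype.expect_const]
    have b := sum_le_card_nsmul univ (fun c => (if 1 / (2 * r) ≤ α c then 0 else 1) * α c)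
      (1 / (2 * r)) fun c _ => by
        split_ifs with h
        · rw [zero_mul]; positivity
        · rw [one_mul]; exact (not_le.mp h).le
    rw [card_univ, Fintype.card_fin, nsmul_eq_mul, show (r : ℝ) * (1 / (2 * r)) = 1 / 2 by
      field_simp] at b
    linarith
  have M1 : d ^ (m + 1) * (1 + δ) ^ m ≤ 𝔼 y, g y * Z y := by
    simp only [g, Z, mul_comm (𝔼 ξ : Fin r → Bool, _), expect_mul_expect, ← prod_mul_distrib]
    rw [expect_comm]
    let τ := d * (1 + δ)
    let t := 1 - 1 / (1 + 3 * δ)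
    refine le_trans ?_ (expect_le_expect (f := fun x =>
      τ ^ m * ((m + 1) * D x - m * (τ * (1 - t * J x)))) fun x _ => ?_)
    · simp only [← mul_expect, expect_sub_distrib, Fintype.expect_const, ← hd]
      rw [pow_succ, mul_right_comm, ← mul_pow]
      refine mul_le_mul_of_nonneg_left ?_ (by positivity)
      have t0 : 0 ≤ t := sub_nonneg.mpr (div_le_one_of_le₀ (by linarith) (by linarith))
      have t1 : (1 + δ) * (1 - t * (1 / 2)) ≤ 1 := by
        simp only [t]; field_simp; nlinarith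
      have : (1 + δ) * (1 - t * 𝔼 x, J x) ≤ 1 := le_trans (by gcongr) t1
      have := mul_le_mul_of_nonneg_left this (show 0 ≤ m * d by positivity)
      simp only [τ]
      linarith
    rw [expect_comm, expect_congr rfl fun ξ _ => epow (fun y => W x y * (1 + L (q y) ξ)) _]
    have a1 : D x ^ (m + 1) * (1 + (m + 1) * m / 2 * (ε * (w (κ x) * α (κ x))) ^ 2) ≤
        𝔼 ξ, (𝔼 y, W x y * (1 + L (q y) ξ)) ^ (m + 1) := by
      rcases (D0 x).eq_or_lt with h | h
      · rw [← h, zero_pow (by simp), zero_mul]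
        exact expect_nonneg fun ξ _ => pow_nonneg (expect_nonneg fun y _ =>
          mul_nonneg (hW _ _) (u1 _ _)) _
      have a2 := mul_le_mul_of_nonneg_left
        (L_pow (fun c => (𝔼 y, W x y * q y c) / D x) (κ x) m) (pow_nonneg h.le (m + 1))
      have a3 : 𝔼 y, W x y * q y (κ x) = -(ε * (w (κ x) * α (κ x))) * D x := by
        rw [mul_expect]
        refine expect_congr rfl fun y _ => ?_
        by_cases e : κ y = κ x
        · simp [hκ x y e.symm]
        · simp only [q, I, if_neg e]; ring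
      rw [a3, mul_div_cancel_right₀ _ h.ne', neg_sq, mul_expect _ _ (D x ^ (m + 1))] at a2
      refine a2.trans_eq (expect_congr rfl fun ξ _ => ?_)
      rw [u2, ← mul_pow, mul_add, mul_one, L, L, mul_sum]
      congr 2
      exact sum_congr rfl fun c _ => by field_simp
    refine le_trans ?_ a1
    by_cases h : 1 / (2 * r) ≤ α (κ x)
    · have a4 := tang (D0 x) (show 0 ≤ τ / (1 + 3 * δ) by positivity) m
      rw [div_pow, div_mul_eq_mul_div, div_le_iff₀ (by positivity)] at a4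
      rw [w1 _ h, mul_one_div]
      refine le_trans (le_of_eq ?_) (a4.trans (mul_le_mul_of_nonneg_left d2 (pow_nonneg (D0 x) _)))
      simp only [J, t, if_pos h]
      ring
    · simp only [J, w, if_neg h]
      simpa using tang (D0 x) (show 0 ≤ τ by positivity) m
  have M2 := (pow_le_pow_left₀ (by positivity) M1 k).trans (jens g Z g0 Z0 g1 k)
  have M3 := (pow_le_pow_left₀ (by positivity) M2 2).trans
    (expect_mul_sq_le_sq_mul_sq _ g fun y => Z y ^ k)
  simp only [← pow_mul, mul_pow, mul_comm k 2, mul_assoc] at M3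
  exact M3.trans (mul_le_mul_of_nonneg_right g2 (expect_nonneg fun y _ => pow_nonneg (Z0 y) _))

end H17Grid
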