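import Mathlib

set_option autoImplicit false

namespace H17K

open Topology Set
open scoped Cardinal

/-- the well order of type `ω_(i+1)` -/
def W (i : ℕ) : Type := (Cardinal.aleph ((i : Ordinal.{0}) + 1)).ord.ToType

noncomputable instance (i : ℕ) : LinearOrder (W i) :=
  inferInstanceAs (LinearOrder (Cardinal.aleph ((i : Ordinal.{0}) + 1)).ord.ToType)

instance (i : ℕ) : WellFoundedLT (W i) :=
  inferInstanceAs (WellFoundedLT (Cardinal.aleph ((i : Ordinal.{0}) + 1)).ord.ToType)

theorem mk_W (i : ℕ) : #(W i) = Cardinal.aleph ((i : Ordinal.{0}) + 1) :=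
  Cardinal.mk_ord_toType _

theorem bdd {ι : Type} (i : ℕ) (s : ι → W i) (h : #ι < Cardinal.aleph ((i : Ordinal.{0}) + 1)) :
    ∃ b, ∀ j, s j < b := by
  have h1 : ¬ IsCofinal (range s) := by
    intro hc
    have h2 := Order.cof_le hc
    have h3 : Order.cof (W i) = Cardinal.aleph ((i : Ordinal.{0}) + 1) := by
      change Order.cof (Cardinal.aleph ((i : Ordinal.{0}) + 1)).ord.ToType = _
      rw [Ordinal.cof_toType]
      exact (Cardinal.isRegular_aleph_add_one _).cof_ord
    rw [h3] at h2
    exact absurd (h2.trans Cardinal.mk_range_le) (not_le.mpr h)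
  obtain ⟨b, hb⟩ := not_isCofinal_iff.mp h1
  exact ⟨b, fun j => hb _ ⟨j, rfl⟩⟩

theorem bdd_count {ι : Type} [Countable ι] (i : ℕ) (s : ι → W i) : ∃ b, ∀ j, s j < b := by
  refine bdd i s (Cardinal.mk_le_aleph0.trans_lt ?_)
  rw [← Cardinal.aleph_zero, Cardinal.aleph_lt_aleph]
  simp

theorem bdd_lt {k i : ℕ} (h : k < i) (s : W k → W i) : ∃ b, ∀ j, s j < b := by
  refine bdd i s ?_
  rw [mk_W, Cardinal.aleph_lt_aleph]
  exact_mod_cast Nat.succ_lt_succ h

instance (i : ℕ) : Nonempty (W i) := by
  obtain ⟨b, _⟩ := bdd_count i (Empty.elim : Empty → W i)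
  exact ⟨b⟩

instance (i : ℕ) : NoMaxOrder (W i) :=
  ⟨fun a => by
    obtain ⟨b, hb⟩ := bdd_count i (fun _ : Unit => a)
    exact ⟨b, hb ()⟩⟩

/-- monotone maps between different `W` are bounded -/
theorem mono_bdd {k i : ℕ} (h : k ≠ i) (s : W k → W i) (hs : Monotone s) : ∃ b, ∀ j, s j ≤ b := by
  rcases lt_or_gt_of_ne h with h | h
  · obtain ⟨b, hb⟩ := bdd_lt h s
    exact ⟨b, fun j => (hb j).le⟩
  · by_contra hn
    push Not at hn
    choose x hx using hn
    obtain ⟨c, hc⟩ := bdd_lt h x
    exact absurd ((hx (s c)).trans_le (hs (hc _).le)) (lt_irrefl _)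

noncomputable instance (i : ℕ) : TopologicalSpace (W i) := Topology.upper _
instance (i : ℕ) : IsUpper (W i) := ⟨rfl⟩

/-- `W i` with a top point -/
def R (i : ℕ) : Type := WithTop (W i)

noncomputable instance (i : ℕ) : LinearOrder (R i) := inferInstanceAs (LinearOrder (WithTop (W i)))
instance (i : ℕ) : OrderTop (R i) := inferInstanceAs (OrderTop (WithTop (W i)))
instance (i : ℕ) : WellFoundedLT (R i) := inferInstanceAs (WellFoundedLT (WithTop (W i)))
noncomputable instance (i : ℕ) : TopologicalSpace (R i) := Topology.upper _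
instance (i : ℕ) : IsUpper (R i) := ⟨rfl⟩

def eta (i : ℕ) (a : W i) : R i := (a : WithTop (W i))

theorem eta_le {i : ℕ} {a b : W i} : eta i a ≤ eta i b ↔ a ≤ b := WithTop.coe_le_coe
theorem eta_lt {i : ℕ} {a b : W i} : eta i a < eta i b ↔ a < b := WithTop.coe_lt_coe
theorem eta_ne {i : ℕ} (a : W i) : eta i a ≠ ⊤ := WithTop.coe_ne_top
theorem R_cases {i : ℕ} (r : R i) : r = ⊤ ∨ ∃ a, r = eta i a := by
  cases r with
  | none => exact Or.inl rfl
  | some a => exact Or.inr ⟨a, rfl⟩

section upper
variable {α β : Type} [LinearOrder α] [TopologicalSpace α] [IsUpper α]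

theorem open_char {U : Set α} (h : IsOpen U) : U = univ ∨ ∀ x ∈ U, ∃ a < x, Ioi a ⊆ U := by
  rw [IsUpper.isOpen_iff_generate_Iic_compl] at h
  induction h with
  | basic s hs =>
    obtain ⟨a, rfl⟩ := hs
    right
    intro x hx
    exact ⟨a, by simpa using hx, by simp⟩
  | univ => exact Or.inl rfl
  | inter s t _ _ ih1 ih2 =>
    rcases ih1 with rfl | ih1
    · simpa using ih2
    rcases ih2 with rfl | ih2
    · simpa using Or.inr ih1
    right
    intro x hx
    obtain ⟨a, ha, h1⟩ := ih1 x hx.1
    obtain ⟨b, hb, h2⟩ := ih2 x hx.2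
    exact ⟨max a b, max_lt ha hb, fun y hy =>
      ⟨h1 (lt_of_le_of_lt (le_max_left _ _) hy), h2 (lt_of_le_of_lt (le_max_right _ _) hy)⟩⟩
  | sUnion S _ ih =>
    by_cases hu : univ ∈ S
    · left
      exact eq_univ_of_subset (subset_sUnion_of_mem hu) rfl
    · right
      rintro x ⟨t, ht, hx⟩
      rcases ih t ht with rfl | h
      · exact absurd ht hu
      · obtain ⟨a, ha, h1⟩ := h x hx
        exact ⟨a, ha, h1.trans (subset_sUnion_of_mem ht)⟩

theorem closed_char [WellFoundedLT α] {C : Set α} (h : IsClosed C) (hne : C.Nonempty) :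
    C = univ ∨ ∃ a, C = Iic a := by
  by_cases hu : C = univ
  · exact Or.inl hu
  right
  have hne' : (Cᶜ).Nonempty := nonempty_compl.mpr hu
  rcases open_char h.isOpen_compl with h1 | h1
  · obtain ⟨x, hx⟩ := hne
    exact absurd hx (show x ∈ Cᶜ from h1 ▸ mem_univ x)
  obtain ⟨a, ha, h2⟩ := h1 _ (wellFounded_lt.min_mem _ hne')
  refine ⟨a, Subset.antisymm (fun x hx => ?_) fun x hx => ?_⟩
  · by_contra hn
    exact h2 (not_le.mp hn) hx
  · by_contra hn
    exact wellFounded_lt.not_lt_min (Cᶜ) hn (lt_of_le_of_lt hx ha)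

theorem spec_iff {x y : α} : x ⤳ y ↔ y ≤ x := by
  rw [specializes_iff_mem_closure, IsUpper.closure_singleton, mem_Iic]

theorem mono_of_cont [LinearOrder β] [TopologicalSpace β] [IsUpper β] {f : α → β}
    (hf : Continuous f) : Monotone f := fun _ _ h => spec_iff.mp ((spec_iff.mpr h).map hf)

theorem irred_univ [Nonempty α] : IsIrreducible (univ : Set α) := by
  refine ⟨univ_nonempty, fun U V hU hV ⟨x, _, hx⟩ ⟨y, _, hy⟩ => ⟨max x y, trivial, ?_, ?_⟩⟩
  · exact IsUpper.isUpperSet_of_isOpen hU (le_max_left _ _) hx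
  · exact IsUpper.isUpperSet_of_isOpen hV (le_max_right _ _) hy

end upper

theorem R_closed {i : ℕ} {C : Set (R i)} (h : IsClosed C) (hne : C.Nonempty) : ∃ a, C = Iic a := by
  rcases closed_char h hne with rfl | h
  · exact ⟨⊤, by simp⟩
  · exact h

instance (i : ℕ) : QuasiSober (R i) :=
  ⟨fun hS hc => by
    obtain ⟨a, rfl⟩ := R_closed hc hS.nonempty
    exact ⟨a, IsUpper.closure_singleton a⟩⟩

theorem eta_cont (i : ℕ) : Continuous (eta i) := by
  rw [IsUpper.continuous_iff_Iic]
  intro r
  rcases R_cases r with rfl | ⟨a, rfl⟩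
  · simp
  · have : eta i ⁻¹' Iic (eta i a) = Iic a := by ext x; exact eta_le
    rw [this]
    exact isClosed_Iic

/-- the class of spaces in which images of the `W i` have generic points -/
def K0 (Y : Type) [TopologicalSpace Y] : Prop :=
  T0Space Y ∧ ∀ (i : ℕ) (f : W i → Y), Continuous f → ∃ y, closure (range f) = closure {y}

theorem K0_sober (Y : Type) [TopologicalSpace Y] (h : T0Space Y) (h' : QuasiSober Y) : K0 Y := by
  refine ⟨h, fun i f hf => ?_⟩
  have : IsIrreducible (range f) := by
    rw [← image_univ]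
    exact irred_univ.image f hf.continuousOn
  exact ⟨_, this.isGenericPoint_genericPoint_closure.def.symm⟩

theorem uniq {Y : Type} [TopologicalSpace Y] (h : T0Space Y) {S : Set Y}
    (hy : ∃ y, S = closure {y}) : ∃! y, S = closure {y} := by
  obtain ⟨y, hy⟩ := hy
  exact ⟨y, hy, fun z hz => (inseparable_iff_closure_eq.mpr (hz.symm.trans hy)).eq⟩

theorem K0_homeo (X Y : Type) [TopologicalSpace X] [TopologicalSpace Y] (e : X ≃ₜ Y) (h : K0 X) :
    K0 Y := by
  have := h.1
  refine ⟨e.symm.isEmbedding.t0Space, fun i f hf => ?_⟩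
  obtain ⟨x, hx⟩ := h.2 i (e.symm ∘ f) (e.symm.continuous.comp hf)
  refine ⟨e x, ?_⟩
  have h1 := congrArg (e '' ·) hx
  simp only [e.image_closure, image_singleton, ← range_comp] at h1
  rw [← h1]
  congr 2
  funext a
  simp

theorem cl_cl {X Y : Type} [TopologicalSpace X] [TopologicalSpace Y] {f : X → Y}
    (hf : Continuous f) (a : X) : closure (f '' closure {a}) = closure {f a} := by
  rw [closure_image_closure hf, image_singleton]

/-- `W i` is `K0`-determined -/
theorem W_det (i : ℕ) (A : Set (W i)) (hA : IsIrreducible A) (hc : IsClosed A)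
    (Y : Type) [TopologicalSpace Y] (hY : K0 Y) (f : W i → Y) (hf : Continuous f) :
    ∃! y : Y, closure (f '' A) = closure {y} := by
  apply uniq hY.1
  rcases closed_char hc hA.nonempty with rfl | ⟨a, rfl⟩
  · rw [image_univ]
    exact hY.2 i f hf
  · exact ⟨f a, by rw [← IsUpper.closure_singleton, cl_cl hf]⟩

/-- points of the product with finitely many top coordinates -/
def Y0 : Type := {y : ∀ i, R i // {i | y i = ⊤}.Finite}

noncomputable instance : TopologicalSpace Y0 :=
  inferInstanceAs (TopologicalSpace {y : ∀ i, R i // {i | y i = ⊤}.Finite})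

theorem Y0_spec {y z : Y0} : y ⤳ z ↔ ∀ i, z.1 i ≤ y.1 i := by
  have : y ⤳ z ↔ y.1 ⤳ z.1 := subtype_specializes_iff _ _
  rw [this, specializes_pi]
  simp only [spec_iff]

theorem K0_Y0 : K0 Y0 := by
  refine ⟨inferInstanceAs (T0Space {y : ∀ i, R i // {i | y i = ⊤}.Finite}), fun k f hf => ?_⟩
  have hg : ∀ i, Continuous fun x => (f x).1 i := fun i =>
    (continuous_apply i).comp (continuous_subtype_val.comp hf)
  have hm : ∀ i, Monotone fun x => (f x).1 i := fun i => mono_of_cont (hg i)
  choose y hy using fun i => R_closed (C := closure (range fun x => (f x).1 i)) isClosed_closure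
    (range_nonempty _).closure
  have hle : ∀ i x, (f x).1 i ≤ y i := fun i x => by
    have : (f x).1 i ∈ closure (range fun x => (f x).1 i) := subset_closure ⟨x, rfl⟩
    rwa [hy] at this
  have hfin : {i | y i = ⊤}.Finite := by
    have h1 : ∀ i, ∃ x, y i = ⊤ → i ≠ k → (f x).1 i = ⊤ := by
      intro i
      by_contra hn
      push Not at hn
      obtain ⟨h2, h3, _⟩ := hn (Classical.arbitrary _)
      choose s hs using fun x => (R_cases ((f x).1 i)).resolve_left (hn x).2.2
      obtain ⟨b, hb⟩ := mono_bdd h3.symm s fun a b hab => by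
        have := hm i hab
        simp only [hs] at this
        exact eta_le.mp this
      have : closure (range fun x => (f x).1 i) ⊆ Iic (eta i b) :=
        closure_minimal (by
          rintro _ ⟨x, rfl⟩
          simp only [hs]
          exact eta_le.mpr (hb x)) isClosed_Iic
      rw [hy, h2] at this
      exact eta_ne b (top_le_iff.mp (this (mem_Iic.mpr le_rfl)))
    choose x hx using h1
    obtain ⟨c, hc⟩ := bdd_count k x
    refine ((f c).2.insert k).subset fun i hi => ?_
    by_cases h : i = k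
    · exact Or.inl h
    · right
      have := hm i (hc i).le
      simp only [hx i hi h] at this
      exact top_le_iff.mp this
  refine ⟨⟨y, hfin⟩, Subset.antisymm (closure_minimal ?_ isClosed_closure)
    (closure_minimal (singleton_subset_iff.mpr ?_) isClosed_closure)⟩
  · rintro _ ⟨x, rfl⟩
    exact specializes_iff_mem_closure.mp (Y0_spec.mpr fun i => hle i x)
  · refine mem_closure_of_tendsto (b := Filter.atTop) (f := f) ?_
      (Filter.Eventually.of_forall fun x => ⟨x, rfl⟩)
    refine tendsto_subtype_rng.mpr (tendsto_pi_nhds.mpr fun i => tendsto_nhds.mpr fun U hU hyU => ?_)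
    have : y i ∈ closure (range fun x => (f x).1 i) := by rw [hy]; exact mem_Iic.mpr le_rfl
    obtain ⟨_, h1, x, rfl⟩ := mem_closure_iff.mp this U hU hyU
    exact Filter.mem_atTop_sets.mpr ⟨x, fun b hb => IsUpper.isUpperSet_of_isOpen hU (hm i hb) h1⟩

def jj (x : ∀ i, W i) : Y0 := ⟨fun i => eta i (x i), by simp [eta_ne]⟩

theorem jj_cont : Continuous jj :=
  Continuous.subtype_mk (continuous_pi fun i => (eta_cont i).comp (continuous_apply i)) _

theorem jj_unbdd (y : Y0) : ¬ ∀ x, y ⤳ jj x := by
  classical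
  intro h
  obtain ⟨i, hi⟩ := y.2.exists_notMem
  obtain ⟨a, ha⟩ := (R_cases (y.1 i)).resolve_left hi
  obtain ⟨b, hb⟩ := exists_gt a
  have := Y0_spec.mp (h (Function.update (fun _ => Classical.arbitrary _) i b)) i
  simp only [jj, Function.update_self, ha] at this
  exact absurd (eta_le.mp this) (not_le.mpr hb)

theorem prod_not_det : ¬ ∃ y : Y0, closure (jj '' univ) = closure {y} := by
  rintro ⟨y, hy⟩
  exact jj_unbdd y fun x => specializes_iff_mem_closure.mpr (hy ▸ subset_closure ⟨x, trivial, rfl⟩)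

theorem prod_irred : IsIrreducible (univ : Set (∀ i, W i)) := by
  refine ⟨univ_nonempty, fun U V hU hV ⟨x, _, hx⟩ ⟨y, _, hy⟩ =>
    ⟨fun i => max (x i) (y i), trivial, ?_, ?_⟩⟩
  · exact (specializes_pi.mpr fun i => spec_iff.mpr (le_max_left _ _)).mem_open hU hx
  · exact (specializes_pi.mpr fun i => spec_iff.mpr (le_max_right _ _)).mem_open hV hy

/-- `eta i` is a `K0`-reflection -/
theorem eta_refl (i : ℕ) (Z : Type) [TopologicalSpace Z] (hZ : K0 Z) (g : W i → Z)
    (hg : Continuous g) : ∃! h : R i → Z, Continuous h ∧ h ∘ eta i = g := by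
  have := hZ.1
  obtain ⟨z, hz⟩ := hZ.2 i g hg
  have hdense : (⊤ : R i) ∈ closure (range (eta i)) := by
    obtain ⟨r, hr⟩ := R_closed (C := closure (range (eta i))) isClosed_closure
      (range_nonempty _).closure
    rcases R_cases r with rfl | ⟨a, rfl⟩
    · rw [hr]; exact mem_Iic.mpr le_rfl
    · obtain ⟨b, hb⟩ := exists_gt a
      have : eta i b ∈ closure (range (eta i)) := subset_closure ⟨b, rfl⟩
      rw [hr] at this
      exact absurd (eta_le.mp this) (not_le.mpr hb)
  have key : ∀ h : R i → Z, Continuous h → h ∘ eta i = g → h ⊤ = z := by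
    intro h hc he
    apply Inseparable.eq
    rw [inseparable_iff_closure_eq, ← hz]
    refine Subset.antisymm (closure_minimal (singleton_subset_iff.mpr ?_) isClosed_closure)
      (closure_minimal ?_ isClosed_closure)
    · exact map_mem_closure hc hdense (by rintro _ ⟨a, rfl⟩; exact ⟨a, (congrFun he a).symm⟩)
    · rintro _ ⟨a, rfl⟩
      rw [← he]
      exact specializes_iff_mem_closure.mp ((spec_iff.mpr le_top).map hc)
  let h : R i → Z := fun r => WithTop.recTopCoe z g r
  have hc : Continuous h := by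
    rw [continuous_iff_isClosed]
    intro C hC
    by_cases hzC : z ∈ C
    · have : h ⁻¹' C = univ := by
        refine eq_univ_of_forall fun r => ?_
        rcases R_cases r with rfl | ⟨a, rfl⟩
        · exact hzC
        · have : g a ∈ closure {z} := hz ▸ subset_closure ⟨a, rfl⟩
          exact closure_minimal (singleton_subset_iff.mpr hzC) hC this
      rw [this]; exact isClosed_univ
    · rcases (g ⁻¹' C).eq_empty_or_nonempty with he | hne
      · have : h ⁻¹' C = ∅ := by
          refine eq_empty_of_forall_notMem fun r hr => ?_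
          rcases R_cases r with rfl | ⟨a, rfl⟩
          · exact hzC hr
          · exact (he ▸ (show a ∈ g ⁻¹' C from hr) : a ∈ (∅ : Set (W i)))
        rw [this]; exact isClosed_empty
      · rcases closed_char (hC.preimage hg) hne with hu | ⟨b, hb⟩
        · exfalso
          apply hzC
          have : closure (range g) ⊆ C := closure_minimal (by
            rintro _ ⟨a, rfl⟩
            exact (hu ▸ mem_univ a : a ∈ g ⁻¹' C)) hC
          exact this (hz ▸ subset_closure rfl)
        · have : h ⁻¹' C = Iic (eta i b) := by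
            ext r
            rcases R_cases r with rfl | ⟨a, rfl⟩
            · exact ⟨fun h => absurd h hzC, fun h => absurd (top_le_iff.mp h) (eta_ne b)⟩
            · change a ∈ g ⁻¹' C ↔ _
              rw [hb]
              exact eta_le.symm
          rw [this]; exact isClosed_Iic
  refine ⟨h, ⟨hc, rfl⟩, fun h' ⟨h1, h2⟩ => funext fun r => ?_⟩
  rcases R_cases r with rfl | ⟨a, rfl⟩
  · exact key h' h1 h2
  · exact congrFun h2 a

theorem no_ext : ¬ ∃ h : (∀ i, R i) → Y0, Continuous h ∧
    (h ∘ fun (x : ∀ i, W i) (i : ℕ) => eta i (x i)) = jj := by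
  rintro ⟨h, hc, he⟩
  refine jj_unbdd (h fun _ => ⊤) fun x => ?_
  rw [← he]
  exact (specializes_pi.mpr fun i => spec_iff.mpr le_top).map hc

theorem K0_adequate (X : Type) [TopologicalSpace X] :
    @K0 {A : Set X // IsClosed A ∧ ∀ (Y : Type) [TopologicalSpace Y], K0 Y →
        ∀ f : X → Y, Continuous f → ∃! y : Y, closure (f '' A) = closure {y}}
      (TopologicalSpace.generateFrom
        {S | ∃ U : Set X, IsOpen U ∧ S = {A | (A.1 ∩ U).Nonempty}}) := by
  set P := {A : Set X // IsClosed A ∧ ∀ (Y : Type) [TopologicalSpace Y], K0 Y →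
        ∀ f : X → Y, Continuous f → ∃! y : Y, closure (f '' A) = closure {y}}
  let t : TopologicalSpace P := TopologicalSpace.generateFrom
        {S | ∃ U : Set X, IsOpen U ∧ S = {A | (A.1 ∩ U).Nonempty}}
  have ho : ∀ U : Set X, IsOpen U → IsOpen {A : P | (A.1 ∩ U).Nonempty} := fun U hU =>
    TopologicalSpace.isOpen_generateFrom_of_mem ⟨U, hU, rfl⟩
  have hs : ∀ A B : P, A ⤳ B ↔ B.1 ⊆ A.1 := by
    intro A B
    constructor
    · intro h x hx
      by_contra hn
      obtain ⟨y, h1, h2⟩ := h.mem_open (ho _ A.2.1.isOpen_compl) ⟨x, hx, hn⟩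
      exact h2 h1
    · intro h
      rw [specializes_iff_pure, TopologicalSpace.nhds_generateFrom]
      simp only [le_iInf_iff, Filter.le_principal_iff, Filter.mem_pure]
      rintro S ⟨h1, U, _, rfl⟩
      exact h1.mono (inter_subset_inter_left _ h)
  refine ⟨⟨fun A B h => Subtype.ext (Subset.antisymm ((hs _ _).mp h.specializes')
    ((hs _ _).mp h.specializes))⟩, fun i g hg => ?_⟩
  have hB : ∀ (Y : Type) [TopologicalSpace Y], K0 Y → ∀ f : X → Y, Continuous f →
      ∃! y : Y, closure (f '' closure (⋃ a, (g a).1)) = closure {y} := by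
    intro Y _ hY f hf
    choose φ hφ _ using fun A : P => A.2.2 Y hY f hf
    have hφc : Continuous φ := by
      refine ⟨fun V hV => ?_⟩
      have : φ ⁻¹' V = {A : P | (A.1 ∩ f ⁻¹' V).Nonempty} := by
        ext A
        have h1 : IsGenericPoint (φ A) (closure (f '' A.1)) := (hφ A).symm
        rw [mem_preimage, h1.mem_open_set_iff hV, closure_inter_open_nonempty_iff hV,
          image_inter_nonempty_iff]
        rfl
      rw [this]
      exact ho _ (hV.preimage hf)
    obtain ⟨y, hy⟩ := hY.2 i (φ ∘ g) (hφc.comp hg)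
    refine uniq hY.1 ⟨y, ?_⟩
    rw [← hy, closure_image_closure hf, image_iUnion]
    refine Subset.antisymm (closure_minimal (iUnion_subset fun a => ?_) isClosed_closure)
      (closure_minimal ?_ isClosed_closure)
    · refine subset_closure.trans ((hφ (g a)).subset.trans (closure_mono ?_))
      exact singleton_subset_iff.mpr ⟨a, rfl⟩
    · rintro _ ⟨a, rfl⟩
      refine closure_mono (subset_iUnion (fun a => f '' (g a).1) a) ?_
      rw [hφ]
      exact subset_closure rfl
  refine ⟨⟨closure (⋃ a, (g a).1), isClosed_closure, hB⟩,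
    Subset.antisymm (closure_minimal ?_ isClosed_closure)
    (closure_minimal (singleton_subset_iff.mpr ?_) isClosed_closure)⟩
  · rintro _ ⟨a, rfl⟩
    exact specializes_iff_mem_closure.mp
      ((hs _ _).mpr ((subset_iUnion (fun a => (g a).1) a).trans subset_closure))
  · refine mem_closure_of_tendsto (b := Filter.atTop) (f := g) ?_
      (Filter.Eventually.of_forall fun x => ⟨x, rfl⟩)
    rw [TopologicalSpace.tendsto_nhds_generateFrom_iff]
    rintro S ⟨U, hU, rfl⟩ h1
    obtain ⟨x, h2, h3⟩ := (closure_inter_open_nonempty_iff hU).mp h1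
    obtain ⟨a, ha⟩ := mem_iUnion.mp h2
    exact Filter.mem_atTop_sets.mpr ⟨a, fun b hb =>
      ⟨x, (hs _ _).mp ((spec_iff.mpr hb).map hg) ha, h3⟩⟩

theorem K0_sub {Y : Type} [TopologicalSpace Y] [T0Space Y] (B : Set Y)
    (h : ∀ (i : ℕ) (f : W i → Y), Continuous f → (∀ a, f a ∈ B) →
      ∃ y ∈ B, closure (range f) = closure {y}) : K0 B := by
  refine ⟨inferInstance, fun i f hf => ?_⟩
  obtain ⟨y, hy, h1⟩ := h i (Subtype.val ∘ f) (continuous_subtype_val.comp hf) fun a => (f a).2
  refine ⟨⟨y, hy⟩, ?_⟩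
  rw [IsInducing.subtypeVal.closure_eq_preimage_closure_image,
    IsInducing.subtypeVal.closure_eq_preimage_closure_image, ← range_comp, h1, image_singleton]

theorem K0_mem {Y : Type} [TopologicalSpace Y] [T0Space Y] {B : Set Y} (hB : K0 B) {i : ℕ}
    {f : W i → Y} (hf : Continuous f) (h : ∀ a, f a ∈ B) {y : Y}
    (hy : closure (range f) = closure {y}) : y ∈ B := by
  obtain ⟨z, hz⟩ := hB.2 i (fun a => ⟨f a, h a⟩) (hf.subtype_mk _)
  have h1 : closure (Subtype.val '' closure (range fun a => (⟨f a, h a⟩ : B))) =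
      closure {z.1} := by rw [hz, cl_cl continuous_subtype_val]
  rw [closure_image_closure continuous_subtype_val, ← range_comp] at h1
  have : y = z.1 := (inseparable_iff_closure_eq.mpr (hy.symm.trans h1)).eq
  rw [this]
  exact z.2

theorem K0_inter (Y : Type) [TopologicalSpace Y] [T0Space Y] [QuasiSober Y] (S : Set (Set Y))
    (h : ∀ A ∈ S, K0 A) : K0 (⋂₀ S : Set Y) := by
  refine K0_sub _ fun i f hf hm => ?_
  obtain ⟨y, hy⟩ := (K0_sober Y inferInstance inferInstance).2 i f hf
  exact ⟨y, fun A hA => K0_mem (h A hA) hf (fun a => hm a A hA) hy, hy⟩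

theorem K0_preimage (X Y : Type) [TopologicalSpace X] [TopologicalSpace Y] [T0Space X]
    [QuasiSober X] [T0Space Y] (p : X → Y) (hp : Continuous p) (B : Set Y) (hB : K0 B) :
    K0 (p ⁻¹' B : Set X) := by
  refine K0_sub _ fun i f hf hm => ?_
  obtain ⟨x, hx⟩ := (K0_sober X inferInstance inferInstance).2 i f hf
  refine ⟨x, K0_mem hB (hp.comp hf) hm ?_, hx⟩
  rw [range_comp, ← closure_image_closure hp, hx, cl_cl hp]

end H17K
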