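import Mathlib

set_option autoImplicit false

namespace H17MCFin

open Finset Equiv

theorem odd_choose (k j : ℕ) (h : j < 2 ^ k) : Odd ((2 ^ k - 1).choose j) := by
  induction j with
  | zero => simp
  | succ j ih =>
    have a := Nat.prime_two.dvd_choose_pow (n := k) j.succ_ne_zero h.ne
    rw [← Nat.sub_add_cancel (Nat.one_le_two_pow (n := k)), Nat.choose_succ_succ'] at a
    have := ih (by omega)
    rw [Nat.odd_iff] at *
    omega

theorem odd_mult (k : ℕ) : ∃ m, Odd m ∧ (2 ^ k - 1).factorial = m * ∏ i ∈ range k, (2 ^ i).factorial := by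
  induction k with
  | zero => exact ⟨1, by simp, by simp⟩
  | succ k ih =>
    obtain ⟨m, a, b⟩ := ih
    have := Nat.one_le_two_pow (n := k)
    refine ⟨_, (odd_choose (k + 1) (2 ^ k) (by omega)).mul a, ?_⟩
    rw [← Nat.choose_mul_factorial_mul_factorial (show 2 ^ k ≤ 2 ^ (k + 1) - 1 by omega),
      prod_range_succ, show 2 ^ (k + 1) - 1 - 2 ^ k = 2 ^ k - 1 by omega, b]
    ring

theorem per (s : ℕ → ℤ) (r p : ℕ) (α : Fin p → ℤ)
    (h : ∀ n ≥ r, s (n + p) ≡ ∑ i : Fin p, α i * s (n + i) [ZMOD 2]) :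
    ∃ a P, 0 < P ∧ ∀ t ≥ a, s (t + P) ≡ s t [ZMOD 2] := by
  obtain ⟨a, b, lt, e⟩ : ∃ a b, a < b ∧ (fun i : Fin p => (s (r + a + i) : ZMod 2)) =
      fun i : Fin p => (s (r + b + i) : ZMod 2) := by
    obtain ⟨a, b, ne, e⟩ := Finite.exists_ne_map_eq_of_infinite
      fun a : ℕ => fun i : Fin p => (s (r + a + i) : ZMod 2)
    rcases lt_or_gt_of_ne ne with h | h
    exacts [⟨a, b, h, e⟩, ⟨b, a, h, e.symm⟩]
  have k : ∀ t, (s (r + a + t) : ZMod 2) = s (r + b + t) := fun t => by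
    induction t using Nat.strong_induction_on with
    | _ t ih =>
    by_cases c : t < p
    · exact congrFun e ⟨t, c⟩
    obtain ⟨t, rfl⟩ := Nat.exists_eq_add_of_le' (not_lt.mp c)
    rw [← add_assoc, ← add_assoc, (ZMod.intCast_eq_intCast_iff _ _ 2).mpr (h _ (by omega)),
      (ZMod.intCast_eq_intCast_iff _ _ 2).mpr (h (r + b + t) (by omega))]
    push_cast
    exact sum_congr rfl fun i _ => by rw [add_assoc, add_assoc (r + b), ih _ (by omega)]
  refine ⟨r + a, b - a, by omega, fun t ht => ?_⟩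
  obtain ⟨t, rfl⟩ := Nat.exists_eq_add_of_le ht
  rw [show r + a + t + (b - a) = r + b + t by omega]
  exact (ZMod.intCast_eq_intCast_iff _ _ 2).mp (k t).symm

section
variable {ι : Type} (ar : ι → ℕ)

def cyc {n k : ℕ} (c : Fin n → ZMod k) : (s : ι) → (Fin (ar s) → Fin n) → Bool := fun s t =>
  if h : 2 ≤ ar s then decide (c (t ⟨1, h⟩) = c (t ⟨0, by omega⟩) + 1) else false

def T (n : ℕ) : Set ((s : ι) → (Fin (ar s) → Fin n) → Bool) :=
  {A | ∃ k, ∃ e : Fin n ≃ (Σ i : ZMod (k + 1), Fin (2 ^ i.val)), A = cyc ar fun x => (e x).1}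

theorem size {n k : ℕ} (e : Fin n ≃ (Σ i : ZMod (k + 1), Fin (2 ^ i.val))) :
    n + 1 = 2 ^ (k + 1) := by
  have := Fintype.card_congr e
  simp only [Fintype.card_fin, Fintype.card_sigma] at this
  rw [this, ← Nat.sub_add_cancel (Nat.one_le_two_pow (n := k + 1)), add_left_inj]
  exact (Fin.sum_univ_eq_sum_range (2 ^ ·) (k + 1)).trans (by simp [Nat.geomSum_eq])

theorem anti (s : ι) (hs : 2 ≤ ar s) {m n : ℕ} (f : Fin m → Fin n) (A) (hA : A ∈ T ar n)
    (hB : (fun s t => A s (f ∘ t)) ∈ T ar m) : m = n := by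
  obtain ⟨k', e', rfl⟩ := hA
  obtain ⟨k, e, h⟩ := hB
  have g : ∀ x y, (e' (f y)).1 = (e' (f x)).1 + 1 ↔ (e y).1 = (e x).1 + 1 := fun x y => by
    simpa [cyc, hs] using congrFun (congrFun h s) fun i => if i.1 = 0 then x else y
  let x : ℕ → Fin m := fun i => e.symm ⟨i, 0⟩
  have x1 : ∀ i, (e (x i)).1 = i := fun i => by simp [x]
  have x2 : ∀ i, (e' (f (x i))).1 = (e' (f (x 0))).1 + i := fun i => by
    induction i with
    | zero => simp
    | succ i ih => rw [(g (x i) _).mpr (by simp [x1]), ih, Nat.cast_succ, add_assoc]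
  have a := x2 (k + 1)
  rw [show x (k + 1) = x 0 from congrArg (fun i => e.symm ⟨i, 0⟩) (by simp), left_eq_add,
    ZMod.natCast_eq_zero_iff] at a
  have b := (g (x (k' + 1)) (x 1)).mp (by rw [x2, x2 (k' + 1)]; simp)
  rw [x1, x1, Nat.cast_one, right_eq_add, ZMod.natCast_eq_zero_iff] at b
  have := size e
  rw [Nat.dvd_antisymm b a, ← size e'] at this
  omega

theorem odd (k : ℕ) : Odd (T ar (2 ^ (k + 1) - 1)).ncard := by
  have h1 := Nat.one_le_two_pow (n := k + 1)
  obtain ⟨e⟩ : Nonempty (Fin (2 ^ (k + 1) - 1) ≃ (Σ i : ZMod (k + 1), Fin (2 ^ i.val))) := by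
    refine ⟨Fintype.equivOfCardEq ?_⟩
    have := size (Fintype.equivFin (Σ i : ZMod (k + 1), Fin (2 ^ i.val))).symm
    rw [Fintype.card_fin]; omega
  generalize hn : 2 ^ (k + 1) - 1 = n at *
  let _ : MulAction (Perm (Fin n)) ((s : ι) → (Fin (ar s) → Fin n) → Bool) :=
    { smul := fun g A s t => A s (g.symm ∘ t), one_smul := fun _ => rfl,
      mul_smul := fun _ _ _ => rfl }
  have a : T ar n = MulAction.orbit (Perm (Fin n)) (cyc ar fun x => (e x).1) := by
    ext A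
    refine ⟨fun ⟨k', e', h⟩ => ?_, fun ⟨g, h⟩ => ⟨k, g.symm.trans e, h.symm⟩⟩
    obtain rfl : k' = k := by
      have := (size e').symm.trans (size e)
      simpa using this
    refine ⟨(e'.trans e.symm).symm, h ▸ ?_⟩
    ext s t
    show cyc ar (fun x => (e x).1) s ((e'.trans e.symm) ∘ t) = _
    simp [cyc]
  let H : Subgroup (Perm (Fin n)) :=
    { carrier := {g | (fun x => (e x).1) ∘ g = fun x => (e x).1}
      mul_mem' := fun {a b} h h' => funext fun x => (congrFun h (b x)).trans (congrFun h' x)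
      one_mem' := rfl
      inv_mem' := fun {a} h => funext fun x => by simpa using (congrFun h (a⁻¹ x)).symm }
  have b : H ≤ MulAction.stabilizer (Perm (Fin n)) (cyc ar fun x => (e x).1) := fun g h => by
    ext s t
    show cyc ar (fun x => (e x).1) s (g.symm ∘ t) = _
    have : ∀ x, (e (g.symm x)).1 = (e x).1 := congrFun (H.inv_mem h)
    simp [cyc, this]
  have c : Nat.card H = ∏ i ∈ range (k + 1), (2 ^ i).factorial := by
    refine (Nat.card_eq_fintype_card.trans (DomMulAct.stabilizer_card fun x => (e x).1)).trans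
      ((prod_congr rfl fun i _ => ?_).trans
        (Fin.prod_univ_eq_prod_range (fun i => Nat.factorial (2 ^ i)) (k + 1)))
    rw [Fintype.card_congr ((e.subtypeEquiv fun _ => Iff.rfl).trans (sigmaSubtype i)),
      Fintype.card_fin]
    rfl
  obtain ⟨m, m1, m2⟩ := odd_mult (k + 1)
  have d := H.card_mul_index
  rw [hn] at m2
  rw [Nat.card_perm, Nat.card_fin, m2, c, mul_comm, mul_left_inj' (by positivity)] at d
  rw [a, ← MulAction.index_stabilizer]
  exact m1.of_dvd_nat (d ▸ Subgroup.index_dvd_of_le b)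

theorem main [Finite ι] (s : ι) (hs : 2 ≤ ar s) :
    ∃ C : ∀ n, Set ((s : ι) → (Fin (ar s) → Fin n) → Bool),
      (∀ m n (f : Fin m ↪ Fin n), ∀ A ∈ C n, (fun s t => A s (f ∘ t)) ∈ C m) ∧
      ¬ ∃ a P, 0 < P ∧ ∀ t ≥ a, ((C (t + P)).ncard : ℤ) ≡ (C t).ncard [ZMOD 2] := by
  by_contra h
  let C : ∀ n, Set ((s : ι) → (Fin (ar s) → Fin n) → Bool) := fun m =>
    {B | ∃ n, ∃ f : Fin m ↪ Fin n, ∃ A ∈ T ar n, B = fun s t => A s (f ∘ t)}
  have c1 : ∀ m n (f : Fin m ↪ Fin n), ∀ A ∈ C n, (fun s t => A s (f ∘ t)) ∈ C m := by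
    rintro m n f _ ⟨n', g, A, a, rfl⟩
    exact ⟨n', f.trans g, A, a, rfl⟩
  have c0 : ∀ n (f : Fin n ↪ Fin n), ∀ A ∈ T ar n, (fun s t => A s (f ∘ t)) ∈ T ar n := by
    rintro n f _ ⟨k, e, rfl⟩
    exact ⟨k, (Equiv.ofBijective f (Finite.injective_iff_bijective.mp f.2)).trans e, rfl⟩
  have c2 : ∀ m n (f : Fin m ↪ Fin n), ∀ A ∈ C n \ T ar n,
      (fun s t => A s (f ∘ t)) ∈ C m \ T ar m := by
    rintro m n f _ ⟨⟨n', g, A, a, rfl⟩, b⟩
    refine ⟨⟨n', f.trans g, A, a, rfl⟩, fun d => ?_⟩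
    obtain rfl := anti ar s hs (f.trans g) A a d
    obtain rfl : n = m := by
      simpa using (Fintype.card_le_of_embedding g).antisymm (Fintype.card_le_of_embedding f)
    exact b (c0 _ g A a)
  obtain ⟨a, P, p1, p2⟩ := not_not.mp fun g => h ⟨C, c1, g⟩
  obtain ⟨b, Q, q1, q2⟩ := not_not.mp fun g => h ⟨fun n => C n \ T ar n, c2, g⟩
  have it : ∀ (s : ℕ → ℤ) a P, (∀ t ≥ a, s (t + P) ≡ s t [ZMOD 2]) → ∀ j, ∀ t ≥ a,
      s (t + j * P) ≡ s t [ZMOD 2] := fun s a P h j t ht => by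
    induction j with
    | zero => simp
    | succ j ih => rw [Nat.succ_mul, ← add_assoc]; exact (h _ (by omega)).trans ih
  have e : ∀ n, (C n).ncard = (C n \ T ar n).ncard + (T ar n).ncard := fun n =>
    (Set.ncard_sdiff_add_ncard_of_subset (show T ar n ⊆ C n from
      fun A a => ⟨n, .refl _, A, a, rfl⟩)).symm
  have k := Nat.lt_two_pow_self (n := a + b + P * Q + 1)
  have o := odd ar (a + b + P * Q)
  have z : T ar (2 ^ (a + b + P * Q + 1) - 1 + P * Q) = ∅ := by
    refine Set.eq_empty_of_forall_notMem fun A ⟨j, e, _⟩ => ?_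
    have := size e
    have : 0 < P * Q := by positivity
    have a1 : 2 ^ (a + b + P * Q + 1) < 2 ^ (j + 1) := by omega
    have a2 : 2 ^ (j + 1) < 2 ^ (a + b + P * Q + 1 + 1) := by omega
    rw [Nat.pow_lt_pow_iff_right (by norm_num)] at a1 a2
    omega
  generalize 2 ^ (a + b + P * Q + 1) = N at *
  have u := it (fun n => (C n).ncard) a P p2 Q (N - 1) (by omega)
  have v := it (fun n => (C n \ T ar n).ncard) b Q q2 P (N - 1) (by omega)
  rw [mul_comm] at u
  simp only [e, z, Set.ncard_empty, Int.ModEq] at u v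
  rw [Nat.odd_iff] at o
  omega

end
end H17MCFin
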