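import Mathlib

set_option autoImplicit false

namespace Pool.Agent.Lib.helper17.MZ

open FirstOrder FirstOrder.Language

abbrev K := ZMod 2
abbrev W := ℕ →₀ K

def L : FirstOrder.Language.{0, 0} := ⟨fun _ => Empty, fun n => (Fin n → K) × Bool⟩

def M : Type := {x : W × ℕ // x.1 0 ≠ 0 → x.2 = 0}

def nu (x : M) : W := x.1.1

def rel (b : Bool) (w : W) : Prop := if b then w 0 = 0 else w = 0

instance : L.Structure M where
  funMap f := f.elim
  RelMap r x := rel r.2 (∑ i, r.1 i • nu (x i))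

def mk0 (w : W) : M := ⟨(w, 0), fun _ => rfl⟩

instance : Nonempty M := ⟨mk0 0⟩

lemma eq_of_D {x y : M} (h : nu x 0 ≠ 0) (e : nu x = nu y) : x = y :=
  Subtype.ext (Prod.ext e (by rw [x.2 h, y.2 (by rw [e] at h; exact h)]))

lemma K_cases (c : K) : c = 0 ∨ c = 1 := by revert c; decide

lemma inf_fibre (w : W) (h : w 0 = 0) : {y : M | nu y = w}.Infinite :=
  Set.infinite_of_injective_forall_mem (f := fun k : ℕ => (⟨(w, k), fun h' => (h' h).elim⟩ : M))
    (fun _ _ e => congrArg (fun x : M => x.1.2) e) (fun _ => rfl)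

lemma inf_coord (c : K) : {y : M | nu y 0 = c}.Infinite ∧
    (nu '' {y : M | nu y 0 = c}).Infinite := by
  have : (nu '' {y : M | nu y 0 = c}).Infinite :=
    Set.infinite_of_injective_forall_mem
      (f := fun k : ℕ => (Finsupp.single 0 c + Finsupp.single (k + 1) 1 : W))
      (fun i j e => by
        have := DFunLike.congr_fun (add_left_cancel e) (i + 1)
        by_contra h
        simp [Ne.symm h] at this)
      (fun k => ⟨mk0 _, by change nu _ 0 = c; simp [nu, mk0], rfl⟩)
  exact ⟨this.of_image, this⟩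

noncomputable def U (f g : M × M → M) (I : Set (M × M)) : Submodule K (W × W) :=
  Submodule.span K ((fun p => (nu (f p), nu (g p))) '' I)

def PI (f g : M × M → M) (I : Set (M × M)) : Prop :=
  (∀ p ∈ I, ∀ q ∈ I, f p = f q ↔ g p = g q) ∧ ∀ z ∈ U f g I, (z.1 = 0 ↔ z.2 = 0) ∧ z.1 0 = z.2 0

lemma PI.symm {f g : M × M → M} {I : Set (M × M)} (h : PI f g I) : PI g f I := by
  refine ⟨fun p hp q hq => (h.1 p hp q hq).symm, fun z hz => ?_⟩
  have : z.swap ∈ U f g I := by
    induction hz using Submodule.span_induction with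
    | mem x hx => obtain ⟨p, hp, rfl⟩ := hx; exact Submodule.subset_span ⟨p, hp, rfl⟩
    | zero => exact zero_mem _
    | add x y _ _ hx hy => exact add_mem hx hy
    | smul a x _ hx => exact Submodule.smul_mem _ a hx
  exact ⟨(h.2 _ this).1.symm, (h.2 _ this).2.symm⟩

lemma PI.forth {f g : M × M → M} (hs : ∀ a b, ∃ p, f p = a ∧ g p = b)
    {I : Set (M × M)} (hI : I.Finite) (h : PI f g I) (w : M) :
    ∃ p, f p = w ∧ PI f g (insert p I) := by
  by_cases hw : ∃ p ∈ I, f p = w
  · obtain ⟨p, hp, e⟩ := hw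
    exact ⟨p, e, by rwa [Set.insert_eq_of_mem hp]⟩
  have hmem : ∀ p ∈ I, (nu (f p), nu (g p)) ∈ U f g I := fun p hp =>
    Submodule.subset_span ⟨p, hp, rfl⟩
  have key : ∀ w', (∀ p ∈ I, g p ≠ w') → (∀ z ∈ U f g I,
      (nu w + z.1 = 0 ↔ nu w' + z.2 = 0)) → nu w 0 = nu w' 0 →
      ∃ p, f p = w ∧ PI f g (insert p I) := by
    intro w' h1 h2 h3
    obtain ⟨p, rfl, rfl⟩ := hs w w'
    refine ⟨p, rfl, ?_, fun z hz => ?_⟩
    · rintro a (rfl | ha) b (rfl | hb)
      · simp
      · exact iff_of_false (fun e => hw ⟨b, hb, e.symm⟩) (fun e => h1 b hb e.symm)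
      · exact iff_of_false (fun e => hw ⟨a, ha, e⟩) (fun e => h1 a ha e)
      · exact h.1 a ha b hb
    · rw [U, Set.image_insert_eq, Submodule.mem_span_insert] at hz
      obtain ⟨c, z, hz, rfl⟩ := hz
      rcases K_cases c with rfl | rfl
      · simpa using h.2 z hz
      · simpa [h3, (h.2 z hz).2] using h2 z hz
  by_cases hz : ∃ z ∈ U f g I, z.1 = nu w
  · obtain ⟨z, hz, e⟩ := hz
    have h2 : ∀ w', nu w' = z.2 → ∀ y ∈ U f g I, (nu w + y.1 = 0 ↔ nu w' + y.2 = 0) :=
      fun w' e' y hy => by rw [← e, e']; exact (h.2 _ (add_mem hz hy)).1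
    by_cases h0 : nu w 0 = 0
    · obtain ⟨w', h1, h3⟩ := (inf_fibre z.2 (by rw [← (h.2 z hz).2, e, h0])).exists_notMem_finite
        (hI.image g)
      exact key w' (fun p hp e' => h3 ⟨p, hp, e'⟩) (h2 w' h1) (by
        rw [show nu w' = z.2 from h1, ← e, (h.2 z hz).2])
    · refine key (mk0 z.2) (fun p hp e' => hw ⟨p, hp, (eq_of_D h0 ?_).symm⟩) (h2 _ rfl)
        (by rw [← e]; exact (h.2 z hz).2)
      have := (h.2 _ (sub_mem hz (hmem p hp))).1.2 (by simp [e', nu, mk0])
      rw [← e]; exact sub_eq_zero.1 this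
  · have : Module.Finite K (U f g I) := Module.Finite.span_of_finite K (hI.image _)
    have : Finite (U f g I) := Module.finite_of_finite K
    have hf : (Prod.snd '' (U f g I : Set (W × W))).Finite := (Set.toFinite _).image _
    obtain ⟨_, ⟨w', h1, rfl⟩, h3⟩ := (inf_coord (nu w 0)).2.exists_notMem_finite hf
    refine key w' (fun p hp e => h3 ⟨_, hmem p hp, by rw [e]⟩) (fun y hy => iff_of_false
      (fun e => hz ⟨-y, neg_mem hy, (add_eq_zero_iff_eq_neg.1 e).symm⟩)
      (fun e => h3 ⟨-y, neg_mem hy, (add_eq_zero_iff_eq_neg.1 e).symm⟩)) h1.symm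

variable {α β γ : Type}

lemma term_var {α : Type*} (t : L.Term α) : ∃ a, t = Term.var a := by
  cases t with
  | var a => exact ⟨a, rfl⟩
  | func f _ => exact f.elim

theorem qe [Finite β] {n : ℕ} (φ : L.BoundedFormula β n) :
    ∀ I : Set (M × M), I.Finite → PI Prod.fst Prod.snd I →
      ∀ (v v' : β → M) (xs xs' : Fin n → M), (∀ b, (v b, v' b) ∈ I) →
        (∀ i, (xs i, xs' i) ∈ I) → (φ.Realize v xs ↔ φ.Realize v' xs') := by
  induction φ with
  | falsum => exact fun _ _ _ _ _ _ _ _ _ => Iff.rfl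
  | @equal n t1 t2 =>
    obtain ⟨a, rfl⟩ := term_var t1
    obtain ⟨b, rfl⟩ := term_var t2
    intro I _ hI v v' xs xs' h1 h2
    have k : ∀ c, (Sum.elim v xs c, Sum.elim v' xs' c) ∈ I := by
      rintro (c | c)
      · exact h1 c
      · exact h2 c
    exact hI.1 _ (k a) _ (k b)
  | @rel n l r ts =>
    choose x hx using fun i => term_var (ts i)
    intro I _ hI v v' xs xs' h1 h2
    have k : ∀ c, (Sum.elim v xs c, Sum.elim v' xs' c) ∈ I := by
      rintro (c | c)
      · exact h1 c
      · exact h2 c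
    have := hI.2 (∑ i, r.1 i • (nu (Sum.elim v xs (x i)), nu (Sum.elim v' xs' (x i))))
      (sum_mem fun i _ => Submodule.smul_mem _ _ (Submodule.subset_span ⟨_, k (x i), rfl⟩))
    simp only [Prod.fst_sum, Prod.snd_sum, Prod.smul_fst, Prod.smul_snd] at this
    simp only [BoundedFormula.Realize, hx, Term.realize_var]
    change rel _ _ ↔ rel _ _
    unfold rel
    split_ifs
    · rw [this.2]
    · exact this.1
  | imp φ ψ ih1 ih2 =>
    intro I hf hI v v' xs xs' k1 k2
    simp only [BoundedFormula.Realize]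
    rw [ih1 I hf hI v v' xs xs' k1 k2, ih2 I hf hI v v' xs xs' k1 k2]
  | @all n φ ih =>
    intro I hf hI v v' xs xs' k1 k2
    simp only [BoundedFormula.Realize]
    have k : ∀ p : M × M, PI Prod.fst Prod.snd (insert p I) →
        (φ.Realize v (Fin.snoc xs p.1) ↔ φ.Realize v' (Fin.snoc xs' p.2)) := fun p hp =>
      ih _ (hf.insert p) hp _ _ _ _ (fun b => Or.inr (k1 b)) (fun i => by
        refine Fin.lastCases ?_ (fun j => ?_) i
        · simp
        · simp [k2 j])
    constructor
    · intro H w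
      obtain ⟨p, rfl, hp⟩ := hI.symm.forth (fun a b => ⟨(b, a), rfl, rfl⟩) hf w
      exact (k p hp.symm).1 (H _)
    · intro H w
      obtain ⟨p, rfl, hp⟩ := hI.forth (fun a b => ⟨(a, b), rfl, rfl⟩) hf w
      exact (k p hp).2 (H _)

def Same {N N' : Type*} [L.Structure N] [L.Structure N'] (v : α → N) (v' : α → N') : Prop :=
  ∀ φ : L.Formula α, φ.Realize v ↔ φ.Realize v'

section
variable {N N' N'' : Type*} [L.Structure N] [L.Structure N'] [L.Structure N'']

lemma Same.symm {v : α → N} {v' : α → N'} (h : Same v v') : Same v' v := fun φ => (h φ).symm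
lemma Same.trans {v : α → N} {v' : α → N'} {v'' : α → N''} (h : Same v v') (h' : Same v' v'') :
    Same v v'' := fun φ => (h φ).trans (h' φ)
lemma Same.comp {v : α → N} {v' : α → N'} (h : Same v v') (g : β → α) : Same (v ∘ g) (v' ∘ g) :=
  fun φ => by rw [← Formula.realize_relabel, ← Formula.realize_relabel]; exact h _
lemma Same.eq {v : α → N} {v' : α → N'} (h : Same v v') (a b : α) : v a = v b ↔ v' a = v' b := by
  simpa using h ((Term.var a).equal (Term.var b))
end

lemma same_of [Fintype α] {v v' : α → M} (h1 : ∀ a b, v a = v b ↔ v' a = v' b)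
    (h2 : ∀ (c : α → K) b, rel b (∑ a, c a • nu (v a)) ↔ rel b (∑ a, c a • nu (v' a))) :
    Same v v' := by
  intro φ
  refine qe φ (Set.range fun a => (v a, v' a)) (Set.finite_range _) ⟨?_, fun z hz => ?_⟩ v v' _ _
    (fun b => ⟨b, rfl⟩) (fun i => i.elim0)
  · rintro _ ⟨a, rfl⟩ _ ⟨b, rfl⟩; exact h1 a b
  · rw [U, ← Set.range_comp, Submodule.mem_span_range_iff_exists_fun] at hz
    obtain ⟨c, rfl⟩ := hz
    simp only [Prod.fst_sum, Prod.snd_sum, Prod.smul_fst, Prod.smul_snd, Function.comp]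
    refine ⟨by simpa [rel] using h2 c false, ?_⟩
    have := h2 c true
    simp only [rel, if_true] at this
    revert this
    generalize (∑ a, c a • nu (v a)) 0 = s
    generalize (∑ a, c a • nu (v' a)) 0 = t
    revert s t; decide

noncomputable def linF [Fintype α] (c : α → K) (b : Bool) : L.Formula α :=
  Relations.formula (L := L) (n := Fintype.card α) (c ∘ (Fintype.equivFin α).symm, b)
    (fun i => Term.var ((Fintype.equivFin α).symm i))

lemma r_linF [Fintype α] (c : α → K) (b : Bool) (v : α → M) :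
    (linF c b).Realize v ↔ rel b (∑ a, c a • nu (v a)) := by
  refine Formula.realize_rel.trans ?_
  change rel b _ ↔ _
  rw [← (Fintype.equivFin α).symm.sum_comp]
  rfl

noncomputable def psi [Fintype α] : (α × α) ⊕ ((α → K) × Bool) → L.Formula α :=
  Sum.elim (fun p => (Term.var p.1).equal (Term.var p.2)) (fun p => linF p.1 p.2)

open Classical in
noncomputable def theta [Fintype α] (P : (α × α) ⊕ ((α → K) × Bool) → Prop) : L.Formula α :=
  Formula.iInf fun j => if P j then psi j else (psi j).not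

section
variable {N : Type*} [L.Structure N]

lemma r_theta [Fintype α] (P : (α × α) ⊕ ((α → K) × Bool) → Prop) (v : α → N) :
    (theta P).Realize v ↔ ∀ j, ((psi j).Realize v ↔ P j) := by
  simp only [theta, Formula.realize_iInf]
  refine forall_congr' fun j => ?_
  by_cases h : P j <;> simp [h]

lemma theta_same [Fintype α] {P : (α × α) ⊕ ((α → K) × Bool) → Prop} {v v' : α → M}
    (h : (theta P).Realize v) (h' : (theta P).Realize v') : Same v v' := by
  rw [r_theta] at h h'
  refine same_of (fun a b => ?_) (fun c b => ?_)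
  · simpa [psi] using (h (.inl (a, b))).trans (h' (.inl (a, b))).symm
  · simpa [psi, r_linF] using (h (.inr (c, b))).trans (h' (.inr (c, b))).symm

variable [N ⊨ L.completeTheory M]

lemma transfer [Finite α] (φ : L.Formula α) (h : ∀ v : α → M, φ.Realize v) (v : α → N) :
    φ.Realize v := by
  let σ : L.Sentence := Formula.iAlls α (φ.relabel Sum.inr)
  have h0 : M ⊨ σ := by
    simp only [σ, Sentence.Realize, Formula.realize_iAlls, Formula.realize_relabel]
    intro i; exact h _
  have h1 : N ⊨ σ := (realize_iff_of_model_completeTheory M N σ).2 h0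
  simp only [σ, Sentence.Realize, Formula.realize_iAlls, Formula.realize_relabel] at h1
  exact h1 v

lemma theta_same' [Fintype α] {P : (α × α) ⊕ ((α → K) × Bool) → Prop} {v : α → N} {v' : α → M}
    (h : (theta P).Realize v) (h' : (theta P).Realize v') : Same v v' := by
  have k : ∀ φ : L.Formula α, φ.Realize v' → φ.Realize v := fun φ hφ =>
    Formula.realize_imp.1 (transfer ((theta P).imp φ) (fun w => Formula.realize_imp.2 fun hw =>
      (theta_same hw h' φ).2 hφ) v) h
  refine fun φ => ⟨fun hφ => ?_, k φ⟩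
  by_contra e
  exact Formula.realize_not.1 (k φ.not (Formula.realize_not.2 e)) hφ

lemma a1 [Finite α] (v : α → N) : ∃ v0 : α → M, Same v v0 := by
  have := Fintype.ofFinite α
  have h : (theta fun j => (psi j).Realize v).Realize v := (r_theta _ _).2 fun _ => Iff.rfl
  by_contra e
  exact Formula.realize_not.1 (transfer _ (fun w => Formula.realize_not.2 fun hw =>
    e ⟨w, theta_same' h hw⟩) v) h

lemma a2 [Finite α] [Finite β] {v : α → N} {v0 : α → M} (h : Same v v0) (w0 : β → M) :
    ∃ w : β → N, Same (Sum.elim w v) (Sum.elim w0 v0) := by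
  have := Fintype.ofFinite (β ⊕ α)
  have h0 : (theta fun j => (psi j).Realize (Sum.elim w0 v0)).Realize (Sum.elim w0 v0) :=
    (r_theta _ _).2 fun _ => Iff.rfl
  have := (h (Formula.iExs β ((theta fun j => (psi j).Realize (Sum.elim w0 v0)).relabel
    Sum.swap))).2 (by
      simp only [Formula.realize_iExs, Formula.realize_relabel]
      exact ⟨w0, by convert h0 using 1; funext x; rcases x with x | x <;> rfl⟩)
  simp only [Formula.realize_iExs, Formula.realize_relabel] at this
  obtain ⟨w, hw⟩ := this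
  exact ⟨w, theta_same' (by convert hw using 1; funext x; rcases x with x | x <;> rfl) h0⟩

lemma a3 {N' : Type*} [L.Structure N'] [N' ⊨ L.completeTheory M] [Finite α] [Finite β]
    {v : α → N} {v' : α → N'} (h : Same v v') (w : β → N) :
    ∃ w' : β → N', Same (Sum.elim w v) (Sum.elim w' v') := by
  obtain ⟨u, hu⟩ := a1 (Sum.elim w v)
  obtain ⟨w', hw'⟩ := a2 (h.symm.trans (hu.comp Sum.inr)) (u ∘ Sum.inl)
  refine ⟨w', hu.trans ?_⟩
  convert hw'.symm using 1
  funext x; rcases x with x | x <;> rfl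

lemma same_empty {N' : Type*} [L.Structure N'] [N' ⊨ L.completeTheory M] [IsEmpty α]
    (v : α → N) (v' : α → N') : Same v v' := by
  obtain ⟨u, hu⟩ := a1 v
  obtain ⟨u', hu'⟩ := a1 v'
  exact hu.trans (Subsingleton.elim u u' ▸ hu'.symm)

def Good {N' : Type*} [L.Structure N'] (I : Set (N × N')) : Prop :=
  ∀ (n : ℕ) (v : Fin n → N × N'), (∀ i, v i ∈ I) → Same (Prod.fst ∘ v) (Prod.snd ∘ v)

omit [N ⊨ L.completeTheory M] in
lemma good_of {N' : Type*} [L.Structure N'] {I : Set (N × N')} (e : α → N × N')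
    (he : I ⊆ Set.range e) (h : Same (Prod.fst ∘ e) (Prod.snd ∘ e)) : Good I := by
  intro n v hv
  choose g hg using fun i => he (hv i)
  have : v = e ∘ g := funext fun i => (hg i).symm
  subst this
  exact h.comp g

lemma iso {N' : Type*} [L.Structure N'] [N' ⊨ L.completeTheory M] [Countable N] [Countable N'] :
    Nonempty (N ≃[L] N') := by
  let P := {I : Set (N × N') // I.Finite ∧ Good I}
  have henum : ∀ I : P, ∃ n, ∃ v : Fin n → N × N', I.1 = Set.range v := fun I => by
    obtain ⟨n, f, -, hf⟩ := I.2.1.fin_param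
    exact ⟨n, f, hf.symm⟩
  have hins : ∀ (I : P) n (v : Fin n → N × N') (p : N × N'), I.1 = Set.range v →
      Same (Sum.elim (fun _ : Unit => p.1) (Prod.fst ∘ v))
        (Sum.elim (fun _ : Unit => p.2) (Prod.snd ∘ v)) → Good (insert p I.1) := by
    intro I n v p hv h
    refine good_of (Sum.elim (fun _ : Unit => p) v) ?_ ?_
    · rw [hv]
      rintro _ (rfl | ⟨i, rfl⟩)
      · exact ⟨.inl (), rfl⟩
      · exact ⟨.inr i, rfl⟩
    · convert h using 1 <;> funext x <;> rcases x with x | x <;> rfl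
  let D : N ⊕ N' → Order.Cofinal P := fun i => match i with
    | .inl a => ⟨{I | ∃ b, (a, b) ∈ I.1}, fun I => by
        obtain ⟨n, v, hv⟩ := henum I
        obtain ⟨w, hw⟩ := a3 (I.2.2 n v fun i => hv ▸ ⟨i, rfl⟩) (fun _ : Unit => a)
        exact ⟨⟨insert (a, w ()) I.1, I.2.1.insert _, hins I n v _ hv hw⟩,
          ⟨w (), Set.mem_insert _ _⟩, Set.subset_insert _ _⟩⟩
    | .inr b => ⟨{I | ∃ a, (a, b) ∈ I.1}, fun I => by
        obtain ⟨n, v, hv⟩ := henum I
        obtain ⟨w, hw⟩ := a3 (I.2.2 n v fun i => hv ▸ ⟨i, rfl⟩).symm (fun _ : Unit => b)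
        exact ⟨⟨insert (w (), b) I.1, I.2.1.insert _, hins I n v _ hv hw.symm⟩,
          ⟨w (), Set.mem_insert _ _⟩, Set.subset_insert _ _⟩⟩
  have := Encodable.ofCountable (N ⊕ N')
  let p0 : P := ⟨∅, Set.finite_empty, good_of (α := Empty) Empty.elim (Set.empty_subset _)
    (same_empty _ _)⟩
  let s := Order.sequenceOfCofinals p0 D
  have hJ : Good (⋃ n, (s n).1) := by
    intro n v hv
    choose k hk using fun i => Set.mem_iUnion.1 (hv i)
    obtain ⟨m, hm⟩ := (Set.finite_range k).bddAbove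
    exact (s m).2.2 n v fun i => Order.sequenceOfCofinals.monotone p0 D (hm ⟨i, rfl⟩) (hk i)
  have h1 : ∀ a, ∃ b, (a, b) ∈ ⋃ n, (s n).1 := fun a => by
    obtain ⟨b, hb⟩ := Order.sequenceOfCofinals.encode_mem p0 D (.inl a)
    exact ⟨b, Set.mem_iUnion.2 ⟨_, hb⟩⟩
  have h2 : ∀ b, ∃ a, (a, b) ∈ ⋃ n, (s n).1 := fun b => by
    obtain ⟨a, ha⟩ := Order.sequenceOfCofinals.encode_mem p0 D (.inr b)
    exact ⟨a, Set.mem_iUnion.2 ⟨_, ha⟩⟩
  have h3 : ∀ p ∈ ⋃ n, (s n).1, ∀ q ∈ ⋃ n, (s n).1, p.1 = q.1 ↔ p.2 = q.2 := fun p hp q hq =>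
    (hJ 2 ![p, q] (fun i => by fin_cases i <;> assumption)).eq 0 1
  choose f hf using h1
  have hb : Function.Bijective f := ⟨fun a b e => (h3 _ (hf a) _ (hf b)).2 e, fun b => by
    obtain ⟨a, ha⟩ := h2 b
    exact ⟨a, (h3 _ (hf a) _ ha).1 rfl⟩⟩
  refine ⟨⟨Equiv.ofBijective f hb, fun g => g.elim, fun {n} r x => ?_⟩⟩
  have := hJ n (fun i => (x i, f (x i))) (fun i => hf _) (Relations.formula r Term.var)
  rw [Formula.realize_rel, Formula.realize_rel] at this
  exact this.symm

end

end Pool.Agent.Lib.helper17.MZ
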