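import Mathlib

set_option autoImplicit false

namespace H17ModReg

open Filter Topology Set ENNReal

noncomputable def rho (a : ℕ → ℝ) : ℝ≥0∞ := ∑' j, ENNReal.ofReal (|a j| ^ (j + 1))

theorem lt_one {a : ℕ → ℝ} (h : rho a < 1) (j : ℕ) : |a j| < 1 := by
  have := (ENNReal.le_tsum j).trans_lt h
  rw [ofReal_lt_one] at this
  exact lt_of_pow_lt_pow_left₀ (j + 1) zero_le_one (by rwa [one_pow])

theorem small {ε : ℝ≥0∞} (h : 0 < ε) : ∀ᶠ n in atTop, ∀ a : ℕ → ℝ, (∀ j < n, a j = 0) →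
    (∀ j, |a j| ≤ 9 / 10) → rho a < ε := by
  have s : Summable fun j : ℕ => (9 / 10 : NNReal) ^ (j + 1) :=
    (NNReal.summable_nat_add_iff 1).mpr (NNReal.summable_geometric (by norm_num))
  refine ((ENNReal.tendsto_sum_nat_add _ (tsum_coe_ne_top_iff_summable.mpr s)).eventually
    (gt_mem_nhds h)).mono fun n c a h0 h1 => lt_of_le_of_lt ?_ c
  rw [rho, ← (ENNReal.summable).sum_add_tsum_nat_add' (k := n), Finset.sum_eq_zero fun j c => by
    simp [h0 j (Finset.mem_range.mp c)], zero_add]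
  refine ENNReal.tsum_le_tsum fun j => ?_
  rw [← ofReal_coe_nnreal]
  exact ofReal_le_ofReal (by simpa using pow_le_pow_left₀ (abs_nonneg _) (h1 _) _)

noncomputable def y (N : ℕ) (s : ℕ → Bool) (c : ℝ) (j : ℕ) : ℝ :=
  if j < N then 0 else if s j then c else -c

def pat (i : ℕ × List Bool) (j : ℕ) : Bool :=
  if j < i.2.length then i.2.getD j true else j.unpair.1 = Encodable.encode i

noncomputable def z (i : ℕ × List Bool) : ℕ → ℝ :=
  y i.1 (pat i) (1 / 4) + y i.2.length (pat i) (9 / 10)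

theorem y_le (N : ℕ) (s : ℕ → Bool) {c : ℝ} (h : 0 ≤ c) (j : ℕ) : |y N s c j| ≤ c := by
  unfold y; split_ifs <;> simp [h, abs_of_nonneg]

/-- Core statement: `L` is any set of sequences containing the bounded ones. -/
theorem core (L : Set (ℕ → ℝ)) (hL : ∀ a, (∀ j, |a j| ≤ 2) → a ∈ L) :
    0 ∉ range z ∧ range z ⊆ L ∧ (∀ (x : ℕ → ℕ → ℝ) (w : ℕ → ℝ), (∀ k, x k ∈ range z) →
      Tendsto (fun k => rho (x k - w)) atTop (𝓝 0) → w ∈ range z) ∧
    ∀ U V : Set (ℕ → ℝ), (∀ x ∈ U, ∃ ε > 0, ∀ w ∈ L, rho (w - x) < ε → w ∈ U) →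
      (∀ x ∈ V, ∃ ε > 0, ∀ w ∈ L, rho (w - x) < ε → w ∈ V) → 0 ∈ U → range z ⊆ V →
      ∃ w ∈ L, w ∈ U ∧ w ∈ V := by
  have v : ∀ i i' k, i.1 + i.2.length ≤ k → z i (Nat.pair (Encodable.encode i') k) =
      if i' = i then 23 / 20 else -(23 / 20) := fun i i' k c => by
    have := Nat.right_le_pair (Encodable.encode i') k
    have a : ¬ Nat.pair (Encodable.encode i') k < i.1 := by omega
    have b : ¬ Nat.pair (Encodable.encode i') k < i.2.length := by omega
    by_cases e : i' = i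
    · subst e
      simp only [z, y, pat, a, b, Pi.add_apply, Nat.unpair_pair, if_false, decide_true, if_true]
      norm_num
    · simp only [z, y, pat, a, b, Pi.add_apply, Nat.unpair_pair, if_false, e, Encodable.encode_inj,
        decide_false, Bool.false_eq_true]
      norm_num
  have m : ∀ N M s t, y N s (1 / 4) + y M t (9 / 10) ∈ L := fun N M s t => hL _ fun j =>
    (abs_add_le _ _).trans (by
      linarith [y_le N s (c := 1 / 4) (by norm_num) j, y_le M t (c := 9 / 10) (by norm_num) j])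
  refine ⟨fun ⟨i, e⟩ => ?_, range_subset_iff.mpr fun i => m _ _ _ _, fun x w hx h => ?_,
    fun U V hU hV h0 hF => ?_⟩
  · have := v i i _ le_rfl
    norm_num [e] at this
  · obtain ⟨K, c⟩ := eventually_atTop.mp (h.eventually (gt_mem_nhds one_pos))
    choose i hi using hx
    have e : ∀ k ≥ K, x k = x K := fun k l => by
      rw [← hi, ← hi]
      by_contra n
      have a := v (i k) (i k) ((i k).1 + (i k).2.length + ((i K).1 + (i K).2.length)) (by omega)
      have b := v (i K) (i k) ((i k).1 + (i k).2.length + ((i K).1 + (i K).2.length)) (by omega)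
      rw [if_neg fun c => n (by rw [c]), hi] at b
      rw [if_pos rfl, hi] at a
      have c1 := abs_lt.mp (lt_one (c k l) (Nat.pair (Encodable.encode (i k))
        ((i k).1 + (i k).2.length + ((i K).1 + (i K).2.length))))
      have c2 := abs_lt.mp (lt_one (c K le_rfl) (Nat.pair (Encodable.encode (i k))
        ((i k).1 + (i k).2.length + ((i K).1 + (i K).2.length))))
      simp only [Pi.sub_apply, a, b] at c1 c2
      linarith
    have : rho (x K - w) = 0 := tendsto_nhds_unique (tendsto_const_nhds.congr'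
      ((eventually_ge_atTop K).mono fun k l => by simp only [e k l])) h
    refine ⟨i K, (hi K).trans (funext fun j => sub_eq_zero.mp (abs_nonpos_iff.mp ?_))⟩
    exact (pow_eq_zero_iff j.succ_ne_zero).mp (le_antisymm (ofReal_eq_zero.mp
      (ENNReal.tsum_eq_zero.mp this j)) (by positivity)) |>.le
  obtain ⟨ε, e, c⟩ := hU 0 h0
  obtain ⟨N, hN⟩ := (small e).exists
  have u : ∀ s, y N s (1 / 4) ∈ U := fun s => c _ (hL _ fun j =>
    (y_le N s (by norm_num) j).trans (by norm_num)) (by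
      rw [sub_zero]
      exact hN _ (fun j l => if_pos l) fun j => (y_le N s (by norm_num) j).trans (by norm_num))
  obtain ⟨k, s, hs⟩ := nonempty_interior_of_iUnion_of_closed (f := fun k : ℕ => closure
    {s : ℕ → Bool | ∀ w ∈ L, rho (w - y N s (1 / 4)) < (k : ℝ≥0∞)⁻¹ → w ∈ U})
    (fun _ => isClosed_closure) (eq_univ_of_forall fun s => by
      obtain ⟨ε, e, c⟩ := hU _ (u s)
      obtain ⟨k, l⟩ := ENNReal.exists_inv_nat_lt e.ne'
      exact mem_iUnion.mpr ⟨k, subset_closure fun w a b => c w a (b.trans l)⟩)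
  have t : Tendsto (fun n => pat (N, (List.range n).map s)) atTop (𝓝 s) := tendsto_pi_nhds.mpr
    fun j => tendsto_const_nhds.congr' ((eventually_gt_atTop j).mono fun n l => by simp [pat, l])
  obtain ⟨n, h1, h2⟩ := ((t.eventually (mem_interior_iff_mem_nhds.mp hs)).and
    (small (ENNReal.inv_pos.mpr (natCast_ne_top k)))).exists
  set i := (N, (List.range n).map s)
  obtain ⟨δ, d, g⟩ := hV _ (hF ⟨i, rfl⟩)
  obtain ⟨M, hM⟩ := (small d).exists
  obtain ⟨r, r1, r2⟩ := mem_closure_iff_nhds.mp h1 {r | ∀ j ∈ Finset.range M, r j = pat i j}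
    ((eventually_all_finset _).mpr fun j _ => (continuous_apply j).continuousAt.eventually
      (isOpen_discrete {pat i j} |>.mem_nhds rfl))
  refine ⟨_, m N i.2.length r (pat i), r2 _ (m _ _ _ _) ?_, g _ (m _ _ _ _) ?_⟩
  · rw [add_sub_cancel_left]
    exact h2 _ (fun j l => if_pos (by simpa [i] using l)) (y_le _ _ (by norm_num))
  · rw [z, add_sub_add_right_eq_sub]
    refine hM _ (fun j l => by simp [y, r1 j (Finset.mem_range.mpr l), i]) fun j =>
      (abs_sub _ _).trans ?_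
    linarith [y_le N r (c := 1 / 4) (by norm_num) j, y_le i.1 (pat i) (c := 1 / 4) (by norm_num) j]

theorem bdd (a : ℕ → ℝ) (h : ∀ j, |a j| ≤ 2) : rho ((1 / 4 : ℝ) • a) < ⊤ := by
  have s : Summable fun j : ℕ => (1 / 2 : ℝ) ^ (j + 1) :=
    (summable_nat_add_iff 1).mpr summable_geometric_two
  refine lt_of_le_of_lt (ENNReal.tsum_le_tsum fun j => ofReal_le_ofReal (pow_le_pow_left₀
    (abs_nonneg _) (b := 1 / 2) ?_ _)) s.tsum_ofReal_lt_top
  rw [Pi.smul_apply, smul_eq_mul, abs_mul, abs_of_pos (by norm_num)]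
  linarith [h j]

theorem main (L : Set (ℕ → ℝ)) (hL : ∀ a, (∃ l : ℝ, 0 < l ∧ rho (l • a) < ⊤) → a ∈ L)
    (C : Set L → Prop) (hC : ∀ F, C F ↔ ∀ (x : ℕ → L) (w : L), (∀ k, x k ∈ F) →
      Tendsto (fun k => rho (x k - w)) atTop (𝓝 0) → w ∈ F) :
    ∃ (x : L) (F : Set L), C F ∧ x ∉ F ∧
      ∀ U V : Set L, C Uᶜ → C Vᶜ → x ∈ U → F ⊆ V → (U ∩ V).Nonempty := by
  have b : ∀ a, (∀ j, |a j| ≤ 2) → a ∈ L := fun a h => hL a ⟨_, by norm_num, bdd a h⟩
  obtain ⟨h1, h2, h3, h4⟩ := core L b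
  have o : ∀ U : Set L, C Uᶜ → ∀ x ∈ Subtype.val '' U, ∃ ε > 0, ∀ w ∈ L, rho (w - x) < ε →
      w ∈ Subtype.val '' U := by
    rintro U h _ ⟨x, c, rfl⟩
    by_contra! n
    choose w a d e using fun k : ℕ => n (k : ℝ≥0∞)⁻¹ (ENNReal.inv_pos.mpr (natCast_ne_top k))
    exact (hC _).mp h (fun k => ⟨w k, a k⟩) x (fun k f => e k ⟨_, f, rfl⟩)
      (tendsto_of_tendsto_of_tendsto_of_le_of_le tendsto_const_nhds ENNReal.tendsto_inv_nat_nhds_zero
        (fun _ => zero_le) fun k => (d k).le) c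
  refine ⟨⟨0, b _ (by simp)⟩, Subtype.val ⁻¹' range z, (hC _).mpr fun x w => h3 _ _, h1,
    fun U V a c d e => ?_⟩
  obtain ⟨_, -, ⟨w, f, rfl⟩, w', g, k⟩ := h4 _ _ (o U a) (o V c) ⟨_, d, rfl⟩
    fun w f => ⟨⟨w, h2 f⟩, e f, rfl⟩
  exact ⟨w, f, Subtype.ext k ▸ g⟩

end H17ModReg
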