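import Mathlib

set_option autoImplicit false
set_option linter.unusedSectionVars false

namespace Pool.Agent.Lib.helper17.NO

open Polynomial

section semi
variable {F : Type} [Field F] [CharZero F]

structure Semi (Q : Set F) : Prop where
  add : ∀ a ∈ Q, ∀ b ∈ Q, a + b ∈ Q
  anti : ∀ a ∈ Q, -a ∈ Q → a = 0
  tot : ∀ a, a ∈ Q ∨ -a ∈ Q
  sq : ∀ s, ∀ a ∈ Q, s ^ 2 * a ∈ Q

lemma Semi.zero {Q : Set F} (h : Semi Q) : (0 : F) ∈ Q := by simpa using h.tot 0

lemma Semi.nat {Q : Set F} (h : Semi Q) {a : F} (ha : a ∈ Q) (n : ℕ) : (n : F) * a ∈ Q := by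
  induction n with
  | zero => simpa using h.zero
  | succ n ih => push_cast; rw [add_mul, one_mul]; exact h.add _ ih _ ha

lemma Semi.div {Q : Set F} (h : Semi Q) {a : F} {n : ℕ} (hn : n ≠ 0) (ha : (n : F) * a ∈ Q) :
    a ∈ Q := by
  have := h.sq (n : F)⁻¹ _ (h.nat ha n)
  have h0 : (n : F) ≠ 0 := by exact_mod_cast hn
  convert this using 1
  field_simp

lemma Semi.rat {Q : Set F} (h : Semi Q) {a : F} (ha : a ∈ Q) {q : ℚ} (hq : 0 ≤ q) :
    (q : F) * a ∈ Q := by
  refine h.div q.den_ne_zero ?_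
  have : (q.den : ℚ) * q = (q.num.toNat : ℕ) := by
    rw [Rat.den_mul_eq_num, ← Int.cast_natCast, Int.toNat_of_nonneg (Rat.num_nonneg.2 hq)]
  have e : (q.den : F) * q = (q.num.toNat : ℕ) := by exact_mod_cast congrArg (Rat.cast : ℚ → F) this
  rw [← mul_assoc, e]
  exact h.nat ha _

def Semi.C {Q : Set F} (h : Semi Q) (x : Q) : Submodule ℚ F where
  carrier := {y | ∃ n : ℕ, n * x.1 - y ∈ Q ∧ n * x.1 + y ∈ Q}
  zero_mem' := ⟨0, by simpa using h.zero⟩
  add_mem' := by
    rintro a b ⟨n, h1, h2⟩ ⟨m, h3, h4⟩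
    refine ⟨n + m, ?_, ?_⟩
    · convert h.add _ h1 _ h3 using 1; push_cast; ring
    · convert h.add _ h2 _ h4 using 1; push_cast; ring
  smul_mem' := by
    rintro q y ⟨n, h1, h2⟩
    obtain ⟨N, hN⟩ := exists_nat_ge (|q| * n)
    have h3 := h.rat x.2 (sub_nonneg.2 hN)
    rw [Rat.smul_def]
    rcases abs_cases q with ⟨e, hq⟩ | ⟨e, hq⟩ <;> rw [e] at h3
    · refine ⟨N, ?_, ?_⟩
      · convert h.add _ h3 _ (h.rat h1 hq) using 1; push_cast; ring
      · convert h.add _ h3 _ (h.rat h2 hq) using 1; push_cast; ring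
    · refine ⟨N, ?_, ?_⟩
      · convert h.add _ h3 _ (h.rat h2 (neg_pos.2 hq).le) using 1; push_cast; ring
      · convert h.add _ h3 _ (h.rat h1 (neg_pos.2 hq).le) using 1; push_cast; ring

lemma Semi.arch [FiniteDimensional ℚ F] {Q : Set F} (h : Semi Q) (x y : F) (hy : y ∈ Q)
    (h0 : y ≠ 0) : ∃ n : ℕ, n * y - x ∈ Q := by
  obtain ⟨_, ⟨x0, rfl⟩, hmax⟩ := (wellFounded_gt (α := Submodule ℚ F)).has_min (Set.range h.C)
    ⟨_, ⟨0, h.zero⟩, rfl⟩
  have self : ∀ z : Q, z.1 ∈ h.C z := fun z =>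
    ⟨1, by simpa using h.zero, by simpa using h.add _ z.2 _ z.2⟩
  have h1 : ∀ z ∈ Q, z ∈ h.C x0 := by
    intro z hz
    rcases h.tot (x0 - z) with h2 | h2
    · exact ⟨1, by simpa using h2, by simpa using h.add _ x0.2 _ hz⟩
    · have h3 : h.C x0 ≤ h.C ⟨z, hz⟩ := by
        rintro w ⟨n, h4, h5⟩
        refine ⟨n, ?_, ?_⟩
        · convert h.add _ h4 _ (h.nat h2 n) using 1; ring
        · convert h.add _ h5 _ (h.nat h2 n) using 1; ring
      rw [h3.eq_of_not_lt (hmax _ ⟨_, rfl⟩)]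
      exact self ⟨z, hz⟩
  have h2 : ∀ z, z ∈ h.C x0 := fun z =>
    (h.tot z).elim (h1 z) (fun hz => by simpa using (h.C x0).neg_mem (h1 _ hz))
  have hsq : ∀ s z : F, (∀ n : ℕ, x0.1 - n * z ∈ Q) → ∀ n : ℕ, x0.1 - n * (s ^ 2 * z) ∈ Q := by
    intro s z hz n
    obtain ⟨N, h3, -⟩ := h2 (s ^ 2 * x0)
    refine h.div (Nat.succ_ne_zero N) ?_
    convert h.add _ (h.add _ h3 _ x0.2) _ (h.sq s _ (hz ((N + 1) * n))) using 1
    push_cast; ring
  obtain ⟨n, hn⟩ : ∃ n : ℕ, n * y - x0.1 ∈ Q := by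
    by_contra hc
    push Not at hc
    have a1 : ∀ n : ℕ, x0.1 - n * y ∈ Q := fun n => by
      simpa using (h.tot _).resolve_left (hc n)
    have a2 : ∀ n : ℕ, x0.1 - n * (-y) ∈ Q := fun n => by
      simpa using h.add _ x0.2 _ (h.nat hy n)
    have a3 := h.add _ (hsq ((x0.1 / y + 1) / 2) _ a1 4) _ (hsq ((x0.1 / y - 1) / 2) _ a2 4)
    have a4 : -x0.1 ∈ Q := by
      refine h.div two_ne_zero ?_
      convert a3 using 1
      push_cast; field_simp; ring
    obtain ⟨N, h3, -⟩ := h2 y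
    rw [h.anti _ x0.2 a4] at h3
    exact h0 (h.anti y hy (by simpa using h3))
  obtain ⟨N, h3, -⟩ := h2 x
  refine ⟨N * n, ?_⟩
  convert h.add _ h3 _ (h.nat hn N) using 1
  push_cast; ring

lemma Semi.hol [FiniteDimensional ℚ F] {Q : Set F} (h : Semi Q) :
    ∃ f : F →+ ℝ, Function.Injective f ∧ ∀ t, t ∈ Q ↔ 0 ≤ f t := by
  classical
  let _ : LinearOrder F :=
    { le := fun a b => b - a ∈ Q
      le_refl := fun a => by simpa using h.zero
      le_trans := fun a b c h1 h2 => by simpa using h.add _ h2 _ h1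
      le_antisymm := fun a b h1 h2 => (sub_eq_zero.1 (h.anti _ h1 (by simpa using h2))).symm
      le_total := fun a b => by simpa using h.tot (b - a)
      toDecidableLE := Classical.decRel _ }
  have hle : ∀ a b : F, a ≤ b ↔ b - a ∈ Q := fun _ _ => Iff.rfl
  have : IsOrderedAddMonoid F :=
    { add_le_add_left := fun a b h1 c => by rw [hle] at *; simpa using h1 }
  have : Archimedean F := ⟨fun x y hy => by
    obtain ⟨n, hn⟩ := h.arch x y (by simpa using (hle _ _).1 hy.le) hy.ne'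
    exact ⟨n, by rw [hle, nsmul_eq_mul]; exact hn⟩⟩
  obtain ⟨f, hf⟩ := Archimedean.exists_orderAddMonoidHom_real_injective F
  refine ⟨f, hf, fun t => ?_⟩
  have := (f.monotone'.strictMono_of_injective hf).le_iff_le (a := 0) (b := t)
  rw [hle, sub_zero] at this
  rw [← this]
  simp

lemma rat_eq {a b : ℝ} (h : ∀ q : ℚ, q ≤ a ↔ q ≤ b) : a = b :=
  eq_of_forall_lt_rat_iff_lt (fun q => by simpa using not_congr (h q))

lemma Semi.real1 [FiniteDimensional ℚ F] {Q : Set F} (h : Semi Q) (h1 : (1 : F) ∈ Q) :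
    ∃ s : F →+* ℝ, ∀ t, t ∈ Q ↔ 0 ≤ s t := by
  obtain ⟨f, hf, hQ⟩ := h.hol
  have pos : ∀ t ∈ Q, t ≠ 0 → 0 < f t := fun t ht h0 =>
    lt_of_le_of_ne ((hQ t).1 ht) (fun e => h0 (hf (by rw [← e, map_zero])))
  have f1 := pos 1 h1 one_ne_zero
  have hq : ∀ (q : ℚ) (x : F), f (q * x) = q * f x := fun q x => by
    have := map_rat_smul f q x
    rwa [Rat.smul_def, Rat.smul_def] at this
  have key : ∀ s x : F, f (s ^ 2 * x) * f 1 = f (s ^ 2) * f x := by
    intro s x
    by_cases hs : s = 0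
    · simp [hs]
    have g1 := pos (s ^ 2) (by simpa using h.sq s 1 h1) (pow_ne_zero _ hs)
    have : f (s ^ 2 * x) / f (s ^ 2) = f x / f 1 := by
      refine rat_eq (fun q => ?_)
      rw [le_div_iff₀ g1, le_div_iff₀ f1, ← sub_nonneg, ← sub_nonneg (a := f x), ← hq, ← hq,
        ← map_sub, ← map_sub, ← hQ, ← hQ]
      constructor
      · intro h2
        convert h.sq s⁻¹ _ h2 using 1
        field_simp
      · intro h2
        convert h.sq s _ h2 using 1
        ring
    field_simp at this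
    linarith
  have key2 : ∀ y x : F, f (y * x) * f 1 = f y * f x := by
    intro y x
    have e : y = ((y + 1) / 2) ^ 2 - ((y - 1) / 2) ^ 2 := by field_simp; ring
    rw [e, sub_mul, map_sub, map_sub, sub_mul, sub_mul, key, key]
  refine ⟨{ toFun := fun x => f x / f 1
            map_one' := div_self f1.ne'
            map_mul' := fun x y => by field_simp; linarith [key2 x y]
            map_zero' := by simp
            map_add' := fun x y => by rw [map_add, add_div] }, fun t => ?_⟩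
  rw [hQ]
  exact (le_div_iff₀ f1).trans (by rw [zero_mul]) |>.symm

def sg (e : Bool) : ℝ := cond e 1 (-1)

lemma Semi.real [FiniteDimensional ℚ F] {Q : Set F} (h : Semi Q) :
    ∃ (s : F →+* ℝ) (e : Bool), ∀ t, t ∈ Q ↔ 0 ≤ sg e * s t := by
  rcases h.tot 1 with h1 | h1
  · obtain ⟨s, hs⟩ := h.real1 h1
    exact ⟨s, true, fun t => by simp [sg, hs]⟩
  · have h' : Semi {t | -t ∈ Q} :=
      ⟨fun a ha b hb => by simpa [add_comm] using h.add _ ha _ hb,
        fun a ha hb => h.anti a (by simpa using hb) ha,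
        fun a => (h.tot (-a)), fun s a ha => by simpa using h.sq s _ ha⟩
    obtain ⟨s, hs⟩ := h'.real1 h1
    exact ⟨s, false, fun t => by simpa [sg] using hs (-t)⟩

lemma sg_inj {s s' : F →+* ℝ} {e e' : Bool}
    (h : ∀ t, t ≠ 0 → (0 < sg e * s t ↔ 0 < sg e' * s' t)) : s = s' ∧ e = e' := by
  have h1 : e = e' := by
    have := h 1 one_ne_zero
    cases e <;> cases e' <;> simp [sg] at this ⊢ <;> linarith
  subst h1
  refine ⟨RingHom.ext (fun t => ?_), rfl⟩
  have h2 : ∀ t, 0 < s t ↔ 0 < s' t := by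
    intro t
    by_cases ht : t = 0
    · simp [ht]
    · cases e
      · simpa [sg] using h (-t) (neg_ne_zero.2 ht)
      · simpa [sg] using h t ht
  refine eq_of_forall_rat_lt_iff_lt (fun q => ?_)
  simpa using h2 (t - q)

end semi

noncomputable def ff (m : ℕ) : ℤ[X] := ∏ i ∈ Finset.range m, (X - C (8 * (i : ℤ))) + C 2

lemma ff_monic {m : ℕ} (hm : 0 < m) : (ff m).Monic ∧ (ff m).natDegree = m := by
  have h1 : (∏ i ∈ Finset.range m, (X - C (8 * (i : ℤ)))).Monic :=
    monic_prod_of_monic _ _ (fun i _ => monic_X_sub_C _)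
  have h2 : (∏ i ∈ Finset.range m, (X - C (8 * (i : ℤ)))).natDegree = m := by
    rw [natDegree_prod_of_monic _ _ (fun i _ => monic_X_sub_C _)]
    simp only [natDegree_X_sub_C]
    simp
  refine ⟨h1.add_of_left ?_, by rw [ff, natDegree_add_C, h2]⟩
  refine degree_C_le.trans_lt ?_
  rw [degree_eq_natDegree h1.ne_zero, h2]
  exact_mod_cast hm

lemma ff_irr {m : ℕ} (hm : 0 < m) : Irreducible (ff m) := by
  obtain ⟨h1, h2⟩ := ff_monic hm
  have hp : (Ideal.span {(2 : ℤ)}).IsPrime :=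
    (Ideal.span_singleton_prime two_ne_zero).2 Int.prime_two
  have hd : (ff m).degree = m := by rw [degree_eq_natDegree h1.ne_zero, h2]
  refine irreducible_of_eisenstein_criterion hp ?_ ?_ (by rw [hd]; exact_mod_cast hm) ?_
    h1.isPrimitive
  · rw [h1.leadingCoeff, Ideal.mem_span_singleton]; norm_num
  · intro n hn
    rw [hd] at hn
    have hn' : n < m := by exact_mod_cast hn
    have e : (ff m).map (Int.castRingHom (ZMod 2)) = X ^ m := by
      have e2 : Int.castRingHom (ZMod 2) 2 = 0 := rfl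
      have e8 : Int.castRingHom (ZMod 2) 8 = 0 := rfl
      simp only [ff, Polynomial.map_add, Polynomial.map_prod, Polynomial.map_sub, map_X, map_C,
        map_mul (Int.castRingHom (ZMod 2)), e2, e8, zero_mul, map_zero, sub_zero, add_zero,
        Finset.prod_const, Finset.card_range]
    have := congrArg (fun p => p.coeff n) e
    simp only [coeff_map, coeff_X_pow, hn'.ne, if_false] at this
    rw [Ideal.mem_span_singleton]
    exact (ZMod.intCast_zmod_eq_zero_iff_dvd _ 2).1 this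
  · rw [Ideal.span_singleton_pow, Ideal.mem_span_singleton, coeff_zero_eq_eval_zero, ff, eval_add,
      eval_prod, Finset.prod_eq_zero (Finset.mem_range.2 hm) (by simp)]
    norm_num

lemma ff_root {m j : ℕ} (hj : j < m) :
    ∃ x : ℝ, 8 * j - 4 < x ∧ x < 8 * j + 4 ∧ aeval x (ff m) = 0 := by
  have hg : ∀ x : ℝ, aeval x (ff m) = ∏ i ∈ Finset.range m, (x - 8 * i) + 2 := fun x => by
    simp [ff, map_prod, map_ofNat]
  have hb : ∀ k : ℤ, (4 : ℝ) ≤ |∏ i ∈ Finset.range m, ((8 * k + 4 : ℝ) - 8 * i)| := by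
    intro k
    rw [Finset.abs_prod]
    calc (4 : ℝ) ≤ 4 ^ m := le_self_pow₀ (by norm_num) (by omega)
      _ = ∏ i ∈ Finset.range m, (4 : ℝ) := by simp
      _ ≤ _ := Finset.prod_le_prod (fun _ _ => by norm_num) (fun i _ => by
        have : (4 : ℤ) ≤ |8 * k + 4 - 8 * i| := by
          rcases abs_cases (8 * k + 4 - 8 * i : ℤ) with h | h <;> omega
        exact_mod_cast this)
  have b1 := hb (j - 1)
  have b2 := hb j
  push_cast at b1 b2
  rw [show (8 * ((j : ℝ) - 1) + 4) = 8 * j - 4 by ring] at b1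
  have hs : (∏ i ∈ Finset.range m, ((8 * j - 4 : ℝ) - 8 * i)) *
      (∏ i ∈ Finset.range m, ((8 * j + 4 : ℝ) - 8 * i)) < 0 := by
    rw [← Finset.prod_mul_distrib, ← Finset.mul_prod_erase _ _ (Finset.mem_range.2 hj)]
    refine mul_neg_of_neg_of_pos (by norm_num) (Finset.prod_pos (fun i hi => ?_))
    have h1 : (i : ℤ) ≠ j := by exact_mod_cast (Finset.mem_erase.1 hi).1
    have : (0 : ℤ) < (8 * j - 4 - 8 * i) * (8 * j + 4 - 8 * i) := by
      rcases lt_or_gt_of_ne h1 with h | h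
      · exact mul_pos (by omega) (by omega)
      · exact mul_pos_of_neg_of_neg (by omega) (by omega)
    exact_mod_cast this
  have hc : ContinuousOn (fun x : ℝ => aeval x (ff m)) (Set.Icc (8 * j - 4) (8 * j + 4)) :=
    (Polynomial.continuous_aeval _).continuousOn
  have hl : (8 * j - 4 : ℝ) ≤ 8 * j + 4 := by linarith
  rcases mul_neg_iff.1 hs with ⟨h1, h2⟩ | ⟨h1, h2⟩
  · rw [abs_of_neg h2] at b2
    obtain ⟨x, hx, e⟩ := intermediate_value_Ioo' hl hc (show (0 : ℝ) ∈ _ from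
      ⟨by simp only [hg]; linarith, by simp only [hg]; linarith⟩)
    exact ⟨x, hx.1, hx.2, e⟩
  · rw [abs_of_neg h1] at b1
    obtain ⟨x, hx, e⟩ := intermediate_value_Ioo hl hc (show (0 : ℝ) ∈ _ from
      ⟨by simp only [hg]; linarith, by simp only [hg]; linarith⟩)
    exact ⟨x, hx.1, hx.2, e⟩

open IntermediateField in
theorem ex_field {m : ℕ} (hm : 0 < m) :
    ∃ K : IntermediateField ℚ ℝ, FiniteDimensional ℚ K ∧ Nat.card (K →+* ℝ) = m := by
  classical
  obtain ⟨h1, h2⟩ := ff_monic hm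
  have h3 := (h1.irreducible_iff_irreducible_map_fraction_map (K := ℚ)).1 (ff_irr hm)
  have h4 : ((ff m).map (algebraMap ℤ ℚ)).Monic := h1.map _
  choose x x1 x2 x3 using fun j : Fin m => ff_root j.2
  have x4 : ∀ j, aeval (x j) ((ff m).map (algebraMap ℤ ℚ)) = 0 := fun j => by
    rw [aeval_map_algebraMap]; exact x3 j
  have hi : IsIntegral ℚ (x ⟨0, hm⟩) := ⟨_, h4, x4 _⟩
  refine ⟨ℚ⟮x ⟨0, hm⟩⟯, adjoin.finiteDimensional hi, ?_⟩
  rw [Nat.card_congr ((RingHom.equivRatAlgHom _ _).trans (algHomAdjoinIntegralEquiv ℚ hi)),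
    ← minpoly.eq_of_irreducible_of_monic h3 (x4 _) h4]
  generalize hp : (ff m).map (algebraMap ℤ ℚ) = p at *
  have h5 : p.natDegree = m := by rw [← hp, h1.natDegree_map, h2]
  have xi : Function.Injective x := by
    intro i j e
    have a1 := x1 i
    have a2 := x2 i
    have a3 := x1 j
    have a4 := x2 j
    rw [e] at a1 a2
    have b1 : (i : ℕ) < (j : ℕ) + 1 := by
      have : ((i : ℕ) : ℝ) < (j : ℕ) + 1 := by linarith
      exact_mod_cast this
    have b2 : (j : ℕ) < (i : ℕ) + 1 := by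
      have : ((j : ℕ) : ℝ) < (i : ℕ) + 1 := by linarith
      exact_mod_cast this
    exact Fin.ext (by omega)
  have e : Nat.card {y // y ∈ p.aroots ℝ} = (p.aroots ℝ).toFinset.card := by
    rw [← Nat.card_eq_finsetCard]
    exact Nat.card_congr (Equiv.subtypeEquivRight (fun y => Multiset.mem_toFinset.symm))
  rw [e]
  apply le_antisymm
  · exact (Multiset.toFinset_card_le _).trans ((card_roots' _).trans (natDegree_map_le.trans h5.le))
  · have := Finset.card_le_card_of_injOn (s := Finset.univ) (t := (p.aroots ℝ).toFinset) x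
      (fun j _ => by simpa using ⟨h4.ne_zero, x4 j⟩) xi.injOn
    simpa using this

end Pool.Agent.Lib.helper17.NO
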