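import Mathlib
import Pool.Prelude.Def_F_6038d89f

set_option autoImplicit false

namespace Pool.Agent.Lib.helper17.PO

open N5f09da3c
open scoped commutatorElement

section
variable {G : Type} [Group G]

def S (a : G) : Subsemigroup G := Subsemigroup.closure {x | ∃ h, x = h * a * h⁻¹}

lemma conj_mem_S (a h : G) : h * a * h⁻¹ ∈ S a := Subsemigroup.subset_closure ⟨h, rfl⟩

lemma self_mem_S (a : G) : a ∈ S a := by simpa using conj_mem_S a 1

lemma S_le {a : G} (P : G → Prop) (hm : ∀ x y, P x → P y → P (x * y))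
    (hc : ∀ x h, P x → P (h * x * h⁻¹)) (ha : P a) {x : G} (hx : x ∈ S a) : P x := by
  induction hx using Subsemigroup.closure_induction with
  | mem x hx => obtain ⟨h, rfl⟩ := hx; exact hc _ _ ha
  | mul x y _ _ h1 h2 => exact hm _ _ h1 h2

lemma S_conj {a x : G} (hx : x ∈ S a) (k : G) : k * x * k⁻¹ ∈ S a := by
  induction hx using Subsemigroup.closure_induction with
  | mem x hx =>
    obtain ⟨h, rfl⟩ := hx
    have := conj_mem_S a (k * h)
    convert this using 1; group
  | mul x y _ _ h1 h2 =>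
    have := (S a).mul_mem h1 h2
    convert this using 1; group

lemma S_mono {a b x : G} (hb : b ∈ S a) (hx : x ∈ S b) : x ∈ S a :=
  S_le (fun x => x ∈ S a) (fun _ _ h1 h2 => (S a).mul_mem h1 h2) (fun _ h h1 => S_conj h1 h) hb hx

lemma S_inv {a x : G} (hx : x ∈ S a) : x⁻¹ ∈ S a⁻¹ :=
  S_le (fun x => x⁻¹ ∈ S a⁻¹) (fun x y h1 h2 => by rw [mul_inv_rev]; exact (S _).mul_mem h2 h1)
    (fun x h h1 => by have := S_conj h1 h; convert this using 1; group) (self_mem_S _) hx

lemma S_pow {a x : G} (hx : x ∈ S a) (n : ℕ) (hn : 1 ≤ n) : x ^ n ∈ S a := by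
  induction n, hn using Nat.le_induction with
  | base => simpa using hx
  | succ n _ ih => rw [pow_succ]; exact (S a).mul_mem ih hx

def NC (P : Set G) : Prop := (∀ x ∈ P, ∀ y ∈ P, x * y ∈ P) ∧ (∀ x ∈ P, ∀ h, h * x * h⁻¹ ∈ P) ∧
  (1 : G) ∉ P

lemma ext_step (h1 : ∀ g : G, g ≠ 1 → 1 ∉ S g) (P : Set G) (hP : Maximal NC P) (g : G)
    (hg : g ≠ 1) (hgP : g ∉ P) : ∃ a ∈ S g, a⁻¹ ∈ P := by
  by_contra hc
  push Not at hc
  obtain ⟨⟨m, c, o⟩, hmax⟩ := hP
  let P' : Set G := {x | x ∈ P ∨ x ∈ S g ∨ ∃ p ∈ P, ∃ s ∈ S g, x = p * s}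
  have hP' : NC P' := by
    refine ⟨?_, ?_, ?_⟩
    · rintro x (hx | hx | ⟨p, hp, s, hs, rfl⟩) y (hy | hy | ⟨p', hp', s', hs', rfl⟩)
      · exact Or.inl (m _ hx _ hy)
      · exact Or.inr (Or.inr ⟨x, hx, y, hy, rfl⟩)
      · exact Or.inr (Or.inr ⟨_, m _ hx _ hp', _, hs', by group⟩)
      · exact Or.inr (Or.inr ⟨_, c _ hy x, _, hx, by group⟩)
      · exact Or.inr (Or.inl ((S g).mul_mem hx hy))
      · exact Or.inr (Or.inr ⟨_, c _ hp' x, _, (S g).mul_mem hx hs', by group⟩)
      · exact Or.inr (Or.inr ⟨_, m _ hp _ (c _ hy s), _, hs, by group⟩)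
      · exact Or.inr (Or.inr ⟨_, hp, _, (S g).mul_mem hs hy, by group⟩)
      · exact Or.inr (Or.inr ⟨_, m _ hp _ (c _ hp' s), _, (S g).mul_mem hs hs', by group⟩)
    · rintro x (hx | hx | ⟨p, hp, s, hs, rfl⟩) h
      · exact Or.inl (c _ hx h)
      · exact Or.inr (Or.inl (S_conj hx h))
      · exact Or.inr (Or.inr ⟨_, c _ hp h, _, S_conj hs h, by group⟩)
    · rintro (hx | hx | ⟨p, hp, s, hs, e⟩)
      · exact o hx
      · exact h1 g hg hx
      · apply hc s hs
        rwa [← eq_inv_of_mul_eq_one_left e.symm]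
  exact hgP (hmax hP' (fun x hx => Or.inl hx) (Or.inr (Or.inl (self_mem_S g))))

lemma ohnishi (h1 : ∀ g : G, g ≠ 1 → 1 ∉ S g)
    (h2 : ∀ g a b : G, a ∈ S g → b ∈ S g → ∃ e, e ∈ S a ∧ e ∈ S b) : ProOrderable G := by
  intro r hr hb
  have := hr
  let P0 : Set G := {x | x ≠ 1 ∧ r 1 x}
  have hP0 : NC P0 := by
    refine ⟨?_, ?_, fun h => h.1 rfl⟩
    · rintro x ⟨hx1, hx⟩ y ⟨hy1, hy⟩
      have e : r x (x * y) := by simpa using hb.1 x _ _ hy
      refine ⟨fun h => hx1 ?_, trans_of r hx e⟩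
      rw [h] at e
      exact antisymm_of r e hx
    · rintro x ⟨hx1, hx⟩ h
      refine ⟨by simpa using hx1, ?_⟩
      simpa using hb.2 h⁻¹ _ _ (hb.1 h _ _ hx)
  obtain ⟨P, hP0P, hP⟩ := zorn_subset_nonempty {P | NC P} (by
    intro c hc hch hne
    refine ⟨⋃₀ c, ⟨?_, ?_, ?_⟩, fun s hs => Set.subset_sUnion_of_mem hs⟩
    · rintro x ⟨s, hs, hx⟩ y ⟨t, ht, hy⟩
      rcases hch.total hs ht with h | h
      · exact ⟨t, ht, (hc ht).1 _ (h hx) _ hy⟩
      · exact ⟨s, hs, (hc hs).1 _ hx _ (h hy)⟩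
    · rintro x ⟨s, hs, hx⟩ h
      exact ⟨s, hs, (hc hs).2.1 _ hx h⟩
    · rintro ⟨s, hs, hx⟩
      exact (hc hs).2.2 hx) P0 hP0
  obtain ⟨m, c, o⟩ : NC P := hP.1
  have tri : ∀ g, g ≠ 1 → g ∈ P ∨ g⁻¹ ∈ P := by
    intro g hg
    by_contra hc
    push Not at hc
    obtain ⟨a, ha, ha'⟩ := ext_step h1 P hP g hg hc.1
    obtain ⟨b, hb1, hb'⟩ := ext_step h1 P hP g⁻¹ (by simpa using hg) hc.2
    obtain ⟨e, e1, e2⟩ := h2 g a b⁻¹ ha (by simpa using S_inv hb1)
    have f1 : e ∈ P := S_le (· ∈ P) (fun x y hx hy => m x hx y hy) (fun x h hx => c x hx h) hb' e2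
    have f2 : e⁻¹ ∈ P := S_le (· ∈ P) (fun x y hx hy => m x hx y hy) (fun x h hx => c x hx h) ha' (S_inv e1)
    exact o (by simpa using m _ f1 _ f2)
  refine ⟨fun x y => x = y ∨ x⁻¹ * y ∈ P, ?_, ⟨?_, ?_⟩, ?_⟩
  · exact
      { refl := fun x => Or.inl rfl
        trans := by
          rintro x y z (rfl | h) (rfl | h')
          · exact Or.inl rfl
          · exact Or.inr h'
          · exact Or.inr h
          · exact Or.inr (by simpa [mul_assoc] using m _ h _ h')
        antisymm := by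
          rintro x y (h | h) (h' | h')
          · exact h
          · exact h
          · exact h'.symm
          · exact absurd (by simpa [mul_assoc] using m _ h _ h') o
        total := by
          intro x y
          by_cases h : x = y
          · exact Or.inl (Or.inl h)
          · rcases tri (x⁻¹ * y) (fun e => h (by rwa [inv_mul_eq_one] at e)) with h | h
            · exact Or.inl (Or.inr h)
            · exact Or.inr (Or.inr (by simpa using h)) }
  · rintro g x y (rfl | h)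
    · exact Or.inl rfl
    · exact Or.inr (by convert h using 1; group)
  · rintro g x y (rfl | h)
    · exact Or.inl rfl
    · exact Or.inr (by convert c _ h g⁻¹ using 1; group)
  · intro x y h
    by_cases e : x = y
    · exact Or.inl e
    · refine Or.inr (hP0P ⟨fun e' => e (by rwa [inv_mul_eq_one] at e'), ?_⟩)
      simpa using hb.1 x⁻¹ _ _ h

def L (c : G) (k : ℕ) (z : G) : G := c ^ k * z * (c ^ k)⁻¹

def F (c : G) : List G → ℕ → G
  | [], _ => 1
  | z :: l, k => L c k z * F c l (k + 1)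

def Disp (c : G) (H : Subgroup G) : Prop :=
  ∀ k, 1 ≤ k → ∀ u ∈ H, ∀ v ∈ H, Commute u (L c k v)

lemma L_comm {c : G} {H : Subgroup G} (hd : Disp c H) {j k : ℕ} (h : j < k) {u v : G}
    (hu : u ∈ H) (hv : v ∈ H) : Commute (L c j u) (L c k v) := by
  obtain ⟨i, rfl⟩ := Nat.exists_eq_add_of_lt h
  have := (hd (i + 1) (by omega) u hu v hv).conj (c ^ j)
  have e : L c (j + i + 1) v = c ^ j * L c (i + 1) v * (c ^ j)⁻¹ := by
    simp only [L, add_assoc, pow_add c j]; group
  rw [e]
  exact this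

lemma F_comm {c : G} {H : Subgroup G} (U : G) (l : List G) (hl : ∀ z ∈ l, z ∈ H) (k : ℕ)
    (hU : ∀ j, k ≤ j → ∀ z ∈ H, Commute U (L c j z)) : Commute U (F c l k) := by
  induction l generalizing k with
  | nil => exact Commute.one_right _
  | cons z l ih =>
    exact (hU k le_rfl z (hl z (by simp))).mul_right
      (ih (fun w hw => hl w (by simp [hw])) (k + 1) (fun j hj => hU j (by omega)))

lemma fold {c : G} {H : Subgroup G} (hd : Disp c H) (l : List G) (hl : ∀ z ∈ l, z ∈ H) (k : ℕ)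
    (U : G) (hU : ∀ j, k ≤ j → ∀ z ∈ H, Commute U (L c j z)) :
    IsConj (c * U * L c k l.reverse.prod) (c * U * F c l k) := by
  induction l generalizing k U with
  | nil => simp only [L, F, List.reverse_nil, List.prod_nil, mul_one, mul_inv_cancel]; rfl
  | cons z l ih =>
    have hz : z ∈ H := hl z (by simp)
    have hl' : ∀ w ∈ l, w ∈ H := fun w hw => hl w (by simp [hw])
    have hP : l.reverse.prod ∈ H := H.list_prod_mem (fun w hw => hl' w (by simpa using hw))
    have h1 := ih hl' (k + 1) (U * L c k z) (fun j hj w hw =>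
      (hU j (by omega) w hw).mul_left (L_comm hd (by omega) hz hw))
    have h2 : c * U * F c (z :: l) k = c * (U * L c k z) * F c l (k + 1) := by
      simp only [F]; group
    rw [h2]
    refine IsConj.trans ?_ h1
    rw [isConj_iff]
    refine ⟨(L c (k + 1) l.reverse.prod)⁻¹, ?_⟩
    have h3 := (hU k le_rfl _ hP).eq
    have h4 : L c (k + 1) l.reverse.prod = c * L c k l.reverse.prod * c⁻¹ := by
      simp only [L, pow_succ']; group
    have h5 : L c k (z :: l).reverse.prod = L c k l.reverse.prod * L c k z := by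
      simp only [L, List.reverse_cons, List.prod_append, List.prod_singleton]; group
    rw [h5, inv_inv, ← mul_assoc (c * U), mul_assoc c U, h3]
    congr 1
    rw [h4]; group

lemma F_inv {c : G} {H : Subgroup G} (hd : Disp c H) (l : List G) (hl : ∀ z ∈ l, z ∈ H) (k : ℕ) :
    F c (l.map (·⁻¹)) k * F c l k = 1 := by
  induction l generalizing k with
  | nil => simp [F]
  | cons z l ih =>
    have hz : z ∈ H := hl z (by simp)
    have hl' : ∀ w ∈ l, w ∈ H := fun w hw => hl w (by simp [hw])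
    have h1 := F_comm (c := c) (L c k z) (l.map (·⁻¹)) (H := H) (by
      intro w hw
      obtain ⟨w', hw', rfl⟩ := List.mem_map.1 hw
      exact H.inv_mem (hl' w' hw')) (k + 1) (fun j hj w hw => L_comm hd (by omega) hz hw)
    simp only [List.map_cons, F]
    rw [mul_assoc, ← mul_assoc (F c _ _), ← h1.eq, mul_assoc, ih hl']
    simp only [L]; group

lemma two {c : G} {H : Subgroup G} (hd : Disp c H) {x : G} (hx : x ∈ ⁅H, H⁆) :
    c ^ 2 * x ∈ S c := by
  obtain ⟨l, hl, rfl⟩ : ∃ l : List G, (∀ z ∈ l, z ∈ H) ∧ x = l.prod * (l.reverse.prod)⁻¹ := by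
    have step : ∀ s ∈ H, ∀ t ∈ H, ∀ x : G,
        (∃ l : List G, (∀ z ∈ l, z ∈ H) ∧ x = l.prod * (l.reverse.prod)⁻¹) →
        ∃ l : List G, (∀ z ∈ l, z ∈ H) ∧ ⁅s, t⁆ * x = l.prod * (l.reverse.prod)⁻¹ := by
      rintro s hs t ht _ ⟨l, hl, rfl⟩
      refine ⟨s :: t :: (t * s)⁻¹ :: l, ?_, ?_⟩
      · intro z hz
        simp only [List.mem_cons] at hz
        rcases hz with rfl | rfl | rfl | hz
        · exact hs
        · exact ht
        · exact H.inv_mem (H.mul_mem ht hs)
        · exact hl z hz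
      · simp only [List.reverse_cons, List.prod_append, List.prod_cons, List.prod_nil,
          commutatorElement_def]
        group
    rw [Subgroup.commutator_def] at hx
    induction hx using Subgroup.closure_induction_left with
    | one => exact ⟨[], by simp, by simp⟩
    | mul_left y hy x _ ih =>
      obtain ⟨s, hs, t, ht, rfl⟩ := hy
      exact step s hs t ht x ih
    | inv_mul_cancel y hy x _ ih =>
      obtain ⟨s, hs, t, ht, rfl⟩ := hy
      rw [commutatorElement_inv]
      exact step t ht s hs x ih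
  have hP : l.prod ∈ H := H.list_prod_mem hl
  have hR : l.reverse.prod ∈ H := H.list_prod_mem (fun w hw => hl w (by simpa using hw))
  have hl' : ∀ w ∈ l.map (·⁻¹), w ∈ H := by
    intro w hw
    obtain ⟨w', hw', rfl⟩ := List.mem_map.1 hw
    exact H.inv_mem (hl w' hw')
  have h1 := fold hd ((l.reverse.prod)⁻¹ :: l) (by
    intro z hz
    rcases List.mem_cons.1 hz with rfl | hz
    · exact H.inv_mem hR
    · exact hl z hz) 0 1 (fun _ _ _ _ => Commute.one_left _)
  have h2 := fold hd (l.prod :: l.map (·⁻¹)) (by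
    intro z hz
    rcases List.mem_cons.1 hz with rfl | hz
    · exact hP
    · exact hl' z hz) 0 1 (fun _ _ _ _ => Commute.one_left _)
  have e0 : ∀ z, L c 0 z = z := fun z => by simp [L]
  have e1 : (l.map (·⁻¹)).reverse.prod = l.prod⁻¹ := by rw [List.prod_inv_reverse]
  simp only [List.reverse_cons, List.prod_append, List.prod_singleton, e0, e1, mul_inv_cancel,
    inv_mul_cancel, mul_one, F, zero_add] at h1 h2
  obtain ⟨u, hu⟩ := isConj_iff.1 h1
  obtain ⟨v, hv⟩ := isConj_iff.1 h2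
  have h3 := F_comm (c := c) (l.reverse.prod)⁻¹ (l.map (·⁻¹)) hl' 1
    (fun j hj z hz => hd j hj _ (H.inv_mem hR) z hz)
  have h4 := F_inv hd l hl 1
  have h5 : c ^ 2 * (l.prod * (l.reverse.prod)⁻¹) = (c * (v * c * v⁻¹) * c⁻¹) * (u * c * u⁻¹) := by
    rw [hu, hv]
    calc c ^ 2 * (l.prod * (l.reverse.prod)⁻¹)
        = c ^ 2 * (l.prod * (l.reverse.prod)⁻¹ * (F c (l.map (·⁻¹)) 1 * F c l 1)) := by
          rw [h4, mul_one]
      _ = c ^ 2 * (l.prod * ((l.reverse.prod)⁻¹ * F c (l.map (·⁻¹)) 1) * F c l 1) := by group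
      _ = _ := by rw [h3.eq, pow_two]; group
  rw [h5]
  exact (S c).mul_mem (S_conj (conj_mem_S c v) c) (conj_mem_S c u)

lemma pow_mul_mem (c w : G) (n : ℕ) (hn : 1 ≤ n) : c ^ n * w ^ n ∈ S (c * w) := by
  induction n, hn using Nat.le_induction with
  | base => simpa using self_mem_S _
  | succ n _ ih =>
    have := (S _).mul_mem (conj_mem_S (c * w) (c ^ n)) ih
    convert this using 1
    rw [pow_succ, pow_succ']; group

lemma key {c w : G} {H : Subgroup G} {N : ℕ} (hN : 1 ≤ N) (hd : Disp (c ^ N) H)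
    (hw : w ∈ ⁅H, H⁆) : ∃ e, e ∈ S c ∧ e ∈ S (c * w) := by
  refine ⟨c ^ (N * 2) * w ^ (N * 2), ?_, pow_mul_mem c w _ (by omega)⟩
  rw [pow_mul]
  exact S_mono (S_pow (self_mem_S c) N hN) (two hd (Subgroup.pow_mem _ hw _))

end

lemma pro_equiv {G : Type} {G' : Type*} [Group G] [Group G'] (e : G' ≃* G) (h : ProOrderable G) :
    ProOrderable G' := by
  intro r hr hb
  have := hr
  obtain ⟨s, hs, hsb, hrs⟩ := h (fun x y => r (e.symm x) (e.symm y))
    { refl := fun x => refl_of r _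
      trans := fun x y z => trans_of r
      antisymm := fun x y h1 h2 => e.symm.injective (antisymm_of r h1 h2) }
    ⟨fun g a b h => by simpa using hb.1 (e.symm g) _ _ h,
      fun g a b h => by simpa using hb.2 (e.symm g) _ _ h⟩
  have := hs
  refine ⟨fun x y => s (e x) (e y),
    { refl := fun x => refl_of s _
      trans := fun x y z => trans_of s
      antisymm := fun x y h1 h2 => e.injective (antisymm_of s h1 h2)
      total := fun x y => total_of s _ _ },
    ⟨fun g a b h => by simpa using hsb.1 (e g) _ _ h,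
      fun g a b h => by simpa using hsb.2 (e g) _ _ h⟩, fun x y h => hrs _ _ (by simpa using h)⟩

end Pool.Agent.Lib.helper17.PO
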