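import Mathlib
import Pool.Agent.Lib.helper17.PO1

set_option autoImplicit false

namespace Pool.Agent.Lib.helper17.PO

open Filter Topology Set
open scoped commutatorElement

abbrev OI : Type := ℝ ≃o ℝ

@[simp] lemma oi_mul (f g : OI) (x : ℝ) : (f * g) x = f (g x) := rfl
@[simp] lemma oi_one (x : ℝ) : (1 : OI) x = x := rfl
@[simp] lemma oi_inv1 (f : OI) (x : ℝ) : f⁻¹ (f x) = x := RelIso.inv_apply_self f x
@[simp] lemma oi_inv2 (f : OI) (x : ℝ) : f (f⁻¹ x) = x := RelIso.apply_inv_self f x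

lemma oi_inv_fix {f : OI} {x : ℝ} (h : f x = x) : f⁻¹ x = x := by
  conv_lhs => rw [← h]
  exact oi_inv1 f x

def sd (b : Bool) (p : ℝ) : Set ℝ := cond b (Ici p) (Iic p)

def nh (b : Bool) (p : ℝ) : Filter ℝ := 𝓝[sd b p] p

lemma sd_self (b : Bool) (p : ℝ) : p ∈ sd b p := by cases b <;> simp [sd]

lemma sd_map (f : OI) (b : Bool) {p x : ℝ} (h : x ∈ sd b p) : f x ∈ sd b (f p) := by
  cases b
  · exact f.monotone h
  · exact f.monotone h

lemma nh_tendsto (f : OI) (b : Bool) (p : ℝ) : Tendsto f (nh b p) (nh b (f p)) :=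
  f.continuous.continuousWithinAt.tendsto_nhdsWithin (fun _ hx => sd_map f b hx)

lemma ex_pt {b : Bool} {p : ℝ} {Q : ℝ → Prop} (h : ∀ᶠ x in nh b p, Q x) : ∃ x, x ≠ p ∧ Q x := by
  cases b
  · have h2 : ∀ᶠ x in 𝓝[<] p, Q x := h.filter_mono (nhdsWithin_mono _ Iio_subset_Iic_self)
    obtain ⟨x, h3, h4⟩ := (h2.and self_mem_nhdsWithin).exists
    exact ⟨x, ne_of_lt h4, h3⟩
  · have h2 : ∀ᶠ x in 𝓝[>] p, Q x := h.filter_mono (nhdsWithin_mono _ Ioi_subset_Ici_self)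
    obtain ⟨x, h3, h4⟩ := (h2.and self_mem_nhdsWithin).exists
    exact ⟨x, ne_of_gt h4, h3⟩

lemma slope_pos {f : OI} {b : Bool} {p lam : ℝ}
    (h : ∀ᶠ x in nh b p, f x = f p + lam * (x - p)) : 0 < lam := by
  obtain ⟨x, h1, h2⟩ := ex_pt h
  rcases lt_or_gt_of_ne h1 with h3 | h3
  · have := f.strictMono h3
    nlinarith
  · have := f.strictMono h3
    nlinarith

lemma germ_mul {f g : OI} {b : Bool} {p lam mu : ℝ}
    (hf : ∀ᶠ x in nh b (g p), f x = f (g p) + lam * (x - g p))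
    (hg : ∀ᶠ x in nh b p, g x = g p + mu * (x - p)) :
    ∀ᶠ x in nh b p, (f * g) x = (f * g) p + lam * mu * (x - p) := by
  filter_upwards [(nh_tendsto g b p).eventually hf, hg] with x h1 h2
  rw [oi_mul, oi_mul, h1, h2]; ring

lemma germ_inv {f : OI} {b : Bool} {p lam : ℝ}
    (hf : ∀ᶠ x in nh b (f⁻¹ p), f x = f (f⁻¹ p) + lam * (x - f⁻¹ p)) :
    ∀ᶠ x in nh b p, f⁻¹ x = f⁻¹ p + lam⁻¹ * (x - p) := by
  have h0 := (slope_pos hf).ne'
  filter_upwards [(nh_tendsto f⁻¹ b p).eventually hf] with x h1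
  rw [oi_inv2, oi_inv2] at h1
  field_simp
  linarith

def PL : Subgroup OI where
  carrier := {f | ∀ b p, ∃ lam, ∀ᶠ x in nh b p, f x = f p + lam * (x - p)}
  mul_mem' := by
    intro f g hf hg b p
    obtain ⟨lam, h1⟩ := hf b (g p)
    obtain ⟨mu, h2⟩ := hg b p
    exact ⟨_, germ_mul h1 h2⟩
  one_mem' := fun b p => ⟨1, Eventually.of_forall (fun x => by simp)⟩
  inv_mem' := by
    intro f hf b p
    obtain ⟨lam, h1⟩ := hf b (f⁻¹ p)
    exact ⟨_, germ_inv h1⟩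

def Fix (f : OI) (u v : ℝ) : Prop := ∀ x, x ≤ u ∨ v ≤ x → f x = x

lemma Fix.mono {f : OI} {u v u' v' : ℝ} (h : Fix f u v) (h1 : u' ≤ u) (h2 : v ≤ v') :
    Fix f u' v' := fun x hx => h x (hx.imp (fun h => h.trans h1) (fun h => h2.trans h))

lemma Fix.mul {f g : OI} {u v : ℝ} (hf : Fix f u v) (hg : Fix g u v) : Fix (f * g) u v :=
  fun x hx => by rw [oi_mul, hg x hx, hf x hx]

lemma Fix.inv {f : OI} {u v : ℝ} (hf : Fix f u v) : Fix f⁻¹ u v :=
  fun x hx => oi_inv_fix (hf x hx)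

lemma Fix.conj {f : OI} {u v : ℝ} (hf : Fix f u v) (h : OI) : Fix (h * f * h⁻¹) (h u) (h v) := by
  intro x hx
  rw [oi_mul, oi_mul, hf, oi_inv2]
  rcases hx with hx | hx
  · left; simpa using h⁻¹.monotone hx
  · right; simpa using h⁻¹.monotone hx

def G0 : Subgroup OI where
  carrier := {f | f ∈ PL ∧ ∃ M, Fix f (-M) M}
  mul_mem' := by
    rintro f g ⟨hf, M, h1⟩ ⟨hg, N, h2⟩
    exact ⟨PL.mul_mem hf hg, max M N,
      (h1.mono (by simp) (by simp)).mul (h2.mono (by simp) (by simp))⟩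
  one_mem' := ⟨PL.one_mem, 0, fun _ _ => rfl⟩
  inv_mem' := by
    rintro f ⟨hf, M, h1⟩
    exact ⟨PL.inv_mem hf, M, h1.inv⟩

lemma mem_G0 {f : OI} (hf : f ∈ PL) {u v : ℝ} (h : Fix f u v) : f ∈ G0 :=
  ⟨hf, max (-u) v, h.mono (by rw [neg_le]; simp) (by simp)⟩

noncomputable def glue (f g : OI) (z : ℝ) (h : f z = g z) : OI :=
  StrictMono.orderIsoOfSurjective (fun x => if x ≤ z then f x else g x) (by
    intro x y hxy
    by_cases hx : x ≤ z <;> by_cases hy : y ≤ z <;> simp only [hx, hy, if_true, if_false]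
    · exact f.strictMono hxy
    · exact (f.monotone hx).trans_lt (h ▸ g.strictMono (not_le.1 hy))
    · exact absurd (hxy.le.trans hy) hx
    · exact g.strictMono hxy) (by
    intro y
    by_cases hy : y ≤ f z
    · refine ⟨f⁻¹ y, ?_⟩
      have : f⁻¹ y ≤ z := by simpa using f⁻¹.monotone hy
      simp [this]
    · refine ⟨g⁻¹ y, ?_⟩
      have : ¬ g⁻¹ y ≤ z := by
        intro h2
        apply hy
        rw [h]
        simpa using g.monotone h2
      simp [this])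

lemma glue_le {f g : OI} {z : ℝ} {h : f z = g z} {x : ℝ} (hx : x ≤ z) : glue f g z h x = f x := by
  change (if x ≤ z then f x else g x) = f x
  rw [if_pos hx]

lemma glue_ge {f g : OI} {z : ℝ} {h : f z = g z} {x : ℝ} (hx : z ≤ x) : glue f g z h x = g x := by
  rcases hx.lt_or_eq with hx | rfl
  · change (if x ≤ z then f x else g x) = g x
    rw [if_neg (not_le.2 hx)]
  · rw [glue_le le_rfl, h]

lemma glue_PL {f g : OI} {z : ℝ} {h : f z = g z} (hf : f ∈ PL) (hg : g ∈ PL) :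
    glue f g z h ∈ PL := by
  intro b p
  have key : (p ≤ z ∧ ∀ᶠ x in nh b p, x ≤ z) ∨ (z ≤ p ∧ ∀ᶠ x in nh b p, z ≤ x) := by
    rcases lt_trichotomy p z with h1 | rfl | h1
    · exact Or.inl ⟨h1.le, mem_nhdsWithin_of_mem_nhds (Iic_mem_nhds h1)⟩
    · cases b
      · exact Or.inl ⟨le_rfl, self_mem_nhdsWithin⟩
      · exact Or.inr ⟨le_rfl, self_mem_nhdsWithin⟩
    · exact Or.inr ⟨h1.le, mem_nhdsWithin_of_mem_nhds (Ici_mem_nhds h1)⟩
  rcases key with ⟨h1, h2⟩ | ⟨h1, h2⟩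
  · obtain ⟨lam, h3⟩ := hf b p
    refine ⟨lam, ?_⟩
    filter_upwards [h2, h3] with x h4 h5
    rw [glue_le h4, glue_le h1, h5]
  · obtain ⟨lam, h3⟩ := hg b p
    refine ⟨lam, ?_⟩
    filter_upwards [h2, h3] with x h4 h5
    rw [glue_ge h4, glue_ge h1, h5]

lemma ex_aff {x1 x2 y1 y2 : ℝ} (hx : x1 < x2) (hy : y1 < y2) :
    ∃ f ∈ PL, f x1 = y1 ∧ f x2 = y2 ∧ (x1 = y1 → x2 = y2 → ∀ x, f x = x) := by
  have h0 : 0 < x2 - x1 := sub_pos.2 hx
  have hm : 0 < (y2 - y1) / (x2 - x1) := div_pos (sub_pos.2 hy) h0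
  have h1 := (sub_pos.2 hy).ne'
  obtain ⟨f, hf⟩ : ∃ f : OI, ∀ x, f x = y1 + (y2 - y1) / (x2 - x1) * (x - x1) := by
    refine ⟨StrictMono.orderIsoOfSurjective (fun x => y1 + (y2 - y1) / (x2 - x1) * (x - x1)) ?_ ?_,
      fun x => rfl⟩
    · intro a b hab
      have := mul_lt_mul_of_pos_left hab hm
      simp only; linarith
    · intro y
      refine ⟨x1 + (y - y1) / ((y2 - y1) / (x2 - x1)), ?_⟩
      simp only; field_simp; ring
  refine ⟨f, ?_, ?_, ?_, ?_⟩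
  · intro b p
    refine ⟨(y2 - y1) / (x2 - x1), Eventually.of_forall (fun x => ?_)⟩
    rw [hf, hf]; ring
  · rw [hf]; ring
  · rw [hf]; field_simp; ring
  · rintro rfl rfl x
    rw [hf]; field_simp; ring

lemma ext_l {g : OI} (hg : g ∈ PL) {s u : ℝ} (h1 : u < s) (h2 : u < g s) :
    ∃ h ∈ PL, (∀ x ≤ u, h x = x) ∧ ∀ x, s ≤ x → h x = g x := by
  obtain ⟨f, hf, f1, f2, -⟩ := ex_aff h1 h2
  have e1 : (1 : OI) u = f u := f1.symm
  have e2 : glue 1 f u e1 s = g s := by rw [glue_ge h1.le, f2]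
  refine ⟨glue _ g s e2, glue_PL (glue_PL PL.one_mem hf) hg, fun x hx => ?_, fun x hx => glue_ge hx⟩
  rw [glue_le (hx.trans h1.le), glue_le hx]; rfl

lemma ext_r {g : OI} (hg : g ∈ PL) {t v : ℝ} (h1 : t < v) (h2 : g t < v) :
    ∃ h ∈ PL, (∀ x, v ≤ x → h x = x) ∧ ∀ x ≤ t, h x = g x := by
  obtain ⟨f, hf, f1, f2, -⟩ := ex_aff h1 h2
  have e1 : f v = (1 : OI) v := f2
  have e2 : g t = glue f 1 v e1 t := by rw [glue_le h1.le, f1]
  refine ⟨glue g _ t e2, glue_PL hg (glue_PL hf PL.one_mem), fun x hx => ?_, fun x hx => glue_le hx⟩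
  rw [glue_ge (h1.le.trans hx), glue_ge hx]; rfl

lemma ext_lr {g : OI} (hg : g ∈ PL) {s t u v : ℝ} (hst : s ≤ t) (h1 : u < s) (h2 : u < g s)
    (h3 : t < v) (h4 : g t < v) : ∃ h ∈ G0, Fix h u v ∧ ∀ x, s ≤ x → x ≤ t → h x = g x := by
  obtain ⟨f, hf, f1, f2⟩ := ext_l hg h1 h2
  obtain ⟨h, hh, g1, g2⟩ := ext_r hf h3 (by rw [f2 t hst]; exact h4)
  have hfix : Fix h u v := by
    rintro x (hx | hx)
    · rw [g2 x (by linarith), f1 x hx]
    · exact g1 x hx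
  exact ⟨h, mem_G0 hh hfix, hfix, fun x a b => by rw [g2 x b, f2 x a]⟩

lemma ext_G {g : OI} (hg : g ∈ PL) {s t : ℝ} (hst : s ≤ t) :
    ∃ h ∈ G0, ∀ x, s ≤ x → x ≤ t → h x = g x := by
  obtain ⟨h, h1, -, h2⟩ := ext_lr hg hst (u := min s (g s) - 1) (v := max t (g t) + 1)
    (by have := min_le_left s (g s); linarith) (by have := min_le_right s (g s); linarith)
    (by have := le_max_left t (g t); linarith) (by have := le_max_right t (g t); linarith)
  exact ⟨h, h1, h2⟩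

lemma ex4 {x1 x2 x3 x4 y1 y2 y3 y4 : ℝ} (a1 : x1 < x2) (a2 : x2 < x3) (a3 : x3 < x4)
    (b1 : y1 < y2) (b2 : y2 < y3) (b3 : y3 < y4) :
    ∃ h ∈ G0, h x1 = y1 ∧ h x2 = y2 ∧ h x3 = y3 ∧ h x4 = y4 ∧
      (x2 = y2 → x3 = y3 → ∀ x, x2 ≤ x → x ≤ x3 → h x = x) := by
  obtain ⟨f1, m1, p1, q1, -⟩ := ex_aff a1 b1
  obtain ⟨f2, m2, p2, q2, r2⟩ := ex_aff a2 b2
  obtain ⟨f3, m3, p3, q3, -⟩ := ex_aff a3 b3
  have e1 : f1 x2 = f2 x2 := by rw [q1, p2]
  have e2 : glue f1 f2 x2 e1 x3 = f3 x3 := by rw [glue_ge a2.le, q2, p3]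
  obtain ⟨h, hh, hx⟩ := ext_G (glue_PL (h := e2) (glue_PL m1 m2) m3) (s := x1) (t := x4)
    (by linarith)
  refine ⟨h, hh, ?_, ?_, ?_, ?_, ?_⟩
  · rw [hx _ le_rfl (by linarith), glue_le (by linarith), glue_le a1.le, p1]
  · rw [hx _ a1.le (by linarith), glue_le a2.le, glue_le le_rfl, q1]
  · rw [hx _ (by linarith) a3.le, glue_ge le_rfl, p3]
  · rw [hx _ (by linarith) le_rfl, glue_ge a3.le, q3]
  · intro c1 c2 x c3 c4
    rw [hx _ (by linarith) (by linarith), glue_le c4, glue_ge c3, r2 c1 c2]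

lemma ex2 {x1 x2 y1 y2 : ℝ} (a1 : x1 < x2) (b1 : y1 < y2) :
    ∃ h ∈ G0, h x1 = y1 ∧ h x2 = y2 := by
  obtain ⟨h, hh, h1, h2, -⟩ := ex4 a1 (lt_add_one x2) (lt_add_one (x2 + 1)) b1 (lt_add_one y2)
    (lt_add_one (y2 + 1))
  exact ⟨h, hh, h1, h2⟩

def E (b : Bool) (f : OI) (p lam : ℝ) : Prop :=
  (∀ x ∈ sd (!b) p, f x = x) ∧ ∀ᶠ x in nh b p, f x = f p + lam * (x - p)

lemma E.fix {b : Bool} {f : OI} {p lam : ℝ} (h : E b f p lam) : f p = p := h.1 p (sd_self _ _)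

lemma E.mul {b : Bool} {f g : OI} {p lam mu : ℝ} (hf : E b f p lam) (hg : E b g p mu) :
    E b (f * g) p (lam * mu) :=
  ⟨fun x hx => by rw [oi_mul, hg.1 x hx, hf.1 x hx], germ_mul (by rw [hg.fix]; exact hf.2) hg.2⟩

lemma E.inv {b : Bool} {f : OI} {p lam : ℝ} (hf : E b f p lam) : E b f⁻¹ p lam⁻¹ :=
  ⟨fun x hx => oi_inv_fix (hf.1 x hx), germ_inv (by rw [oi_inv_fix hf.fix]; exact hf.2)⟩

lemma E.pow {b : Bool} {f : OI} {p lam : ℝ} (hf : E b f p lam) (n : ℕ) :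
    E b (f ^ n) p (lam ^ n) := by
  induction n with
  | zero => exact ⟨fun _ _ => rfl, Eventually.of_forall (fun x => by simp)⟩
  | succ n ih => rw [pow_succ, pow_succ]; exact ih.mul hf

lemma E.conj {b : Bool} {f h : OI} {p lam : ℝ} (hf : E b f p lam) (hh : h ∈ PL) :
    E b (h * f * h⁻¹) (h p) lam := by
  refine ⟨fun x hx => ?_, ?_⟩
  · rw [oi_mul, oi_mul, hf.1, oi_inv2]
    simpa using sd_map h⁻¹ _ hx
  · obtain ⟨mu, h1⟩ := hh b p
    have h0 := (slope_pos h1).ne'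
    have h2 : ∀ᶠ x in nh b p, (h * f) x = (h * f) p + mu * lam * (x - p) :=
      germ_mul (by rw [hf.fix]; exact h1) hf.2
    have h3 : ∀ᶠ x in nh b (h p), h⁻¹ x = h⁻¹ (h p) + mu⁻¹ * (x - h p) :=
      germ_inv (by rw [oi_inv1]; exact h1)
    have h4 := germ_mul (f := h * f) (by rw [oi_inv1]; exact h2) h3
    rwa [show mu * lam * mu⁻¹ = lam by field_simp] at h4

lemma E.far {b : Bool} {g : OI} {p p' mu : ℝ} (hg : E b g p' mu) (h1 : p ∈ sd (!b) p')
    (h2 : p ≠ p') : E b g p 1 := by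
  cases b
  · have h3 : p' < p := lt_of_le_of_ne h1 h2.symm
    refine ⟨fun x hx => hg.1 x (h3.le.trans hx), ?_⟩
    filter_upwards [mem_nhdsWithin_of_mem_nhds (Ici_mem_nhds h3)] with x hx
    rw [hg.1 x hx, hg.1 p h1]; ring
  · have h3 : p < p' := lt_of_le_of_ne h1 h2
    refine ⟨fun x hx => hg.1 x (le_trans hx h3.le), ?_⟩
    filter_upwards [mem_nhdsWithin_of_mem_nhds (Iic_mem_nhds h3)] with x hx
    rw [hg.1 x hx, hg.1 p h1]; ring

lemma E.one {b : Bool} {f : OI} {p lam : ℝ} (h : E b f p lam) (hf : ∀ x, f x = x) : lam = 1 := by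
  obtain ⟨x, h1, h2⟩ := ex_pt h.2
  rw [hf, hf] at h2
  have : (lam - 1) * (x - p) = 0 := by linarith
  rcases mul_eq_zero.1 this with h | h
  · linarith
  · exact absurd (sub_eq_zero.1 h) h1

lemma E.left {f : OI} {p lam : ℝ} (h : E true f p lam) :
    ∃ s, p < s ∧ ∀ x, p ≤ x → x ≤ s → f x = p + lam * (x - p) := by
  obtain ⟨s, h1, h2⟩ := mem_nhdsGE_iff_exists_Icc_subset.1 h.2
  exact ⟨s, h1, fun x a b => by rw [h2 ⟨a, b⟩, h.fix]⟩

lemma E.right {f : OI} {p lam : ℝ} (h : E false f p lam) :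
    ∃ s, s < p ∧ ∀ x, s ≤ x → x ≤ p → f x = p + lam * (x - p) := by
  obtain ⟨s, h1, h2⟩ := mem_nhdsLE_iff_exists_Icc_subset.1 h.2
  exact ⟨s, h1, fun x a b => by rw [h2 ⟨a, b⟩, h.fix]⟩

lemma ex_E {f : OI} (hf : f ∈ G0) (h1 : f ≠ 1) (b : Bool) :
    ∃ p lam, E b f p lam ∧ lam ≠ 1 ∧ 0 < lam := by
  obtain ⟨hP, M, hM⟩ := hf
  have hne : {x | f x ≠ x}.Nonempty := by
    by_contra h
    apply h1
    ext x
    by_contra h2
    exact h ⟨x, h2⟩
  have hcl : IsClosed {x | f x = x} := isClosed_eq f.continuous continuous_id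
  cases b
  · have hb : BddAbove {x | f x ≠ x} := ⟨M, fun x hx => by
      by_contra h
      exact hx (hM x (Or.inr (not_le.1 h).le))⟩
    obtain ⟨lam, hl⟩ := hP false (sSup {x | f x ≠ x})
    have hE : E false f (sSup {x | f x ≠ x}) lam := by
      refine ⟨?_, hl⟩
      have : Ioi (sSup {x | f x ≠ x}) ⊆ {x | f x = x} := fun x hx => by
        by_contra h
        exact absurd (le_csSup hb h) (not_le.2 hx)
      have := closure_minimal this hcl
      rw [closure_Ioi] at this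
      exact fun x hx => this hx
    refine ⟨_, lam, hE, ?_, slope_pos hl⟩
    rintro rfl
    obtain ⟨s, s1, s2⟩ := hE.right
    refine absurd (csSup_le hne (fun x hx => ?_)) (not_le.2 s1)
    by_contra h
    exact hx (by rw [s2 x (not_le.1 h).le (le_csSup hb hx)]; ring)
  · have hb : BddBelow {x | f x ≠ x} := ⟨-M, fun x hx => by
      by_contra h
      exact hx (hM x (Or.inl (not_le.1 h).le))⟩
    obtain ⟨lam, hl⟩ := hP true (sInf {x | f x ≠ x})
    have hE : E true f (sInf {x | f x ≠ x}) lam := by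
      refine ⟨?_, hl⟩
      have : Iio (sInf {x | f x ≠ x}) ⊆ {x | f x = x} := fun x hx => by
        by_contra h
        exact absurd (csInf_le hb h) (not_le.2 hx)
      have := closure_minimal this hcl
      rw [closure_Iio] at this
      exact fun x hx => this hx
    refine ⟨_, lam, hE, ?_, slope_pos hl⟩
    rintro rfl
    obtain ⟨s, s1, s2⟩ := hE.left
    refine absurd (le_csInf hne (fun x hx => ?_)) (not_le.2 s1)
    by_contra h
    exact hx (by rw [s2 x (csInf_le hb hx) (not_le.1 h).le]; ring)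

lemma esc_up (c : OI) {j0 j1 : ℝ} (h0 : j0 ≤ j1) (h : ∀ x, j0 ≤ x → x ≤ j1 → x < c x) :
    ∃ n : ℕ, j1 < (c ^ n) j0 := by
  obtain ⟨m, hm, hmin⟩ := isCompact_Icc.exists_isMinOn (nonempty_Icc.2 h0)
    (f := fun x => c x - x) (c.continuous.sub continuous_id).continuousOn
  have hd : 0 < c m - m := sub_pos.2 (h m hm.1 hm.2)
  by_contra hc
  push Not at hc
  have key : ∀ n : ℕ, j0 + n * (c m - m) ≤ (c ^ n) j0 := by
    intro n
    induction n with
    | zero => simp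
    | succ n ih =>
      have h1 : j0 ≤ (c ^ n) j0 := le_trans (by have : (0 : ℝ) ≤ n * (c m - m) := by positivity
                                                linarith) ih
      have h2 : c m - m ≤ c ((c ^ n) j0) - (c ^ n) j0 := hmin ⟨h1, hc n⟩
      rw [pow_succ', oi_mul]
      push_cast
      linarith
  obtain ⟨n, hn⟩ := exists_nat_gt ((j1 - j0) / (c m - m))
  rw [div_lt_iff₀ hd] at hn
  linarith [key n, hc n]

lemma esc_down (c : OI) {j0 j1 : ℝ} (h0 : j0 ≤ j1) (h : ∀ x, j0 ≤ x → x ≤ j1 → c x < x) :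
    ∃ n : ℕ, (c ^ n) j1 < j0 := by
  obtain ⟨n, hn⟩ := esc_up c⁻¹ h0 (fun x a b => by simpa using c⁻¹.strictMono (h x a b))
  refine ⟨n, ?_⟩
  have := (c ^ n).strictMono hn
  rwa [inv_pow, oi_inv2] at this

lemma comm_disj {u v : OI} {A B : Set ℝ} (hu : ∀ x ∉ A, u x = x) (hv : ∀ x ∉ B, v x = x)
    (hAB : ∀ x ∈ A, x ∉ B) : Commute u v := by
  ext x
  change u (v x) = v (u x)
  by_cases hA : x ∈ A
  · have : u x ∈ A := by
      by_contra h
      exact h (by rw [u.injective (hu _ h)]; exact hA)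
    rw [hv x (hAB x hA), hv _ (hAB _ this)]
  · by_cases hB : x ∈ B
    · have : v x ∈ B := by
        by_contra h
        exact h (by rw [v.injective (hv _ h)]; exact hB)
      rw [hu x hA, hu _ (fun h => hAB _ h this)]
    · rw [hu x hA, hv x hB, hu x hA]

end Pool.Agent.Lib.helper17.PO
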