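import Mathlib
import Pool.Agent.Lib.helper17.PO2

set_option autoImplicit false

namespace Pool.Agent.Lib.helper17.NO

open Filter Topology Set
open Pool.Agent.Lib.helper17.PO (OI Fix oi_mul oi_one oi_inv1 oi_inv2 oi_inv_fix)

noncomputable def Mb (a b c d : ℝ) (x : ℝ) : ℝ := (a * x + b) / (c * x + d)

lemma den_ev {c d p : ℝ} (h : 0 < c * p + d) : ∀ᶠ x in 𝓝 p, 0 < c * x + d :=
  (show ContinuousAt (fun x => c * x + d) p by fun_prop).eventually (lt_mem_nhds h)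

lemma Mb_deriv {a b c d p : ℝ} (h : a * d - b * c = 1) (h0 : 0 < c * p + d) :
    HasDerivAt (Mb a b c d) (1 / (c * p + d) ^ 2) p := by
  have h1 := (((hasDerivAt_id p).const_mul a).add_const b).div
    (((hasDerivAt_id p).const_mul c).add_const d) h0.ne'
  refine h1.congr_deriv ?_
  simp only [id]
  congr 1
  linear_combination h

lemma Mb_mul (a b : ℝ) {c d x : ℝ} (h : 0 < c * x + d) : Mb a b c d x * (c * x + d) = a * x + b :=
  div_mul_cancel₀ _ h.ne'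

lemma Mb_sub {a b c d p x : ℝ} (h : a * d - b * c = 1) (h0 : 0 < c * p + d) (h1 : 0 < c * x + d) :
    Mb a b c d x - Mb a b c d p = (x - p) / ((c * x + d) * (c * p + d)) := by
  rw [eq_div_iff (by positivity)]
  linear_combination (c * p + d) * Mb_mul a b h1 - (c * x + d) * Mb_mul a b h0 + (x - p) * h

lemma ex_deriv {F : ℝ → ℝ} {a b c d p : ℝ} (hd : DifferentiableAt ℝ F p) (h : a * d - b * c = 1)
    (h0 : 0 < c * p + d) (he : F =ᶠ[𝓝[≥] p] Mb a b c d) :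
    HasDerivAt F (1 / (c * p + d) ^ 2) p := by
  have h1 := (Mb_deriv h h0).hasDerivWithinAt (s := Ici p) |>.congr_of_eventuallyEq he
    (he.eq_of_nhdsWithin self_mem_Ici)
  rw [(uniqueDiffWithinAt_Ici p).eq_deriv _ h1 hd.hasDerivAt.hasDerivWithinAt]
  exact hd.hasDerivAt

variable (K : IntermediateField ℚ ℝ)

def Good (F : ℝ → ℝ) (p : ℝ) : Prop := DifferentiableAt ℝ F p ∧
  ∃ a ∈ K, ∃ b ∈ K, ∃ c ∈ K, ∃ d ∈ K, a * d - b * c = 1 ∧ 0 < c * p + d ∧ F =ᶠ[𝓝[≥] p] Mb a b c d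

variable {K}

lemma good_Mb {a b c d p : ℝ} (ha : a ∈ K) (hb : b ∈ K) (hc : c ∈ K) (hd : d ∈ K)
    (h : a * d - b * c = 1) (h0 : 0 < c * p + d) : Good K (Mb a b c d) p :=
  ⟨(Mb_deriv h h0).differentiableAt, a, ha, b, hb, c, hc, d, hd, h, h0, EventuallyEq.rfl⟩

lemma Good.congr {F G : ℝ → ℝ} {p : ℝ} (h : Good K F p) (e : G =ᶠ[𝓝 p] F) : Good K G p := by
  obtain ⟨h1, a, ha, b, hb, c, hc, d, hd, h2, h3, h4⟩ := h
  exact ⟨h1.congr_of_eventuallyEq e, a, ha, b, hb, c, hc, d, hd, h2, h3,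
    (e.filter_mono nhdsWithin_le_nhds).trans h4⟩

lemma good_aff {s b : ℝ} (hs : s ∈ K) (hb : b ∈ K) (h0 : 0 < s) (p : ℝ) :
    Good K (fun x => x / s ^ 2 + b) p := by
  refine (good_Mb (a := s⁻¹) (b := b * s) (c := 0) (d := s) (inv_mem hs) (mul_mem hb hs)
    (zero_mem _) hs (by field_simp; ring) (by simpa using h0)).congr (Eventually.of_forall ?_)
  intro x
  simp only [Mb, zero_mul, zero_add]
  field_simp

lemma good_add {b : ℝ} (hb : b ∈ K) (p : ℝ) : Good K (fun x => x + b) p := by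
  simpa using good_aff (one_mem K) hb one_pos p

lemma good_id (p : ℝ) : Good K (fun x => x) p := by simpa using good_add (zero_mem K) p

lemma Good.pos {F : ℝ → ℝ} {p : ℝ} (h : Good K F p) : ∃ D, 0 < D ∧ HasDerivAt F D p := by
  obtain ⟨h1, a, -, b, -, c, -, d, -, h2, h3, h4⟩ := h
  exact ⟨_, by positivity, ex_deriv h1 h2 h3 h4⟩

lemma Good.tend {F : ℝ → ℝ} {p : ℝ} (h : Good K F p) : Tendsto F (𝓝[≥] p) (𝓝[≥] (F p)) := by
  obtain ⟨h1, a, -, b, -, c, -, d, -, h2, h3, h4⟩ := h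
  refine tendsto_nhdsWithin_iff.2 ⟨h1.continuousAt.tendsto.mono_left nhdsWithin_le_nhds, ?_⟩
  filter_upwards [h4, (den_ev h3).filter_mono nhdsWithin_le_nhds, self_mem_nhdsWithin]
    with x e1 e2 e3
  rw [mem_Ici, e1, h4.eq_of_nhdsWithin self_mem_Ici, ← sub_nonneg, Mb_sub h2 h3 e2]
  exact div_nonneg (sub_nonneg.2 e3) (by positivity)

lemma Good.comp {F G : ℝ → ℝ} {p : ℝ} (hF : Good K F (G p)) (hG : Good K G p) :
    Good K (fun x => F (G x)) p := by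
  have ht := hG.tend
  obtain ⟨h1, a, ha, b, hb, c, hc, d, hd, h2, h3, h4⟩ := hF
  obtain ⟨k1, a', ha', b', hb', c', hc', d', hd', k2, k3, k4⟩ := hG
  refine ⟨h1.comp p k1, a * a' + b * c', add_mem (mul_mem ha ha') (mul_mem hb hc'),
    a * b' + b * d', add_mem (mul_mem ha hb') (mul_mem hb hd'),
    c * a' + d * c', add_mem (mul_mem hc ha') (mul_mem hd hc'),
    c * b' + d * d', add_mem (mul_mem hc hb') (mul_mem hd hd'),
    by linear_combination (a' * d' - b' * c') * h2 + k2, ?_, ?_⟩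
  · rw [k4.eq_of_nhdsWithin self_mem_Ici] at h3
    refine (mul_pos h3 k3).trans_eq ?_
    linear_combination c * Mb_mul a' b' k3
  · filter_upwards [ht.eventually h4, k4, (den_ev k3).filter_mono nhdsWithin_le_nhds]
      with x e1 e2 e3
    have e4 := Mb_mul a' b' e3
    rw [e1, e2]
    generalize Mb a' b' c' d' x = y at e4
    simp only [Mb]
    rw [← mul_div_mul_right _ _ e3.ne']
    congr 1
    · linear_combination a * e4
    · linear_combination c * e4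

lemma Good.inv {f : OI} {q : ℝ} (h : Good K f (f⁻¹ q)) : Good K (f⁻¹ : OI) q := by
  obtain ⟨D, hD, h0⟩ := h.pos
  obtain ⟨h1, a, ha, b, hb, c, hc, d, hd, h2, h3, h4⟩ := h
  have hq := h4.eq_of_nhdsWithin self_mem_Ici
  rw [oi_inv2] at hq
  have key : ∀ x, 0 < c * x + d → -c * Mb a b c d x + a = 1 / (c * x + d) := fun x hx => by
    rw [eq_div_iff hx.ne']; linear_combination -c * Mb_mul a b hx + h2
  refine ⟨(h0.of_local_left_inverse (f⁻¹ : OI).continuous.continuousAt hD.ne'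
    (Eventually.of_forall (oi_inv2 f))).differentiableAt, d, hd, -b, neg_mem hb, -c, neg_mem hc,
    a, ha, by linear_combination h2, ?_, ?_⟩
  · rw [hq, key _ h3]; positivity
  · have ht := PO.nh_tendsto f⁻¹ true q
    filter_upwards [ht.eventually h4, ht.eventually ((den_ev h3).filter_mono nhdsWithin_le_nhds)]
      with y e1 e2
    rw [oi_inv2] at e1
    generalize (f⁻¹ : OI) y = x at e1 e2
    rw [e1, Mb, key _ e2, div_div_eq_mul_div, div_one]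
    linear_combination -d * Mb_mul a b e2 - x * h2

variable (K) in
def PL : Subgroup OI where
  carrier := {f | ∀ p, Good K f p}
  mul_mem' := fun {_ g} hf hg p => (hf (g p)).comp (hg p)
  one_mem' := fun p => good_id p
  inv_mem' := fun hf _ => (hf _).inv

lemma mkOI {F : ℝ → ℝ} (h : ∀ p, Good K F p) (f1 f2 : OI) {x1 x2 : ℝ} (h1 : ∀ x ≤ x1, F x = f1 x)
    (h2 : ∀ x, x2 ≤ x → F x = f2 x) : ∃ f ∈ PL K, ∀ x, f x = F x := by
  have hm : StrictMono F := strictMono_of_deriv_pos (fun x => by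
    obtain ⟨D, hD, h0⟩ := (h x).pos
    rwa [h0.deriv])
  have hc : Continuous F := continuous_iff_continuousAt.2 (fun x => (h x).1.continuousAt)
  refine ⟨hm.orderIsoOfSurjective F (hc.surjective ?_ ?_), h, fun _ => rfl⟩
  · exact f2.tendsto_atTop.congr' ((eventually_ge_atTop x2).mono (fun x hx => (h2 x hx).symm))
  · exact f1.tendsto_atBot.congr' ((eventually_le_atBot x1).mono (fun x hx => (h1 x hx).symm))

lemma glue2 {f g : ℝ → ℝ} {z D : ℝ} (e : f z = g z) (h1 : HasDerivAt f D z)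
    (h2 : HasDerivAt g D z) (p : ℝ) (hf : p < z → Good K f p) (hg : z ≤ p → Good K g p) :
    Good K (fun x => if x ≤ z then f x else g x) p := by
  have e2 : ∀ x, z ≤ x → (if x ≤ z then f x else g x) = g x := fun x hx => by
    split_ifs with h
    · rw [le_antisymm h hx, e]
    · rfl
  rcases lt_trichotomy p z with h | rfl | h
  · exact (hf h).congr (eventually_of_mem (Iio_mem_nhds h) (fun x hx => if_pos (le_of_lt hx)))
  · obtain ⟨-, a, ha, b, hb, c, hc, d, hd, h3, h4, h5⟩ := hg le_rfl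
    refine ⟨?_, a, ha, b, hb, c, hc, d, hd, h3, h4,
      EventuallyEq.trans (eventually_nhdsWithin_of_forall e2) h5⟩
    have e3 : ∀ x, x ≤ p → (if x ≤ p then f x else g x) = f x := fun x hx => if_pos hx
    have := (h1.hasDerivWithinAt (s := Iic p) |>.congr e3 (e3 p le_rfl)).union
      (h2.hasDerivWithinAt (s := Ici p) |>.congr e2 (e2 p le_rfl))
    rw [Iic_union_Ici, hasDerivWithinAt_univ] at this
    exact this.differentiableAt
  · exact (hg h.le).congr (eventually_of_mem (Ioi_mem_nhds h) (fun x hx => e2 x (le_of_lt hx)))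

lemma two_pt {x1 x2 y e g : ℝ} (h1 : x1 ∈ K) (h2 : x2 ∈ K) (hy : y ∈ K) (he : e ∈ K) (hg : g ∈ K)
    (h : x1 < x2) (e0 : 0 < e) (g0 : 0 < g) :
    ∃ M : ℝ → ℝ, M x1 = y ∧ M x2 = y + (x2 - x1) / (e * g) ∧ HasDerivAt M (1 / e ^ 2) x1 ∧
      HasDerivAt M (1 / g ^ 2) x2 ∧ ∀ p, x1 ≤ p → p ≤ x2 → Good K M p := by
  have h0 := sub_pos.2 h
  obtain ⟨c, hc, c1⟩ : ∃ c ∈ K, c * (x2 - x1) = g - e :=
    ⟨(g - e) / (x2 - x1), div_mem (sub_mem hg he) (sub_mem h2 h1), by field_simp⟩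
  have hdet : (y * c + e⁻¹) * (e - c * x1) - (y * e - (y * c + e⁻¹) * x1) * c = 1 := by
    field_simp; ring
  have d1 : c * x1 + (e - c * x1) = e := by ring
  have d2 : c * x2 + (e - c * x1) = g := by linear_combination c1
  have ha := add_mem (mul_mem hy hc) (inv_mem he)
  refine ⟨Mb (y * c + e⁻¹) (y * e - (y * c + e⁻¹) * x1) c (e - c * x1), ?_, ?_, ?_, ?_, ?_⟩
  · rw [Mb, d1]; field_simp; ring
  · rw [Mb, d2]; field_simp; linear_combination y * e * c1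
  · simpa only [d1] using Mb_deriv (p := x1) hdet (by rwa [d1])
  · simpa only [d2] using Mb_deriv (p := x2) hdet (by rwa [d2])
  · intro p p1 p2
    refine good_Mb ha (sub_mem (mul_mem hy he) (mul_mem ha h1)) hc (sub_mem he (mul_mem hc h1))
      hdet ?_
    rcases le_total 0 c with h | h <;> nlinarith

lemma Good.jet {F : ℝ → ℝ} {p : ℝ} (h : Good K F p) (hp : p ∈ K) :
    F p ∈ K ∧ ∃ e ∈ K, 0 < e ∧ HasDerivAt F (1 / e ^ 2) p := by
  obtain ⟨h1, a, ha, b, hb, c, hc, d, hd, h2, h3, h4⟩ := h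
  refine ⟨?_, _, add_mem (mul_mem hc hp) hd, h3, ex_deriv h1 h2 h3 h4⟩
  rw [h4.eq_of_nhdsWithin self_mem_Ici]
  exact div_mem (add_mem (mul_mem ha hp) hb) (add_mem (mul_mem hc hp) hd)

lemma interp {f g : ℝ → ℝ} {x1 x3 : ℝ} (h1 : x1 ∈ K) (h3 : x3 ∈ K) (h : x1 < x3)
    (g1 : Good K f x1) (g3 : Good K g x3) (hy : f x1 < g x3) :
    ∃ F : ℝ → ℝ, (∀ x ≤ x1, F x = f x) ∧ (∀ x, x3 ≤ x → F x = g x) ∧
      ∀ p, (p < x1 → Good K f p) → (x3 ≤ p → Good K g p) → Good K F p := by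
  obtain ⟨y1, e1, k1, p1, d1⟩ := g1.jet h1
  obtain ⟨y3, e3, k3, p3, d3⟩ := g3.jet h3
  have h2 : (x1 + x3) / 2 ∈ K := div_mem (add_mem h1 h3) (ofNat_mem _ 2)
  have hy0 := sub_pos.2 hy
  have h0 := sub_pos.2 h
  have kg : (x3 - x1) / 2 * (e1⁻¹ + e3⁻¹) / (g x3 - f x1) ∈ K :=
    div_mem (mul_mem (div_mem (sub_mem h3 h1) (ofNat_mem _ 2)) (add_mem (inv_mem k1) (inv_mem k3)))
      (sub_mem y3 y1)
  have pg : 0 < (x3 - x1) / 2 * (e1⁻¹ + e3⁻¹) / (g x3 - f x1) := by positivity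
  have eg : f x1 + ((x1 + x3) / 2 - x1) / (e1 * ((x3 - x1) / 2 * (e1⁻¹ + e3⁻¹) / (g x3 - f x1))) +
      (x3 - (x1 + x3) / 2) / ((x3 - x1) / 2 * (e1⁻¹ + e3⁻¹) / (g x3 - f x1) * e3) = g x3 := by
    field_simp; ring
  generalize (x3 - x1) / 2 * (e1⁻¹ + e3⁻¹) / (g x3 - f x1) = t at kg pg eg
  have l1 : x1 < (x1 + x3) / 2 := by linarith
  have l2 : (x1 + x3) / 2 < x3 := by linarith
  generalize (x1 + x3) / 2 = x2 at *
  obtain ⟨M, a1, a2, a3, a4, a5⟩ := two_pt h1 h2 y1 k1 kg l1 p1 pg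
  obtain ⟨N, b1, b2, b3, b4, b5⟩ := two_pt h2 h3 ((a5 x2 l1.le le_rfl).jet h2).1 kg k3 l2 pg p3
  rw [a2, eg] at b2
  have c1 : ∀ p, x2 ≤ p → (x3 ≤ p → Good K g p) →
      Good K (fun x => if x ≤ x3 then N x else g x) p :=
    fun p q1 q2 => glue2 b2 b4 d3 p (fun q => b5 p q1 q.le) q2
  have c2 : HasDerivAt (fun x => if x ≤ x3 then N x else g x) (1 / t ^ 2) x2 :=
    b3.congr_of_eventuallyEq (eventually_of_mem (Iio_mem_nhds l2) (fun x hx => if_pos (le_of_lt hx)))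
  have c3 : ∀ p, x1 ≤ p → (x3 ≤ p → Good K g p) →
      Good K (fun x => if x ≤ x2 then M x else if x ≤ x3 then N x else g x) p :=
    fun p q1 q2 => glue2 (by simp [l2.le, b1]) a4 c2 p (fun q => a5 p q1 q.le)
      (fun q => c1 p q q2)
  have c4 : HasDerivAt (fun x => if x ≤ x2 then M x else if x ≤ x3 then N x else g x)
      (1 / e1 ^ 2) x1 :=
    a3.congr_of_eventuallyEq (eventually_of_mem (Iio_mem_nhds l1) (fun x hx => if_pos (le_of_lt hx)))
  refine ⟨fun x => if x ≤ x1 then f x else if x ≤ x2 then M x else if x ≤ x3 then N x else g x,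
    fun x hx => if_pos hx, fun x hx => ?_,
    fun p q1 q2 => glue2 (by simp [l1.le, a1]) d1 c4 p q1 (fun q => c3 p q q2)⟩
  simp only
  rw [if_neg (by linarith), if_neg (by linarith)]
  split_ifs with h
  · rw [le_antisymm h hx, b2]
  · rfl

lemma rat_mem (q : ℚ) : (q : ℝ) ∈ K := SubfieldClass.ratCast_mem K q

lemma join {f g : OI} (hf : f ∈ PL K) (hg : g ∈ PL K) {x1 x3 : ℝ} (h : x1 < x3)
    (hy : f x1 < g x3) : ∃ F ∈ PL K, (∀ x ≤ x1, F x = f x) ∧ ∀ x, x3 ≤ x → F x = g x := by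
  obtain ⟨m, m1, m2⟩ := exists_between hy
  obtain ⟨z, z1, z2⟩ := exists_between h
  obtain ⟨r1, a1, a2⟩ := exists_rat_btwn (lt_min z1 (show x1 < f⁻¹ m by
    simpa using f⁻¹.strictMono m1))
  obtain ⟨r3, b1, b2⟩ := exists_rat_btwn (max_lt z2 (show g⁻¹ m < x3 by
    simpa using g⁻¹.strictMono m2))
  rw [lt_min_iff] at a2
  rw [max_lt_iff] at b1
  obtain ⟨F, c1, c2, c3⟩ := interp (rat_mem r1) (rat_mem r3) (a2.1.trans b1.1) (hf _) (hg _)
    (lt_trans (b := m) (by simpa using f.strictMono a2.2) (by simpa using g.strictMono b1.2))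
  obtain ⟨F', d1, d2⟩ := mkOI (fun p => c3 p (fun _ => hf p) (fun _ => hg p)) f g c1 c2
  exact ⟨F', d1, fun x hx => by rw [d2, c1 x (hx.trans a1.le)],
    fun x hx => by rw [d2, c2 x (b2.le.trans hx)]⟩

lemma ex_aff {s b : ℝ} (hs : s ∈ K) (hb : b ∈ K) (h0 : 0 < s) :
    ∃ f ∈ PL K, ∀ x, f x = x / s ^ 2 + b :=
  ⟨(OrderIso.divRight₀ (s ^ 2) (by positivity)).trans (OrderIso.addRight b), good_aff hs hb h0,
    fun _ => rfl⟩

lemma ex_tr {x y1 y2 : ℝ} (h : y1 < y2) : ∃ f ∈ PL K, y1 < f x ∧ f x < y2 := by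
  obtain ⟨r, r1, r2⟩ := exists_rat_btwn (sub_lt_sub_right h x)
  obtain ⟨f, hf, e⟩ := ex_aff (one_mem K) (rat_mem r) one_pos
  exact ⟨f, hf, by rw [e]; linarith, by rw [e]; linarith⟩

variable (K) in
def G0 : Subgroup OI where
  carrier := {f | f ∈ PL K ∧ ∃ M, Fix f (-M) M}
  mul_mem' := by
    rintro f g ⟨hf, M, h1⟩ ⟨hg, N, h2⟩
    exact ⟨(PL K).mul_mem hf hg, max M N,
      (h1.mono (by simp) (by simp)).mul (h2.mono (by simp) (by simp))⟩
  one_mem' := ⟨(PL K).one_mem, 0, fun _ _ => rfl⟩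
  inv_mem' := by
    rintro f ⟨hf, M, h1⟩
    exact ⟨(PL K).inv_mem hf, M, h1.inv⟩

lemma mem_G0 {f : OI} (hf : f ∈ PL K) {u v : ℝ} (h : Fix f u v) : f ∈ G0 K :=
  ⟨hf, max (-u) v, h.mono (by rw [neg_le]; simp) (by simp)⟩

lemma ext_lr {g : OI} (hg : g ∈ PL K) {s t u v : ℝ} (hst : s ≤ t) (h1 : u < s) (h2 : u < g s)
    (h3 : t < v) (h4 : g t < v) : ∃ h ∈ G0 K, Fix h u v ∧ ∀ x, s ≤ x → x ≤ t → h x = g x := by
  obtain ⟨f, hf, f1, f2⟩ := join (PL K).one_mem hg h1 h2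
  obtain ⟨h, hh, g2, g1⟩ := join hf (PL K).one_mem h3 (by rw [f2 t hst]; exact h4)
  have hfix : Fix h u v := by
    rintro x (hx | hx)
    · rw [g2 x (by linarith), f1 x hx]; rfl
    · exact g1 x hx
  exact ⟨h, mem_G0 hh hfix, hfix, fun x a b => by rw [g2 x b, f2 x a]⟩

lemma ext_G {g : OI} (hg : g ∈ PL K) {s t : ℝ} (hst : s ≤ t) :
    ∃ h ∈ G0 K, ∀ x, s ≤ x → x ≤ t → h x = g x := by
  obtain ⟨h, h1, -, h2⟩ := ext_lr hg hst (u := min s (g s) - 1) (v := max t (g t) + 1)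
    (by have := min_le_left s (g s); linarith) (by have := min_le_right s (g s); linarith)
    (by have := le_max_left t (g t); linarith) (by have := le_max_right t (g t); linarith)
  exact ⟨h, h1, h2⟩

lemma squeeze {x1 x2 y1 y2 : ℝ} (hx : x1 < x2) (hy : y1 < y2) :
    ∃ f ∈ PL K, y1 < f x1 ∧ f x2 < y2 := by
  obtain ⟨m, m1, m2⟩ := exists_between hy
  obtain ⟨f, hf, a1, a2⟩ := ex_tr (K := K) (x := x1) m1
  obtain ⟨g, hg, b1, b2⟩ := ex_tr (K := K) (x := x2) m2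
  obtain ⟨F, hF, c1, c2⟩ := join hf hg hx (a2.trans b1)
  exact ⟨F, hF, by rwa [c1 _ le_rfl], by rwa [c2 _ le_rfl]⟩

lemma sq_in {u v x1 x2 y1 y2 : ℝ} (hx : x1 < x2) (hy : y1 < y2) (h1 : u < x1) (h2 : u ≤ y1)
    (h3 : x2 < v) (h4 : y2 ≤ v) : ∃ h ∈ G0 K, Fix h u v ∧ y1 < h x1 ∧ h x2 < y2 := by
  obtain ⟨f, hf, a1, a2⟩ := squeeze (K := K) hx hy
  obtain ⟨h, b1, b2, b3⟩ := ext_lr hf hx.le h1 (h2.trans_lt a1) h3 (a2.trans_le h4)
  exact ⟨h, b1, b2, by rwa [b3 _ le_rfl hx.le], by rwa [b3 _ hx.le le_rfl]⟩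

lemma mv (x y : ℝ) : ∃ h ∈ G0 K, y < h x := by
  obtain ⟨f, hf, a1, -⟩ := ex_tr (K := K) (x := x) (lt_add_one y)
  obtain ⟨h, b1, b2⟩ := ext_G hf (le_refl x)
  exact ⟨h, b1, by rwa [b2 _ le_rfl le_rfl]⟩

end Pool.Agent.Lib.helper17.NO
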