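import Mathlib
import Pool.Agent.Lib.helper17.NO2

set_option autoImplicit false

namespace Pool.Agent.Lib.helper17.NO

open Filter Topology Set Asymptotics
open Pool.Agent.Lib.helper17.PO (OI Fix oi_mul oi_one oi_inv1 oi_inv2 oi_inv_fix)

variable {K : IntermediateField ℚ ℝ}

def R (f : OI) (p e s : ℝ) : Prop := ∀ᶠ x in 𝓝[>] p, (f x - f p)⁻¹ = e * (x - p)⁻¹ + s

lemma tend (f : OI) (p : ℝ) : Tendsto f (𝓝[>] p) (𝓝[>] (f p)) :=
  f.continuous.continuousWithinAt.tendsto_nhdsWithin (fun _ hx => f.strictMono hx)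

lemma R.mul {f g : OI} {p e s e' s' : ℝ} (hf : R f (g p) e s) (hg : R g p e' s') :
    R (f * g) p (e * e') (e * s' + s) := by
  filter_upwards [(tend g p).eventually hf, hg] with x h1 h2
  rw [oi_mul, oi_mul, h1, h2]; ring

lemma R.inv {f : OI} {q e s : ℝ} (hf : R f (f⁻¹ q) e s) (he : e ≠ 0) :
    R f⁻¹ q e⁻¹ (-s / e) := by
  filter_upwards [(tend f⁻¹ q).eventually hf] with x h1
  rw [oi_inv2, oi_inv2] at h1
  rw [h1]; field_simp; ring

lemma R_of {f : OI} {a b c d p : ℝ} (h : a * d - b * c = 1) (h0 : 0 < c * p + d)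
    (he : f =ᶠ[𝓝[≥] p] Mb a b c d) : R f p ((c * p + d) ^ 2) ((c * p + d) * c) := by
  filter_upwards [he.filter_mono (nhdsWithin_mono _ Ioi_subset_Ici_self),
    (den_ev h0).filter_mono nhdsWithin_le_nhds, self_mem_nhdsWithin] with x e1 e2 e3
  have := (sub_pos.2 (mem_Ioi.1 e3)).ne'
  rw [e1, he.eq_of_nhdsWithin self_mem_Ici, Mb_sub h h0 e2, inv_div]
  field_simp; ring

lemma PL_R {f : OI} (hf : f ∈ PL K) {p : ℝ} (hp : p ∈ K) :
    ∃ e ∈ K, e ≠ 0 ∧ ∃ s, R f p (e ^ 2) s := by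
  obtain ⟨-, a, ha, b, hb, c, hc, d, hd, h2, h3, h4⟩ := hf p
  exact ⟨_, add_mem (mul_mem hc hp) hd, h3.ne', _, R_of h2 h3 h4⟩

def LE (f : OI) (p t : ℝ) : Prop := (∀ x ≤ p, f x = x) ∧ R f p 1 t

lemma LE.mul {f g : OI} {p t t' : ℝ} (hf : LE f p t) (hg : LE g p t') : LE (f * g) p (t + t') :=
  ⟨fun x hx => by rw [oi_mul, hg.1 x hx, hf.1 x hx], by
    have := R.mul (f := f) (by rw [hg.1 p le_rfl]; exact hf.2) hg.2
    rwa [one_mul, one_mul, add_comm] at this⟩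

lemma LE.inv {f : OI} {p t : ℝ} (hf : LE f p t) : LE f⁻¹ p (-t) :=
  ⟨fun x hx => oi_inv_fix (hf.1 x hx), by
    simpa using R.inv (f := f) (q := p) (by rw [oi_inv_fix (hf.1 p le_rfl)]; exact hf.2) one_ne_zero⟩

lemma LE_far {g : OI} {p p' : ℝ} (hg : ∀ x ≤ p', g x = x) (h : p < p') : LE g p 0 := by
  refine ⟨fun x hx => hg x (hx.trans h.le), ?_⟩
  filter_upwards [mem_nhdsWithin_of_mem_nhds (Iic_mem_nhds h)] with x hx
  rw [hg x hx, hg p h.le]; ring

lemma LE.conj {f h : OI} {p t e s : ℝ} (hf : LE f p t) (hh : R h p e s) (he : e ≠ 0) :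
    LE (h * f * h⁻¹) (h p) (e * t) := by
  refine ⟨fun x hx => ?_, ?_⟩
  · rw [oi_mul, oi_mul, hf.1, oi_inv2]
    simpa using h⁻¹.monotone hx
  · have h2 := R.mul (f := h) (by rw [hf.1 p le_rfl]; exact hh) hf.2
    have h3 := R.inv (f := h) (q := h p) (by rw [oi_inv1]; exact hh) he
    have h4 := R.mul (f := h * f) (by rw [oi_inv1]; exact h2) h3
    convert h4 using 1 <;> field_simp
    ring

lemma LE.moves {f : OI} {p t : ℝ} (hf : LE f p t) (ht : t ≠ 0) : ∀ᶠ x in 𝓝[>] p, f x ≠ x := by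
  filter_upwards [hf.2] with x h1 h2
  rw [h2, hf.1 p le_rfl] at h1
  exact ht (by linarith)

lemma LE.uniq {f : OI} {p t p' t' : ℝ} (hf : LE f p t) (hf' : LE f p' t') (ht : t ≠ 0)
    (ht' : t' ≠ 0) : t = t' := by
  rcases lt_trichotomy p p' with h | rfl | h
  · obtain ⟨x, h1, h2⟩ := ((hf.moves ht).and (mem_nhdsWithin_of_mem_nhds (Iic_mem_nhds h))).exists
    exact absurd (hf'.1 x h2) h1
  · obtain ⟨x, h1, h2⟩ := (hf.2.and hf'.2).exists
    linarith
  · obtain ⟨x, h1, h2⟩ := ((hf'.moves ht').and (mem_nhdsWithin_of_mem_nhds (Iic_mem_nhds h))).exists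
    exact absurd (hf.1 x h2) h1

lemma LE.zero {f : OI} {p : ℝ} (hf : LE f p 0) : ∃ q, p < q ∧ ∀ x ≤ q, f x = x := by
  obtain ⟨q, h1, h2⟩ := mem_nhdsGT_iff_exists_Ioc_subset.1 hf.2
  refine ⟨q, h1, fun x hx => ?_⟩
  rcases le_or_gt x p with h | h
  · exact hf.1 x h
  · have := h2 ⟨h, hx⟩
    simp only [mem_ofPred_eq, hf.1 p le_rfl, one_mul, add_zero, inv_inj] at this
    linarith

lemma ex_LE {f : OI} (hf : f ∈ G0 K) (h1 : f ≠ 1) : ∃ p ∈ K, ∃ t ∈ K, t ≠ 0 ∧ LE f p t := by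
  obtain ⟨hP, M, hM⟩ := hf
  have hne : {x | f x ≠ x}.Nonempty := by
    by_contra h
    apply h1
    ext x
    by_contra h2
    exact h ⟨x, h2⟩
  have hcl : IsClosed {x | f x = x} := isClosed_eq f.continuous continuous_id
  have hb : BddBelow {x | f x ≠ x} := ⟨-M, fun x hx => by
    by_contra h
    exact hx (hM x (Or.inl (not_le.1 h).le))⟩
  have h0 : ∀ x ≤ sInf {x | f x ≠ x}, f x = x := by
    have : Iio (sInf {x | f x ≠ x}) ⊆ {x | f x = x} := fun x hx => by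
      by_contra h
      exact absurd (csInf_le hb h) (not_le.2 hx)
    have := closure_minimal this hcl
    rw [closure_Iio] at this
    exact fun x hx => this hx
  have hle : ∀ q, (∀ x ≤ q, f x = x) → q ≤ sInf {x | f x ≠ x} := fun q hq =>
    le_csInf hne (fun x hx => le_of_not_ge (fun h => hx (hq x h)))
  generalize sInf {x | f x ≠ x} = p at h0 hle
  obtain ⟨d1, a, ha, b, hb, c, hc, d, hd, h2, h3, h4⟩ := hP p
  have e1 := (uniqueDiffWithinAt_Iic p).eq_deriv _ (ex_deriv d1 h2 h3 h4).hasDerivWithinAt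
    ((hasDerivAt_id p).hasDerivWithinAt.congr h0 (h0 p le_rfl))
  have e2 : c * p + d = 1 := by
    rw [div_eq_one_iff_eq (by positivity), eq_comm] at e1
    exact (pow_eq_one_iff_of_nonneg h3.le two_ne_zero).1 e1
  have hE : LE f p c := ⟨h0, by simpa [e2] using R_of h2 h3 h4⟩
  have c0 : c ≠ 0 := by
    rintro rfl
    obtain ⟨q, q1, q2⟩ := hE.zero
    exact absurd (hle q q2) (not_le.2 q1)
  refine ⟨p, ?_, c, hc, c0, hE⟩
  rw [show p = (1 - d) / c by field_simp; linarith]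
  exact div_mem (sub_mem (one_mem _) hd) hc

lemma ex_elt {t : ℝ} (ht : t ∈ K) : ∃ f ∈ G0 K, LE f 0 t := by
  obtain ⟨r, r0, r1⟩ := exists_rat_btwn (show (0 : ℝ) < 1 / (|t| + 1) by positivity)
  rw [lt_div_iff₀ (by positivity)] at r1
  have g1 : ∀ p : ℝ, p ≤ r → Good K (fun x => if x ≤ 0 then x else Mb 1 0 t 1 x) p := fun p hp =>
    glue2 (by simp [Mb]) (hasDerivAt_id 0)
      (by simpa using Mb_deriv (a := 1) (b := 0) (c := t) (d := 1) (p := 0) (by simp) (by simp)) p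
      (fun _ => good_id p) (fun h => good_Mb (one_mem _) (zero_mem _) ht (one_mem _) (by simp) (by
        nlinarith [neg_abs_le t, abs_nonneg t]))
  obtain ⟨s, s1⟩ := exists_rat_gt (max (r : ℝ) (if (r : ℝ) ≤ 0 then r else Mb 1 0 t 1 r))
  rw [max_lt_iff] at s1
  obtain ⟨F, c1, c2, c3⟩ := interp (g := fun x => x) (rat_mem r) (rat_mem s) s1.1 (g1 r le_rfl)
    (good_id _) s1.2
  have c4 : ∀ x ≤ 0, F x = x := fun x hx => by rw [c1 x (by linarith), if_pos hx]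
  obtain ⟨f, d1, d2⟩ := mkOI (fun p => c3 p (fun h => g1 p h.le) (fun _ => good_id p)) 1 1 c4 c2
  refine ⟨f, mem_G0 d1 (u := 0) (v := s) ?_, fun x hx => by rw [d2, c4 x hx], ?_⟩
  · rintro x (hx | hx)
    · rw [d2, c4 x hx]
    · rw [d2, c2 x hx]
  · have := R_of (f := f) (a := 1) (b := 0) (c := t) (d := 1) (p := 0) (by simp) (by simp) (by
      filter_upwards [mem_nhdsWithin_of_mem_nhds (Iic_mem_nhds r0), self_mem_nhdsWithin]
        with x h1 h2
      rw [d2, c1 x h1]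
      split_ifs with h
      · rw [le_antisymm h h2]; simp [Mb]
      · rfl)
    simpa using this

lemma ex_conj {p s : ℝ} (hp : p ∈ K) (hs : s ∈ K) (h0 : 0 < s) :
    ∃ h ∈ G0 K, h p = 0 ∧ R h p (s ^ 2) 0 := by
  obtain ⟨f, hf, e⟩ := ex_aff hs (neg_mem (div_mem hp (pow_mem hs 2))) h0
  obtain ⟨h, h1, h2⟩ := ext_G hf (lt_add_one p).le
  have h3 : h p = 0 := by rw [h2 p le_rfl (lt_add_one p).le, e]; ring
  refine ⟨h, h1, h3, ?_⟩
  filter_upwards [Ioo_mem_nhdsGT (lt_add_one p)] with x hx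
  rw [h3, h2 x hx.1.le hx.2.le, e, ← sub_eq_add_neg, ← sub_div, sub_zero, inv_div]
  ring

lemma ex_H : ∃ H : ℝ → ℝ, (∀ y, Good K H y) ∧ (∀ y, H (y + 2) = H y + 2) ∧ (∀ y, |H y - y| ≤ 1) ∧
    (∀ y, 1 < y → y ≤ 2 → H y = y) ∧ 2 + 1 / 2 < H (2 + 2 / 5) := by
  obtain ⟨b, hb, b1, b2, -⟩ := sq_in (K := K) (u := 1 / 3) (v := 2 / 3) (x1 := 2 / 5) (x2 := 1 / 2)
    (y1 := 1 / 2) (y2 := 2 / 3) (by norm_num) (by norm_num) (by norm_num) (by norm_num)
    (by norm_num) (by norm_num)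
  have loc : ∀ (n : ℤ) (y : ℝ), 2 * n - 1 < y → y < 2 * n + 2 →
      b (y - 2 * ⌊y / 2⌋) + 2 * ⌊y / 2⌋ = b (y - 2 * n) + 2 * n := by
    intro n y h1 h2
    rcases le_or_gt (2 * n : ℝ) y with h | h
    · rw [Int.floor_eq_iff.2 (⟨by linarith, by linarith⟩ : (n : ℝ) ≤ y / 2 ∧ y / 2 < n + 1)]
    · rw [Int.floor_eq_iff.2 (⟨by push_cast; linarith, by push_cast; linarith⟩ :
        ((n - 1 : ℤ) : ℝ) ≤ y / 2 ∧ y / 2 < (n - 1 : ℤ) + 1), b1 _ (Or.inr (by push_cast; linarith)),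
        b1 _ (Or.inl (by linarith))]
      ring
  refine ⟨fun y => b (y - 2 * ⌊y / 2⌋) + 2 * ⌊y / 2⌋, fun y => ?_, fun y => ?_, fun y => ?_,
    fun y h1 h2 => ?_, ?_⟩
  · have m : (2 * ⌊y / 2⌋ : ℝ) ∈ K := mul_mem (ofNat_mem _ 2) (intCast_mem _ _)
    refine ((good_add m _).comp ((hb.1 _).comp (good_add (neg_mem m) y))).congr ?_
    have h1 := Int.floor_le (y / 2)
    have h2 := Int.lt_floor_add_one (y / 2)
    filter_upwards [Ioo_mem_nhds (show (2 * ⌊y / 2⌋ - 1 : ℝ) < y by linarith)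
      (show y < 2 * ⌊y / 2⌋ + 2 by linarith)] with x hx
    rw [loc _ x hx.1 hx.2, sub_eq_add_neg]
  · simp only
    rw [show (y + 2) / 2 = y / 2 + 1 by ring, Int.floor_add_one]
    push_cast
    rw [show y + 2 - 2 * (⌊y / 2⌋ + 1) = y - 2 * ⌊y / 2⌋ by ring]
    ring
  · simp only
    rw [show ∀ u v : ℝ, u + v - y = u - (y - v) from fun u v => by ring]
    generalize y - 2 * ⌊y / 2⌋ = x
    by_cases h : x ≤ 1 / 3 ∨ 2 / 3 ≤ x
    · simp [b1 x h]
    · push Not at h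
      have h1 := b.monotone h.1.le
      have h2 := b.monotone h.2.le
      rw [b1 _ (Or.inl le_rfl)] at h1
      rw [b1 _ (Or.inr le_rfl)] at h2
      rw [abs_le]; constructor <;> linarith
  · simp only
    rw [loc 1 y (by push_cast; linarith) (by push_cast; linarith), b1 _ (Or.inl (by
      push_cast; linarith))]
    ring
  · simp only
    rw [loc 1 _ (by norm_num) (by norm_num)]
    norm_num at b2 ⊢
    linarith

lemma ex_W {H : ℝ → ℝ} (h1 : ∀ y, Good K H y) (h3 : ∀ y, |H y - y| ≤ 1)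
    (h4 : ∀ y, 1 < y → y ≤ 2 → H y = y) (h5 : ∀ y, 1 < y → 1 < H y) :
    ∃ W ∈ G0 K, Fix W (-1 / 2) 0 ∧ ∀ y, 1 < y → W (-y⁻¹) = -(H y)⁻¹ := by
  classical
  let W : ℝ → ℝ := fun x => if -1 < x ∧ x < 0 then -(H (-x⁻¹))⁻¹ else x
  have w0 : ∀ x, -1 < x → x < 0 → W x = -(H (-x⁻¹))⁻¹ := fun x a b => if_pos ⟨a, b⟩
  have w2 : ∀ x, 0 ≤ x → W x = x := fun x a => if_neg (fun h => by linarith [h.2])
  have y1 : ∀ x : ℝ, -1 < x → x < 0 → 1 < -x⁻¹ := fun x a b => by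
    rw [← inv_neg]; exact (one_lt_inv₀ (by linarith)).2 (by linarith)
  have w1 : ∀ x, x ≤ -1 / 2 → W x = x := fun x a => by
    rcases le_or_gt x (-1) with h | h
    · exact if_neg (fun h' => by linarith [h'.1])
    · rw [w0 x h (by linarith), h4 _ (y1 x h (by linarith))]
      · simp
      · rw [← inv_neg, inv_le_comm₀ (by linarith) (by norm_num)]; linarith
  have hg : ∀ p, Good K W p := by
    intro p
    rcases lt_trichotomy p 0 with h | rfl | h
    · rcases lt_or_ge p (-1 / 2) with h' | h'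
      · exact (good_id p).congr (eventually_of_mem (Iio_mem_nhds h') (fun x hx => w1 x (le_of_lt hx)))
      · have a1 : Good K (Mb 0 1 (-1) 0) p := good_Mb (zero_mem _) (one_mem _) (neg_mem (one_mem _))
          (zero_mem _) (by norm_num) (by linarith)
        have e1 : ∀ x, Mb 0 1 (-1) 0 x = -x⁻¹ := fun x => by simp [Mb]
        have e2 : ∀ x, Mb 0 (-1) 1 0 x = -x⁻¹ := fun x => by simp [Mb, neg_div]
        have a2 : Good K (Mb 0 (-1) 1 0) (H (Mb 0 1 (-1) 0 p)) := good_Mb (zero_mem _)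
          (neg_mem (one_mem _)) (one_mem _) (zero_mem _) (by norm_num) (by
            have := h5 _ (y1 p (by linarith) h)
            rw [e1]; linarith)
        refine (a2.comp (G := fun x => H (Mb 0 1 (-1) 0 x)) ((h1 _).comp a1)).congr ?_
        filter_upwards [Ioo_mem_nhds (show -1 < p by linarith) h] with x hx
        rw [w0 x hx.1 hx.2, e1, e2]
    · refine ⟨HasDerivAt.differentiableAt (f' := 1) ?_, 1, one_mem _, 0, zero_mem _, 0, zero_mem _,
        1, one_mem _, by simp, by simp, eventually_nhdsWithin_of_forall (fun x hx => ?_)⟩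
      · rw [hasDerivAt_iff_isLittleO_nhds_zero]
        refine IsBigO.trans_isLittleO (IsBigO.of_bound 2 ?_) (isLittleO_pow_id one_lt_two)
        filter_upwards [Ioi_mem_nhds (show (-1 / 2 : ℝ) < 0 by norm_num)] with x hx
        rw [zero_add, w2 0 le_rfl, sub_zero, smul_eq_mul, mul_one]
        rcases le_or_gt 0 x with h | h
        · rw [w2 x h, sub_self, norm_zero]; positivity
        · have hx' : -1 / 2 < x := hx
          rw [w0 x (by linarith) h]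
          have a1 : 2 < -x⁻¹ := by
            rw [← inv_neg, lt_inv_comm₀ (by norm_num) (by linarith)]; linarith
          have a2 := h3 (-x⁻¹)
          obtain ⟨y, rfl⟩ : ∃ y, x = -y⁻¹ := ⟨-x⁻¹, by simp⟩
          simp only [inv_neg, inv_inv, neg_neg] at a1 a2 ⊢
          have a3 := (abs_le.1 a2).1
          generalize H y = z at a2 a3
          have a4 : 0 < z := by linarith
          have a5 : 0 < y := by linarith
          rw [Real.norm_eq_abs, Real.norm_eq_abs, show -z⁻¹ - -y⁻¹ = (z - y) / (y * z) by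
            field_simp; ring, abs_div, abs_of_pos (mul_pos a5 a4), neg_sq, abs_sq,
            div_le_iff₀ (by positivity)]
          refine a2.trans ?_
          rw [show 2 * y⁻¹ ^ 2 * (y * z) = 2 * z / y by field_simp, le_div_iff₀ a5]
          linarith
      · rw [w2 x hx]; simp [Mb]
    · exact (good_id p).congr (eventually_of_mem (Ioi_mem_nhds h) (fun x hx => w2 x (le_of_lt hx)))
  obtain ⟨f, d1, d2⟩ := mkOI hg 1 1 w1 w2
  have hf : Fix f (-1 / 2) 0 := by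
    rintro x (hx | hx)
    · rw [d2, w1 x hx]
    · rw [d2, w2 x hx]
  refine ⟨f, mem_G0 d1 hf, hf, fun y hy => ?_⟩
  have : y⁻¹ < 1 := inv_lt_one_of_one_lt₀ hy
  have : 0 < y⁻¹ := by positivity
  rw [d2, w0 _ (by linarith) (by linarith)]
  simp

lemma ex_a : ∃ a ∈ G0 K, a 0 = 0 ∧ ∀ y : ℝ, 1 ≤ y → a (-y⁻¹) = -(y + 1)⁻¹ := by
  have g1 : ∀ p, p < 1 → Good K (Mb 1 0 (-1) 1) p := fun p hp =>
    good_Mb (one_mem _) (zero_mem _) (neg_mem (one_mem _)) (one_mem _) (by simp) (by linarith)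
  obtain ⟨F, c1, c2, c3⟩ := interp (f := fun x => x) (neg_mem (ofNat_mem K 2)) (neg_mem (one_mem K))
    (by norm_num) (good_id _) (g1 _ (by norm_num)) (by norm_num [Mb])
  have g2 : ∀ p, p < 1 → Good K F p := fun p hp => c3 p (fun _ => good_id p) (fun _ => g1 p hp)
  obtain ⟨G, e1, e2, e3⟩ := interp (g := fun x => x) (zero_mem K) (one_mem K) one_pos
    (g2 0 one_pos) (good_id _) (by rw [c2 0 (by norm_num)]; norm_num [Mb])
  have e4 : ∀ x ≤ -2, G x = x := fun x hx => by rw [e1 x (by linarith), c1 x hx]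
  obtain ⟨f, d1, d2⟩ := mkOI (fun p => e3 p (fun h => g2 p (by linarith)) (fun _ => good_id p))
    1 1 e4 e2
  refine ⟨f, mem_G0 d1 (u := -2) (v := 1) ?_, ?_, fun y hy => ?_⟩
  · rintro x (hx | hx)
    · rw [d2, e4 x hx]
    · rw [d2, e2 x hx]
  · rw [d2, e1 0 le_rfl, c2 0 (by norm_num)]; simp [Mb]
  · have : y⁻¹ ≤ 1 := inv_le_one_of_one_le₀ hy
    have : 0 < y⁻¹ := by positivity
    rw [d2, e1 _ (by linarith), c2 _ (by linarith), Mb]
    field_simp
    ring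

lemma special : ∃ W ∈ G0 K, ∃ a ∈ G0 K, ∃ z : ℝ,
    (∀ x, -1 / 3 < x → (W * (a * a) * W⁻¹ * (a * a)⁻¹) x = x) ∧ -1 / 4 < z ∧
      -1 / 4 < (a * W * a⁻¹ * W⁻¹) z ∧ (a * W * a⁻¹ * W⁻¹) z ≠ z := by
  obtain ⟨H, h1, h2, h3, h4, h6⟩ := ex_H (K := K)
  have h5 : ∀ y, 1 < y → 1 < H y := fun y hy => by
    rcases le_or_gt y 2 with h | h
    · rwa [h4 y hy h]
    · linarith [(abs_le.1 (h3 y)).1]
  obtain ⟨W, hW, w1, w2⟩ := ex_W h1 h3 h4 h5
  obtain ⟨a, ha, a0, a1⟩ := ex_a (K := K)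
  have a2 : ∀ y : ℝ, 1 ≤ y → (a * a) (-y⁻¹) = -(y + 2)⁻¹ := fun y hy => by
    rw [oi_mul, a1 y hy, a1 _ (by linarith)]; congr 2; ring
  have key : ∀ x, -1 < x → W ((a * a) x) = (a * a) (W x) := by
    intro x hx
    rcases le_or_gt 0 x with h | h
    · rw [w1 x (Or.inr h), w1 _ (Or.inr _)]
      simpa [a0] using (a * a).monotone h
    · obtain ⟨y, hy, rfl⟩ : ∃ y, 1 < y ∧ x = -y⁻¹ := ⟨-x⁻¹, by
        rw [← inv_neg]; exact (one_lt_inv₀ (by linarith)).2 (by linarith), by simp⟩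
      rw [a2 y hy.le, w2 _ (by linarith), w2 y hy, a2 _ (h5 y hy).le, h2]
  have e : (a * W * a⁻¹ * W⁻¹) (W (-(2 + 2 / 5 + 2)⁻¹)) = -(2 + 2 / 5 + 2)⁻¹ := by
    have e1 := a1 (1 + 2 / 5 + 2) (by norm_num)
    rw [show (1 + 2 / 5 + 2 + 1 : ℝ) = 2 + 2 / 5 + 2 by norm_num] at e1
    rw [oi_mul, oi_mul, oi_mul, oi_inv1]
    conv_lhs => rw [← e1, oi_inv1, w2 _ (by norm_num), h2, h4 _ (by norm_num) (by norm_num), e1]
  refine ⟨W, hW, a, ha, W (-(2 + 2 / 5 + 2)⁻¹), fun x hx => ?_, ?_, ?_, ?_⟩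
  · have h7 : -1 < W⁻¹ ((a * a)⁻¹ x) := by
      have h8 : (a * a) (W (-1)) < x := by
        have := a2 1 le_rfl
        rw [inv_one] at this
        rw [w1 _ (Or.inl (by norm_num)), this]
        norm_num at hx ⊢
        exact hx
      simpa using W⁻¹.strictMono ((a * a)⁻¹.strictMono h8)
    rw [oi_mul, oi_mul, oi_mul W, key _ h7, oi_inv2, oi_inv2]
  · rw [w2 _ (by norm_num), h2, neg_div, neg_lt_neg_iff, inv_lt_comm₀ (by linarith) (by norm_num)]
    linarith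
  · rw [e]; norm_num
  · rw [e, w2 _ (by norm_num), h2]
    intro h
    rw [neg_inj, inv_inj] at h
    linarith

end Pool.Agent.Lib.helper17.NO
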