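import Mathlib
import Pool.Agent.Lib.helper17.PO1
import Pool.Agent.Lib.helper17.NO3

set_option autoImplicit false

namespace Pool.Agent.Lib.helper17.NO

open Filter Topology Set
open scoped commutatorElement
open Pool.Agent.Lib.helper17.PO (OI Fix oi_mul oi_one oi_inv1 oi_inv2 oi_inv_fix comm_disj)

abbrev GG (K : IntermediateField ℚ ℝ) : Type := G0 K

abbrev DD (K : IntermediateField ℚ ℝ) : Subgroup (GG K) := commutator (GG K)

variable {K : IntermediateField ℚ ℝ}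

def HJ (J : Set ℝ) : Subgroup (GG K) where
  carrier := {f | ∀ x ∉ J, f.1 x = x}
  mul_mem' := fun {f g} hf hg x hx => by
    change f.1 (g.1 x) = x
    rw [hg x hx, hf x hx]
  one_mem' := fun _ _ => rfl
  inv_mem' := fun {f} hf x hx => oi_inv_fix (hf x hx)

lemma HJ_mono {J J' : Set ℝ} (h : J ⊆ J') : (HJ J : Subgroup (GG K)) ≤ HJ J' := fun _ hf x hx => hf x (fun h2 => hx (h h2))

lemma memHJ {f : GG K} {u v : ℝ} (h : Fix f.1 u v) : f ∈ HJ (Icc u v) := by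
  intro x hx
  apply h
  by_contra hc
  push Not at hc
  exact hx ⟨hc.1.le, hc.2.le⟩

lemma HJ_conj {J : Set ℝ} {f : GG K} (hf : f ∈ HJ J) (h : GG K) : h * f * h⁻¹ ∈ HJ (h.1 '' J) := by
  intro x hx
  change h.1 (f.1 (h.1⁻¹ x)) = x
  rw [hf, oi_inv2]
  intro h2
  exact hx ⟨_, h2, oi_inv2 _ _⟩

lemma HJ_comm {J J' : Set ℝ} {f g : GG K} (hf : f ∈ HJ J) (hg : g ∈ HJ J') (h : ∀ x ∈ J, x ∉ J') :
    Commute f g := Subtype.ext (comm_disj hf hg h)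

lemma ex_M (f : GG K) : ∃ M : ℝ, f ∈ HJ (Icc (-M) M) := by
  obtain ⟨M, hM⟩ := f.2.2
  exact ⟨M, memHJ hM⟩

lemma M_mono {M N : ℝ} (h : M ≤ N) : (HJ (Icc (-M) M) : Subgroup (GG K)) ≤ HJ (Icc (-N) N) :=
  HJ_mono (Icc_subset_Icc (by linarith) h)

lemma commH {w : GG K} (hw : w ∈ DD K) {al be j0 j1 : ℝ} (hf : Fix w.1 al be) (h0 : j0 < al)
    (h1 : al < be) (h2 : be < j1) : w ∈ ⁅(HJ (Icc j0 j1) : Subgroup (GG K)), HJ (Icc j0 j1)⁆ := by
  obtain ⟨M, hM⟩ : ∃ M : ℝ, w ∈ ⁅(HJ (Icc (-M) M) : Subgroup (GG K)), HJ (Icc (-M) M)⁆ := by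
    clear hf
    rw [DD, commutator_def, Subgroup.commutator_def] at hw
    induction hw using Subgroup.closure_induction with
    | mem x hx =>
      obtain ⟨u, -, v, -, rfl⟩ := hx
      obtain ⟨M, hM⟩ := ex_M u
      obtain ⟨N, hN⟩ := ex_M v
      exact ⟨max M N, Subgroup.commutator_mem_commutator (M_mono (le_max_left _ _) hM)
        (M_mono (le_max_right _ _) hN)⟩
    | one => exact ⟨0, Subgroup.one_mem _⟩
    | mul x y _ _ h1 h2 =>
      obtain ⟨M, hM⟩ := h1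
      obtain ⟨N, hN⟩ := h2
      exact ⟨max M N, Subgroup.mul_mem _
        (Subgroup.commutator_mono (M_mono (le_max_left _ _)) (M_mono (le_max_left _ _)) hM)
        (Subgroup.commutator_mono (M_mono (le_max_right _ _)) (M_mono (le_max_right _ _)) hN)⟩
    | inv x _ h1 =>
      obtain ⟨M, hM⟩ := h1
      exact ⟨M, Subgroup.inv_mem _ hM⟩
  set N := max M (max (-al) be + 1) with hN
  have n1 : -N < al := by
    have := le_max_right M (max (-al) be + 1)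
    have := le_max_left (-al) be
    linarith
  have n2 : be < N := by
    have := le_max_right M (max (-al) be + 1)
    have := le_max_right (-al) be
    linarith
  have hN' := Subgroup.commutator_mono (M_mono (le_max_left M (max (-al) be + 1)))
    (M_mono (le_max_left M (max (-al) be + 1))) hM
  obtain ⟨k, hk, c1, c4, c5⟩ : ∃ k ∈ G0 K, j0 ≤ k (-N) ∧ k N ≤ j1 ∧
      ∀ x, al ≤ x → x ≤ be → k x = x := by
    obtain ⟨T, t1, t2, t3⟩ := ex_tr (K := K) (x := N) h2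
    obtain ⟨T', s1, s2, s3⟩ := ex_tr (K := K) (x := -N) h0
    obtain ⟨F, f1, f2, f3⟩ := join (PL K).one_mem t1 n2 t2
    obtain ⟨F', g1, g2, g3⟩ := join s1 f1 n1 (by rw [f2 al h1.le]; exact s3)
    obtain ⟨k, k1, k2⟩ := ext_G g1 (show -N ≤ N by linarith)
    refine ⟨k, k1, ?_, ?_, fun x x1 x2 => ?_⟩
    · rw [k2 _ le_rfl (by linarith), g2 _ le_rfl]; exact s2.le
    · rw [k2 _ (by linarith) le_rfl, g3 _ (by linarith), f3 _ le_rfl]; exact t3.le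
    · rw [k2 _ (by linarith) (by linarith), g3 _ x1, f2 _ x2]; rfl
  have c2 := c5 al le_rfl h1.le
  have c3 := c5 be h1.le le_rfl
  let κ : GG K := ⟨k, hk⟩
  have e : (MulAut.conj κ).toMonoidHom w = w := by
    apply Subtype.ext
    ext x
    have := hf.conj k
    rw [c2, c3] at this
    change (k * w.1 * k⁻¹) x = w.1 x
    by_cases hx : x ≤ al ∨ be ≤ x
    · rw [this x hx, hf x hx]
    · push Not at hx
      rw [oi_mul, oi_mul, oi_inv_fix (c5 x hx.1.le hx.2.le), c5]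
      · simpa [hf al (Or.inl le_rfl)] using w.1.monotone hx.1.le
      · simpa [hf be (Or.inr le_rfl)] using w.1.monotone hx.2.le
  have hle : (HJ (Icc (-N) N)).map (MulAut.conj κ).toMonoidHom ≤ HJ (Icc j0 j1) := by
    rintro _ ⟨f, hf, rfl⟩
    refine HJ_mono ?_ (HJ_conj hf κ)
    rintro _ ⟨x, hx, rfl⟩
    exact ⟨c1.trans (k.monotone hx.1), (k.monotone hx.2).trans c4⟩
  have := Subgroup.mem_map_of_mem (MulAut.conj κ).toMonoidHom hN'
  rw [Subgroup.map_commutator, e] at this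
  exact Subgroup.commutator_mono hle hle this

lemma conj_DD (h a : GG K) : ∃ h' ∈ DD K, h * a * h⁻¹ = h' * a * h'⁻¹ := by
  obtain ⟨M1, h1⟩ := ex_M h
  obtain ⟨M2, h2⟩ := ex_M a
  have h3 := M_mono (le_max_left M1 M2) h1
  have h4 := M_mono (le_max_right M1 M2) h2
  generalize max M1 M2 = M at h3 h4
  obtain ⟨k, hk, k1⟩ := mv (K := K) (-M) M
  have h5 : Commute a (⟨k, hk⟩ * h⁻¹ * ⟨k, hk⟩⁻¹) := by
    refine HJ_comm h4 (HJ_conj (Subgroup.inv_mem _ h3) _) ?_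
    rintro _ hx ⟨y, hy, rfl⟩
    have := k.monotone hy.1
    have := hx.2
    change k y ≤ M at this
    linarith
  refine ⟨h * (⟨k, hk⟩ * h⁻¹ * ⟨k, hk⟩⁻¹), ?_, ?_⟩
  · have := Subgroup.commutator_mem_commutator (Subgroup.mem_top h) (Subgroup.mem_top (⟨k, hk⟩ : GG K))
    rw [commutatorElement_def] at this
    rw [DD, commutator_def]
    convert this using 1
    group
  · generalize (⟨k, hk⟩ * h⁻¹ * ⟨k, hk⟩⁻¹ : GG K) = z at h5
    rw [mul_assoc h z a, ← h5.eq]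
    group

lemma cm_mem (u v : GG K) : u * (v * u⁻¹ * v⁻¹) ∈ DD K := by
  have := Subgroup.commutator_mem_commutator (Subgroup.mem_top u) (Subgroup.mem_top v)
  rw [commutatorElement_def] at this
  rw [DD, commutator_def]
  convert this using 1
  group

lemma ex_move {n : GG K} (h1 : n ≠ 1) : ∃ x, n.1 x ≠ x := by
  by_contra h
  push Not at h
  exact h1 (Subtype.ext (by ext x; exact h x))

lemma higman0 (B : Subgroup (GG K)) {al be al1 be1 : ℝ}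
    (hN : ∀ n ∈ B, ∀ k ∈ HJ (Icc al be), k * n * k⁻¹ ∈ B) {n : GG K} (hn : n ∈ B) {x0 : ℝ}
    (h0 : al ≤ x0) (h1 : x0 < n.1 x0) (h2 : n.1 x0 ≤ be) (a1 : al < al1) (a2 : al1 < be1)
    (a3 : be1 < be) : ⁅(HJ (Icc al1 be1) : Subgroup (GG K)), HJ (Icc al1 be1)⁆ ≤ B := by
  obtain ⟨x1, p1, p2⟩ := exists_between h1
  have hs : (HJ (Icc x0 x1) : Subgroup (GG K)) ≤ HJ (Icc al be) :=
    HJ_mono (Icc_subset_Icc h0 (by linarith))
  have key : ∀ u : GG K, u ∈ HJ (Icc x0 x1) → ∀ v : GG K, v ∈ HJ (Icc x0 x1) → ⁅u, v⁆ ∈ B := by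
    intro u hu v hv
    have h5 : Commute v (n * u⁻¹ * n⁻¹) := by
      refine HJ_comm hv (HJ_conj (Subgroup.inv_mem _ hu) _) ?_
      rintro _ hx ⟨y, hy, rfl⟩
      have := n.1.monotone hy.1
      have := hx.2
      linarith
    have h6 : u * (n * u⁻¹ * n⁻¹) ∈ B := by
      have := B.mul_mem (hN n hn u (hs hu)) (B.inv_mem hn)
      convert this using 1
      group
    generalize n * u⁻¹ * n⁻¹ = z at h5 h6
    have := B.mul_mem h6 (hN _ (B.inv_mem h6) v (hs hv))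
    convert this using 1
    rw [commutatorElement_def]
    calc u * v * u⁻¹ * v⁻¹ = u * (v * z) * z⁻¹ * u⁻¹ * v⁻¹ := by group
      _ = _ := by rw [h5.eq]; group
  rw [Subgroup.commutator_le]
  intro u h3 v h4
  obtain ⟨k, hk, k0, k1, k2⟩ := sq_in (K := K) a2 p1 a1 h0 a3 (by linarith)
  have h8 : (⟨k, hk⟩ : GG K).1 '' Icc al1 be1 ⊆ Icc x0 x1 := by
    rintro _ ⟨x, hx, rfl⟩
    exact ⟨k1.le.trans (k.monotone hx.1), (k.monotone hx.2).trans k2.le⟩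
  have := hN _ (key _ (HJ_mono h8 (HJ_conj h3 _)) _ (HJ_mono h8 (HJ_conj h4 _))) ⟨k, hk⟩⁻¹
    (Subgroup.inv_mem _ (memHJ (f := ⟨k, hk⟩) k0))
  convert this using 1
  simp only [commutatorElement_def]
  group

lemma higman (B : Subgroup (GG K)) {al be al1 be1 : ℝ}
    (hN : ∀ n ∈ B, ∀ k ∈ HJ (Icc al be), k * n * k⁻¹ ∈ B) {n : GG K} (hn : n ∈ B) (h1 : n ≠ 1)
    (h2 : n ∈ HJ (Icc al be)) (a1 : al < al1) (a2 : al1 < be1)
    (a3 : be1 < be) : ⁅(HJ (Icc al1 be1) : Subgroup (GG K)), HJ (Icc al1 be1)⁆ ≤ B := by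
  obtain ⟨x, hx⟩ := ex_move h1
  have m1 : x ∈ Icc al be := by
    by_contra h
    exact hx (h2 x h)
  have m2 : n.1 x ∈ Icc al be := by
    by_contra h
    exact hx (n.1.injective (h2 _ h))
  rcases lt_or_gt_of_ne hx with h | h
  · refine higman0 B hN (B.inv_mem hn) (x0 := n.1 x) m2.1 ?_ ?_ a1 a2 a3
    · simpa using h
    · simpa using m1.2
  · exact higman0 B hN hn m1.1 h m2.2 a1 a2 a3

structure Ord (P : Set (GG K)) : Prop where
  sub : ∀ a ∈ P, a ∈ DD K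
  mul : ∀ a ∈ P, ∀ b ∈ P, a * b ∈ P
  anti : ∀ a ∈ P, a⁻¹ ∈ P → a = 1
  conj : ∀ a ∈ P, ∀ h : GG K, h * a * h⁻¹ ∈ P
  tot : ∀ a ∈ DD K, a ∈ P ∨ a⁻¹ ∈ P

variable {P : Set (GG K)}

lemma Ord.one (h : Ord P) : (1 : GG K) ∈ P := by simpa using h.tot 1 (one_mem _)

lemma Ord.pow (h : Ord P) {a : GG K} (ha : a ∈ P) (n : ℕ) : a ^ n ∈ P := by
  induction n with
  | zero => simpa using h.one
  | succ n ih => rw [pow_succ]; exact h.mul _ ih _ ha

lemma Ord.le_mul (h : Ord P) {a b u v : GG K} (h1 : a * u ∈ P) (h2 : b * v ∈ P) :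
    a * b * (v * u) ∈ P := by
  have := h.mul _ (h.conj _ h2 a) _ h1
  convert this using 1
  group

def Ord.B (h : Ord P) (f : GG K) : Subgroup (GG K) where
  carrier := {g | ∃ N : ℕ, f ^ N * g ∈ P ∧ f ^ N * g⁻¹ ∈ P}
  one_mem' := ⟨0, by simpa using h.one⟩
  mul_mem' := by
    rintro a b ⟨n, h1, h2⟩ ⟨m, h3, h4⟩
    refine ⟨n + m, ?_, ?_⟩
    · rw [add_comm, pow_add]; exact h.le_mul h3 h1
    · rw [pow_add, mul_inv_rev]; exact h.le_mul h2 h4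
  inv_mem' := by
    rintro a ⟨n, h1, h2⟩
    exact ⟨n, h2, by rwa [inv_inv]⟩

lemma Ord.dom (h : Ord P) {f f2 w : GG K} {al be u v : ℝ} (hf : f ∈ P)
    (hc : ∀ g ∈ HJ (Icc al be), Commute f g) (m2 : f2 ∈ HJ (Icc al be)) (p2 : f2 ∈ P)
    (n2 : f2 ≠ 1) (l2 : f * f2⁻¹ ∈ P) (hw : w ∈ DD K) (fw : Fix w.1 u v) (a1 : al < u)
    (a2 : u < v) (a3 : v < be) : f * w ∈ P := by
  obtain ⟨u2, b1, b2⟩ := exists_between a1
  obtain ⟨u1, b3, b4⟩ := exists_between b1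
  obtain ⟨u0, b5, b6⟩ := exists_between b3
  obtain ⟨v2, c1, c2⟩ := exists_between a3
  obtain ⟨v3, c3, c4⟩ := exists_between c2
  obtain ⟨v1, c5, c6⟩ := exists_between c4
  obtain ⟨v4, c7, c8⟩ := exists_between c6
  obtain ⟨v0, c9, c10⟩ := exists_between c8
  have hB := higman (h.B f) (al := al) (be := be) (al1 := u0) (be1 := v0) (by
    rintro n ⟨N, h1, h2⟩ k hk
    have e := ((hc k hk).pow_left N).eq
    refine ⟨N, ?_, ?_⟩
    · convert h.conj _ h1 k using 1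
      rw [← mul_assoc, ← mul_assoc, e]; group
    · convert h.conj _ h2 k using 1
      rw [mul_inv_rev, mul_inv_rev, inv_inv, ← mul_assoc, ← mul_assoc, e]; group)
    ⟨1, by simpa using h.mul _ hf _ p2, by simpa using l2⟩ n2 m2 b5 (by linarith) c10
  have hH := commH hw fw b2 a2 c1
  obtain ⟨T, t1, t2, t3⟩ := ex_tr (K := K) (x := u2) c3
  obtain ⟨c0, d1, d2, d3⟩ := ext_lr t1 (le_refl u2) (u := u1) (v := v1) b4 (by linarith)
    (by linarith) (by linarith)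
  obtain ⟨k, k1, k2, k3⟩ := squeeze (K := K) (show u1 < v1 by linarith) c7
  obtain ⟨k', k4, k5⟩ := ext_G k1 (show u1 ≤ v1 by linarith)
  rw [← k5 _ le_rfl (by linarith)] at k2
  rw [← k5 _ (by linarith) le_rfl] at k3
  have f1 : Fix (k' * c0⁻¹ * k'⁻¹) v1 v4 := (d2.inv.conj k').mono k2.le k3.le
  have m1 := cm_mem (⟨c0, d1⟩ : GG K) ⟨k', k4⟩
  have f2 : Fix ((⟨c0, d1⟩ : GG K) * (⟨k', k4⟩ * ⟨c0, d1⟩⁻¹ * ⟨k', k4⟩⁻¹)).1 u1 v4 :=
    (d2.mono le_rfl c7.le).mul (f1.mono (by linarith) le_rfl)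
  have f3 : v2 < ((⟨c0, d1⟩ : GG K) * (⟨k', k4⟩ * ⟨c0, d1⟩⁻¹ * ⟨k', k4⟩⁻¹)).1 u2 := by
    change v2 < c0 ((k' * c0⁻¹ * k'⁻¹) u2)
    rwa [f1 u2 (Or.inl (by linarith)), d3 u2 le_rfl le_rfl]
  generalize (⟨c0, d1⟩ : GG K) * (⟨k', k4⟩ * ⟨c0, d1⟩⁻¹ * ⟨k', k4⟩⁻¹) = c at m1 f2 f3
  have cB := hB (commH m1 f2 b6 (by linarith) c9)
  have st : ∀ n, 1 ≤ n → v2 < (c.1 ^ n) u2 := by
    intro n hn
    induction n, hn using Nat.le_induction with
    | base => simpa using f3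
    | succ n _ ih =>
      rw [pow_succ', oi_mul]
      exact f3.trans (c.1.strictMono (by linarith))
  have hd : PO.Disp c (HJ (Icc u2 v2)) := by
    intro k hk x hx y hy
    refine HJ_comm hx (HJ_conj hy _) ?_
    rintro _ hx ⟨z, hz, rfl⟩
    exact absurd (((st k hk).trans_le ((c.1 ^ k).monotone hz.1)).trans_le hx.2) (lt_irrefl _)
  obtain ⟨d, dP, dB, dd⟩ : ∃ d ∈ P, d ∈ h.B f ∧ PO.Disp d (HJ (Icc u2 v2)) := by
    rcases h.tot c m1 with hc | hc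
    · exact ⟨c, hc, cB, hd⟩
    · refine ⟨c⁻¹, hc, inv_mem cB, fun k hk x hx y hy => ?_⟩
      have := (hd k hk y hy x hx).eq
      simp only [PO.L, inv_pow, inv_inv] at this ⊢
      generalize c ^ k = z at this
      change x * (z⁻¹ * y * z) = z⁻¹ * y * z * x
      calc x * (z⁻¹ * y * z) = z⁻¹ * (z * x * z⁻¹ * y) * z := by group
        _ = _ := by rw [← this]; group
  obtain ⟨N, -, hN⟩ := dB
  have h2 : d ^ 2 * w ^ (N + N + 1) ∈ P :=
    PO.S_le (· ∈ P) (fun x y a b => h.mul x a y b) (fun x k a => h.conj x a k) dP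
      (PO.two dd (Subgroup.pow_mem _ hH _))
  have h3 := h.mul _ hf _ (h.mul _ (h.le_mul hN hN) _ h2)
  have h4 : Commute f w := hc w (memHJ (fw.mono a1.le a3.le))
  have h5 : (f * w) ^ (N + N + 1) ∈ P := by
    convert h3 using 1
    rw [h4.mul_pow]; group
  rcases h.tot (f * w) (mul_mem (h.sub f hf) hw) with h6 | h6
  · exact h6
  · generalize f * w = y at h5 h6
    convert h.mul _ (h.pow h6 (N + N)) _ h5 using 1
    group

lemma Ord.germ (h : Ord P) {x w : GG K} {j0 j1 z : ℝ} (hx : x ∈ P) (hw : w ∈ DD K)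
    (fw : ∀ y ∈ Icc j0 j1, w.1 y = y) (z0 : j0 < z) (z1 : z < j1) (z2 : j0 < x.1 z)
    (z3 : x.1 z < j1) (z4 : x.1 z ≠ z)
    (hd : ∀ u ∈ P, u ≠ 1 → Fix u.1 j0 j1 → u * (w * w) ∈ P) : x * w ∈ P := by
  obtain ⟨i0, i1, a1, a2, a3, a4, a5, a6⟩ : ∃ i0 i1, i0 < i1 ∧ j0 ≤ i0 ∧ i1 ≤ j1 ∧ j0 ≤ x.1 i0 ∧
      x.1 i1 ≤ j1 ∧ (i1 < x.1 i0 ∨ x.1 i1 < i0) := by
    rcases lt_or_gt_of_ne z4 with h1 | h1
    · obtain ⟨i0, b1, b2⟩ := exists_between (max_lt h1 (show x.1⁻¹ j0 < z by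
        simpa using x.1⁻¹.strictMono z2))
      rw [max_lt_iff] at b1
      exact ⟨i0, z, b2, by linarith [b1.1], z1.le, by simpa using x.1.monotone b1.2.le, z3.le,
        Or.inr b1.1⟩
    · obtain ⟨i1, b1, b2⟩ := exists_between (lt_min h1 (show z < x.1⁻¹ j1 by
        simpa using x.1⁻¹.strictMono z3))
      rw [lt_min_iff] at b2
      exact ⟨z, i1, b1, z0.le, by linarith [b2.1], z2.le, by simpa using x.1.monotone b2.2.le,
        Or.inl b2.1⟩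
  obtain ⟨y1, b1, b2⟩ := exists_between a1
  obtain ⟨y2, b3, b4⟩ := exists_between b2
  obtain ⟨k0, hk, k1, k2, -⟩ := sq_in (K := K) b3 b4 b1 (by linarith) b4 le_rfl
  obtain ⟨k, rfl⟩ : ∃ k : GG K, k.1 = k0 := ⟨⟨k0, hk⟩, rfl⟩
  have c1 : Commute k w := HJ_comm (memHJ k1) (J' := (Icc j0 j1)ᶜ)
    (fun y hy => fw y (not_not.1 hy)) (fun y hy h' => h' (Icc_subset_Icc a2 a3 hy))
  have f1 : Fix (x * k * x⁻¹).1 (x.1 i0) (x.1 i1) := k1.conj x.1
  have f2 : Fix (x * k * x⁻¹ * k⁻¹).1 j0 j1 := (f1.mono a4 a5).mul (k1.mono a2 a3).inv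
  have n1 : x * k * x⁻¹ * k⁻¹ ≠ 1 := by
    intro e
    rw [mul_inv_eq_one.1 e] at f1
    rw [f1 y1 (a6.imp (fun h => by linarith) (fun h => by linarith))] at k2
    linarith
  rcases h.tot (x * w) (mul_mem (h.sub x hx) hw) with h6 | h6
  · exact h6
  refine h.mul _ hx _ ?_
  have m1 : x * k * x⁻¹ * k⁻¹ ∈ DD K := by
    convert cm_mem x k using 1; group
  rcases h.tot _ m1 with h7 | h7
  · convert h.mul _ (h.mul _ h6 _ (h.conj _ (h.conj _ hx k) x)) _ (hd _ h7 n1 f2) using 1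
    group
  · have h8 := h.conj _ (h.mul _ hx _ (h.conj _ (h.conj _ h6 w) k)) w⁻¹
    convert h.mul _ h8 _ (hd _ h7 (inv_ne_one.2 n1) f2.inv) using 1
    have e : k⁻¹ * w = w * k⁻¹ := c1.inv_left.eq
    calc w = w⁻¹ * (x * k * x⁻¹ * w⁻¹ * (w * k⁻¹)) * (k * x * k⁻¹ * x⁻¹ * (w * w)) := by group
      _ = _ := by rw [← e]; group

def LD (P : Set (GG K)) (f : GG K) (v : ℝ) : Prop :=
  ∀ w ∈ DD K, ∀ a b, v < a → Fix w.1 a b → f * w ∈ P

def RD (P : Set (GG K)) (f : GG K) (u : ℝ) : Prop :=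
  ∀ w ∈ DD K, ∀ a b, b < u → Fix w.1 a b → f * w ∈ P

lemma DD_conj {w : GG K} (hw : w ∈ DD K) (k : GG K) : k * w * k⁻¹ ∈ DD K :=
  (inferInstance : (DD K).Normal).conj_mem w hw k

lemma Ord.lr (h : Ord P) {f : GG K} {u v : ℝ} (hf : f ∈ P) (h1 : f ≠ 1) (ff : Fix f.1 u v) :
    LD P f v ∨ RD P f u := by
  obtain ⟨k0, hk, k1⟩ := mv (K := K) u v
  obtain ⟨k, rfl⟩ : ∃ k : GG K, k.1 = k0 := ⟨⟨k0, hk⟩, rfl⟩
  have f2 : Fix (k * f * k⁻¹).1 (k.1 u) (k.1 v) := ff.conj k.1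
  have p2 := h.conj f hf k
  rcases h.tot _ (mul_mem (h.sub _ hf) (inv_mem (h.sub _ p2))) with h2 | h2
  · left
    intro w hw a b h3 h4
    obtain ⟨al, a1, a2⟩ := exists_between (lt_min h3 k1)
    rw [lt_min_iff] at a2
    have := le_max_left (a + 1) b
    refine h.dom (al := al) (be := max (max (a + 1) b + 1) (k.1 v)) hf (fun g hg => ?_)
      (memHJ (f2.mono a2.2.le (le_max_right _ _))) p2 (by simpa using h1) h2 hw
      (h4.mono le_rfl (le_max_right (a + 1) b)) a2.1 (by linarith)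
      ((lt_add_one _).trans_le (le_max_left _ _))
    exact HJ_comm (memHJ ff) hg (fun x x1 x2 => by linarith [x1.2, x2.1])
  · right
    intro w hw a b h3 h4
    have h5 : Fix (k * w * k⁻¹).1 (k.1 a) (k.1 b) := h4.conj k.1
    obtain ⟨be, a1, a2⟩ := exists_between (max_lt (k.1.strictMono h3) k1)
    rw [max_lt_iff] at a1
    have := min_le_left (k.1 b - 1) (k.1 a)
    have h6 := h.dom (al := min (min (k.1 b - 1) (k.1 a) - 1) u) (be := be) p2 (fun g hg => ?_)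
      (memHJ (ff.mono (min_le_right _ _) a1.2.le)) hf h1 (by simpa using h2) (DD_conj hw k)
      (h5.mono (min_le_right (k.1 b - 1) (k.1 a)) le_rfl)
      ((min_le_left _ _).trans_lt (sub_one_lt _)) (by linarith) a1.1
    · convert h.conj _ h6 k⁻¹ using 1
      group
    · exact HJ_comm (memHJ f2) hg (fun x x1 x2 => by linarith [x1.1, x2.2])

lemma Ord.not_RD (h : Ord P) : ¬ ∀ f ∈ P, f ≠ 1 → ∀ u v, Fix f.1 u v → RD P f u := by
  intro hR
  obtain ⟨W0, hW, a0, ha, z, s1, s2, s3, s4⟩ := special (K := K)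
  obtain ⟨W, rfl⟩ : ∃ k : GG K, k.1 = W0 := ⟨⟨W0, hW⟩, rfl⟩
  obtain ⟨a, rfl⟩ : ∃ k : GG K, k.1 = a0 := ⟨⟨a0, ha⟩, rfl⟩
  have m1 := cm_mem W a
  have m2 : W * (a * a) * W⁻¹ * (a * a)⁻¹ ∈ DD K := by
    convert cm_mem W (a * a) using 1; group
  have e1 : W * (a * W⁻¹ * a⁻¹) * (a * (W * (a * W⁻¹ * a⁻¹)) * a⁻¹) =
      W * (a * a) * W⁻¹ * (a * a)⁻¹ := by group
  have e2 : (W * (a * W⁻¹ * a⁻¹))⁻¹.1 z = (a.1 * W.1 * a.1⁻¹ * W.1⁻¹) z := by
    rw [show (W * (a * W⁻¹ * a⁻¹))⁻¹ = a * W * a⁻¹ * W⁻¹ by group]; rfl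
  rw [← e2] at s3 s4
  change ∀ x, -1 / 3 < x → (W * (a * a) * W⁻¹ * (a * a)⁻¹).1 x = x at s1
  generalize W * (a * a) * W⁻¹ * (a * a)⁻¹ = b at m2 e1 s1
  generalize W * (a * W⁻¹ * a⁻¹) = g at m1 e1 s3 s4
  obtain ⟨M, hM⟩ := b.2.2
  have fb : Fix b.1 (-M) (-3 / 10) := fun x hx =>
    hx.elim (fun h => hM x (Or.inl h)) (fun h => s1 x (by linarith))
  have key : ∀ x ∈ P, x.1 z = g⁻¹.1 z → ∀ w ∈ DD K, Fix w.1 (-M) (-3 / 10) → x * w ∈ P := by
    intro x hx ez w hw fw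
    refine h.germ (j0 := -1 / 4) (j1 := max z (g⁻¹.1 z) + 1) (z := z) hx hw
      (fun y hy => fw y (Or.inr (by linarith [hy.1]))) s2 (by linarith [le_max_left z (g⁻¹.1 z)])
      (ez ▸ s3) (by linarith [le_max_right z (g⁻¹.1 z)]) (ez ▸ s4) (fun u hu u1 fu => ?_)
    exact hR u hu u1 _ _ fu _ (mul_mem hw hw) _ _ (by norm_num) (fw.mul fw)
  have g1 : g ≠ 1 := fun e => s4 (by rw [e]; rfl)
  rcases h.tot g m1 with h1 | h1
  · have := key _ (h.conj g h1 a) (by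
      rw [eq_inv_mul_of_mul_eq e1]
      change g⁻¹.1 (b.1 z) = _
      rw [s1 z (by linarith)]) _ (inv_mem m2) fb.inv
    rw [← e1] at this
    exact g1 (h.anti g h1 (by convert this using 1; group))
  · have := h.conj _ (key _ h1 rfl _ m2 fb) a⁻¹
    rw [← e1] at this
    exact g1 (h.anti g (by convert this using 1; group) h1)

lemma Ord.ld (h : Ord P) {f : GG K} {u v : ℝ} (hf : f ∈ P) (h1 : f ≠ 1) (ff : Fix f.1 u v) :
    LD P f v := by
  by_contra hn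
  have hR := (h.lr hf h1 ff).resolve_left hn
  refine h.not_RD (fun g hg g1 u' v' fg => (h.lr hg g1 fg).resolve_left (fun hL => ?_))
  obtain ⟨k0, hk, k1⟩ := mv (K := K) u v'
  obtain ⟨k, rfl⟩ : ∃ k : GG K, k.1 = k0 := ⟨⟨k0, hk⟩, rfl⟩
  have f2 : Fix (k * f * k⁻¹).1 (k.1 u) (k.1 v) := ff.conj k.1
  have a1 := hL _ (inv_mem (h.sub _ (h.conj f hf k))) _ _ k1 f2.inv
  have a2 := h.conj _ (hR (k⁻¹ * g⁻¹ * k⁻¹⁻¹) (DD_conj (inv_mem (h.sub g hg)) _) _ _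
    (by simpa using k.1⁻¹.strictMono k1) (fg.inv.conj k.1⁻¹)) k
  have a3 := h.anti _ a1 (by convert a2 using 1; group)
  rw [← mul_inv_eq_one.1 a3] at f2
  obtain ⟨x, hx⟩ := ex_move g1
  rcases le_total x (k.1 u) with h2 | h2
  · exact hx (f2 x (Or.inl h2))
  · exact hx (fg x (Or.inr (k1.le.trans h2)))

lemma Ord.same (h : Ord P) {x y : GG K} {p t : ℝ} (hx : x ∈ P) (hy : y ∈ DD K) (ht : t ≠ 0)
    (lx : LE x.1 p t) (ly : LE y.1 p t) : y ∈ P := by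
  have l0 : LE (x⁻¹ * y).1 p 0 := by simpa using lx.inv.mul ly
  obtain ⟨q, q1, q2⟩ := l0.zero
  obtain ⟨j, j1, j2⟩ := exists_between q1
  have m := mul_mem (inv_mem (h.sub x hx)) hy
  obtain ⟨M, hM⟩ := (x⁻¹ * y).2.2
  have fw : Fix (x⁻¹ * y).1 q M := fun z hz => hz.elim (q2 z) (fun h => hM z (Or.inr h))
  have e := lx.1 p le_rfl
  have ev : ∀ᶠ z in 𝓝[>] p, z ∈ Ioo p j := Ioo_mem_nhdsGT j1
  have tn := tend x.1 p
  rw [e] at tn
  obtain ⟨z, z1, z2, z3⟩ := ((lx.moves ht).and (ev.and (tn.eventually ev))).exists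
  have := h.germ (j0 := p) (j1 := j) hx m (fun z hz => q2 z (hz.2.trans j2.le)) z2.1 z2.2 z3.1 z3.2
    z1 (fun u hu u1 fu => h.ld hu u1 fu _ (mul_mem m m) _ _ j2 (fw.mul fw))
  simpa using this

end Pool.Agent.Lib.helper17.NO
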