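import Mathlib
import Pool.Agent.Lib.helper17.NO1
import Pool.Agent.Lib.helper17.NO4

set_option autoImplicit false

namespace Pool.Agent.Lib.helper17.NO

open Filter Topology Set
open Pool.Agent.Lib.helper17.PO (OI Fix oi_mul oi_one oi_inv1 oi_inv2 oi_inv_fix comm_disj)

variable {K : IntermediateField ℚ ℝ}

def Pos (s : K →+* ℝ) (e : Bool) (x : GG K) : Prop :=
  x = 1 ∨ ∃ p ∈ K, ∃ t : K, LE x.1 p t ∧ 0 < sg e * s t

lemma ne0 {s : K →+* ℝ} {e : Bool} {t : K} (h : 0 < sg e * s t) : (t : ℝ) ≠ 0 := fun h0 => by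
  rw [show t = 0 from Subtype.ext h0] at h
  simp at h

lemma LE.ne_one {x : GG K} {p t : ℝ} (h : LE x.1 p t) (ht : t ≠ 0) : x ≠ 1 := by
  rintro rfl
  obtain ⟨z, hz⟩ := (h.moves ht).exists
  exact hz rfl

lemma sg_ne (s : K →+* ℝ) (e : Bool) {t : K} (ht : (t : ℝ) ≠ 0) : sg e * s t ≠ 0 :=
  mul_ne_zero (by cases e <;> simp [sg]) ((map_ne_zero s).2 (fun h => ht (by simp [h])))

lemma Pos_iff {s : K →+* ℝ} {e : Bool} {x : GG K} {p : ℝ} {t : K} (hp : p ∈ K) (ht : (t : ℝ) ≠ 0)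
    (h : LE x.1 p t) : Pos s e x ↔ 0 < sg e * s t := by
  refine ⟨?_, fun h1 => Or.inr ⟨p, hp, t, h, h1⟩⟩
  rintro (h1 | ⟨p', -, t', h1, h2⟩)
  · exact absurd h1 (h.ne_one ht)
  · rwa [show t = t' from Subtype.ext (h.uniq h1 ht (ne0 h2))]

lemma Pos.mul {s : K →+* ℝ} {e : Bool} {x y : GG K} (hx : Pos s e x) (hy : Pos s e y) :
    Pos s e (x * y) := by
  rcases hx with rfl | ⟨p, hp, t, h1, h2⟩
  · rwa [one_mul]
  rcases hy with rfl | ⟨p', hp', t', k1, k2⟩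
  · rw [mul_one]; exact Or.inr ⟨p, hp, t, h1, h2⟩
  right
  rcases lt_trichotomy p p' with h | rfl | h
  · exact ⟨p, hp, t, by simpa using h1.mul (LE_far k1.1 h), h2⟩
  · exact ⟨p, hp, t + t', h1.mul k1, by rw [map_add, mul_add]; positivity⟩
  · exact ⟨p', hp', t', by simpa using (LE_far h1.1 h).mul k1, k2⟩

lemma Pos.conj {s : K →+* ℝ} {e : Bool} {x : GG K} (hx : Pos s e x) (h : GG K) :
    Pos s e (h * x * h⁻¹) := by
  rcases hx with rfl | ⟨p, hp, t, h1, h2⟩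
  · left; group
  obtain ⟨c, hc, c0, u, h3⟩ := PL_R h.2.1 hp
  refine Or.inr ⟨_, ((h.2.1 p).jet hp).1, ⟨c, hc⟩ ^ 2 * t, h1.conj h3 (pow_ne_zero _ c0), ?_⟩
  have : s ⟨c, hc⟩ ≠ 0 := (map_ne_zero s).2 (fun h => c0 (congrArg Subtype.val h))
  rw [map_mul, map_pow, mul_left_comm]
  positivity

lemma Pos.anti {s : K →+* ℝ} {e : Bool} {x : GG K} (hx : Pos s e x) (hy : Pos s e x⁻¹) :
    x = 1 := by
  rcases hx with rfl | ⟨p, hp, t, h1, h2⟩
  · rfl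
  have := (Pos_iff (t := -t) hp (neg_ne_zero.2 (ne0 h2)) h1.inv).1 hy
  rw [map_neg] at this
  linarith

lemma Pos.tot (s : K →+* ℝ) (e : Bool) (x : GG K) : Pos s e x ∨ Pos s e x⁻¹ := by
  by_cases h : x = 1
  · exact Or.inl (Or.inl h)
  obtain ⟨p, hp, t, ht, t0, h1⟩ := ex_LE x.2 (fun e => h (Subtype.ext e))
  rcases lt_or_gt_of_ne (sg_ne s e (t := ⟨t, ht⟩) t0) with h2 | h2
  · exact Or.inr (Or.inr ⟨p, hp, -⟨t, ht⟩, h1.inv, by rw [map_neg]; linarith⟩)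
  · exact Or.inl (Or.inr ⟨p, hp, ⟨t, ht⟩, h1, h2⟩)

lemma ex_DD (t : K) : ∃ x ∈ DD K, LE x.1 0 t := by
  obtain ⟨f, hf, h1⟩ := ex_elt t.2
  obtain ⟨k, hk, k1⟩ := mv (K := K) 0 0
  refine ⟨_, cm_mem ⟨f, hf⟩ ⟨k, hk⟩, ?_⟩
  have : LE (k * f⁻¹ * k⁻¹) 0 0 := LE_far (p' := k 0) (fun x hx => by
    rw [oi_mul, oi_mul, h1.inv.1, oi_inv2]
    simpa using k⁻¹.monotone hx) k1
  simpa using h1.mul this

lemma Ord.cls [FiniteDimensional ℚ K] {P : Set (GG K)} (h : Ord P) :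
    ∃ s e, ∀ x ∈ DD K, x ∈ P ↔ Pos s e x := by
  have hS : Semi {t : K | t = 0 ∨ ∃ x ∈ P, LE x.1 0 t} := by
    refine ⟨?_, ?_, ?_, ?_⟩
    · rintro a (rfl | ⟨x, hx, h1⟩) b hb
      · rwa [zero_add]
      · rcases hb with rfl | ⟨y, hy, h2⟩
        · exact Or.inr ⟨x, hx, by rwa [add_zero]⟩
        · exact Or.inr ⟨x * y, h.mul _ hx _ hy, h1.mul h2⟩
    · rintro a (rfl | ⟨x, hx, h1⟩) hb
      · rfl
      · rcases hb with hb | ⟨y, hy, h2⟩
        · exact neg_eq_zero.1 hb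
        · by_contra h0
          have h3 : (a : ℝ) ≠ 0 := fun e => h0 (Subtype.ext e)
          have h4 := h.same hx (inv_mem (h.sub y hy)) h3 h1 (by simpa using h2.inv)
          exact h2.ne_one (by simpa using h3) (h.anti y hy h4)
    · intro a
      obtain ⟨x, hx, h1⟩ := ex_DD a
      rcases h.tot x hx with h2 | h2
      · exact Or.inl (Or.inr ⟨x, h2, h1⟩)
      · exact Or.inr (Or.inr ⟨_, h2, h1.inv⟩)
    · rintro c a (rfl | ⟨x, hx, h1⟩)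
      · exact Or.inl (mul_zero _)
      by_cases c0 : c = 0
      · exact Or.inl (by simp [c0])
      obtain ⟨d, hd, d0, d1⟩ : ∃ d ∈ K, 0 < d ∧ d ^ 2 = (c : ℝ) ^ 2 := by
        rcases lt_or_gt_of_ne (show (c : ℝ) ≠ 0 from fun e => c0 (Subtype.ext e)) with h2 | h2
        · exact ⟨-c, neg_mem c.2, neg_pos.2 h2, neg_sq _⟩
        · exact ⟨c, c.2, h2, rfl⟩
      obtain ⟨k, hk, k1, k2⟩ := ex_conj (zero_mem K) hd d0
      have := h1.conj k2 (by positivity)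
      rw [k1, d1] at this
      exact Or.inr ⟨_, h.conj x hx ⟨k, hk⟩, this⟩
  obtain ⟨s, e, hs⟩ := hS.real
  refine ⟨s, e, fun x hx => ?_⟩
  by_cases h1 : x = 1
  · exact ⟨fun _ => Or.inl h1, fun _ => h1 ▸ h.one⟩
  obtain ⟨p, hp, t, ht, t0, h2⟩ := ex_LE x.2 (fun e => h1 (Subtype.ext e))
  obtain ⟨k, hk, k1, k2⟩ := ex_conj hp (one_mem K) one_pos
  have h3 := h2.conj k2 (by positivity)
  rw [k1, one_pow, one_mul] at h3
  rw [Pos_iff (t := ⟨t, ht⟩) hp t0 h2, ← (sg_ne s e (t := ⟨t, ht⟩) t0).symm.le_iff_lt, ← hs]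
  refine ⟨fun h4 => Or.inr ⟨_, h.conj x h4 ⟨k, hk⟩, h3⟩, ?_⟩
  rintro (h4 | ⟨y, hy, h4⟩)
  · exact absurd (congrArg Subtype.val h4) t0
  · convert h.conj _ (h.same hy (DD_conj hx ⟨k, hk⟩) t0 h4 h3) ⟨k, hk⟩⁻¹ using 1
    group

def Rl (z : (K →+* ℝ) × Bool) (x y : DD K) : Prop := Pos z.1 z.2 (x.1⁻¹ * y.1)

lemma Rl_inj : Function.Injective (Rl (K := K)) := by
  rintro ⟨s, e⟩ ⟨s', e'⟩ h
  have := sg_inj (s := s) (s' := s') (e := e) (e' := e') (fun t ht => by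
    obtain ⟨x, hx, h1⟩ := ex_DD t
    have t0 : (t : ℝ) ≠ 0 := fun e => ht (Subtype.ext e)
    rw [← Pos_iff (zero_mem K) t0 h1, ← Pos_iff (zero_mem K) t0 h1]
    simpa [Rl] using congrFun (congrFun h 1) ⟨x, hx⟩)
  rw [this.1, this.2]

theorem orders [FiniteDimensional ℚ K] : {r : DD K → DD K → Prop | IsLinearOrder (DD K) r ∧
    ∀ a b c d : DD K, r a b → r (c * a * d) (c * b * d)} = range Rl := by
  ext r
  constructor
  · rintro ⟨h1, h2⟩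
    have e : ∀ a b, r a b ↔ r 1 (a⁻¹ * b) := fun a b =>
      ⟨fun h => by simpa using h2 _ _ a⁻¹ 1 h, fun h => by simpa using h2 _ _ a 1 h⟩
    have hO : Ord {x : GG K | ∃ h : x ∈ DD K, r 1 ⟨x, h⟩} := by
      refine ⟨fun a ha => ha.1, ?_, ?_, ?_, fun a ha => ?_⟩
      · rintro a ⟨ha, k1⟩ b ⟨hb, k2⟩
        exact ⟨mul_mem ha hb, trans_of r k1 (by simpa using h2 _ _ ⟨a, ha⟩ 1 k2)⟩
      · rintro a ⟨ha, k1⟩ ⟨hb, k2⟩
        have := antisymm_of r k1 ((e _ _).2 (by rw [mul_one]; exact k2))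
        exact (congrArg Subtype.val this).symm
      · rintro a ⟨ha, k1⟩ h
        obtain ⟨h', m, e'⟩ := conj_DD h a
        rw [e']
        have := h2 _ _ ⟨h', m⟩ ⟨h', m⟩⁻¹ k1
        rw [mul_one, mul_inv_cancel] at this
        exact ⟨DD_conj ha _, this⟩
      · rcases total_of r 1 ⟨a, ha⟩ with h | h
        · exact Or.inl ⟨ha, h⟩
        · have := (e _ _).1 h
          rw [mul_one] at this
          exact Or.inr ⟨inv_mem ha, this⟩
    obtain ⟨s, b, hs⟩ := hO.cls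
    refine ⟨(s, b), funext fun x => funext fun y => propext ?_⟩
    rw [e]
    exact (hs _ (x⁻¹ * y).2).symm.trans ⟨fun h => h.2, fun h => ⟨_, h⟩⟩
  · rintro ⟨z, rfl⟩
    refine ⟨{ refl := fun a => Or.inl (inv_mul_cancel _)
              trans := fun a b c h1 h2 => ?_
              antisymm := fun a b h1 h2 => ?_
              total := fun a b => ?_ }, fun a b c d h => ?_⟩
    · have := Pos.mul h1 h2
      rwa [mul_assoc, mul_inv_cancel_left] at this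
    · exact Subtype.ext (inv_mul_eq_one.1 (Pos.anti h1 (by simpa [Rl] using h2)))
    · simpa [Rl] using Pos.tot z.1 z.2 (a.1⁻¹ * b.1)
    · convert Pos.conj h d.1⁻¹ using 1
      simp only [Rl, Subgroup.coe_mul]
      congr 1
      group

end Pool.Agent.Lib.helper17.NO
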