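import Mathlib
import Pool.Agent.Lib.helper17.NO5

set_option autoImplicit false

namespace Pool.Agent.Lib.helper17.NO

open Filter Topology Set
open Pool.Agent.Lib.helper17.PO (OI Fix oi_mul oi_one oi_inv1 oi_inv2 oi_inv_fix comm_disj)

variable {K : IntermediateField ℚ ℝ}

lemma Fix_comm {f g : GG K} {u v a b : ℝ} (hf : Fix f.1 u v) (hg : Fix g.1 a b) (h : v ≤ a) :
    Commute f g :=
  Subtype.ext (comm_disj (A := Ioo u v) (B := Ioo a b)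
    (fun x hx => hf x (by by_contra h; push Not at h; exact hx h))
    (fun x hx => hg x (by by_contra h; push Not at h; exact hx h))
    (fun x h1 h2 => by linarith [h1.2, h2.1]))

lemma Fix_lt {f : GG K} {u v : ℝ} (hf : Fix f.1 u v) (h : f ≠ 1) : u < v := by
  obtain ⟨x, hx⟩ := ex_move h
  by_contra hc
  exact hx (hf x ((le_total x u).imp_right (fun h => (not_lt.1 hc).trans h)))

lemma sq2 {u v a b : ℝ} (h : u < v) (h' : a < b) : ∃ k : GG K, a < k.1 u ∧ k.1 v < b := by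
  obtain ⟨k, k1, k2, k3⟩ := squeeze (K := K) h h'
  obtain ⟨k', k4, k5⟩ := ext_G k1 h.le
  exact ⟨⟨k', k4⟩, by rwa [← k5 _ le_rfl h.le] at k2, by rwa [← k5 _ h.le le_rfl] at k3⟩

lemma gad {x : GG K} {z j0 j1 l0 l1 : ℝ} (z0 : j0 < z) (z1 : z < j1) (z2 : l0 < x.1 z)
    (z3 : x.1 z < l1) (z4 : x.1 z ≠ z) :
    ∃ k : GG K, Fix k.1 j0 j1 ∧ Fix (x * k * x⁻¹).1 l0 l1 ∧ x * k * x⁻¹ * k⁻¹ ≠ 1 := by
  obtain ⟨i0, i1, a1, a2, a3, a4, a5, a6⟩ : ∃ i0 i1, i0 < i1 ∧ j0 ≤ i0 ∧ i1 ≤ j1 ∧ l0 ≤ x.1 i0 ∧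
      x.1 i1 ≤ l1 ∧ (i1 < x.1 i0 ∨ x.1 i1 < i0) := by
    rcases lt_or_gt_of_ne z4 with h1 | h1
    · obtain ⟨i0, b1, b2⟩ := exists_between (max_lt (max_lt h1 z0) (show x.1⁻¹ l0 < z by
        simpa using x.1⁻¹.strictMono z2))
      rw [max_lt_iff, max_lt_iff] at b1
      exact ⟨i0, z, b2, b1.1.2.le, z1.le, by simpa using x.1.monotone b1.2.le, z3.le,
        Or.inr b1.1.1⟩
    · obtain ⟨i1, b1, b2⟩ := exists_between (lt_min (lt_min h1 z1) (show z < x.1⁻¹ l1 by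
        simpa using x.1⁻¹.strictMono z3))
      rw [lt_min_iff, lt_min_iff] at b2
      exact ⟨z, i1, b1, z0.le, b2.1.2.le, z2.le, by simpa using x.1.monotone b2.2.le,
        Or.inl b2.1.1⟩
  obtain ⟨y1, b1, b2⟩ := exists_between a1
  obtain ⟨y2, b3, b4⟩ := exists_between b2
  obtain ⟨k0, hk, k1, k2, -⟩ := sq_in (K := K) b3 b4 b1 (by linarith) b4 le_rfl
  obtain ⟨k, rfl⟩ : ∃ k : GG K, k.1 = k0 := ⟨⟨k0, hk⟩, rfl⟩
  have f1 : Fix (x * k * x⁻¹).1 (x.1 i0) (x.1 i1) := k1.conj x.1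
  refine ⟨k, k1.mono a2 a3, f1.mono a4 a5, fun e => ?_⟩
  rw [mul_inv_eq_one.1 e] at f1
  rw [f1 y1 (a6.imp (fun h => by linarith) (fun h => by linarith))] at k2
  linarith

structure Lat (P : Set (GG K)) : Prop where
  sub : ∀ a ∈ P, a ∈ DD K
  one : (1 : GG K) ∈ P
  mul : ∀ a ∈ P, ∀ b ∈ P, a * b ∈ P
  anti : ∀ a ∈ P, a⁻¹ ∈ P → a = 1
  conj : ∀ a ∈ P, ∀ h : GG K, h * a * h⁻¹ ∈ P
  meet : ∀ a ∈ DD K, ∀ b ∈ DD K, ∃ m, m⁻¹ * a ∈ P ∧ m⁻¹ * b ∈ P ∧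
    ∀ z, z⁻¹ * a ∈ P → z⁻¹ * b ∈ P → z⁻¹ * m ∈ P

variable {P : Set (GG K)}

lemma Lat.pow (h : Lat P) {a : GG K} (ha : a ∈ P) (n : ℕ) : a ^ n ∈ P := by
  induction n with
  | zero => simpa using h.one
  | succ n ih => rw [pow_succ]; exact h.mul _ ih _ ha

def Ot (P : Set (GG K)) (a b : GG K) : Prop := ∀ z, z⁻¹ * a ∈ P → z⁻¹ * b ∈ P → z⁻¹ ∈ P

lemma Ot.symm {a b : GG K} (h : Ot P a b) : Ot P b a := fun z h1 h2 => h z h2 h1

lemma Lat.ot_mul (h : Lat P) {a b c : GG K} (h1 : Ot P a b) (h2 : Ot P a c) (hb : b ∈ P) :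
    Ot P a (b * c) := by
  intro z z1 z2
  refine h1 z z1 ?_
  have := h2 (b⁻¹ * z) (by convert h.mul _ (h.conj _ hb z⁻¹) _ z1 using 1; group)
    (by convert z2 using 1; group)
  simpa using this

lemma Lat.ot_pow (h : Lat P) {a b : GG K} (h1 : Ot P a b) (hb : b ∈ P) (n : ℕ) :
    Ot P a (b ^ n) := by
  induction n with
  | zero => intro z _ h2; simpa using h2
  | succ n ih => rw [pow_succ']; exact h.ot_mul h1 ih hb

lemma Lat.ot_conj (h : Lat P) {a b : GG K} (h1 : Ot P a b) (k : GG K) :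
    Ot P (k * a * k⁻¹) (k * b * k⁻¹) := by
  intro z z1 z2
  have := h1 (k⁻¹ * z * k) (by convert h.conj _ z1 k⁻¹ using 1; group)
    (by convert h.conj _ z2 k⁻¹ using 1; group)
  convert h.conj _ this k using 1
  group

def Lat.Bd (h : Lat P) (Y : Submonoid (GG K)) : Subgroup (GG K) where
  carrier := {g | ∃ y ∈ Y, y ∈ P ∧ g⁻¹ * y ∈ P ∧ g * y ∈ P}
  one_mem' := ⟨1, Y.one_mem, by simpa using h.one⟩
  mul_mem' := by
    rintro g g' ⟨y, h1, h2, h3, h4⟩ ⟨y', k1, k2, k3, k4⟩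
    refine ⟨y * y' * y, Y.mul_mem (Y.mul_mem h1 k1) h1, h.mul _ (h.mul _ h2 _ k2) _ h2, ?_, ?_⟩
    · convert h.mul _ (h.mul _ (h.conj _ h3 g'⁻¹) _ k3) _ h2 using 1; group
    · convert h.mul _ (h.mul _ (h.conj _ h2 (g * g')) _ (h.conj _ k4 g)) _ h4 using 1; group
  inv_mem' := by
    rintro g ⟨y, h1, h2, h3, h4⟩
    exact ⟨y, h1, h2, by rwa [inv_inv], h3⟩

lemma Lat.Bd_conj (h : Lat P) {Y Y' : Submonoid (GG K)} {g k : GG K} (hg : g ∈ h.Bd Y)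
    (hk : ∀ y ∈ Y, k * y * k⁻¹ ∈ Y') : k * g * k⁻¹ ∈ h.Bd Y' := by
  obtain ⟨y, h1, h2, h3, h4⟩ := hg
  refine ⟨_, hk y h1, h.conj _ h2 k, ?_, ?_⟩
  · convert h.conj _ h3 k using 1; group
  · convert h.conj _ h4 k using 1; group

def Lat.Y (h : Lat P) (f : GG K) : Submonoid (GG K) where
  carrier := {y | y ∈ P ∧ Ot P f y}
  one_mem' := ⟨h.one, fun z _ h2 => by simpa using h2⟩
  mul_mem' := fun h1 h2 => ⟨h.mul _ h1.1 _ h2.1, h.ot_mul h1.2 h2.2 h1.1⟩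

lemma Lat.Y_conj (h : Lat P) (f k : GG K) : ∀ y ∈ h.Y f, k * y * k⁻¹ ∈ h.Y (k * f * k⁻¹) :=
  fun _ hy => ⟨h.conj _ hy.1 k, h.ot_conj hy.2 k⟩

lemma pw_conj (f k : GG K) :
    ∀ y ∈ Submonoid.powers f, k * y * k⁻¹ ∈ Submonoid.powers (k * f * k⁻¹) := by
  rintro _ ⟨n, rfl⟩
  exact ⟨n, conj_pow⟩

lemma Lat.fill (h : Lat P) (T : GG K → Submonoid (GG K))
    (hT : ∀ f k, ∀ y ∈ T f, k * y * k⁻¹ ∈ T (k * f * k⁻¹)) {f n w : GG K} {u v a b a' b' : ℝ}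
    (ff : Fix f.1 u v) (hn : n ∈ h.Bd (T f)) (n1 : n ≠ 1) (fn : Fix n.1 a b) (hw : w ∈ DD K)
    (fw : Fix w.1 a' b') (hs : (v < a ∧ v < a') ∨ (b < u ∧ b' < u)) : w ∈ h.Bd (T f) := by
  by_cases w1 : w = 1
  · rw [w1]; exact one_mem _
  have l := Fix_lt fw w1
  obtain ⟨al, be, c1, c2, c3, c4, c5⟩ : ∃ al be, al ≤ a ∧ al < a' ∧ b ≤ be ∧ b' < be ∧
      (v < al ∨ be < u) := by
    rcases hs with ⟨h1, h2⟩ | ⟨h1, h2⟩
    · obtain ⟨t, t1, t2⟩ := exists_between (lt_min h1 h2)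
      rw [lt_min_iff] at t2
      exact ⟨t, max b (b' + 1), t2.1.le, t2.2, le_max_left _ _,
        (lt_add_one _).trans_le (le_max_right _ _), Or.inl t1⟩
    · obtain ⟨t, t1, t2⟩ := exists_between (max_lt h1 h2)
      rw [max_lt_iff] at t1
      exact ⟨min a (a' - 1), t, min_le_left _ _, (min_le_right _ _).trans_lt (sub_one_lt _),
        t1.1.le, t1.2, Or.inr t2⟩
  obtain ⟨al1, d1, d2⟩ := exists_between c2
  obtain ⟨be1, d3, d4⟩ := exists_between c4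
  refine higman _ (fun g hg k hk => h.Bd_conj hg (fun y hy => ?_)) hn n1 (memHJ (fn.mono c1 c3)) d1
    (by linarith) d4 (commH hw fw d2 l d3)
  have e : Commute f k := HJ_comm (memHJ ff) hk (fun x x1 x2 => by
    rcases c5 with h | h <;> linarith [x1.1, x1.2, x2.1, x2.2])
  have := hT f k y hy
  rwa [← e.eq, mul_inv_cancel_right] at this

lemma near {g : OI} {x : ℝ} (h : g x ≠ x) : ∃ a < x, ∀ y, a < y → x < g y ∨ g x < y := by
  rcases lt_or_gt_of_ne h with h | h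
  · exact ⟨g x, h, fun y hy => Or.inr hy⟩
  · exact ⟨g⁻¹ x, by simpa using g⁻¹.strictMono h, fun y hy => Or.inl (by
      simpa using g.strictMono hy)⟩

lemma deriv_side {p : OI} (hp : p ∈ PL K) {a b : ℝ} (h1 : ∀ x, -1 ≤ x → x ≤ 0 → p x = a * x)
    (h2 : ∀ x, 0 ≤ x → x ≤ 1 → p x = b * x) : a = b := by
  have d := (hp 0).1.hasDerivAt
  have e1 : HasDerivWithinAt p a (Iic 0) 0 := by
    refine HasDerivWithinAt.congr_of_eventuallyEq (by
      simpa using ((hasDerivAt_id (0 : ℝ)).const_mul a).hasDerivWithinAt) ?_ (h1 0 (by norm_num) le_rfl)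
    filter_upwards [Icc_mem_nhdsLE (show (-1 : ℝ) < 0 by norm_num)] with x hx using h1 x hx.1 hx.2
  have e2 : HasDerivWithinAt p b (Ici 0) 0 := by
    refine HasDerivWithinAt.congr_of_eventuallyEq (by
      simpa using ((hasDerivAt_id (0 : ℝ)).const_mul b).hasDerivWithinAt) ?_ (h2 0 le_rfl (by norm_num))
    filter_upwards [Icc_mem_nhdsGE (show (0 : ℝ) < 1 by norm_num)] with x hx using h2 x hx.1 hx.2
  rw [(uniqueDiffWithinAt_Iic 0).eq_deriv _ e1 d.hasDerivWithinAt,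
    (uniqueDiffWithinAt_Ici 0).eq_deriv _ e2 d.hasDerivWithinAt]

lemma Lat.dec (h : Lat P) {e : GG K} (he : e ∈ DD K) :
    ∃ p ∈ P, ∃ n ∈ P, Ot P p n ∧ e = n⁻¹ * p := by
  obtain ⟨m, h1, h2, h3⟩ := h.meet e he 1 (one_mem _)
  refine ⟨_, h1, _, h2, fun z z1 z2 => ?_, by group⟩
  convert h3 (m * z) (by convert z1 using 1; group) (by convert z2 using 1; group) using 1
  group

lemma cut {c : GG K} {x y : ℝ} (hxy : x < y) (hc : ∀ z, x ≤ z → z ≤ y → c.1 z = z) :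
    ∃ l : GG K, ∃ M, Fix l.1 (-M) x ∧ Fix (l⁻¹ * c).1 y M := by
  obtain ⟨t, t1, t2⟩ := exists_between hxy
  obtain ⟨M, hM⟩ := c.2.2
  have d : HasDerivAt c.1 1 t := (hasDerivAt_id t).congr_of_eventuallyEq
    (eventually_of_mem (Icc_mem_nhds t1 t2) (fun z hz => hc z hz.1 hz.2))
  obtain ⟨l, l1, l2⟩ := mkOI (K := K) (F := fun z => if z ≤ t then c.1 z else z)
    (fun p => glue2 (hc t t1.le t2.le) d (hasDerivAt_id t) p (fun _ => c.2.1 p)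
      (fun _ => good_id p)) c.1 1 (x1 := t) (x2 := y) (fun z hz => if_pos hz)
      (fun z hz => if_neg (by linarith))
  have f1 : Fix l (-M) x := by
    intro z hz
    rw [l2]
    split_ifs with h
    · exact hz.elim (fun h => hM z (Or.inl h)) (fun h' => hc z h' (by linarith))
    · rfl
  refine ⟨⟨l, mem_G0 l1 f1⟩, M, f1, fun z hz => ?_⟩
  change l⁻¹ (c.1 z) = z
  rcases le_or_gt z t with h | h
  · rw [show c.1 z = l z by rw [l2, if_pos h], oi_inv1]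
  · rw [hz.elim (hc z (by linarith)) (fun h => hM z (Or.inr h))]
    exact f1.inv z (Or.inr (by linarith))

lemma undo {g1 g2 : GG K} {x y al : ℝ} (h2 : g2.1 y < y) (a1 : x < al) (a2 : al < g1.1 x) :
    ∃ k : GG K, ∀ z, x ≤ z → z ≤ al → (k * g2 * k⁻¹ * g1).1 z = z := by
  obtain ⟨q, q1, q2⟩ := sq2 (K := K) (g1.1.strictMono a1) h2
  have q3 := q.1.strictMono (g1.1.strictMono a1)
  have q4 : g2.1 (q.1 (g1.1 al)) < q.1 (g1.1 x) := (g2.1.strictMono q2).trans q1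
  obtain ⟨F, f1, f2, f3⟩ := join (g1⁻¹ * q⁻¹ * g2⁻¹).2.1 q⁻¹.2.1 q4 (by
    change g1.1⁻¹ (q.1⁻¹ (g2.1⁻¹ _)) < q.1⁻¹ _
    simpa using a2)
  obtain ⟨k, k1, k2⟩ := ext_G f1 (s := g2.1 (q.1 (g1.1 x))) (t := q.1 (g1.1 al))
    (((g2.1.strictMono q3).trans q4).trans q3).le
  refine ⟨⟨k, k1⟩, fun z z1 z2 => ?_⟩
  have b1 := q.1.monotone (g1.1.monotone z1)
  have b2 := q.1.monotone (g1.1.monotone z2)
  have e : k (q.1 (g1.1 z)) = g1.1 z := by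
    rw [k2 _ (by linarith [g2.1.strictMono q3]) b2, f3 _ b1]
    exact oi_inv1 _ _
  change k (g2.1 (k⁻¹ (g1.1 z))) = z
  conv_lhs => rw [← e, oi_inv1]
  rw [k2 _ (g2.1.monotone b1) (by linarith [g2.1.monotone b2]), f2 _ (g2.1.monotone b2)]
  change g1.1⁻¹ (q.1⁻¹ (g2.1⁻¹ _)) = z
  simp

lemma Lat.noO (h : Lat P) {f k : GG K} {u v : ℝ} (hf : f ∈ P) (f1 : f ≠ 1) (ff : Fix f.1 u v)
    (hk : v < k.1 u) (ho : Ot P f (k * f * k⁻¹)) : False := by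
  have f2 : Fix (k * f * k⁻¹).1 (k.1 u) (k.1 v) := ff.conj k.1
  have p2 := h.conj f hf k
  have self : ∀ g y, y ∈ P → Ot P g y → y ∈ h.Bd (h.Y g) := fun g y h1 h2 =>
    ⟨y, ⟨h1, h2⟩, h1, by simpa using h.one, h.mul _ h1 _ h1⟩
  have base : ∀ w ∈ DD K, ∀ a b, Fix w.1 a b → (b < u ∨ v < a) → w ∈ h.Bd (h.Y f) := by
    rintro w hw a b fw (h1 | h1)
    · have := h.Bd_conj (h.fill h.Y h.Y_conj f2 (self _ _ hf ho.symm) f1 ff (DD_conj hw k)
        (fw.conj k.1) (Or.inr ⟨hk, k.1.strictMono h1⟩)) (h.Y_conj _ k⁻¹)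
      simpa [mul_assoc] using this
    · exact h.fill h.Y h.Y_conj ff (self _ _ p2 ho) (by simpa using f1) f2 hw fw (Or.inl ⟨hk, h1⟩)
  have pf : ∀ q : GG K, ∀ w ∈ DD K, ∀ a b, Fix w.1 a b → (b < q.1 u ∨ q.1 v < a) →
      w ∈ h.Bd (h.Y (q * f * q⁻¹)) := by
    intro q w hw a b fw h1
    have := h.Bd_conj (base _ (DD_conj hw q⁻¹) _ _ (fw.conj q.1⁻¹) (h1.imp
      (fun h => by simpa using q.1⁻¹.strictMono h) (fun h => by simpa using q.1⁻¹.strictMono h)))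
      (h.Y_conj _ q)
    simpa [mul_assoc] using this
  have ort : ∀ g w, w ∈ h.Bd (h.Y g) → Ot P g w := by
    rintro g w ⟨y, h1, -, h2, -⟩ z z1 z2
    exact h1.2 z z1 (by convert h.mul _ z2 _ h2 using 1; group)
  have small : ∀ q : GG K, ∀ g ∈ P, (q.1 v < g.1 (q.1 u) ∨ g.1 (q.1 v) < q.1 u) →
      (q * f * q⁻¹)⁻¹ * g ∈ P := by
    intro q g hg h1
    have := ort _ _ (pf q _ (h.sub _ (h.conj _ (h.conj _ hf q) g)) _ _
      ((ff.conj q.1).conj g.1) h1.symm)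
    generalize q * f * q⁻¹ = r at this
    have := this (r * g⁻¹) (by simpa using hg)
      (by convert h.conj _ hg (g * r⁻¹) using 1; group)
    convert h.conj _ this r⁻¹ using 1
    group
  have nq : ∀ q : GG K, (q * f * q⁻¹)⁻¹ ∉ P := fun q hq =>
    f1 (by simpa using h.anti _ (h.conj _ hf q) hq)
  have l := Fix_lt ff f1
  by_cases hA : (∃ g ∈ P, ∃ x, x < g.1 x) ∧ ∃ g ∈ P, ∃ x, g.1 x < x
  · obtain ⟨⟨g1, m1, x, a1⟩, g2, m2, y, a2⟩ := hA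
    obtain ⟨al, b1, b2⟩ := exists_between a1
    obtain ⟨ga, b3, b4⟩ := exists_between b2
    obtain ⟨r, hr⟩ := undo a2 b1 b2
    have m3 := h.conj _ m2 r
    generalize r * g2 * r⁻¹ = g3 at hr m3
    obtain ⟨c, M, c1, c2⟩ := cut b1 hr
    obtain ⟨s, s1, s2⟩ := sq2 (K := K) (show min (-M) (x - 1) < x from
      (min_le_right _ _).trans_lt (sub_one_lt _)) b3
    have y1 : Fix (s * c⁻¹ * s⁻¹).1 al ga :=
      ((c1.mono (min_le_left _ _) le_rfl).inv.conj s.1).mono s1.le s2.le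
    have y2 : Fix (g1⁻¹ * (s * c⁻¹ * s⁻¹) * g1⁻¹⁻¹).1 (g1.1⁻¹ al) x :=
      (y1.conj g1.1⁻¹).mono le_rfl (by simpa using g1.1⁻¹.monotone b4.le)
    have d1 : c * (g1⁻¹ * (s * c⁻¹ * s⁻¹) * g1⁻¹⁻¹) ∈ DD K := by
      convert cm_mem c (g1⁻¹ * s) using 1; group
    generalize s * c⁻¹ * s⁻¹ = w at y1 y2 d1
    have m4 := h.conj _ m1 w
    have m5 := h.mul _ m3 _ m4
    have e : g3 * (w * g1 * w⁻¹) = c * (g1⁻¹ * w * g1⁻¹⁻¹) * (c⁻¹ * (g3 * g1) * w⁻¹) := by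
      have := (Fix_comm y2 c2 b1.le).eq
      calc _ = c * (c⁻¹ * (g3 * g1) * (g1⁻¹ * w * g1⁻¹⁻¹)) * w⁻¹ := by group
        _ = _ := by rw [← this]; group
    obtain ⟨q, q1, q2⟩ := sq2 (K := K) l b1
    have d2 : c⁻¹ * (g3 * g1) * w⁻¹ ∈ DD K := by
      have := mul_mem (inv_mem d1) (e ▸ h.sub _ m5)
      rwa [inv_mul_cancel_left] at this
    have o := ort _ _ (mul_mem
      (pf q _ d1 _ _ ((c1.mono (min_le_left _ _) le_rfl).mul (y2.mono (min_le_right _ _) le_rfl))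
        (Or.inl q1))
      (pf q _ d2 _ _ ((c2.mono le_rfl (le_max_left _ _)).mul
        (y1.inv.mono le_rfl (le_max_right _ _))) (Or.inr q2)))
    rw [← e] at o
    have t := small q _ m4 (Or.inl (by
      have b5 := q.1.strictMono l
      have b6 := g1.1.strictMono q1
      change _ < w.1 (g1.1 (w.1⁻¹ _))
      rw [y1.inv _ (Or.inl (by linarith)), y1 _ (Or.inr (by linarith))]
      linarith))
    refine nq q (o _ (by rw [inv_mul_cancel]; exact h.one) ?_)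
    convert h.mul _ (h.conj _ m3 (q * f * q⁻¹)⁻¹) _ t using 1
    group
  · obtain ⟨e0, e1, e2⟩ := ex_aff (K := K) (s := 2) (ofNat_mem _ 2) (zero_mem _) two_pos
    obtain ⟨e3, e4, e5⟩ := ext_G e1 (show (-1 : ℝ) ≤ 1 by norm_num)
    obtain ⟨M, hM⟩ := e4.2
    obtain ⟨s, s0, s1⟩ := mv (K := K) (-M) 1
    obtain ⟨p, hp, n, hn, o, e⟩ := h.dec (cm_mem ⟨e3, e4⟩ ⟨s, s0⟩)
    have e6 : ∀ x, -1 ≤ x → x ≤ 1 → n.1⁻¹ (p.1 x) = 1 / 4 * x := by
      intro x x1 x2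
      have : e3 ((s * e3⁻¹ * s⁻¹) x) = n.1⁻¹ (p.1 x) := congrArg (fun g : GG K => g.1 x) e
      rw [← this, (hM.inv.conj s) x (Or.inl (by linarith)), e5 x x1 x2, e2]
      ring
    have dj : ∀ x, p.1 x = x ∨ n.1 x = x := by
      intro x
      by_contra hc
      push Not at hc
      obtain ⟨a, a1, a2⟩ := near hc.1
      obtain ⟨b, b1, b2⟩ := near hc.2
      obtain ⟨q, q1, q2⟩ := sq2 (K := K) l (max_lt a1 b1)
      rw [max_lt_iff] at q1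
      exact nq q (o _ (small q p hp ((a2 _ q1.1).imp q2.trans (p.1.strictMono q2).trans))
        (small q n hn ((b2 _ q1.2).imp q2.trans (n.1.strictMono q2).trans)))
    have alt : ∀ x, -1 ≤ x → x ≤ 1 → p.1 x = 1 / 4 * x ∨ (p.1 x = x ∧ n.1 (1 / 4 * x) = x) := by
      intro x x1 x2
      have := e6 x x1 x2
      by_cases h1 : p.1 x = x
      · exact Or.inr ⟨h1, by rw [← this, oi_inv2, h1]⟩
      · left
        rw [← this, oi_inv_fix ((dj _).resolve_left (fun h2 => h1 (p.1.injective h2)))]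
    rw [not_and_or] at hA
    push Not at hA
    rcases hA with hA | hA
    · have := deriv_side p.2.1 (a := 1) (b := 1 / 4) (fun x x1 x2 => by
        rcases alt x x1 (by linarith) with h1 | h1
        · linarith [hA p hp x]
        · linarith [h1.1]) (fun x x1 x2 => by
        rcases alt x (by linarith) x2 with h1 | h1
        · exact h1
        · linarith [hA n hn (1 / 4 * x), h1.1, h1.2])
      norm_num at this
    · have := deriv_side p.2.1 (a := 1 / 4) (b := 1) (fun x x1 x2 => by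
        rcases alt x x1 (by linarith) with h1 | h1
        · exact h1
        · linarith [hA n hn (1 / 4 * x), h1.1, h1.2]) (fun x x1 x2 => by
        rcases alt x (by linarith) x2 with h1 | h1
        · linarith [hA p hp x]
        · linarith [h1.1])
      norm_num at this

lemma Lat.lr (h : Lat P) {f : GG K} {u v : ℝ} (hf : f ∈ P) (f1 : f ≠ 1) (ff : Fix f.1 u v) :
    (∀ w ∈ DD K, ∀ a b, Fix w.1 a b → v < a → w ∈ h.Bd (Submonoid.powers f)) ∨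
    (∀ w ∈ DD K, ∀ a b, Fix w.1 a b → b < u → w ∈ h.Bd (Submonoid.powers f)) := by
  obtain ⟨k0, hk, k1⟩ := mv (K := K) u v
  obtain ⟨k, rfl⟩ : ∃ k : GG K, k.1 = k0 := ⟨⟨k0, hk⟩, rfl⟩
  have f2 : Fix (k * f * k⁻¹).1 (k.1 u) (k.1 v) := ff.conj k.1
  have p2 := h.conj f hf k
  obtain ⟨m, m1, m2, m3⟩ := h.meet _ (h.sub _ hf) _ (h.sub _ p2)
  have m0 : m ∈ P := by simpa using m3 1 (by simpa using hf) (by simpa using p2)
  by_cases m4 : m = 1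
  · exact (h.noO hf f1 ff k1 (fun z z1 z2 => by simpa [m4] using m3 z z1 z2)).elim
  obtain ⟨t, t1, t2⟩ := exists_between k1
  have mt : m.1 t = t := by
    by_contra hc
    obtain ⟨q, q1, -, q3⟩ := gad t1 t2 (sub_one_lt _) (lt_add_one _) hc
    have key : ∀ q : GG K, Fix q.1 v (k.1 u) → (q * m * q⁻¹)⁻¹ * m ∈ P := by
      intro q q1
      refine m3 _ ?_ ?_
      · convert h.conj _ m1 q using 1
        rw [mul_assoc q (m⁻¹ * f), mul_assoc m⁻¹, (Fix_comm (g := q⁻¹) ff q1.inv le_rfl).eq]; group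
      · convert h.conj _ m2 q using 1
        generalize k * f * k⁻¹ = g at f2
        rw [mul_assoc q (m⁻¹ * g), mul_assoc m⁻¹, ← (Fix_comm (f := q⁻¹) q1.inv f2 le_rfl).eq]; group
    have := h.anti _ (key q q1) (by convert h.conj _ (key q⁻¹ q1.inv) q using 1; group)
    apply q3
    calc m * q * m⁻¹ * q⁻¹ = m * ((q * m * q⁻¹)⁻¹ * m) * m⁻¹ := by group
      _ = 1 := by rw [this]; group
  have bd : ∀ g q : GG K, g ∈ P → m⁻¹ * g ∈ P → Commute g q →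
      m * q * m⁻¹ * q⁻¹ ∈ h.Bd (Submonoid.powers g) := by
    intro g q hg h1 h2
    refine ⟨g, Submonoid.mem_powers g, hg, ?_, ?_⟩
    · convert h.mul _ (h.conj _ m0 q) _ h1 using 1; group
    · convert h.mul _ m0 _ (h.conj _ h1 q) using 1
      rw [mul_assoc q, mul_assoc m⁻¹, h2.inv_right.eq]; group
  obtain ⟨x, hx⟩ := ex_move m4
  rcases lt_trichotomy x t with h1 | rfl | h1
  · right
    intro w hw a b fw h2
    obtain ⟨q, q1, q2, q3⟩ := gad (j0 := min x (m.1 x) - 1) (l0 := min x (m.1 x) - 1)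
      (by linarith [min_le_left x (m.1 x)]) h1 (by linarith [min_le_right x (m.1 x)])
      (mt ▸ m.1.strictMono h1) hx
    have := h.Bd_conj (h.fill Submonoid.powers pw_conj f2
      (bd _ q p2 m2 (Fix_comm q1 f2 t2.le).symm) q3 (q2.mul q1.inv) (DD_conj hw k) (fw.conj k.1)
      (Or.inr ⟨t2, k.1.strictMono h2⟩)) (pw_conj _ k⁻¹)
    simpa [mul_assoc] using this
  · exact absurd mt hx
  · left
    intro w hw a b fw h2
    obtain ⟨q, q1, q2, q3⟩ := gad (j1 := max x (m.1 x) + 1) (l1 := max x (m.1 x) + 1) h1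
      (by linarith [le_max_left x (m.1 x)]) (mt ▸ m.1.strictMono h1)
      (by linarith [le_max_right x (m.1 x)]) hx
    exact h.fill Submonoid.powers pw_conj ff (bd _ q hf m1 (Fix_comm ff q1 t1.le)) q3
      (q2.mul q1.inv) hw fw (Or.inl ⟨t1, h2⟩)

theorem Lat.tot (h : Lat P) : ∀ e ∈ DD K, e ∈ P ∨ e⁻¹ ∈ P := by
  intro e he
  obtain ⟨p, hp, n, hn, o, rfl⟩ := h.dec he
  by_cases p1 : p = 1
  · right; simpa [p1] using hn
  by_cases n1 : n = 1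
  · left; simpa [n1] using hp
  exfalso
  obtain ⟨M1, h1⟩ := p.2.2
  obtain ⟨M2, h2⟩ := n.2.2
  have fp := h1.mono (neg_le_neg (le_max_left M1 M2)) (le_max_left M1 M2)
  have fn := h2.mono (neg_le_neg (le_max_right M1 M2)) (le_max_right M1 M2)
  generalize max M1 M2 = M at fp fn
  obtain ⟨k0, hk, k1⟩ := mv (K := K) (-M) M
  obtain ⟨k, rfl⟩ : ∃ k : GG K, k.1 = k0 := ⟨⟨k0, hk⟩, rfl⟩
  have k2 : k.1⁻¹ M < -M := by simpa using k.1⁻¹.strictMono k1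
  have both : ∀ q : GG K, q * p * q⁻¹ ∈ h.Bd (Submonoid.powers p) →
      q * p * q⁻¹ ∈ h.Bd (Submonoid.powers n) → False := by
    rintro q ⟨_, ⟨i, rfl⟩, -, a1, -⟩ ⟨_, ⟨j, rfl⟩, -, a2, -⟩
    have := h.ot_pow (h.ot_pow o hn j).symm hp i _ a2 a1
    exact p1 (by simpa using h.anti _ (h.conj _ hp q) this)
  have mixed : ∀ a b : GG K, a ∈ P → b ∈ P → Ot P a b → a ≠ 1 →
      k * a * k⁻¹ ∈ h.Bd (Submonoid.powers a) → k⁻¹ * a * k⁻¹⁻¹ ∈ h.Bd (Submonoid.powers b) →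
      False := by
    intro a b ha hb o a1 h3 h4
    obtain ⟨_, ⟨i, rfl⟩, -, a2, -⟩ := h.Bd_conj h3 (pw_conj _ k⁻¹)
    obtain ⟨_, ⟨j, rfl⟩, -, a3, -⟩ := pow_mem h4 i
    refine a1 (h.anti _ ha (h.ot_pow o hb j a (by simpa using h.one) ?_))
    convert h.mul _ a2 _ a3 using 1
    simp only
    group
  have d := fun (a : GG K) (ha : a ∈ P) (q : GG K) => h.sub _ (h.conj _ ha q)
  rcases h.lr hp p1 fp with l1 | l1 <;> rcases h.lr hn n1 fn with l2 | l2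
  · exact both k (l1 _ (d p hp k) _ _ (fp.conj k.1) k1) (l2 _ (d p hp k) _ _ (fp.conj k.1) k1)
  · exact mixed p n hp hn o p1 (l1 _ (d p hp k) _ _ (fp.conj k.1) k1)
      (l2 _ (d p hp k⁻¹) _ _ (fp.conj k.1⁻¹) k2)
  · exact mixed n p hn hp o.symm n1 (l2 _ (d n hn k) _ _ (fn.conj k.1) k1)
      (l1 _ (d n hn k⁻¹) _ _ (fn.conj k.1⁻¹) k2)
  · exact both k⁻¹ (l1 _ (d p hp k⁻¹) _ _ (fp.conj k.1⁻¹) k2)
      (l2 _ (d p hp k⁻¹) _ _ (fp.conj k.1⁻¹) k2)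

theorem lat_total {r : DD K → DD K → Prop} (h0 : ∀ a, r a a) (h1 : ∀ a b c, r a b → r b c → r a c)
    (h3 : ∀ a b, r a b → r b a → a = b) (h2 : ∀ a b c d, r a b → r (c * a * d) (c * b * d))
    (h4 : ∀ a b, ∃ t, r t a ∧ r t b ∧ ∀ u, r u a → r u b → r u t) (a b : DD K) :
    r a b ∨ r b a := by
  have e : ∀ a b, r a b ↔ r 1 (a⁻¹ * b) := fun a b =>
    ⟨fun h => by simpa using h2 _ _ a⁻¹ 1 h, fun h => by simpa using h2 _ _ a 1 h⟩
  have hO : Lat {x : GG K | ∃ h : x ∈ DD K, r 1 ⟨x, h⟩} := by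
    refine ⟨fun a ha => ha.1, ⟨one_mem _, h0 1⟩, ?_, ?_, ?_, fun a ha b hb => ?_⟩
    · rintro a ⟨ha, k1⟩ b ⟨hb, k2⟩
      exact ⟨mul_mem ha hb, h1 _ _ _ k1 (by simpa using h2 _ _ ⟨a, ha⟩ 1 k2)⟩
    · rintro a ⟨ha, k1⟩ ⟨hb, k2⟩
      have := h3 _ _ k1 ((e _ _).2 (by rw [mul_one]; exact k2))
      exact (congrArg Subtype.val this).symm
    · rintro a ⟨ha, k1⟩ h
      obtain ⟨h', m, e'⟩ := conj_DD h a
      rw [e']
      have := h2 _ _ ⟨h', m⟩ ⟨h', m⟩⁻¹ k1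
      rw [mul_one, mul_inv_cancel] at this
      exact ⟨DD_conj ha _, this⟩
    · obtain ⟨t, t1, t2, t3⟩ := h4 ⟨a, ha⟩ ⟨b, hb⟩
      refine ⟨t.1, ⟨_, (e _ _).1 t1⟩, ⟨_, (e _ _).1 t2⟩, ?_⟩
      rintro z ⟨z1, z2⟩ ⟨z3, z4⟩
      have hz : z ∈ DD K := by simpa using inv_mem (mul_mem z1 (inv_mem ha))
      exact ⟨_, (e ⟨z, hz⟩ _).1 (t3 _ ((e _ _).2 z2) ((e _ _).2 z4))⟩
  rcases hO.tot _ (a⁻¹ * b).2 with h | h
  · exact Or.inl ((e _ _).2 h.2)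
  · refine Or.inr ((e _ _).2 ?_)
    convert h.2 using 1
    exact Subtype.ext (by simp)

end Pool.Agent.Lib.helper17.NO
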