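import Mathlib

set_option autoImplicit false

namespace Pool.Agent.Lib.helper17.OrdWr

structure Cone {G : Type} [Group G] (P : G → Prop) : Prop where
  mul : ∀ a b, P a → P b → P (a * b)
  conj : ∀ a g, P a → P (g * a * g⁻¹)
  tri : ∀ a, a ≠ 1 → P a ∨ P a⁻¹
  irr : ¬ P 1

def Inv' {G : Type} [Group G] [LinearOrder G] : Prop :=
  ∀ a b x y : G, a < b → x * a * y < x * b * y

lemma Cone.exists_order {G : Type} [Group G] {P : G → Prop} (h : Cone P) :
    ∃ r : LinearOrder G, @Inv' G _ r := by
  classical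
  have : IsStrictTotalOrder G (fun a b => P (a⁻¹ * b)) :=
    { trichotomous := by
        intro a b h1 h2
        by_contra hne
        rcases h.tri (a⁻¹ * b) (fun e => hne (by rwa [inv_mul_eq_one] at e)) with h3 | h3
        · exact h1 h3
        · exact h2 (by simpa using h3)
      irrefl := fun a ha => h.irr (by simpa using ha)
      trans := fun a b c h1 h2 => by simpa [mul_assoc] using h.mul _ _ h1 h2 }
  refine ⟨linearOrderOfSTO (fun a b => P (a⁻¹ * b)), ?_⟩
  intro a b x y hab
  change P ((x * a * y)⁻¹ * (x * b * y))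
  have := h.conj _ y⁻¹ hab
  convert this using 1
  group

lemma cone_of_order {G : Type} [Group G] [LinearOrder G] (h : @Inv' G _ _) :
    Cone (fun a : G => 1 < a) where
  mul := fun a b ha hb => ha.trans (by simpa using h 1 b a 1 hb)
  conj := fun a g ha => by simpa using h 1 a g g⁻¹ ha
  tri := fun a ha => by
    rcases lt_or_gt_of_ne ha with h1 | h1
    · right; simpa using h a 1 a⁻¹ 1 h1
    · exact Or.inl h1
  irr := lt_irrefl _

/-- restricted wreath product -/
def W (B Q : Type) [Group B] [Group Q] : Subgroup (RegularWreathProduct B Q) where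
  carrier := {z | (Function.mulSupport z.left).Finite}
  mul_mem' := by
    intro a b ha hb
    refine (ha.union (hb.image (fun x => a.right * x))).subset ?_
    intro p hp
    by_contra hc
    simp only [Set.mem_union, Set.mem_image, Function.mem_mulSupport, not_or, not_not,
      not_exists, not_and] at hc
    apply hp
    have h2 : b.left (a.right⁻¹ * p) = 1 := by
      by_contra h3
      exact hc.2 _ h3 (by simp)
    simp [hc.1, h2]
  one_mem' := by simp
  inv_mem' := by
    intro a ha
    refine (ha.image (fun x => a.right⁻¹ * x)).subset ?_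
    intro p hp
    refine ⟨a.right * p, ?_, by simp⟩
    simpa using hp

section
variable {B Q : Type} [Group B] [Group Q]

lemma W_fin (z : W B Q) : (Function.mulSupport z.1.left).Finite := z.2

@[simp] lemma W_mul_left (a b : W B Q) (p : Q) :
    (a * b).1.left p = a.1.left p * b.1.left (a.1.right⁻¹ * p) := rfl
@[simp] lemma W_mul_right (a b : W B Q) : (a * b).1.right = a.1.right * b.1.right := rfl
@[simp] lemma W_inv_left (a : W B Q) (p : Q) :
    (a⁻¹).1.left p = (a.1.left (a.1.right * p))⁻¹ := rfl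
@[simp] lemma W_inv_right (a : W B Q) : (a⁻¹).1.right = a.1.right⁻¹ := rfl
@[simp] lemma W_one_left (p : Q) : (1 : W B Q).1.left p = 1 := rfl
@[simp] lemma W_one_right : (1 : W B Q).1.right = 1 := rfl

lemma W_ext {a b : W B Q} (h1 : ∀ p, a.1.left p = b.1.left p) (h2 : a.1.right = b.1.right) :
    a = b := Subtype.ext (RegularWreathProduct.ext (funext h1) h2)

lemma W_cone [LinearOrder Q] (hQ : @Inv' Q _ _) {P : B → Prop} (hP : Cone P) :
    Cone (fun z : W B Q => 1 < z.1.right ∨
      (z.1.right = 1 ∧ ∃ p, P (z.1.left p) ∧ ∀ u, p < u → z.1.left u = 1)) where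
  mul := by
    rintro a b (ha | ⟨ha, p, hp1, hp2⟩) (hb | ⟨hb, q, hq1, hq2⟩)
    · exact Or.inl ((cone_of_order hQ).mul _ _ ha hb)
    · left; simpa [hb] using ha
    · left; simpa [ha] using hb
    · right
      refine ⟨by simp [ha, hb], ?_⟩
      rcases lt_trichotomy p q with h | h | h
      · exact ⟨q, by simpa [ha, hp2 q h] using hq1,
          fun u hu => by simp [ha, hp2 u (h.trans hu), hq2 u hu]⟩
      · subst h
        exact ⟨p, by simpa [ha] using hP.mul _ _ hp1 hq1,
          fun u hu => by simp [ha, hp2 u hu, hq2 u hu]⟩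
      · exact ⟨p, by simpa [ha, hq2 p h] using hp1,
          fun u hu => by simp [ha, hq2 u (h.trans hu), hp2 u hu]⟩
  conj := by
    rintro a g (ha | ⟨ha, p, hp1, hp2⟩)
    · exact Or.inl ((cone_of_order hQ).conj _ _ ha)
    · right
      refine ⟨by simp [ha], g.1.right * p, ?_, ?_⟩
      · simpa [ha] using hP.conj _ (g.1.left (g.1.right * p)) hp1
      · intro u hu
        have h1 : p < g.1.right⁻¹ * u := by simpa using hQ _ _ g.1.right⁻¹ 1 hu
        simp [ha, hp2 _ h1]
  tri := by
    intro a ha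
    by_cases h1 : a.1.right = 1
    · have hne : (Function.mulSupport a.1.left).Nonempty := by
        by_contra h
        apply ha
        refine W_ext (fun p => ?_) h1
        by_contra h2
        exact h ⟨p, h2⟩
      obtain ⟨p, hp, hmax⟩ := Set.exists_max_image _ id (W_fin a) hne
      have h3 : ∀ u, p < u → a.1.left u = 1 := by
        intro u hu
        by_contra h4
        exact absurd (hmax u h4) (not_le.2 hu)
      rcases hP.tri _ hp with h | h
      · exact Or.inl (Or.inr ⟨h1, p, h, h3⟩)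
      · exact Or.inr (Or.inr ⟨by simp [h1], p, by simpa [h1] using h,
          fun u hu => by simp [h1, h3 u hu]⟩)
    · rcases (cone_of_order hQ).tri _ h1 with h | h
      · exact Or.inl (Or.inl h)
      · exact Or.inr (Or.inl h)
  irr := by
    rintro (h | ⟨-, p, hp, -⟩)
    · exact lt_irrefl _ h
    · exact hP.irr hp

end

/-- orientation preserving affine maps of the rationals -/
@[ext] structure Aff where
  s : ℚ
  t : ℚ
  hs : 0 < s

instance : Mul Aff := ⟨fun a b => ⟨a.s * b.s, a.t + a.s * b.t, mul_pos a.hs b.hs⟩⟩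
instance : One Aff := ⟨⟨1, 0, one_pos⟩⟩
instance : Inv Aff := ⟨fun a => ⟨a.s⁻¹, -(a.s⁻¹ * a.t), inv_pos.2 a.hs⟩⟩

@[simp] lemma mul_s (a b : Aff) : (a * b).s = a.s * b.s := rfl
@[simp] lemma mul_t (a b : Aff) : (a * b).t = a.t + a.s * b.t := rfl
@[simp] lemma one_s : (1 : Aff).s = 1 := rfl
@[simp] lemma one_t : (1 : Aff).t = 0 := rfl
@[simp] lemma inv_s (a : Aff) : (a⁻¹).s = a.s⁻¹ := rfl
@[simp] lemma inv_t (a : Aff) : (a⁻¹).t = -(a.s⁻¹ * a.t) := rfl

instance : Group Aff := Group.ofLeftAxioms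
  (fun a b c => by ext <;> simp <;> ring)
  (fun a => by ext <;> simp)
  (fun a => by ext <;> simp [a.hs.ne'])

lemma Aff_cone : Cone (fun a : Aff => 1 < a.s ∨ (a.s = 1 ∧ 0 < a.t)) where
  mul := by
    rintro a b (ha | ⟨ha, ha'⟩) (hb | ⟨hb, hb'⟩)
    · left; rw [mul_s]; nlinarith
    · left; simpa [hb] using ha
    · left; simpa [ha] using hb
    · right; refine ⟨by simp [ha, hb], ?_⟩
      simp only [mul_t, ha]; linarith
  conj := by
    rintro a g (ha | ⟨ha, ha'⟩)
    · left
      have : (g * a * g⁻¹).s = a.s := by have := g.hs.ne'; simp; field_simp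
      rwa [this]
    · right
      have h0 := g.hs.ne'
      refine ⟨by simp [ha, h0], ?_⟩
      have : (g * a * g⁻¹).t = g.s * a.t := by simp [ha]; field_simp; ring
      rw [this]; exact mul_pos g.hs ha'
  tri := by
    intro a ha
    rcases lt_trichotomy a.s 1 with h | h | h
    · right; left; rw [inv_s]; exact (one_lt_inv₀ a.hs).2 h
    · rcases lt_trichotomy a.t 0 with h' | h' | h'
      · right; right; simp [h, h']
      · exact absurd (Aff.ext h h') ha
      · exact Or.inl (Or.inr ⟨h, h'⟩)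
    · exact Or.inl (Or.inl h)
  irr := by simp

abbrev ZZ : Type := Multiplicative ℤ

lemma ZZ_inv : @Inv' ZZ _ _ := by
  intro a b x y h
  exact mul_lt_mul_left (mul_lt_mul_right h x) y

abbrev QQ : Type := W ZZ ZZ

lemma QQ_order : ∃ r : LinearOrder QQ, @Inv' QQ _ r :=
  (W_cone ZZ_inv (cone_of_order ZZ_inv)).exists_order

noncomputable def eps (n : ZZ) : ℤ := (Int.negOnePow n.toAdd : ℤˣ)

lemma eps_mul (a b : ZZ) : eps (a * b) = eps a * eps b := by
  simp [eps, Int.negOnePow_add]

lemma eps_sq (a : ZZ) : eps a * eps a = 1 := by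
  rw [eps, ← Units.val_mul, Int.units_mul_self]; rfl

noncomputable def phi (q : QQ) : ℤ := ∑ᶠ i : ZZ, eps i * (q.1.left i).toAdd

lemma phi_mul (q r : QQ) : phi (q * r) = phi q + eps q.1.right * phi r := by
  have hf : ∀ z : QQ, (Function.support (fun i : ZZ => eps i * (z.1.left i).toAdd)).Finite := by
    intro z
    refine (W_fin z).subset ?_
    intro i hi h
    exact hi (by simp [h])
  have h2 : eps q.1.right * phi r =
      ∑ᶠ i : ZZ, eps i * (r.1.left (q.1.right⁻¹ * i)).toAdd := by
    rw [phi, mul_finsum, ← finsum_comp_equiv (Equiv.mulLeft q.1.right⁻¹)]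
    congr 1
    funext i
    simp only [Equiv.coe_mulLeft]
    rw [← mul_assoc, ← eps_mul, mul_inv_cancel_left]
  rw [h2, phi, phi, ← finsum_add_distrib (hf q)]
  · congr 1
    funext i
    simp [mul_add]
  · refine ((W_fin r).image (fun x => q.1.right * x)).subset ?_
    intro i hi
    refine ⟨q.1.right⁻¹ * i, fun h => hi (by simp [h]), by simp⟩

noncomputable def psi (q : QQ) : ℤ := eps q.1.right * phi q

lemma psi_mul (q r : QQ) : psi (q * r) = eps r.1.right * (psi q + phi r) := by
  rw [psi, psi, phi_mul, W_mul_right, eps_mul]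
  linear_combination (eps r.1.right * phi r) * eps_sq q.1.right

noncomputable def xq : QQ :=
  ⟨⟨Pi.mulSingle 1 (Multiplicative.ofAdd 1), Multiplicative.ofAdd 1⟩,
    (Set.finite_singleton 1).subset (Pi.mulSupport_mulSingle_subset)⟩

def yq : QQ := ⟨⟨1, Multiplicative.ofAdd 1⟩, by
  change (Function.mulSupport (1 : ZZ → ZZ)).Finite
  simp⟩

lemma phi_one : phi 1 = 0 := by simp [phi]

lemma phi_x : phi xq = 1 := by
  rw [phi, finsum_eq_single _ 1]
  · simp [xq, eps]
  · intro i hi
    simp [xq, Pi.mulSingle_eq_of_ne hi]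

lemma phi_y : phi yq = 0 := by simp [phi, yq]

lemma eps_one : eps (Multiplicative.ofAdd 1) = -1 := by simp [eps]

lemma eps_inv : eps (Multiplicative.ofAdd 1)⁻¹ = -1 := by simp [eps]

lemma psi_x (q : QQ) : psi (q * xq) = -psi q - 1 ∧ psi (q * xq⁻¹) = -psi q - 1 := by
  have h := phi_mul xq xq⁻¹
  have e : xq.1.right = Multiplicative.ofAdd 1 := rfl
  rw [mul_inv_cancel, phi_one, phi_x, e, eps_one] at h
  rw [psi_mul, psi_mul, W_inv_right, e, eps_one, eps_inv, phi_x]
  constructor <;> linarith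

lemma psi_y (q : QQ) : psi (q * yq) = -psi q ∧ psi (q * yq⁻¹) = -psi q := by
  have h := phi_mul yq yq⁻¹
  have e : yq.1.right = Multiplicative.ofAdd 1 := rfl
  rw [mul_inv_cancel, phi_one, phi_y, e, eps_one] at h
  rw [psi_mul, psi_mul, W_inv_right, e, eps_one, eps_inv, phi_y]
  constructor <;> linarith

lemma no_closed (S : Set QQ) (hS : S.Finite) (hne : S.Nonempty)
    (hx : ∀ p ∈ S, p * xq ∈ S ∨ p * xq⁻¹ ∈ S) (hy : ∀ p ∈ S, p * yq ∈ S ∨ p * yq⁻¹ ∈ S) :
    False := by
  obtain ⟨p, hp, hmax⟩ := Set.exists_max_image _ psi hS hne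
  obtain ⟨p1, h1, e1⟩ : ∃ p1 ∈ S, psi p1 = -psi p - 1 := by
    rcases hx p hp with h | h
    · exact ⟨_, h, (psi_x p).1⟩
    · exact ⟨_, h, (psi_x p).2⟩
  obtain ⟨p2, h2, e2⟩ : ∃ p2 ∈ S, psi p2 = -psi p1 := by
    rcases hy p1 h1 with h | h
    · exact ⟨_, h, (psi_y p1).1⟩
    · exact ⟨_, h, (psi_y p1).2⟩
  have := hmax p2 h2
  omega

lemma xq_ne : xq ≠ 1 := by
  intro h
  have := (psi_x 1).1
  rw [h, mul_one, psi, phi_one] at this
  simp at this

lemma yq_ne : yq ≠ 1 := by
  intro h
  have := congrArg (fun z : QQ => z.1.right.toAdd) h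
  simp [yq] at this

end Pool.Agent.Lib.helper17.OrdWr
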