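import Mathlib
import Pool.Agent.Lib.helper17.OrdWr

set_option autoImplicit false

namespace Pool.Agent.Lib.helper17.OrdWr

section Abstract
variable {H : Type} [Group H]

def Cj (a b : H) : Prop := ∃ h, h * a = b * h
def InA (g z : H) : Prop := ∀ c, Cj g c → z * c = c * z
def PP (g a z : H) : Prop := InA g z ∧ z ≠ 1 ∧ ∀ c, Cj g c → Cj z (z * c) →
  (Cj z (z * (c * c)) ∧ ∃ c', Cj g c' ∧ Cj z (z * c') ∧ Cj a (c * c'))
def NS (g a : H) : Prop := PP g a a ∧ (∀ z w, PP g a z → PP g a w → PP g a (z * w)) ∧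
  ∀ z h, PP g a z → PP g a (h * z * h⁻¹)
def Sig (H : Type) [Group H] : Prop := ∃ g x y : H, NS g (g * (x * g * x⁻¹)) ∧
  NS g (g * (y * g * y⁻¹)) ∧ ∀ z, ¬ (PP g (g * (x * g * x⁻¹)) z ∧ PP g (g * (y * g * y⁻¹)) z)

lemma cj_iff' (a b : H) : Cj a b ↔ ∃ h, b = h * a * h⁻¹ := by
  constructor
  · rintro ⟨h, e⟩
    exact ⟨h, by rw [e]; group⟩
  · rintro ⟨h, rfl⟩
    exact ⟨h, by group⟩

end Abstract

section Concrete
variable {Q : Type} [Group Q]

def IsA (z : W Aff Q) : Prop := z.1.right = 1 ∧ ∀ p, (z.1.left p).s = 1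
def T (z : W Aff Q) (p : Q) : ℚ := (z.1.left p).t

lemma T_fin {z : W Aff Q} : {p | T z p ≠ 0}.Finite := by
  refine (W_fin z).subset ?_
  intro p hp h
  exact hp (by simp [T, h])

lemma IsA.ext {z w : W Aff Q} (hz : IsA z) (hw : IsA w) (h : ∀ p, T z p = T w p) : z = w :=
  W_ext (fun p => Aff.ext (by rw [hz.2, hw.2]) (h p)) (by rw [hz.1, hw.1])

lemma IsA.one : IsA (1 : W Aff Q) := ⟨rfl, fun _ => rfl⟩

lemma IsA.mul {z w : W Aff Q} (hz : IsA z) (hw : IsA w) : IsA (z * w) :=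
  ⟨by simp [hz.1, hw.1], fun p => by simp [hz.2, hw.2]⟩

lemma T_mul {z w : W Aff Q} (hz : IsA z) (p : Q) : T (z * w) p = T z p + T w p := by
  simp [T, hz.1, hz.2]

lemma IsA.conj {z : W Aff Q} (hz : IsA z) (h : W Aff Q) : IsA (h * z * h⁻¹) :=
  ⟨by simp [hz.1], fun p => by simp [hz.1, hz.2, (h.1.left p).hs.ne']⟩

lemma T_conj {z : W Aff Q} (hz : IsA z) (h : W Aff Q) (p : Q) :
    T (h * z * h⁻¹) p = (h.1.left p).s * T z (h.1.right⁻¹ * p) := by
  have := (h.1.left p).hs.ne'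
  simp [T, hz.1, hz.2]
  field_simp
  ring

lemma ne_one_iff {z : W Aff Q} (hz : IsA z) : z ≠ 1 ↔ ∃ p, T z p ≠ 0 := by
  constructor
  · intro h
    by_contra h2
    push Not at h2
    exact h (hz.ext IsA.one h2)
  · rintro ⟨p, hp⟩ rfl
    exact hp rfl

lemma cj_iff {z : W Aff Q} (hz : IsA z) (w : W Aff Q) : Cj z w ↔ IsA w ∧
    ∃ (r : Q) (κ : Q → ℚ), (∀ p, 0 < κ p) ∧ ∀ p, T w p = κ p * T z (r⁻¹ * p) := by
  rw [cj_iff']
  constructor
  · rintro ⟨h, rfl⟩
    exact ⟨hz.conj h, h.1.right, fun p => (h.1.left p).s, fun p => (h.1.left p).hs,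
      T_conj hz h⟩
  · rintro ⟨hw, r, κ, h1, h2⟩
    classical
    let h : W Aff Q := ⟨⟨fun p => if T w p = 0 then 1 else ⟨κ p, 0, h1 p⟩, r⟩, by
      refine (T_fin (z := w)).subset ?_
      intro p hp h
      exact hp (by simp [h])⟩
    refine ⟨h, hw.ext (hz.conj h) (fun p => ?_)⟩
    rw [T_conj hz]
    by_cases h3 : T w p = 0
    · have := h2 p
      rw [h3] at this
      have h4 : T z (r⁻¹ * p) = 0 := (mul_eq_zero.1 this.symm).resolve_left (h1 p).ne'
      change _ = _ * T z (r⁻¹ * p)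
      rw [h3, h4, mul_zero]
    · simp [h, h3, ← h2]

open Classical in
noncomputable def ee (q : Q) (α : ℚ) : W Aff Q :=
  ⟨⟨fun p => if p = q then ⟨1, α, one_pos⟩ else 1, 1⟩, by
    refine (Set.finite_singleton q).subset ?_
    intro p hp
    by_contra h
    exact hp (by simp only [Set.mem_singleton_iff] at h; simp [h])⟩

lemma ee_A (q : Q) (α : ℚ) : IsA (ee q α) := ⟨rfl, fun p => by
  by_cases h : p = q <;> simp [ee, h]⟩

open Classical in
lemma T_ee (q : Q) (α : ℚ) (p : Q) : T (ee q α) p = if p = q then α else 0 := by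
  by_cases h : p = q <;> simp [T, ee, h]

lemma C_iff (c : W Aff Q) : Cj (ee 1 1) c ↔ ∃ q α, 0 < α ∧ c = ee q α := by
  rw [cj_iff (ee_A _ _)]
  constructor
  · rintro ⟨hc, r, κ, h1, h2⟩
    refine ⟨r, κ r, h1 r, hc.ext (ee_A _ _) (fun p => ?_)⟩
    rw [h2, T_ee, T_ee]
    by_cases h : p = r
    · simp [h]
    · have : r⁻¹ * p ≠ 1 := fun e => h (by rw [inv_mul_eq_one] at e; exact e.symm)
      simp [h, this]
  · rintro ⟨q, α, h, rfl⟩
    refine ⟨ee_A _ _, q, fun _ => α, fun _ => h, fun p => ?_⟩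
    rw [T_ee, T_ee]
    by_cases h : p = q
    · simp [h]
    · have : q⁻¹ * p ≠ 1 := fun e => h (by rw [inv_mul_eq_one] at e; exact e.symm)
      simp [h, this]

lemma inA_iff (z : W Aff Q) : InA (ee 1 1) z ↔ IsA z := by
  constructor
  · intro h
    have key : ∀ q : Q, (z.1.left q).s * T (ee q 1) (z.1.right⁻¹ * q) = 1 := by
      intro q
      have h1 := h (ee q 1) ((C_iff _).2 ⟨q, 1, one_pos, rfl⟩)
      have h2 : z * ee q 1 * z⁻¹ = ee q 1 := by rw [h1]; group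
      rw [← T_conj (ee_A _ _), h2, T_ee]; simp
    have hr : z.1.right = 1 := by
      have := key 1
      rw [T_ee] at this
      by_contra hne
      simp [hne] at this
    refine ⟨hr, fun p => ?_⟩
    have := key p
    simpa [T_ee, hr] using this
  · intro hz c hc
    obtain ⟨q, α, -, rfl⟩ := (C_iff c).1 hc
    refine (hz.mul (ee_A _ _)).ext ((ee_A _ _).mul hz) (fun p => ?_)
    rw [T_mul hz, T_mul (ee_A _ _), add_comm]

lemma F1 {z : W Aff Q} (hz : IsA z) (q : Q) (α : ℚ) (h : 0 < (T z q + α) / T z q) :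
    Cj z (z * ee q α) := by
  classical
  rw [cj_iff hz]
  refine ⟨hz.mul (ee_A _ _), 1, fun p => if p = q then (T z q + α) / T z q else 1, ?_, ?_⟩
  · intro p
    by_cases hp : p = q <;> simp only [hp, if_true, if_false, h, one_pos]
  · intro p
    have h0 : T z q ≠ 0 := by
      intro h0; rw [h0] at h; simp at h
    rw [T_mul hz, T_ee]
    by_cases hp : p = q
    · simp only [hp, if_true, inv_one, one_mul]; field_simp
    · simp [hp]

variable [LinearOrder Q]

lemma shift_aux (hQ : @Inv' Q _ _) (S S' : Set Q) (hS : S.Finite) (hS' : S'.Finite)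
    (hne : S.Nonempty) (r q : Q) (h1 : ∀ p, p ∈ S' ↔ r⁻¹ * p ∈ S)
    (h2 : ∀ p, p ≠ q → (p ∈ S ↔ p ∈ S')) (hr : 1 < r) : False := by
  have up : ∀ p, p < r * p := fun p => by simpa using hQ 1 r 1 p hr
  obtain ⟨m, hm, hmax⟩ := Set.exists_max_image _ id hS hne
  obtain ⟨n, hn, hmin⟩ := Set.exists_min_image _ id hS hne
  have a1 : r * m ∈ S' := (h1 _).2 (by simpa using hm)
  have a2 : r * m ∉ S := fun h => absurd (hmax _ h) (not_le.2 (up m))
  have a3 : r * m = q := by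
    by_contra h
    exact a2 ((h2 _ h).2 a1)
  have a4 : n ∉ S' := by
    intro h
    have := hmin _ ((h1 _).1 h)
    have h5 := up (r⁻¹ * n)
    rw [mul_inv_cancel_left] at h5
    exact absurd this (not_le.2 h5)
  have a5 : n = q := by
    by_contra h
    exact a4 ((h2 _ h).1 hn)
  rw [a3] at a2
  exact a2 (a5 ▸ hn)

lemma F2 (hQ : @Inv' Q _ _) {z : W Aff Q} (hz : IsA z) (q : Q) (α : ℚ) (hα : α ≠ 0)
    (h : Cj z (z * ee q α)) : 0 < (T z q + α) / T z q := by
  obtain ⟨-, r, κ, h1, h2⟩ := (cj_iff hz _).1 h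
  have e1 : ∀ p, p ∈ {p | T (z * ee q α) p ≠ 0} ↔ r⁻¹ * p ∈ {p | T z p ≠ 0} := by
    intro p
    simp [h2, (h1 p).ne']
  have e2 : ∀ p, p ≠ q → (p ∈ {p | T z p ≠ 0} ↔ p ∈ {p | T (z * ee q α) p ≠ 0}) := by
    intro p hp
    simp [T_mul hz, T_ee, hp]
  have hne : {p | T z p ≠ 0}.Nonempty := by
    by_contra hc
    have h3 : ∀ p, T z p = 0 := by
      intro p
      by_contra h4
      exact hc ⟨p, h4⟩
    have := h2 q
    rw [T_mul hz, T_ee, h3, h3] at this
    simp [hα] at this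
  have hr : r = 1 := by
    rcases lt_trichotomy r 1 with h3 | h3 | h3
    · exfalso
      obtain ⟨p, hp⟩ := hne
      refine shift_aux hQ _ _ T_fin T_fin ⟨r * p, (e1 _).2 (by simpa using hp)⟩ r⁻¹ q ?_
        (fun p hp => (e2 p hp).symm) (by simpa using hQ r 1 r⁻¹ 1 h3)
      intro p
      rw [e1]; simp
    · exact h3
    · exact (shift_aux hQ _ _ T_fin T_fin hne r q e1 e2 h3).elim
  have h3 := h2 q
  rw [T_mul hz, T_ee, hr] at h3
  simp only [if_true, inv_one, one_mul] at h3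
  have h0 : T z q ≠ 0 := by
    intro h0; rw [h0] at h3; simp [hα] at h3
  rw [h3, mul_div_assoc, div_self h0, mul_one]
  exact h1 q

def lift (x : Q) : W Aff Q := ⟨⟨1, x⟩, by
  change (Function.mulSupport (1 : Q → Aff)).Finite
  simp⟩

omit [LinearOrder Q] in
lemma conj_lift (x : Q) : lift x * ee 1 1 * (lift x)⁻¹ = ee x 1 := by
  refine ((ee_A _ _).conj _).ext (ee_A _ _) (fun p => ?_)
  rw [T_conj (ee_A _ _), T_ee, T_ee]
  by_cases h : p = x
  · simp [h, lift]
  · have : x⁻¹ * p ≠ 1 := fun e => h (by rw [inv_mul_eq_one] at e; exact e.symm)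
    simp [h, this, lift]

omit [LinearOrder Q] in
lemma ee_mul (q : Q) (α β : ℚ) : ee q α * ee q β = ee q (α + β) := by
  refine ((ee_A _ _).mul (ee_A _ _)).ext (ee_A _ _) (fun p => ?_)
  rw [T_mul (ee_A _ _), T_ee, T_ee, T_ee]
  by_cases h : p = q <;> simp [h]

omit [LinearOrder Q] in
lemma edge_cj (x : Q) (hx : x ≠ 1) (p p' : Q) (α β : ℚ) (hα : 0 < α) (hβ : 0 < β) :
    Cj (ee 1 1 * ee x 1) (ee p α * ee p' β) ↔ p' = p * x ∨ p' = p * x⁻¹ := by
  classical
  rw [cj_iff ((ee_A _ _).mul (ee_A _ _))]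
  constructor
  · rintro ⟨-, r, κ, h1, h2⟩
    have a1 := h2 r
    have a2 := h2 (r * x)
    have k1 := h1 r
    have k2 := h1 (r * x)
    simp only [T_mul (ee_A _ _), T_ee, inv_mul_cancel, inv_mul_cancel_left, hx, hx.symm,
      if_true, if_false] at a1 a2
    have hne : r * x ≠ r := by simpa using hx
    by_cases b1 : r = p
    · left
      subst b1
      by_contra b2
      have b3 : r * x ≠ p' := fun e => b2 e.symm
      simp [hne, b3] at a2
      exact k2.ne' a2.symm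
    · right
      by_cases b2 : r = p'
      · subst b2
        by_contra b3
        have b4 : r * x ≠ p := fun e => b3 (by rw [← e]; simp)
        simp [hne, b4] at a2
        exact k2.ne' a2.symm
      · simp [b1, b2] at a1
        exact absurd a1.symm k1.ne'
  · rintro (rfl | rfl)
    · refine ⟨(ee_A _ _).mul (ee_A _ _), p, fun u => if u = p then α else β, ?_, ?_⟩
      · intro u; by_cases h : u = p <;> simp [h, hα, hβ]
      · intro u
        simp only [T_mul (ee_A _ _), T_ee, inv_mul_eq_one, inv_mul_eq_iff_eq_mul]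
        by_cases h : u = p
        · have : p ≠ p * x := by simpa using hx
          simp [h, this]
        · have : p ≠ u := fun e => h e.symm
          by_cases h' : u = p * x <;> simp [h, h', hx]
    · refine ⟨(ee_A _ _).mul (ee_A _ _), p * x⁻¹, fun u => if u = p then α else β, ?_, ?_⟩
      · intro u; by_cases h : u = p <;> simp [h, hα, hβ]
      · intro u
        simp only [T_mul (ee_A _ _), T_ee, inv_mul_eq_one, inv_mul_eq_iff_eq_mul]
        by_cases h : u = p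
        · have : p ≠ p * x⁻¹ := by simpa using hx
          simp [h, this]
        · by_cases h' : u = p * x⁻¹ <;> simp [h, h', hx]

def Good (x : Q) (z : W Aff Q) : Prop := IsA z ∧ (∃ p, T z p ≠ 0) ∧ (∀ p, 0 ≤ T z p) ∧
  ∀ p, T z p ≠ 0 → T z (p * x) ≠ 0 ∨ T z (p * x⁻¹) ≠ 0

lemma PP_iff (hQ : @Inv' Q _ _) (x : Q) (hx : x ≠ 1) (z : W Aff Q) :
    PP (ee 1 1) (ee 1 1 * ee x 1) z ↔ Good x z := by
  rw [PP, inA_iff, Good]
  refine and_congr_right (fun hz => ?_)
  rw [ne_one_iff hz]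
  refine and_congr_right (fun _ => ?_)
  constructor
  · intro h
    have hnn : ∀ p, 0 ≤ T z p := by
      intro p
      by_contra hn
      push Not at hn
      have h1 := (h (ee p (-(2 / 3) * T z p)) ((C_iff _).2 ⟨_, _, by linarith, rfl⟩)
        (F1 hz _ _ (div_pos_of_neg_of_neg (by linarith) hn))).1
      rw [ee_mul] at h1
      have h2 := F2 hQ hz _ _ (by linarith) h1
      exact absurd h2 (not_lt.2 (div_nonpos_of_nonneg_of_nonpos (by linarith) hn.le))
    refine ⟨hnn, fun p hp => ?_⟩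
    have hp' : 0 < T z p := lt_of_le_of_ne (hnn p) hp.symm
    obtain ⟨-, c', h1, h2, h3⟩ := h (ee p 1) ((C_iff _).2 ⟨_, _, one_pos, rfl⟩)
      (F1 hz _ _ (by positivity))
    obtain ⟨p', β, hβ, rfl⟩ := (C_iff _).1 h1
    have h4 : T z p' ≠ 0 := by
      intro h0
      have := F2 hQ hz _ _ hβ.ne' h2
      rw [h0] at this; simp at this
    rcases (edge_cj x hx _ _ _ _ one_pos hβ).1 h3 with rfl | rfl
    · exact Or.inl h4
    · exact Or.inr h4
  · rintro ⟨hnn, he⟩ c hc h1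
    obtain ⟨p, α, hα, rfl⟩ := (C_iff _).1 hc
    have h4 : T z p ≠ 0 := by
      intro h0
      have := F2 hQ hz _ _ hα.ne' h1
      rw [h0] at this; simp at this
    have hp' : 0 < T z p := lt_of_le_of_ne (hnn p) h4.symm
    refine ⟨by rw [ee_mul]; exact F1 hz _ _ (by positivity), ?_⟩
    rcases he p h4 with h | h
    · have := lt_of_le_of_ne (hnn _) h.symm
      exact ⟨ee (p * x) 1, (C_iff _).2 ⟨_, _, one_pos, rfl⟩, F1 hz _ _ (by positivity),
        (edge_cj x hx _ _ _ _ hα one_pos).2 (Or.inl rfl)⟩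
    · have := lt_of_le_of_ne (hnn _) h.symm
      exact ⟨ee (p * x⁻¹) 1, (C_iff _).2 ⟨_, _, one_pos, rfl⟩, F1 hz _ _ (by positivity),
        (edge_cj x hx _ _ _ _ hα one_pos).2 (Or.inr rfl)⟩

lemma NS_ok (hQ : @Inv' Q _ _) (x : Q) (hx : x ≠ 1) : NS (ee 1 1) (ee 1 1 * ee x 1) := by
  classical
  refine ⟨?_, ?_, ?_⟩
  · rw [PP_iff hQ x hx]
    refine ⟨(ee_A _ _).mul (ee_A _ _), ⟨1, ?_⟩, ?_, ?_⟩
    · simp [T_mul (ee_A _ _), T_ee, hx.symm]
    · intro p
      rw [T_mul (ee_A _ _), T_ee, T_ee]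
      split_ifs <;> norm_num
    · intro p hp
      simp only [T_mul (ee_A _ _), T_ee] at hp ⊢
      by_cases h : p = 1
      · left; simp [h, hx]
      · by_cases h' : p = x
        · right; simp [h', hx.symm]
        · simp [h, h'] at hp
  · intro z w
    simp only [PP_iff hQ x hx]
    rintro ⟨z1, ⟨p, z2⟩, z3, z4⟩ ⟨w1, -, w3, w4⟩
    have hs : ∀ u, T (z * w) u ≠ 0 ↔ T z u ≠ 0 ∨ T w u ≠ 0 := by
      intro u
      rw [T_mul z1, Ne, add_eq_zero_iff_of_nonneg (z3 u) (w3 u), not_and_or]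
    refine ⟨z1.mul w1, ⟨p, (hs p).2 (Or.inl z2)⟩, fun u => ?_, fun u hu => ?_⟩
    · rw [T_mul z1]; exact add_nonneg (z3 u) (w3 u)
    · rw [hs, hs]
      rcases (hs u).1 hu with h | h
      · rcases z4 u h with h | h <;> tauto
      · rcases w4 u h with h | h <;> tauto
  · intro z h
    simp only [PP_iff hQ x hx]
    rintro ⟨z1, ⟨p, z2⟩, z3, z4⟩
    have hs : ∀ u, T (h * z * h⁻¹) u ≠ 0 ↔ T z (h.1.right⁻¹ * u) ≠ 0 := by
      intro u
      rw [T_conj z1]
      simp [(h.1.left u).hs.ne']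
    refine ⟨z1.conj h, ⟨h.1.right * p, (hs _).2 (by simpa using z2)⟩, fun u => ?_,
      fun u hu => ?_⟩
    · rw [T_conj z1]; exact mul_nonneg (h.1.left u).hs.le (z3 _)
    · rw [hs, hs, ← mul_assoc, ← mul_assoc]
      exact z4 _ ((hs u).1 hu)

end Concrete

lemma sig_G : Sig (W Aff QQ) := by
  obtain ⟨r, hQ⟩ := QQ_order
  refine ⟨ee 1 1, lift xq, lift yq, ?_⟩
  rw [conj_lift, conj_lift]
  refine ⟨NS_ok hQ _ xq_ne, NS_ok hQ _ yq_ne, fun z => ?_⟩
  rw [PP_iff hQ _ xq_ne, PP_iff hQ _ yq_ne]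
  rintro ⟨⟨-, h1, -, h2⟩, ⟨-, -, -, h3⟩⟩
  exact no_closed {p | T z p ≠ 0} T_fin h1 h2 h3

lemma G_order : ∃ r : LinearOrder (W Aff QQ), @Inv' (W Aff QQ) _ r := by
  obtain ⟨r, hQ⟩ := QQ_order
  exact (W_cone hQ Aff_cone).exists_order

end Pool.Agent.Lib.helper17.OrdWr
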