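import Mathlib

set_option autoImplicit false

namespace Pool.Agent.Lib.helper17.PB

open Set Filter Topology TopologicalSpace

variable {α : Type}

structure Good (L : Set (Set α)) : Prop where
  sing : ∀ a, {a} ∈ L
  inter : ∀ A ∈ L, ∀ B ∈ L, A ∩ B ∈ L
  un : ∀ C ⊆ L, C.Countable → ⋃₀ C ∈ L

def IsPt (L : Set (Set α)) (F : Filter α) : Prop :=
  F.NeBot ∧ (∀ S ∈ F, ∃ B ∈ L, B ∈ F ∧ B ⊆ S) ∧ ∀ B ∈ L, B ∈ F ∨ Bᶜ ∈ F

abbrev X (L : Set (Set α)) : Type := {F : Filter α // IsPt L F}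

variable {L : Set (Set α)}

def hat (L : Set (Set α)) (S : Set α) : Set (X L) := {F | S ∈ F.1}

lemma open_hat (S : Set α) : IsOpen (hat L S) :=
  isOpen_setOfPred_mem.preimage continuous_subtype_val

lemma hat_nhds {F : X L} {S : Set α} (h : S ∈ F.1) : hat L S ∈ 𝓝 F := (open_hat S).mem_nhds h

lemma clopen_hat {S : Set α} (h : ∀ F : X L, S ∈ F.1 ∨ Sᶜ ∈ F.1) : IsClopen (hat L S) := by
  refine ⟨⟨?_⟩, open_hat S⟩
  convert open_hat (L := L) Sᶜ using 1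
  ext F
  have := F.2.1
  exact ⟨fun e => (h F).resolve_left e, fun e e' => compl_notMem e' e⟩

lemma basis : IsTopologicalBasis (hat L '' L) := by
  refine isTopologicalBasis_of_isOpen_of_nhds (by rintro _ ⟨B, -, rfl⟩; exact open_hat B) ?_
  rintro F _ hF ⟨U, hU, rfl⟩
  obtain ⟨S, h1, h2⟩ := Filter.mem_nhds_iff.1 (hU.mem_nhds hF)
  obtain ⟨B, k1, k2, k3⟩ := F.2.2.1 S h1
  exact ⟨_, ⟨B, k1, rfl⟩, k2, fun G hG => h2 (le_principal_iff.2 (mem_of_superset hG k3))⟩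

lemma clopen_basis : ∀ B ∈ hat L '' L, IsClopen B := by
  rintro _ ⟨B, h, rfl⟩; exact clopen_hat fun F => F.2.2.2 B h

lemma basis_clopen : IsTopologicalBasis {s : Set (X L) | IsClopen s} :=
  isTopologicalBasis_of_isOpen_of_nhds (fun _ h => h.2) fun _ _ h hU =>
    let ⟨v, h1, h2⟩ := basis.exists_subset_of_mem_open h hU; ⟨v, clopen_basis v h1, h2⟩

instance : T35Space (X L) :=
  haveI := CompletelyRegularSpace.of_isTopologicalBasis_clopens (basis_clopen (L := L))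
  {}

def pt (h : Good L) (a : α) : X L := ⟨pure a, inferInstance,
  fun _ hS => ⟨_, h.sing a, rfl, singleton_subset_iff.2 hS⟩, fun B _ => em (a ∈ B)⟩

lemma tendsto_pt (h : Good L) (F : X L) : Tendsto (pt h) F.1 (𝓝 F) := by
  refine (basis.nhds_hasBasis.tendsto_right_iff).2 ?_
  rintro _ ⟨⟨B, -, rfl⟩, hB⟩
  exact mem_of_superset hB fun a ha => ha

lemma pretty (h : Good L) : ∀ C D : Set (Set (X L)), C ⊆ hat L '' L → C.Countable →
    D ⊆ hat L '' L → (∀ U ∈ C, ∀ V ∈ D, Disjoint U V) →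
    ∃ W ∈ hat L '' L, (∀ U ∈ C, U ⊆ W) ∧ ∀ V ∈ D, Disjoint W V := by
  intro C D hC hc hD hd
  choose! B h1 h2 using fun U (hU : U ∈ C) => hC hU
  refine ⟨_, ⟨_, h.un (B '' C) (by rintro _ ⟨U, hU, rfl⟩; exact h1 U hU) (hc.image B), rfl⟩,
    fun U hU F hF => ?_, fun V hV => ?_⟩
  · rw [← h2 U hU] at hF
    exact mem_of_superset hF (subset_sUnion_of_mem ⟨U, hU, rfl⟩)
  · obtain ⟨E, -, rfl⟩ := hD hV
    refine Set.disjoint_left.2 fun F h3 h4 => ?_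
    have := F.2.1
    obtain ⟨a, ⟨_, ⟨U, hU, rfl⟩, h5⟩, h6⟩ := Filter.nonempty_of_mem (inter_mem h3 h4)
    exact Set.disjoint_left.1 (hd U hU _ hV) (show pt h a ∈ U from h2 U hU ▸ h5) h6

lemma exists_pt (h : Good L) (G : Set (Set α)) (h0 : G ⊆ L) (h1 : ∅ ∉ G)
    (h2 : ∀ A ∈ G, ∀ B ∈ G, A ∩ B ∈ G) [Nonempty α] : ∃ F : X L, ∀ B ∈ G, B ∈ F.1 := by
  obtain ⟨M, hG, hM⟩ := zorn_subset_nonempty
    {G : Set (Set α) | G ⊆ L ∧ ∅ ∉ G ∧ ∀ A ∈ G, ∀ B ∈ G, A ∩ B ∈ G} (fun c hc hch _ =>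
      ⟨⋃₀ c, ⟨sUnion_subset fun t ht => (hc ht).1, fun ⟨t, ht, e⟩ => (hc ht).2.1 e, by
        rintro A ⟨t, ht, hA⟩ B ⟨s, hs, hB⟩
        rcases hch.total ht hs with e | e
        · exact ⟨s, hs, (hc hs).2.2 _ (e hA) _ hB⟩
        · exact ⟨t, ht, (hc ht).2.2 _ hA _ (e hB)⟩⟩, fun s hs => subset_sUnion_of_mem hs⟩)
    G ⟨h0, h1, h2⟩
  obtain ⟨m0, m1, m2⟩ := hM.prop
  have k : ∀ B ∈ L, B.Nonempty → (∀ A ∈ M, (A ∩ B).Nonempty) → B ∈ M := fun B hB hn hA => by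
    refine hM.2 (y := M ∪ {B} ∪ (· ∩ B) '' M) ⟨?_, ?_, ?_⟩ (fun A hA => Or.inl (Or.inl hA))
      (Or.inl (Or.inr rfl))
    · rintro _ ((e | rfl) | ⟨A, e, rfl⟩)
      exacts [m0 e, hB, h.inter _ (m0 e) _ hB]
    · rintro ((e | e) | ⟨A, e, e'⟩)
      exacts [m1 e, hn.ne_empty e.symm, (hA A e).ne_empty e']
    · rintro A ((a | rfl) | ⟨A, a, rfl⟩) C ((c | rfl) | ⟨C, c, rfl⟩)
      · exact Or.inl (Or.inl (m2 _ a _ c))
      · exact Or.inr ⟨A, a, rfl⟩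
      · exact Or.inr ⟨_, m2 _ a _ c, by simp only [inter_assoc]⟩
      · exact Or.inr ⟨C, c, inter_comm _ _⟩
      · exact Or.inl (Or.inr (inter_self _))
      · exact Or.inr ⟨C, c, by ext; simp only [mem_inter_iff]; tauto⟩
      · exact Or.inr ⟨_, m2 _ a _ c, by ext; simp only [mem_inter_iff]; tauto⟩
      · exact Or.inr ⟨A, a, by ext; simp only [mem_inter_iff]; tauto⟩
      · exact Or.inr ⟨_, m2 _ a _ c, by ext; simp only [mem_inter_iff]; tauto⟩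
  obtain ⟨A0, a0⟩ : M.Nonempty := by
    by_contra e
    obtain ⟨a⟩ := ‹Nonempty α›
    exact e ⟨_, k _ (h.sing a) (singleton_nonempty a) fun A hA => (e ⟨A, hA⟩).elim⟩
  let F : Filter α :=
    { sets := {S | ∃ A ∈ M, A ⊆ S}
      univ_sets := ⟨A0, a0, subset_univ _⟩
      sets_of_superset := fun ⟨A, a, e⟩ e' => ⟨A, a, e.trans e'⟩
      inter_sets := fun ⟨A, a, e⟩ ⟨B, b, e'⟩ => ⟨_, m2 _ a _ b, inter_subset_inter e e'⟩ }
  refine ⟨⟨F, ⟨fun e => ?_⟩, fun S ⟨A, a, e⟩ => ⟨A, m0 a, ⟨A, a, subset_rfl⟩, e⟩, fun B hB => ?_⟩,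
    fun B hB => ⟨B, hG hB, subset_rfl⟩⟩
  · obtain ⟨A, a, e'⟩ : ∅ ∈ F := e ▸ mem_bot
    exact m1 (subset_empty_iff.1 e' ▸ a)
  · by_cases e : ∀ A ∈ M, (A ∩ B).Nonempty
    · exact Or.inl ⟨B, k B hB ((e A0 a0).mono inter_subset_right) e, subset_rfl⟩
    · push Not at e
      obtain ⟨A, a, e⟩ := e
      exact Or.inr ⟨A, a, fun x hx hb => (e ▸ mem_inter hx hb : x ∈ (∅ : Set α))⟩

lemma cocompact (h : Good L) [Nonempty α] : @CompactSpace (X L)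
    (generateFrom ((fun B : Set (X L) => (closure B)ᶜ) '' (hat L '' L))) := by
  refine @CompactSpace.mk _ (_) ((@isCompact_iff_ultrafilter_le_nhds _ (_) _).2 fun u _ => ?_)
  obtain ⟨F, hF⟩ := exists_pt h {B | B ∈ L ∧ hat L B ∈ u} (fun _ e => e.1)
    (fun e => by
      obtain ⟨F, hF⟩ := u.nonempty_of_mem e.2
      have := F.2.1
      exact F.1.empty_notMem hF)
    (fun A a B b => ⟨h.inter _ a.1 _ b.1, mem_of_superset (inter_mem a.2 b.2)
      fun F hF => inter_mem hF.1 hF.2⟩)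
  refine ⟨F, trivial, ?_⟩
  rw [nhds_generateFrom]
  refine le_iInf₂ ?_
  rintro _ ⟨h1, _, ⟨B, hB, rfl⟩, rfl⟩
  simp only [(clopen_basis _ ⟨B, hB, rfl⟩).1.closure_eq] at h1 ⊢
  exact le_principal_iff.2 (Ultrafilter.compl_mem_iff_notMem.2 fun e => h1 (hF B ⟨hB, e⟩))

lemma extend {g : α → ℝ} (hg : ∀ F : X L, ∃ c, Tendsto g F.1 (𝓝 c)) :
    ∃ G : X L → ℝ, Continuous G ∧ ∀ F : X L, Tendsto g F.1 (𝓝 (G F)) := by
  choose G hG using hg
  refine ⟨G, continuous_iff_continuousAt.2 fun F => ?_, hG⟩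
  refine (closed_nhds_basis (G F)).tendsto_right_iff.2 fun O hO => ?_
  filter_upwards [hat_nhds (hG F hO.1)] with F' hF'
  have := F'.2.1
  exact hO.2.mem_of_tendsto (hG F') hF'

def LP (p : Filter α) : Set (Set α) := {B | B.Countable ∨ B ∈ p}

lemma good_LP (p : Filter α) : Good (LP p) := by
  refine ⟨fun a => Or.inl (countable_singleton a), ?_, fun C hC hc => ?_⟩
  · rintro A (a | a) B (b | b)
    exacts [Or.inl (a.mono inter_subset_left), Or.inl (a.mono inter_subset_left),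
      Or.inl (b.mono inter_subset_right), Or.inr (inter_mem a b)]
  · by_cases e : ∃ B ∈ C, B ∈ p
    · obtain ⟨B, h1, h2⟩ := e
      exact Or.inr (mem_of_superset h2 (subset_sUnion_of_mem h1))
    · exact Or.inl (hc.sUnion fun B hB => (hC hB).resolve_right fun e' => e ⟨B, hB, e'⟩)

lemma isPt_p {p : Filter α} [p.NeBot] (h : p ≤ cocountable) : IsPt (LP p) p :=
  ⟨inferInstance, fun S hS => ⟨S, Or.inr hS, hS, subset_rfl⟩, fun _ hB =>
    hB.elim (fun e => Or.inr (h (by simpa using e))) Or.inl⟩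

lemma pt_cases {p : Filter α} [p.NeBot] (F : X (LP p)) :
    ((∃ C ∈ F.1, C.Countable) ∧ ∃ u : Ultrafilter α, ↑u = F.1) ∨ F.1 = p := by
  by_cases e : ∃ C ∈ F.1, C.Countable
  · refine Or.inl ⟨e, ?_⟩
    obtain ⟨C, h1, h2⟩ := e
    have := F.2.1
    refine ⟨Ultrafilter.ofComplNotMemIff F.1 fun S => ⟨fun e => ?_, fun e => compl_notMem e⟩, rfl⟩
    rcases F.2.2.2 (C ∩ S) (Or.inl (h2.mono inter_subset_left)) with k | k
    · exact mem_of_superset k inter_subset_right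
    · exact (e (mem_of_superset (inter_mem h1 k) fun x hx hs => hx.2 ⟨hx.1, hs⟩)).elim
  · have k : p ≤ F.1 := fun S hS => by
      obtain ⟨B, h1, h2, h3⟩ := F.2.2.1 S hS
      exact mem_of_superset (h1.resolve_left fun e' => e ⟨B, h2, e'⟩) h3
    exact Or.inr (le_antisymm (fun S hS => (F.2.2.2 S (Or.inr hS)).resolve_right
      fun e' => compl_notMem hS (k e')) k)

end Pool.Agent.Lib.helper17.PB
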