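import Mathlib
import Pool.Agent.Lib.helper17.PB1

set_option autoImplicit false

namespace Pool.Agent.Lib.helper17.PB

open Set Filter Topology TopologicalSpace

variable {α ι : Type} {Z : ι → Set α} {Φ : ι → Filter α}

structure AD (Z : ι → Set α) (Φ : ι → Filter α) : Prop where
  ne : ∀ i, (Φ i).NeBot
  co : ∀ i, Φ i ≤ cocountable
  z : ∀ i, Z i ∈ Φ i
  ad : ∀ i j, i ≠ j → (Z i ∩ Z j).Countable

def LA (Z : ι → Set α) (Φ : ι → Filter α) : Set (Set α) :=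
  {B | ∃ J : Set ι, J.Countable ∧ (∀ j ∈ J, B ∈ Φ j) ∧ (B \ ⋃ j ∈ J, Z j).Countable}

lemma ctbl_LA {B : Set α} (h : B.Countable) : B ∈ LA Z Φ :=
  ⟨∅, countable_empty, fun _ e => e.elim, h.mono sdiff_subset⟩

lemma good_LA (h : AD Z Φ) : Good (LA Z Φ) := by
  refine ⟨fun a => ctbl_LA (countable_singleton a), ?_, fun C hC hc => ?_⟩
  · rintro A ⟨J, j1, j2, j3⟩ B ⟨K, k1, k2, k3⟩
    refine ⟨J ∩ K, j1.mono inter_subset_left, fun j hj => inter_mem (j2 j hj.1) (k2 j hj.2), ?_⟩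
    have : (⋃ i ∈ J, ⋃ j ∈ K \ {i}, Z i ∩ Z j).Countable :=
      j1.biUnion fun i _ => (k1.mono sdiff_subset).biUnion fun j hj => h.ad i j (Ne.symm hj.2)
    refine ((j3.union k3).union this).mono fun x hx => ?_
    by_contra e
    simp only [mem_union, not_or, Set.mem_sdiff, not_and, not_not] at e
    obtain ⟨i, hi, xi⟩ := mem_iUnion₂.1 (e.1.1 hx.1.1)
    obtain ⟨j, hj, xj⟩ := mem_iUnion₂.1 (e.1.2 hx.1.2)
    by_cases q : j = i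
    · exact hx.2 (mem_iUnion₂.2 ⟨i, ⟨hi, q ▸ hj⟩, xi⟩)
    · exact e.2 (mem_iUnion₂.2 ⟨i, hi, mem_iUnion₂.2 ⟨j, ⟨hj, q⟩, xi, xj⟩⟩)
  · choose! J j1 j2 j3 using fun B (hB : B ∈ C) => hC hB
    refine ⟨⋃ B ∈ C, J B, hc.biUnion j1, fun j hj => ?_, (hc.biUnion j3).mono ?_⟩
    · obtain ⟨B, hB, e⟩ := mem_iUnion₂.1 hj
      exact mem_of_superset (j2 B hB j e) (subset_sUnion_of_mem hB)
    · rintro x ⟨⟨B, hB, xB⟩, hx⟩
      refine mem_iUnion₂.2 ⟨B, hB, xB, fun e => hx ?_⟩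
      obtain ⟨j, hj, xj⟩ := mem_iUnion₂.1 e
      exact mem_iUnion₂.2 ⟨j, mem_iUnion₂.2 ⟨B, hB, hj⟩, xj⟩

lemma dich (h : AD Z Φ) {B : Set α} {J : Set ι} (hJ : J.Countable)
    (hc : (B \ ⋃ j ∈ J, Z j).Countable) {i : ι} (hi : i ∉ J) : Bᶜ ∈ Φ i := by
  have : ((B \ ⋃ j ∈ J, Z j) ∪ ⋃ j ∈ J, Z i ∩ Z j).Countable :=
    hc.union (hJ.biUnion fun j hj => h.ad i j fun e => hi (e ▸ hj))
  filter_upwards [h.z i, h.co i (mem_cocountable.2 (by rwa [compl_compl]) : _ᶜ ∈ _)] with x h1 h2 h3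
  refine h2 (or_iff_not_imp_left.2 fun e => ?_)
  obtain ⟨j, hj, xj⟩ := mem_iUnion₂.1 (not_not.1 fun e' => e ⟨h3, e'⟩)
  exact mem_iUnion₂.2 ⟨j, hj, h1, xj⟩

lemma isPt_A (h : AD Z Φ) (i : ι) : IsPt (LA Z Φ) (Φ i) := by
  refine ⟨h.ne i, fun S hS => ⟨S ∩ Z i, ⟨{i}, countable_singleton i, ?_, ?_⟩,
    inter_mem hS (h.z i), inter_subset_left⟩, ?_⟩
  · rintro _ rfl; exact inter_mem hS (h.z _)
  · refine countable_empty.mono fun x hx => hx.2 (mem_iUnion₂.2 ⟨i, rfl, hx.1.2⟩)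
  · rintro B ⟨J, j1, j2, j3⟩
    by_cases e : i ∈ J
    exacts [Or.inl (j2 i e), Or.inr (dich h j1 j3 e)]

lemma two (h : AD Z Φ) {g : α → ℝ} {c : ι → ℝ} (hc : ∀ i, Tendsto g (Φ i) (𝓝 (c i)))
    (F : X (LA Z Φ)) {I I' : Set ℝ} (o : IsOpen I) (o' : IsOpen I') (cov : ∀ x, x ∈ I ∨ x ∈ I') :
    g ⁻¹' I ∈ F.1 ∨ g ⁻¹' I' ∈ F.1 := by
  by_contra e
  rw [not_or] at e
  have := F.2.1
  obtain ⟨B, ⟨J, j1, j2, j3⟩, hB, -⟩ := F.2.2.1 _ univ_mem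
  have m : ∀ O : Set ℝ, IsOpen O → ∀ j ∈ J, c j ∈ O →
      B ∩ g ⁻¹' O ∩ ⋃ j ∈ J ∩ c ⁻¹' O, Z j ∈ Φ j := fun O hO j hj hj' =>
    inter_mem (inter_mem (j2 j hj) (hc j (hO.mem_nhds hj')))
      (mem_of_superset (h.z j) fun x hx => mem_iUnion₂.2 ⟨j, ⟨hj, hj'⟩, hx⟩)
  have k : ∀ O : Set ℝ, IsOpen O → g ⁻¹' O ∉ F.1 →
      (B ∩ g ⁻¹' O ∩ ⋃ j ∈ J ∩ c ⁻¹' O, Z j)ᶜ ∈ F.1 := fun O hO hn =>
    (F.2.2.2 _ ⟨J ∩ c ⁻¹' O, j1.mono inter_subset_left, fun j hj => m O hO j hj.1 hj.2,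
      countable_empty.mono fun x hx => hx.2 hx.1.2⟩).resolve_left fun e =>
        hn (mem_of_superset e fun x hx => hx.1.2)
  obtain ⟨D, ⟨K, k1, k2, k3⟩, hD, d⟩ := F.2.2.1 _ (inter_mem hB (inter_mem (k I o e.1) (k I' o' e.2)))
  have z : K = ∅ := eq_empty_of_forall_notMem fun j hj => by
    have := h.ne j
    have hJ : j ∈ J := by
      by_contra q
      exact compl_notMem (mem_of_superset (k2 j hj) fun x hx => (d hx).1) (dich h j1 j3 q)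
    rcases cov (c j) with q | q
    · exact compl_notMem (m I o j hJ q) (mem_of_superset (k2 j hj) fun x hx => (d hx).2.1)
    · exact compl_notMem (m I' o' j hJ q) (mem_of_superset (k2 j hj) fun x hx => (d hx).2.2)
  have dc : D.Countable := by simpa [z] using k3
  have r : ∀ O : Set ℝ, g ⁻¹' O ∉ F.1 → (D ∩ g ⁻¹' O)ᶜ ∈ F.1 := fun O hn =>
    (F.2.2.2 _ (ctbl_LA (dc.mono inter_subset_left))).resolve_left fun e =>
      hn (mem_of_superset e inter_subset_right)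
  obtain ⟨x, x1, x2, x3⟩ := Filter.nonempty_of_mem (inter_mem hD (inter_mem (r I e.1) (r I' e.2)))
  exact (cov (g x)).elim (fun q => x2 ⟨x1, q⟩) fun q => x3 ⟨x1, q⟩

lemma conv (h : AD Z Φ) {g : α → ℝ} {c : ι → ℝ} (hc : ∀ i, Tendsto g (Φ i) (𝓝 (c i)))
    (hg : ∀ a, g a ∈ Icc (0 : ℝ) 1) (F : X (LA Z Φ)) : ∃ x, Tendsto g F.1 (𝓝 x) := by
  have := F.2.1
  obtain ⟨x, -, hx⟩ := (isCompact_Icc (a := (0 : ℝ)) (b := 1)).ultrafilter_le_nhds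
    ((Ultrafilter.of F.1).map g) (le_principal_iff.2 (show g ⁻¹' _ ∈ (Ultrafilter.of F.1 : Filter α) from
      Eventually.of_forall hg))
  refine ⟨x, (nhds_basis_opens x).tendsto_right_iff.2 fun O hO => ?_⟩
  obtain ⟨K, k1, k2, k3⟩ := exists_mem_nhds_isClosed_subset (hO.2.mem_nhds hO.1)
  refine (two h hc F hO.2 k2.isOpen_compl fun y => (em (y ∈ K)).imp_left fun e => k3 e).resolve_right
    fun e => ?_
  exact compl_notMem (show g ⁻¹' K ∈ (Ultrafilter.of F.1 : Filter α) from hx k1)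
    (Ultrafilter.of_le F.1 e)

end Pool.Agent.Lib.helper17.PB
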