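import Mathlib
import Pool.Agent.Lib.helper17.PO2

set_option autoImplicit false

namespace Pool.Agent.Lib.helper17.PO

open Filter Topology Set
open scoped commutatorElement

abbrev GG : Type := G0

abbrev DD : Subgroup GG := commutator GG

lemma S_E {g a : GG} {b : Bool} {p lam : ℝ} (hg : E b g.1 p lam) (ha : a ∈ S g) :
    ∃ q i, 1 ≤ i ∧ E b a.1 q (lam ^ i) := by
  refine S_le (fun a : GG => ∃ q i, 1 ≤ i ∧ E b a.1 q (lam ^ i)) ?_ ?_ ⟨p, 1, le_rfl, by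
    simpa using hg⟩ ha
  · rintro x y ⟨q, i, hi, hx⟩ ⟨q', i', hi', hy⟩
    by_cases h : q = q'
    · subst h
      exact ⟨q, i + i', by omega, by rw [pow_add]; exact hx.mul hy⟩
    · have : q ∈ sd (!b) q' ∨ q' ∈ sd (!b) q := by
        cases b <;> simp [sd, le_total]
      rcases this with h1 | h1
      · exact ⟨q, i, hi, by simpa using hx.mul (hy.far h1 h)⟩
      · exact ⟨q', i', hi', by simpa using (hx.far h1 (Ne.symm h)).mul hy⟩
  · rintro x h ⟨q, i, hi, hx⟩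
    exact ⟨_, i, hi, hx.conj h.2.1⟩

lemma one_not_mem (g : GG) (hg : g ≠ 1) : 1 ∉ S g := by
  intro h
  obtain ⟨p, lam, h1, h2, h3⟩ := ex_E g.2 (fun e => hg (Subtype.ext e)) true
  obtain ⟨q, i, hi, h4⟩ := S_E h1 h
  have := h4.one (fun _ => rfl)
  exact h2 ((pow_eq_one_iff_of_nonneg h3.le (by omega)).1 this)

lemma S_DD {a x : GG} (ha : a ∈ DD) (hx : x ∈ S a) : x ∈ DD :=
  S_le (· ∈ DD) (fun _ _ h1 h2 => DD.mul_mem h1 h2)
    (fun x h h1 => (inferInstance : DD.Normal).conj_mem x h1 h) ha hx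

lemma ends_lt {a : OI} {p q al be : ℝ} (h1 : E true a p al) (h2 : E false a q be) (h : al ≠ 1) :
    p < q := by
  by_contra hc
  refine h (h1.one (fun x => ?_))
  rcases le_total x p with h3 | h3
  · exact h1.1 x h3
  · exact h2.1 x ((not_lt.1 hc).trans h3)

lemma pos2 {a : GG} {p q al be : ℝ} (h1 : E true a.1 p al) (h2 : E false a.1 q be) (h : al ≠ 1)
    {y1 y2 : ℝ} (hy : y1 < y2) : ∃ a' ∈ S a, E true a'.1 y1 al ∧ E false a'.1 y2 be := by
  obtain ⟨k, hk, rfl, rfl⟩ := ex2 (ends_lt h1 h2 h) hy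
  exact ⟨_, conj_mem_S a ⟨k, hk⟩, h1.conj hk.1, h2.conj hk.1⟩

lemma norm01 {a : GG} {p q al be : ℝ} (h1 : E true a.1 p al) (h2 : E false a.1 q be) (h : al ≠ 1)
    (i j : ℕ) (hi : 1 ≤ i) (hj : 1 ≤ j) :
    ∃ a' ∈ S a, E true a'.1 0 (al ^ i) ∧ E false a'.1 1 (be ^ j) := by
  obtain ⟨a1, m1, l1, r1⟩ := pos2 h1 h2 h (y1 := 0) (y2 := 1 / 3) (by norm_num)
  obtain ⟨a2, m2, l2, r2⟩ := pos2 h1 h2 h (y1 := 2 / 3) (y2 := 1) (by norm_num)
  refine ⟨a1 ^ i * a2 ^ j, (S a).mul_mem (S_pow m1 i hi) (S_pow m2 j hj), ?_, ?_⟩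
  · have := (l1.pow i).mul ((l2.pow j).far (p := 0) (by simp [sd]; norm_num) (by norm_num))
    simpa using this
  · have := ((r1.pow i).far (p := 1) (by simp [sd]; norm_num) (by norm_num)).mul (r2.pow j)
    simpa using this

lemma push {a : GG} {p q al be : ℝ} (h1 : E true a.1 p al) (h2 : E false a.1 q be) (h : 1 < al)
    {y1 y2 y3 y4 : ℝ} (b1 : y1 < y2) (b2 : y2 < y3) (b3 : y3 < y4) :
    ∃ k ∈ S a, Fix k.1 y1 y4 ∧ k.1 y2 = y3 ∧ ∀ x ≤ y2, x ≤ k.1 x := by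
  obtain ⟨s, s1, s2⟩ := h1.left
  have e1 : s < a.1 s := by rw [s2 s s1.le le_rfl]; nlinarith
  have e2 : s < q := by
    by_contra hc
    exact e1.ne' (h2.1 s (not_lt.1 hc))
  have e3 : a.1 s < q := by simpa [h2.fix] using a.1.strictMono e2
  obtain ⟨k, hk, rfl, rfl, c3, rfl, -⟩ := ex4 s1 e1 e3 b1 b2 b3
  have hf : Fix a.1 p q := fun x hx => hx.elim (h1.1 x) (h2.1 x)
  refine ⟨_, conj_mem_S a ⟨k, hk⟩, hf.conj k, by simpa using c3, fun x hx => ?_⟩
  have h3 : k⁻¹ x ≤ s := by simpa using k⁻¹.monotone hx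
  have h4 : k⁻¹ x ≤ a.1 (k⁻¹ x) := by
    rcases le_total (k⁻¹ x) p with h5 | h5
    · rw [h1.1 _ h5]
    · rw [s2 _ h5 h3]; nlinarith
  simpa using k.monotone h4

def HJ (J : Set ℝ) : Subgroup GG where
  carrier := {f | ∀ x ∉ J, f.1 x = x}
  mul_mem' := fun {f g} hf hg x hx => by
    change f.1 (g.1 x) = x
    rw [hg x hx, hf x hx]
  one_mem' := fun _ _ => rfl
  inv_mem' := fun {f} hf x hx => oi_inv_fix (hf x hx)

lemma HJ_mono {J K : Set ℝ} (h : J ⊆ K) : HJ J ≤ HJ K := fun _ hf x hx => hf x (fun h2 => hx (h h2))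

lemma Fix.memHJ {f : GG} {u v : ℝ} (h : Fix f.1 u v) : f ∈ HJ (Icc u v) := by
  intro x hx
  apply h
  by_contra hc
  push Not at hc
  exact hx ⟨hc.1.le, hc.2.le⟩

lemma HJ_conj {J : Set ℝ} {f : GG} (hf : f ∈ HJ J) (h : GG) : h * f * h⁻¹ ∈ HJ (h.1 '' J) := by
  intro x hx
  change h.1 (f.1 (h.1⁻¹ x)) = x
  rw [hf, oi_inv2]
  intro h2
  exact hx ⟨_, h2, oi_inv2 _ _⟩

lemma HJ_comm {J K : Set ℝ} {f g : GG} (hf : f ∈ HJ J) (hg : g ∈ HJ K) (h : ∀ x ∈ J, x ∉ K) :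
    Commute f g := Subtype.ext (comm_disj hf hg h)

lemma ex_M (f : GG) : ∃ M : ℝ, f ∈ HJ (Icc (-M) M) := by
  obtain ⟨M, hM⟩ := f.2.2
  exact ⟨M, hM.memHJ⟩

lemma M_mono {M N : ℝ} (h : M ≤ N) : HJ (Icc (-M) M) ≤ HJ (Icc (-N) N) :=
  HJ_mono (Icc_subset_Icc (by linarith) h)

lemma commH {w : GG} (hw : w ∈ DD) {al be j0 j1 : ℝ} (hf : Fix w.1 al be) (h0 : j0 < al)
    (h1 : al < be) (h2 : be < j1) : w ∈ ⁅HJ (Icc j0 j1), HJ (Icc j0 j1)⁆ := by
  obtain ⟨M, hM⟩ : ∃ M : ℝ, w ∈ ⁅HJ (Icc (-M) M), HJ (Icc (-M) M)⁆ := by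
    clear hf
    rw [DD, commutator_def, Subgroup.commutator_def] at hw
    induction hw using Subgroup.closure_induction with
    | mem x hx =>
      obtain ⟨u, -, v, -, rfl⟩ := hx
      obtain ⟨M, hM⟩ := ex_M u
      obtain ⟨N, hN⟩ := ex_M v
      exact ⟨max M N, Subgroup.commutator_mem_commutator (M_mono (le_max_left _ _) hM)
        (M_mono (le_max_right _ _) hN)⟩
    | one => exact ⟨0, Subgroup.one_mem _⟩
    | mul x y _ _ h1 h2 =>
      obtain ⟨M, hM⟩ := h1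
      obtain ⟨N, hN⟩ := h2
      exact ⟨max M N, Subgroup.mul_mem _
        (Subgroup.commutator_mono (M_mono (le_max_left _ _)) (M_mono (le_max_left _ _)) hM)
        (Subgroup.commutator_mono (M_mono (le_max_right _ _)) (M_mono (le_max_right _ _)) hN)⟩
    | inv x _ h1 =>
      obtain ⟨M, hM⟩ := h1
      exact ⟨M, Subgroup.inv_mem _ hM⟩
  set N := max M (max (-al) be + 1) with hN
  have n1 : -N < al := by
    have := le_max_right M (max (-al) be + 1)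
    have := le_max_left (-al) be
    linarith
  have n2 : be < N := by
    have := le_max_right M (max (-al) be + 1)
    have := le_max_right (-al) be
    linarith
  have hN' := Subgroup.commutator_mono (M_mono (le_max_left M (max (-al) be + 1)))
    (M_mono (le_max_left M (max (-al) be + 1))) hM
  obtain ⟨k, hk, c1, c2, c3, c4, c5⟩ := ex4 n1 h1 n2 h0 h1 h2
  let K : GG := ⟨k, hk⟩
  have e : (MulAut.conj K).toMonoidHom w = w := by
    apply Subtype.ext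
    ext x
    have := hf.conj k
    rw [c2, c3] at this
    change (k * w.1 * k⁻¹) x = w.1 x
    by_cases hx : x ≤ al ∨ be ≤ x
    · rw [this x hx, hf x hx]
    · push Not at hx
      rw [oi_mul, oi_mul, oi_inv_fix (c5 rfl rfl x hx.1.le hx.2.le), c5 rfl rfl]
      · simpa [hf al (Or.inl le_rfl)] using w.1.monotone hx.1.le
      · simpa [hf be (Or.inr le_rfl)] using w.1.monotone hx.2.le
  have hle : (HJ (Icc (-N) N)).map (MulAut.conj K).toMonoidHom ≤ HJ (Icc j0 j1) := by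
    rintro _ ⟨f, hf, rfl⟩
    refine HJ_mono ?_ (HJ_conj hf K)
    rintro _ ⟨x, hx, rfl⟩
    exact ⟨c1 ▸ k.monotone hx.1, c4 ▸ k.monotone hx.2⟩
  have := Subgroup.mem_map_of_mem (MulAut.conj K).toMonoidHom hN'
  rw [Subgroup.map_commutator, e] at this
  exact Subgroup.commutator_mono hle hle this

lemma disp_of {c : GG} {J : Set ℝ} {N : ℕ} (h : ∀ n, N ≤ n → ∀ x ∈ J, (c.1 ^ n) x ∉ J) :
    Disp (c ^ N) (HJ J) := by
  intro k hk u hu v hv
  refine HJ_comm hu (HJ_conj hv _) ?_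
  rintro _ hx ⟨y, hy, rfl⟩
  rw [← pow_mul] at hx
  exact h (N * k) (Nat.le_mul_of_pos_right N hk) y hy hx

lemma stay_up {c : OI} {j0 j1 : ℝ} {n0 : ℕ} (h : j1 < (c ^ n0) j0) (h1 : j1 ≤ c j1) (n : ℕ)
    (hn : n0 ≤ n) : j1 < (c ^ n) j0 := by
  induction n, hn using Nat.le_induction with
  | base => exact h
  | succ n _ ih => rw [pow_succ', oi_mul]; exact h1.trans_lt (c.strictMono ih)

lemma stay_down {c : OI} {j0 j1 : ℝ} {n0 : ℕ} (h : (c ^ n0) j1 < j0) (h1 : c j0 ≤ j0) (n : ℕ)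
    (hn : n0 ≤ n) : (c ^ n) j1 < j0 := by
  induction n, hn using Nat.le_induction with
  | base => exact h
  | succ n _ ih => rw [pow_succ', oi_mul]; exact (c.strictMono ih).trans_le h1

/-- the data of an element normalised on [0,1] -/
structure Nm (a a1 : GG) (La R s t : ℝ) : Prop where
  mem : a1 ∈ S a
  fx : Fix a1.1 0 1
  l : ∀ x, 0 ≤ x → x ≤ s → a1.1 x = La * x
  r : ∀ x, t ≤ x → x ≤ 1 → a1.1 x = 1 + R * (x - 1)
  dd : a ∈ DD
  ps : ∀ y1 y2 y3 y4 : ℝ, y1 < y2 → y2 < y3 → y3 < y4 →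
    ∃ k ∈ S a, Fix k.1 y1 y4 ∧ k.1 y2 = y3 ∧ ∀ x ≤ y2, x ≤ k.1 x

lemma Nm.agree {a a1 b b1 : GG} {La R s t : ℝ} (A : Nm a a1 La R s t) (B : Nm b b1 La R s t)
    (x : ℝ) (hx : x ≤ s ∨ t ≤ x) : a1.1 x = b1.1 x := by
  rcases hx with hx | hx
  · rcases le_total x 0 with h | h
    · rw [A.fx x (Or.inl h), B.fx x (Or.inl h)]
    · rw [A.l x h hx, B.l x h hx]
  · rcases le_total 1 x with h | h
    · rw [A.fx x (Or.inr h), B.fx x (Or.inr h)]
    · rw [A.r x hx h, B.r x hx h]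

lemma case1 {a a1 b b1 : GG} {La R s t : ℝ} (A : Nm a a1 La R s t) (B : Nm b b1 La R s t)
    (hL : 1 < La) (hR0 : 0 < R) (hR : R < 1) (hs : 0 < s) (hst : s < t) (ht : t < 1) :
    ∃ e, e ∈ S a ∧ e ∈ S b := by
  set t2 := (t + (1 + R * (t - 1))) / 2 with ht2
  have p1 : t < t2 := by rw [ht2]; nlinarith
  have p2 : t2 < 1 + R * (t - 1) := by rw [ht2]; nlinarith
  have p3 : t2 < 1 := by nlinarith
  obtain ⟨ka, ma, fa, -, -⟩ := A.ps (s / 2) s t t2 (by linarith) hst p1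
  obtain ⟨kb, mb, fb, eb, gb⟩ := B.ps (s / 2) s t t2 (by linarith) hst p1
  set c := b1 * kb with hc
  set d := a1 * ka with hd
  have cS : c ∈ S b := (S b).mul_mem B.mem mb
  have dS : d ∈ S a := (S a).mul_mem A.mem ma
  have hpos : ∀ x, s / 4 ≤ x → x ≤ (t2 + 1) / 2 → x < c.1 x := by
    intro x x1 x2
    change x < b1.1 (kb.1 x)
    rcases le_total x s with h | h
    · refine lt_of_lt_of_le ?_ (b1.1.monotone (gb x h))
      rw [B.l x (by linarith) h]; nlinarith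
    · rcases le_total x t2 with h' | h'
      · refine lt_of_lt_of_le ?_ (b1.1.monotone (kb.1.monotone h))
        rw [eb, B.r t le_rfl ht.le]; linarith
      · rw [fb x (Or.inr h'), B.r x (by linarith) (by linarith)]; nlinarith
  have hw : Fix (c⁻¹ * d).1 (s / 2) t2 := by
    intro x hx
    have : d.1 x = c.1 x := by
      change a1.1 (ka.1 x) = b1.1 (kb.1 x)
      rw [fa x hx, fb x hx]
      exact A.agree B x (hx.imp (fun h => by linarith) (fun h => by linarith))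
    change c.1⁻¹ (d.1 x) = x
    rw [this, oi_inv1]
  have hH := commH (DD.mul_mem (DD.inv_mem (S_DD B.dd cS)) (S_DD A.dd dS)) hw
    (j0 := s / 4) (j1 := (t2 + 1) / 2) (by linarith) (by linarith) (by linarith)
  obtain ⟨n0, hn0⟩ := esc_up c.1 (by linarith) hpos
  obtain ⟨e, e1, e2⟩ := key (N := n0 + 1) (by omega) (disp_of (c := c) (by
    intro n hn x hx hx'
    have := stay_up hn0 (hpos _ (by linarith) le_rfl).le n (by omega)
    exact absurd ((this.trans_le ((c.1 ^ n).monotone hx.1)).trans_le hx'.2) (lt_irrefl _))) hH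
  rw [mul_inv_cancel_left] at e2
  exact ⟨e, S_mono dS e2, S_mono cS e1⟩

lemma build {a a1 : GG} {La R s t : ℝ} (A : Nm a a1 La R s t) {s0 t0 m0 m1 : ℝ} {ka : OI}
    (hka : ka ∈ PL) (q0 : ka s0 = m0) (q1 : ka t0 = m1) (h1 : s0 < a1.1 s0) (h2 : s0 < t0)
    (h3 : a1.1 t0 < m0) (h4 : m0 < m1) (h5 : m1 < t0) :
    ∃ k h : GG, k ∈ S a ∧ Fix k.1 s0 t0 ∧ k.1 (a1.1 s0) = m0 ∧ Fix h.1 (a1.1 t0) t0 ∧
      ∀ x, s0 ≤ x → x ≤ t0 → h.1 (k.1 (a1.1 x)) = ka x := by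
  have h6 : a1.1 s0 < a1.1 t0 := a1.1.strictMono h2
  obtain ⟨k, mk, fk, ek, -⟩ := A.ps s0 (a1.1 s0) m0 t0 h1 (by linarith) (by linarith)
  have h7 : k.1 (a1.1 t0) < t0 := by
    simpa [fk t0 (Or.inr le_rfl)] using k.1.strictMono (show a1.1 t0 < t0 by linarith)
  obtain ⟨h, hh, f1, f2⟩ := ext_lr (g := ka * (k * a1).1⁻¹)
    (PL.mul_mem hka (PL.inv_mem (k * a1).2.1)) (s := (k * a1).1 s0) (t := (k * a1).1 t0)
    (u := a1.1 t0) (v := t0) ((k * a1).1.monotone h2.le)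
    (by change _ < k.1 (a1.1 s0); rw [ek]; exact h3) (by rw [oi_mul, oi_inv1, q0]; exact h3)
    h7 (by rw [oi_mul, oi_inv1, q1]; exact h5)
  refine ⟨k, ⟨h, hh⟩, mk, fk, ek, f1, fun x x1 x2 => ?_⟩
  have := f2 ((k * a1).1 x) ((k * a1).1.monotone x1) ((k * a1).1.monotone x2)
  rw [oi_mul, oi_inv1] at this
  exact this

lemma ab_eq {x : GG} : x ∈ DD ↔ Abelianization.of x = 1 := by
  rw [← MonoidHom.mem_ker, Abelianization.ker_of]

lemma ab_aux {A : Type} [CommGroup A] (x y z : A) : x * (y * z * y⁻¹)⁻¹ * x⁻¹ * z = 1 := by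
  rw [mul_inv_cancel_comm, mul_inv_cancel_comm, inv_mul_cancel]

lemma case2 {a a1 b b1 : GG} {La R s t : ℝ} (A : Nm a a1 La R s t) (B : Nm b b1 La R s t)
    (hL : 1 < La) (hR : 1 < R) (hs : 0 < s) (hst : s < t) (ht : t < 1) :
    ∃ e, e ∈ S a ∧ e ∈ S b := by
  have hL0 : 0 < La := by linarith
  have hR0 : 0 < R := by linarith
  obtain ⟨s0, hs0⟩ : ∃ s0, La * s0 = s := ⟨s / La, by field_simp⟩
  obtain ⟨s', hs'⟩ : ∃ s', La * s' = s0 := ⟨s0 / La, by field_simp⟩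
  obtain ⟨t0, ht0⟩ : ∃ t0, 1 + R * (t0 - 1) = t := ⟨1 + (t - 1) / R, by field_simp; ring⟩
  obtain ⟨t', ht'⟩ : ∃ t', 1 + R * (t' - 1) = t0 := ⟨1 + (t0 - 1) / R, by field_simp; ring⟩
  have p0 : 0 < s0 := by nlinarith
  have p1 : s0 < s := by nlinarith
  have p2 : 0 < s' := by nlinarith
  have p3 : s' < s0 := by nlinarith
  have p4 : t0 < 1 := by nlinarith
  have p5 : t < t0 := by nlinarith
  have p6 : t' < 1 := by nlinarith
  have p7 : t0 < t' := by nlinarith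
  have as0 : a1.1 s0 = s := by rw [A.l s0 p0.le p1.le, hs0]
  have bs0 : b1.1 s0 = s := by rw [B.l s0 p0.le p1.le, hs0]
  have as' : a1.1 s' = s0 := by rw [A.l s' p2.le (by linarith), hs']
  have bs' : b1.1 s' = s0 := by rw [B.l s' p2.le (by linarith), hs']
  have at0 : a1.1 t0 = t := by rw [A.r t0 p5.le p4.le, ht0]
  have bt0 : b1.1 t0 = t := by rw [B.r t0 p5.le p4.le, ht0]
  have at' : a1.1 t' = t0 := by rw [A.r t' (by linarith) p6.le, ht']
  have bt' : b1.1 t' = t0 := by rw [B.r t' (by linarith) p6.le, ht']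
  set m0 := (2 * t + t0) / 3 with hm0
  set m1 := (t + 2 * t0) / 3 with hm1
  have r0 : t < m0 := by linarith
  have r1 : m0 < m1 := by linarith
  have r2 : m1 < t0 := by linarith
  have r3 : s0 < t0 := by linarith
  obtain ⟨ka, hka, q0, q1, -⟩ := ex_aff r3 r1
  obtain ⟨k, h, mk, fk, ek, fh, eh⟩ := build A hka q0 q1 (by linarith) r3 (by linarith) r1 r2
  obtain ⟨k', h', mk', fk', -, fh', eh'⟩ := build B hka q0 q1 (by linarith) r3 (by linarith) r1 r2
  rw [at0] at fh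
  rw [bt0] at fh'
  rw [as0] at ek
  set c := h' * k' * h'⁻¹ * b1 with hc
  set d := h * k * h⁻¹ * a1 with hd
  have cS : c ∈ S b := (S b).mul_mem (S_conj mk' h') B.mem
  have dS : d ∈ S a := (S a).mul_mem (S_conj mk h) A.mem
  have fK : Fix (h * k * h⁻¹).1 s0 t0 :=
    ((fh.mono (by linarith) le_rfl).mul fk).mul (fh.mono (by linarith) le_rfl).inv
  have fK' : Fix (h' * k' * h'⁻¹).1 s0 t0 :=
    ((fh'.mono (by linarith) le_rfl).mul fk').mul (fh'.mono (by linarith) le_rfl).inv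
  have cm : ∀ x, s0 ≤ x → x ≤ t0 → c.1 x = ka x := by
    intro x x1 x2
    change h'.1 (k'.1 (h'.1⁻¹ (b1.1 x))) = _
    rw [fh'.inv _ (Or.inl (bt0 ▸ b1.1.monotone x2)), eh' x x1 x2]
  have dm : ∀ x, s0 ≤ x → x ≤ t0 → d.1 x = ka x := by
    intro x x1 x2
    change h.1 (k.1 (h.1⁻¹ (a1.1 x))) = _
    rw [fh.inv _ (Or.inl (at0 ▸ a1.1.monotone x2)), eh x x1 x2]
  set w := d⁻¹ * c with hw
  have wo : Fix w.1 s' t' := by
    intro x hx
    have : c.1 x = d.1 x := by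
      change (h' * k' * h'⁻¹).1 (b1.1 x) = (h * k * h⁻¹).1 (a1.1 x)
      have e := A.agree B x (hx.imp (fun h => by linarith) (fun h => by linarith))
      have e2 : a1.1 x ≤ s0 ∨ t0 ≤ a1.1 x :=
        hx.imp (fun h => as' ▸ a1.1.monotone h) (fun h => at' ▸ a1.1.monotone h)
      rw [← e, fK _ e2, fK' _ e2]
    change d.1⁻¹ (c.1 x) = x
    rw [this, oi_inv1]
  have wm : ∀ x, s0 ≤ x → x ≤ t0 → w.1 x = x := by
    intro x x1 x2
    change d.1⁻¹ (c.1 x) = x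
    rw [cm x x1 x2, ← dm x x1 x2, oi_inv1]
  have g1 : w.1 s0 = (1 : OI) s0 := wm s0 le_rfl r3.le
  have f1 : Fix (glue w.1 1 s0 g1) s' s0 := by
    rintro x (hx | hx)
    · rw [glue_le (by linarith), wo x (Or.inl hx)]
    · rw [glue_ge hx]; rfl
  have f2 : Fix (glue 1 w.1 s0 g1.symm) t0 t' := by
    rintro x (hx | hx)
    · rcases le_total x s0 with h | h
      · rw [glue_le h]; rfl
      · rw [glue_ge h, wm x h hx]
    · rw [glue_ge (by linarith), wo x (Or.inr hx)]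
  let w1 : GG := ⟨_, mem_G0 (glue_PL w.2.1 PL.one_mem) f1⟩
  let w2 : GG := ⟨_, mem_G0 (glue_PL PL.one_mem w.2.1) f2⟩
  have hw12 : w = w1 * w2 := by
    apply Subtype.ext
    ext x
    change w.1 x = glue w.1 1 s0 g1 (glue 1 w.1 s0 g1.symm x)
    rcases le_total x s0 with h | h
    · rw [glue_le h, oi_one, glue_le h]
    · rw [glue_ge h, glue_ge (by simpa [g1] using w.1.monotone h), oi_one]
  obtain ⟨r, hr, r4, r5⟩ := ex2 p3 (y1 := (t + m0) / 2) (y2 := m0) (by linarith)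
  set y : GG := ⟨r, hr⟩ * w1 * ⟨r, hr⟩⁻¹ with hy
  have fy : Fix y.1 ((t + m0) / 2) m0 := by
    have := f1.conj r
    rwa [r4, r5] at this
  set Y2 := (a1⁻¹ * h) * y * (a1⁻¹ * h)⁻¹ with hY2
  set Y1 := (a1⁻¹ * h * k⁻¹) * y⁻¹ * (a1⁻¹ * h * k⁻¹)⁻¹ with hY1
  have fY2 : Fix Y2.1 t0 t' := by
    refine (fy.conj (a1⁻¹ * h).1).mono ?_ ?_
    · change t0 ≤ a1.1⁻¹ (h.1 _)
      have : t ≤ h.1 ((t + m0) / 2) := by
        simpa [fh t (Or.inl le_rfl)] using h.1.monotone (show t ≤ (t + m0) / 2 by linarith)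
      simpa [← at0] using a1.1⁻¹.monotone this
    · change a1.1⁻¹ (h.1 _) ≤ t'
      have : h.1 m0 ≤ t0 := by
        simpa [fh t0 (Or.inr le_rfl)] using h.1.monotone (show m0 ≤ t0 by linarith)
      rw [← at'] at this
      simpa using a1.1⁻¹.monotone this
  have fY1 : Fix Y1.1 s' s0 := by
    refine (fy.inv.conj (a1⁻¹ * h * k⁻¹).1).mono ?_ ?_
    · change s' ≤ a1.1⁻¹ (h.1 (k.1⁻¹ _))
      have e1 : s0 ≤ k.1⁻¹ ((t + m0) / 2) := by
        simpa [fk.inv s0 (Or.inl le_rfl)] using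
          k.1⁻¹.monotone (show s0 ≤ (t + m0) / 2 by linarith)
      have e2 : s0 ≤ h.1 (k.1⁻¹ ((t + m0) / 2)) := by
        simpa [fh s0 (Or.inl (by linarith))] using h.1.monotone e1
      rw [← as'] at e2
      simpa using a1.1⁻¹.monotone e2
    · change a1.1⁻¹ (h.1 (k.1⁻¹ _)) ≤ s0
      rw [← ek, oi_inv1, fh s (Or.inl hst.le), ← as0, oi_inv1]
  set d' := (h * y) * k * (h * y)⁻¹ * a1 with hd'
  have d'S : d' ∈ S a := (S a).mul_mem (S_conj mk _) A.mem
  have fu0 : Fix (Y1 * w1).1 s' s0 := fY1.mul f1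
  have fv0 : Fix (Y2 * w2).1 t0 t' := fY2.mul f2
  have hcm : Commute Y2 (Y1 * w1) := HJ_comm fY2.memHJ fu0.memHJ
    (fun x h1 h2 => by linarith [h1.1, h2.2])
  have hdec : d'⁻¹ * c = (Y1 * w1) * (Y2 * w2) := by
    calc d'⁻¹ * c = Y2 * Y1 * w := by
          rw [hd', hY1, hY2, hw, hd]
          generalize c = c0
          group
      _ = Y2 * (Y1 * w1) * w2 := by rw [hw12]; simp only [mul_assoc]
      _ = _ := by rw [hcm.eq]; simp only [mul_assoc]
  have u1 : Y1 * w1 ∈ DD := by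
    rw [ab_eq, hY1, hy]
    simp only [map_mul, map_inv]
    exact ab_aux _ _ _
  have u2 : Y2 * w2 ∈ DD := by
    have := DD.mul_mem (DD.inv_mem u1) (hdec ▸ DD.mul_mem (DD.inv_mem (S_DD A.dd d'S))
      (S_DD B.dd cS))
    rwa [inv_mul_cancel_left] at this
  set j1 := (s0 + m0) / 2 with hj1
  set j2 := (m1 + t0) / 2 with hj2
  have H1 := commH u1 fu0 (j0 := s' / 2) (j1 := j1) (by linarith) p3 (by linarith)
  have H2 := commH u2 fv0 (j0 := j2) (j1 := (t' + 1) / 2) (by linarith) p7 (by linarith)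
  have hH : (d'⁻¹ * c)⁻¹ ∈ ⁅HJ (Icc (s' / 2) j1 ∪ Icc j2 ((t' + 1) / 2)),
      HJ (Icc (s' / 2) j1 ∪ Icc j2 ((t' + 1) / 2))⁆ := by
    rw [hdec]
    exact Subgroup.inv_mem _ (Subgroup.mul_mem _
      (Subgroup.commutator_mono (HJ_mono subset_union_left) (HJ_mono subset_union_left) H1)
      (Subgroup.commutator_mono (HJ_mono subset_union_right) (HJ_mono subset_union_right) H2))
  have hpos : ∀ x, s' / 2 ≤ x → x ≤ j1 → x < c.1 x := by
    intro x x1 x2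
    rcases le_total x s0 with h0 | h0
    · change x < (h' * k' * h'⁻¹).1 (b1.1 x)
      rcases le_or_gt (b1.1 x) s0 with h1 | h1
      · rw [fK' _ (Or.inl h1), B.l x (by linarith) (by linarith)]; nlinarith
      · have := (h' * k' * h'⁻¹).1.strictMono h1
        rw [fK' s0 (Or.inl le_rfl)] at this
        linarith
    · rw [cm x h0 (by linarith)]
      have := ka.monotone h0
      linarith
  have hneg : ∀ x, j2 ≤ x → x ≤ (t' + 1) / 2 → c.1 x < x := by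
    intro x x1 x2
    rcases le_total t0 x with h0 | h0
    · change (h' * k' * h'⁻¹).1 (b1.1 x) < x
      rcases le_or_gt t0 (b1.1 x) with h1 | h1
      · rw [fK' _ (Or.inr h1), B.r x (by linarith) (by linarith)]; nlinarith
      · have := (h' * k' * h'⁻¹).1.strictMono h1
        rw [fK' t0 (Or.inr le_rfl)] at this
        linarith
    · rw [cm x (by linarith) h0]
      have := ka.monotone h0
      linarith
  obtain ⟨n0, hn0⟩ := esc_up c.1 (by linarith) hpos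
  obtain ⟨n1, hn1⟩ := esc_down c.1 (by linarith) hneg
  obtain ⟨e, e1, e2⟩ := key (N := n0 + n1 + 1) (by omega) (disp_of (c := c) (by
    intro n hn x hx hx'
    have z1 := stay_up hn0 (hpos _ (by linarith) le_rfl).le n (by omega)
    have z2 := stay_down hn1 (hneg _ le_rfl (by linarith)).le n (by omega)
    have z3 : s' / 2 ≤ x := by rcases hx with h | h <;> linarith [h.1]
    have z4 : x ≤ (t' + 1) / 2 := by rcases hx with h | h <;> linarith [h.2]
    have z5 := (c.1 ^ n).monotone z3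
    have z6 := (c.1 ^ n).monotone z4
    rcases hx' with h | h
    · linarith [h.2]
    · linarith [h.1])) hH
  rw [show c * (d'⁻¹ * c)⁻¹ = d' by group] at e2
  exact ⟨e, S_mono d'S e2, S_mono cS e1⟩

end Pool.Agent.Lib.helper17.PO
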