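import Mathlib
import Pool.Agent.Lib.helper17.PO1
import Pool.Agent.Lib.helper17.PO3

set_option autoImplicit false

namespace Pool.Agent.Lib.helper17.PO

open Filter Topology Set N5f09da3c
open scoped commutatorElement

lemma main1 {g a b : GG} {p q lam rho : ℝ} (h1 : E true g.1 p lam) (h2 : E false g.1 q rho)
    (hl : 1 < lam) (hr : rho ≠ 1) (hr0 : 0 < rho) (ha : a ∈ S g) (hb : b ∈ S g) (da : a ∈ DD)
    (db : b ∈ DD) : ∃ e, e ∈ S a ∧ e ∈ S b := by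
  obtain ⟨pa, i, hi, la⟩ := S_E h1 ha
  obtain ⟨qa, i', hi', ra⟩ := S_E h2 ha
  obtain ⟨pb, j, hj, lb⟩ := S_E h1 hb
  obtain ⟨qb, j', hj', rb⟩ := S_E h2 hb
  have ga : 1 < lam ^ i := one_lt_pow₀ hl (by omega)
  have gb : 1 < lam ^ j := one_lt_pow₀ hl (by omega)
  obtain ⟨a1, ma, l1, r1⟩ := norm01 la ra ga.ne' j j' hj hj'
  obtain ⟨b1, mb, l2, r2⟩ := norm01 lb rb gb.ne' i i' hi hi'
  rw [← pow_mul] at l1 r1 l2 r2
  rw [mul_comm] at l2 r2
  obtain ⟨s1, s1p, s1e⟩ := l1.left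
  obtain ⟨s2, s2p, s2e⟩ := l2.left
  obtain ⟨t1, t1p, t1e⟩ := r1.right
  obtain ⟨t2, t2p, t2e⟩ := r2.right
  obtain ⟨s, c0, c1, c2, c3⟩ : ∃ s : ℝ, 0 < s ∧ s ≤ s1 ∧ s ≤ s2 ∧ s ≤ 1 / 3 :=
    ⟨min (min s1 s2) (1 / 3), lt_min (lt_min s1p s2p) (by norm_num),
      (min_le_left _ _).trans (min_le_left _ _), (min_le_left _ _).trans (min_le_right _ _),
      min_le_right _ _⟩
  obtain ⟨t, d0, d1, d2, d3⟩ : ∃ t : ℝ, t < 1 ∧ t1 ≤ t ∧ t2 ≤ t ∧ 2 / 3 ≤ t :=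
    ⟨max (max t1 t2) (2 / 3), max_lt (max_lt t1p t2p) (by norm_num),
      (le_max_left _ _).trans (le_max_left _ _), (le_max_right _ _).trans (le_max_left _ _),
      le_max_right _ _⟩
  have A : Nm a a1 (lam ^ (i * j)) (rho ^ (i' * j')) s t :=
    ⟨ma, fun x hx => hx.elim (l1.1 x) (r1.1 x),
      fun x x1 x2 => by rw [s1e x x1 (x2.trans c1)]; ring,
      fun x x1 x2 => t1e x (d1.trans x1) x2, da, fun _ _ _ _ b1 b2 b3 => push la ra ga b1 b2 b3⟩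
  have B : Nm b b1 (lam ^ (i * j)) (rho ^ (i' * j')) s t :=
    ⟨mb, fun x hx => hx.elim (l2.1 x) (r2.1 x),
      fun x x1 x2 => by rw [s2e x x1 (x2.trans c2)]; ring,
      fun x x1 x2 => t2e x (d2.trans x1) x2, db, fun _ _ _ _ b1 b2 b3 => push lb rb gb b1 b2 b3⟩
  have hL : 1 < lam ^ (i * j) := one_lt_pow₀ hl (Nat.mul_ne_zero (by omega) (by omega))
  have hR : rho ^ (i' * j') ≠ 1 := fun h =>
    hr ((pow_eq_one_iff_of_nonneg hr0.le (Nat.mul_ne_zero (by omega) (by omega))).1 h)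
  rcases lt_or_gt_of_ne hR with h | h
  · exact case1 A B hL (pow_pos hr0 _) h c0 (by linarith) d0
  · exact case2 A B hL h c0 (by linarith) d0

lemma main2 {g a b : GG} (ha : a ∈ S g) (hb : b ∈ S g) (da : a ∈ DD) (db : b ∈ DD) :
    ∃ e, e ∈ S a ∧ e ∈ S b := by
  by_cases hg : g = 1
  · subst hg
    have h : ∀ x ∈ S (1 : GG), x = 1 := fun x hx =>
      S_le (· = 1) (fun x y h1 h2 => by rw [h1, h2, mul_one]) (fun x h h1 => by rw [h1]; group)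
        rfl hx
    rw [h a ha, h b hb]
    exact ⟨1, self_mem_S _, self_mem_S _⟩
  · obtain ⟨p, lam, h1, h2, h3⟩ := ex_E g.2 (fun e => hg (Subtype.ext e)) true
    obtain ⟨q, rho, h4, h5, h6⟩ := ex_E g.2 (fun e => hg (Subtype.ext e)) false
    rcases lt_or_gt_of_ne h2 with h | h
    · obtain ⟨e, e1, e2⟩ := main1 (g := g⁻¹) h1.inv h4.inv ((one_lt_inv₀ h3).2 h)
        (fun h => h5 (inv_eq_one.1 h)) (inv_pos.2 h6) (S_inv ha) (S_inv hb) (DD.inv_mem da)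
        (DD.inv_mem db)
      exact ⟨e⁻¹, by simpa using S_inv e1, by simpa using S_inv e2⟩
    · exact main1 h1 h4 h h5 h6 ha hb da db

lemma conj_DD (h a : GG) : ∃ h' ∈ DD, h * a * h⁻¹ = h' * a * h'⁻¹ := by
  obtain ⟨M1, h1⟩ := ex_M h
  obtain ⟨M2, h2⟩ := ex_M a
  have h3 := M_mono (le_max_left M1 M2) h1
  have h4 := M_mono (le_max_right M1 M2) h2
  generalize max M1 M2 = M at h3 h4
  obtain ⟨k, hk, k1, -⟩ := ex2 (lt_add_one (-M)) (lt_add_one (M + 1))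
  have h5 : Commute a (⟨k, hk⟩ * h⁻¹ * ⟨k, hk⟩⁻¹) := by
    refine HJ_comm h4 (HJ_conj (Subgroup.inv_mem _ h3) _) ?_
    rintro _ hx ⟨y, hy, rfl⟩
    have := k.monotone hy.1
    have := hx.2
    change k y ≤ M at this
    linarith
  refine ⟨h * (⟨k, hk⟩ * h⁻¹ * ⟨k, hk⟩⁻¹), ?_, ?_⟩
  · have := Subgroup.commutator_mem_commutator (Subgroup.mem_top h) (Subgroup.mem_top (⟨k, hk⟩ : GG))
    rw [commutatorElement_def] at this
    rw [DD, commutator_def]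
    convert this using 1
    group
  · generalize (⟨k, hk⟩ * h⁻¹ * ⟨k, hk⟩⁻¹ : GG) = z at h5
    rw [mul_assoc h z a, ← h5.eq]
    group

lemma S_up {a x : DD} (hx : x ∈ S a) : x.1 ∈ S a.1 :=
  S_le (fun x : DD => x.1 ∈ S a.1) (fun _ _ h1 h2 => (S _).mul_mem h1 h2)
    (fun _ h h1 => S_conj h1 h.1) (self_mem_S _) hx

lemma S_down {a : DD} {x : GG} (hx : x ∈ S a.1) : ∃ y : DD, y.1 = x ∧ y ∈ S a := by
  refine S_le (fun x : GG => ∃ y : DD, y.1 = x ∧ y ∈ S a) ?_ ?_ ⟨a, rfl, self_mem_S _⟩ hx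
  · rintro _ _ ⟨y, rfl, h1⟩ ⟨z, rfl, h2⟩
    exact ⟨y * z, rfl, (S _).mul_mem h1 h2⟩
  · rintro _ h ⟨y, rfl, h1⟩
    obtain ⟨h', h2, h3⟩ := conj_DD h y.1
    exact ⟨⟨h', h2⟩ * y * ⟨h', h2⟩⁻¹, h3.symm, S_conj h1 _⟩

theorem pro_DD : ProOrderable DD := by
  refine ohnishi (fun g hg h => one_not_mem g.1 (fun e => hg (Subtype.ext e)) (S_up h)) ?_
  intro g a b ha hb
  obtain ⟨e, e1, e2⟩ := main2 (S_up ha) (S_up hb) a.2 b.2
  obtain ⟨y, rfl, y1⟩ := S_down e1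
  obtain ⟨z, z0, z1⟩ := S_down e2
  rw [Subtype.ext z0] at z1
  exact ⟨y, y1, z1⟩

lemma higman0 (N : Subgroup GG) (hN : N.Normal) {n : GG} (hn : n ∈ N) {x0 : ℝ}
    (h1 : x0 < n.1 x0) : DD ≤ N := by
  obtain ⟨x1, p1, p2⟩ := exists_between h1
  have key : ∀ u ∈ HJ (Icc x0 x1), ∀ v ∈ HJ (Icc x0 x1), ⁅u, v⁆ ∈ N := by
    intro u hu v hv
    have h5 : Commute v (n * u⁻¹ * n⁻¹) := by
      refine HJ_comm hv (HJ_conj (Subgroup.inv_mem _ hu) _) ?_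
      rintro _ hx ⟨y, hy, rfl⟩
      have := n.1.monotone hy.1
      have := hx.2
      linarith
    have h6 : u * (n * u⁻¹ * n⁻¹) ∈ N := by
      have := N.mul_mem (hN.conj_mem n hn u) (N.inv_mem hn)
      convert this using 1
      group
    generalize n * u⁻¹ * n⁻¹ = z at h5 h6
    have := N.mul_mem h6 (hN.conj_mem _ (N.inv_mem h6) v)
    convert this using 1
    rw [commutatorElement_def]
    calc u * v * u⁻¹ * v⁻¹ = u * (v * z) * z⁻¹ * u⁻¹ * v⁻¹ := by group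
      _ = _ := by rw [h5.eq]; group
  rw [DD, commutator_def, Subgroup.commutator_le]
  intro u _ v _
  obtain ⟨M1, h1⟩ := ex_M u
  obtain ⟨M2, h2⟩ := ex_M v
  have h3 := M_mono ((le_max_left M1 M2).trans (le_max_left _ 1)) h1
  have h4 := M_mono ((le_max_right M1 M2).trans (le_max_left _ 1)) h2
  have h7 := le_max_right (max M1 M2) 1
  generalize max (max M1 M2) 1 = M at h3 h4 h7
  obtain ⟨k, hk, k1, k2⟩ := ex2 (show -M < M by linarith) p1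
  have h8 : (⟨k, hk⟩ : GG).1 '' Icc (-M) M ⊆ Icc x0 x1 := by
    rintro _ ⟨x, hx, rfl⟩
    exact ⟨k1 ▸ k.monotone hx.1, k2 ▸ k.monotone hx.2⟩
  have := hN.conj_mem _ (key _ (HJ_mono h8 (HJ_conj h3 _)) _ (HJ_mono h8 (HJ_conj h4 _))) ⟨k, hk⟩⁻¹
  convert this using 1
  simp only [commutatorElement_def]
  group

lemma higman (N : Subgroup GG) (hN : N.Normal) {n : GG} (hn : n ∈ N) (h1 : n ≠ 1) : DD ≤ N := by
  obtain ⟨x, hx⟩ : ∃ x, n.1 x ≠ x := by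
    by_contra h
    push Not at h
    exact h1 (Subtype.ext (by ext x; exact h x))
  rcases lt_or_gt_of_ne hx with h | h
  · refine higman0 N hN (N.inv_mem hn) (x0 := x) ?_
    simpa using n.1⁻¹.strictMono h
  · exact higman0 N hN hn h

lemma nontriv_DD : Nontrivial DD := by
  obtain ⟨u, hu, u0, -⟩ := ex2 (zero_lt_one' ℝ) (one_lt_two (α := ℝ))
  obtain ⟨v, hv, v0, v1⟩ := ex2 (zero_lt_one' ℝ) (two_pos (α := ℝ))
  refine ⟨⟨⁅(⟨u, hu⟩ : GG), (⟨v, hv⟩ : GG)⁆,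
    Subgroup.commutator_mem_commutator (Subgroup.mem_top _) (Subgroup.mem_top _)⟩, 1, fun h => ?_⟩
  have h1 := commutatorElement_eq_one_iff_mul_comm.1 (congrArg Subtype.val h)
  have h2 : u (v 0) = v (u 0) := congrArg (fun f : GG => f.1 0) h1
  rw [v0, u0, v1] at h2
  norm_num at h2

theorem simple_DD : IsSimpleGroup DD := by
  have := nontriv_DD
  refine ⟨fun N hN => ?_⟩
  by_cases h : N = ⊥
  · exact Or.inl h
  · right
    obtain ⟨⟨n, hn⟩, h1⟩ := Subgroup.ne_bot_iff_exists_ne_one.1 h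
    have hN' : (N.map DD.subtype).Normal := by
      refine ⟨?_⟩
      rintro _ ⟨y, hy, rfl⟩ h
      obtain ⟨h', h2, h3⟩ := conj_DD h y.1
      exact ⟨_, hN.conj_mem y hy ⟨h', h2⟩, h3.symm⟩
    have := higman _ hN' (Subgroup.mem_map_of_mem _ hn)
      (fun e => h1 (Subtype.ext (Subtype.ext e)))
    rw [eq_top_iff]
    intro x _
    obtain ⟨y, hy, e⟩ := this x.2
    rwa [← Subtype.ext e]

end Pool.Agent.Lib.helper17.PO
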