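import Mathlib

set_option autoImplicit false

namespace Pool.Agent.Lib.helper17.RC

open Subgroup
open scoped commutatorElement

def q {X : Type*} [Mul X] [Inv X] (x a b : X) : X := a * x * a⁻¹ * (b * x⁻¹ * b⁻¹)
def p {X : Type*} [Mul X] [Inv X] (x : X) (g : Fin 8 → X) : X :=
  q x (g 0) (g 1) * q x (g 2) (g 3) * q x (g 4) (g 5) * q x (g 6) (g 7)

variable {G H : Type*} [Group G] [Group H]

def P (A : Subgroup G) (x u : G) : Prop := ∃ g : Fin 8 → G, (∀ i, g i ∈ A) ∧ u = p x g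
def Cm (A : Subgroup G) (x y : G) : Prop := ∀ g ∈ A, Commute y (g * x * g⁻¹)
def Ax (A : Subgroup G) (x : G) : Prop := P A x x ∧ ∃ a b, P A x a ∧ P A x b ∧
  ∀ y ∈ A, ∃ u v, P A ⁅y, a⁆ u ∧ P A ⁅y, b⁆ v ∧ Cm A x ((u * v)⁻¹ * y)
def KI (A : Subgroup G) : Prop := ∀ x ∈ A, Ax A x

lemma map_p (f : G →* H) (x : G) (g : Fin 8 → G) : f (p x g) = p (f x) (f ∘ g) := by
  simp [p, q]

lemma p_congr {x : G} {g h : Fin 8 → G} (e : ∀ i, g i * x * (g i)⁻¹ = h i * x * (h i)⁻¹) :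
    p x g = p x h := by
  have e' : ∀ i, g i * x⁻¹ * (g i)⁻¹ = h i * x⁻¹ * (h i)⁻¹ := fun i => by
    rw [← conj_inv, ← conj_inv, e]
  simp only [p, q, e, e']

lemma p_one {x : G} {g : Fin 8 → G} (e : ∀ i, Commute (g i) x) : p x g = 1 := by
  rw [p_congr (h := 1) fun i => by simp [(e i).eq]]
  simp [p, q]

lemma P.one (A : Subgroup G) (x : G) : P A x 1 := ⟨1, fun _ => A.one_mem, (p_one (by simp)).symm⟩

lemma P.map (f : G →* H) {A : Subgroup G} {x u : G} (h : P A x u) : P (A.map f) (f x) (f u) := by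
  obtain ⟨g, h1, rfl⟩ := h
  exact ⟨_, fun i => mem_map_of_mem f (h1 i), map_p f x g⟩

lemma P.comap {f : G →* H} {A : Subgroup G} {x : G} {u : H} (h : P (A.map f) (f x) u) :
    ∃ u', P A x u' ∧ f u' = u := by
  obtain ⟨g, h1, rfl⟩ := h
  choose k h1 h2 using h1
  exact ⟨_, ⟨k, h1, rfl⟩, by rw [map_p]; congr 1; exact funext h2⟩

lemma Ax.map (f : G →* H) {A : Subgroup G} {x : G} (h : Ax A x) : Ax (A.map f) (f x) := by
  obtain ⟨h0, a, b, ha, hb, h⟩ := h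
  refine ⟨h0.map f, _, _, ha.map f, hb.map f, ?_⟩
  rintro _ ⟨y, hy, rfl⟩
  obtain ⟨u, v, hu, hv, hc⟩ := h y hy
  refine ⟨f u, f v, by simpa using hu.map f, by simpa using hv.map f, ?_⟩
  rintro _ ⟨g, hg, rfl⟩
  simpa using (hc g hg).map f

lemma Ax.comap (f : G →* H) (hf : Function.Injective f) {A : Subgroup G} {x : G}
    (h : Ax (A.map f) (f x)) : Ax A x := by
  obtain ⟨h0, a, b, ha', hb', h⟩ := h
  obtain ⟨a, ha, rfl⟩ := ha'.comap
  obtain ⟨b, hb, rfl⟩ := hb'.comap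
  obtain ⟨x', hx, e⟩ := h0.comap
  refine ⟨hf e ▸ hx, a, b, ha, hb, fun y hy => ?_⟩
  obtain ⟨u, v, hu', hv', hc⟩ := h _ (mem_map_of_mem f hy)
  rw [← map_commutatorElement] at hu' hv'
  obtain ⟨u, hu, rfl⟩ := hu'.comap
  obtain ⟨v, hv, rfl⟩ := hv'.comap
  exact ⟨u, v, hu, hv, fun g hg =>
    Commute.of_map hf (by simpa using hc _ (mem_map_of_mem f hg))⟩

lemma KI_iff (A : Subgroup G) : KI (⊤ : Subgroup A) ↔ KI A := by
  have e : (⊤ : Subgroup A).map A.subtype = A := by rw [← MonoidHom.range_eq_map, range_subtype]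
  exact ⟨fun h x hx => by simpa [e] using (h ⟨x, hx⟩ trivial).map A.subtype,
    fun h x _ => Ax.comap A.subtype A.subtype_injective (by rw [e]; exact h x x.2)⟩

def cl (A : Subgroup G) (x : G) : Subgroup G := closure {z | ∃ g ∈ A, z = g * x * g⁻¹}

lemma cl_conj {A : Subgroup G} {x g : G} (hg : g ∈ A) : g * x * g⁻¹ ∈ cl A x :=
  subset_closure ⟨g, hg, rfl⟩

lemma cm_iff {A : Subgroup G} {x y : G} : Cm A x y ↔ y ∈ centralizer (cl A x : Set G) := by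
  rw [cl, centralizer_closure, mem_centralizer_iff]
  exact ⟨by rintro h _ ⟨g, hg, rfl⟩; exact (h g hg).symm, fun h g hg => (h _ ⟨g, hg, rfl⟩).symm⟩

lemma cl_le {A N : Subgroup G} {x : G} (h : ∀ g ∈ A, g * x * g⁻¹ ∈ N) : cl A x ≤ N :=
  (closure_le _).2 (by rintro _ ⟨g, hg, rfl⟩; exact h g hg)

lemma cl_norm {A : Subgroup G} {x g z : G} (hg : g ∈ A) (hz : z ∈ cl A x) :
    g * z * g⁻¹ ∈ cl A x := by
  refine cl_le (N := (cl A x).comap (MulAut.conj g).toMonoidHom) (fun k hk => ?_) hz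
  have := cl_conj (x := x) (A.mul_mem hg hk)
  simpa [mem_comap, mul_assoc] using this

lemma P.mem {A N : Subgroup G} {x u : G} (h : P A x u) (k : ∀ g ∈ A, g * x * g⁻¹ ∈ N) :
    u ∈ N := by
  obtain ⟨g, hg, rfl⟩ := h
  have : ∀ i j, q x (g i) (g j) ∈ N := fun i j =>
    N.mul_mem (k _ (hg i)) (by rw [← conj_inv]; exact N.inv_mem (k _ (hg j)))
  exact N.mul_mem (N.mul_mem (N.mul_mem (this _ _) (this _ _)) (this _ _)) (this _ _)

def W (E : Subgroup G) : Subgroup G where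
  carrier := {y | ∃ u ∈ E, ∃ c ∈ centralizer (E : Set G), y = u * c}
  one_mem' := ⟨1, E.one_mem, 1, one_mem _, by simp⟩
  mul_mem' := by
    rintro _ _ ⟨u, hu, c, hc, rfl⟩ ⟨v, hv, d, hd, rfl⟩
    exact ⟨_, E.mul_mem hu hv, _, mul_mem hc hd, by
      rw [mul_assoc, ← mul_assoc c, ← hc v hv]; simp only [mul_assoc]⟩
  inv_mem' := by
    rintro _ ⟨u, hu, c, hc, rfl⟩
    exact ⟨_, E.inv_mem hu, _, inv_mem hc, by rw [hc u hu, mul_inv_rev]⟩

lemma Ax.le_W {A : Subgroup G} {x : G} (h : Ax A x) : A ≤ W (cl A x) := by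
  obtain ⟨-, a, b, ha, hb, h⟩ := h
  intro y hy
  obtain ⟨u, v, hu, hv, hc⟩ := h y hy
  have k : ∀ {a u}, P A x a → P A ⁅y, a⁆ u → u ∈ cl A x := fun ha hu => hu.mem fun g hg => by
    have := ha.mem fun g => cl_conj
    exact cl_norm hg (mul_mem (cl_norm hy this) (inv_mem this))
  exact ⟨_, mul_mem (k ha hu) (k hb hv), _, cm_iff.1 hc, by group⟩

lemma W_conj {E : Subgroup G} {g : G} (hg : g ∈ W E) :
    ∃ u ∈ E, ∀ c ∈ E, g * c * g⁻¹ = u * c * u⁻¹ := by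
  obtain ⟨u, hu, d, hd, rfl⟩ := hg
  exact ⟨u, hu, fun c hc => by rw [mul_assoc u, ← hd c hc]; group⟩

lemma P.into {A E : Subgroup G} {x u : G} (h : P A x u) (hA : A ≤ W E) (hx : x ∈ E) : P E x u := by
  obtain ⟨g, hg, rfl⟩ := h
  choose k h1 h2 using fun i => W_conj (hA (hg i))
  exact ⟨k, h1, p_congr fun i => h2 i x hx⟩

lemma P.mono {A B : Subgroup G} {x u : G} (h : P A x u) (k : A ≤ B) : P B x u :=
  let ⟨g, hg, e⟩ := h; ⟨g, fun i => k (hg i), e⟩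

lemma mem_cl (A : Subgroup G) (x : G) : x ∈ cl A x := by simpa using cl_conj (x := x) A.one_mem

lemma cl_self {A : Subgroup G} {x : G} (hx : x ∈ A) : cl A x ≤ A :=
  cl_le fun _ hg => mul_mem (mul_mem hg hx) (inv_mem hg)

lemma cl_normal {A N : Subgroup G} [hN : N.Normal] {x : G} (hx : x ∈ N) : cl A x ≤ N :=
  cl_le fun g _ => hN.conj_mem x hx g

theorem down (h : KI (⊤ : Subgroup G)) (N : Subgroup G) [hN : N.Normal] : KI N := by
  intro x hx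
  have k : ∀ {c u}, c ∈ N → P ⊤ c u → P N c u := fun hc hu =>
    (hu.into (h _ trivial).le_W (mem_cl _ _)).mono (cl_normal hc)
  obtain ⟨h0, a, b, ha, hb, h⟩ := h x trivial
  refine ⟨k hx h0, a, b, k hx ha, k hx hb, fun y hy => ?_⟩
  obtain ⟨u, v, hu, hv, hc⟩ := h y trivial
  have k2 : ∀ a, ⁅y, a⁆ ∈ N := fun a => by
    simpa [commutatorElement_def, mul_assoc] using N.mul_mem hy (hN.conj_mem _ (N.inv_mem hy) a)
  exact ⟨u, v, k (k2 a) hu, k (k2 b) hv, fun g _ => hc g trivial⟩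

lemma up {A : Subgroup G} {x : G} (hx : x ∈ A) (h : Ax A x) (hW : ⊤ ≤ W (cl A x)) : Ax ⊤ x := by
  obtain ⟨h0, a, b, ha, hb, h⟩ := h
  refine ⟨h0.mono le_top, a, b, ha.mono le_top, hb.mono le_top, fun y hy => ?_⟩
  obtain ⟨w, hw, c, hc, rfl⟩ := hW hy
  obtain ⟨u, v, hu, hv, k⟩ := h w (cl_self hx hw)
  have e : ∀ {a}, P A x a → ⁅w * c, a⁆ = ⁅w, a⁆ := fun ha => by
    rw [commutatorElement_def, mul_assoc w, ← hc _ (ha.mem fun g => cl_conj)]; group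
  refine ⟨u, v, e ha ▸ hu.mono le_top, e hb ▸ hv.mono le_top, fun g hg => ?_⟩
  obtain ⟨g', h1, h2⟩ := W_conj (hW hg)
  rw [h2 x (mem_cl _ _), ← mul_assoc]
  exact (cm_iff.2 (mul_mem (cm_iff.1 k) hc)) _ (cl_self hx h1)

lemma comp {A E : Subgroup G} (hA : KI A) (hE : E ≤ A) (hW : A ≤ W E) {u y z : G} (hu : u ∈ E)
    (hy : y ∈ centralizer (E : Set G)) (hz : z ∈ W E) (h : ⁅u * y, z⁆ ∈ E) : Commute y z := by
  obtain ⟨w, hw, c, hc, rfl⟩ := hz
  have e1 : Commute u y := hy u hu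
  have e2 : Commute w y := hy w hw
  have e3 : Commute u c := hc u hu
  have e4 : Commute w c := hc w hw
  have e : ⁅u * y, w * c⁆ = ⁅u, w⁆ * ⁅y, c⁆ := by
    have a1 : y * (w * c) * y⁻¹ = w * (y * c * y⁻¹) := by
      rw [← mul_assoc y, ← e2.eq]; group
    have a2 : Commute u (y * c * y⁻¹) := (e1.mul_right e3).mul_right e1.inv_right
    have a3 : Commute w⁻¹ ⁅y, c⁆ :=
      (((e2.mul_right e4).mul_right e2.inv_right).mul_right e4.inv_right).inv_left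
    calc _ = u * (y * (w * c) * y⁻¹) * u⁻¹ * c⁻¹ * w⁻¹ := by group
      _ = u * w * ((y * c * y⁻¹) * u⁻¹) * c⁻¹ * w⁻¹ := by rw [a1]; group
      _ = u * w * u⁻¹ * (⁅y, c⁆ * w⁻¹) := by rw [← a2.inv_left.eq]; group
      _ = _ := by rw [← a3.eq]; group
  have m1 : ⁅y, c⁆ ∈ E := by
    rw [e] at h
    exact (E.mul_mem_cancel_left (mul_mem (mul_mem (mul_mem hu hw) (inv_mem hu)) (inv_mem hw))).1 h
  have m2 : ⁅y, c⁆ ∈ centralizer (E : Set G) :=
    mul_mem (mul_mem (mul_mem hy hc) (inv_mem hy)) (inv_mem hc)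
  obtain ⟨g, hg, e5⟩ := (hA _ (hE m1)).1.into hW m1
  rw [p_one fun i => m2 _ (hg i)] at e5
  exact e2.symm.mul_right (commutatorElement_eq_one_iff_commute.1 e5)

lemma split {A B : Subgroup G} [hA : A.Normal] [hB : B.Normal] (kA : KI A) (kB : KI B) {a b : G}
    (ha : a ∈ A) (hb : b ∈ B) : ∃ e ∈ A, ∃ b' ∈ B, b = e * b' ∧ Commute b' a ∧
      ∀ z ∈ A, Commute b z → Commute b' z := by
  have c1 : ⁅b, a⁆ ∈ A := mul_mem (hA.conj_mem a ha b) (inv_mem ha)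
  have c2 : ⁅b, a⁆ ∈ B := by
    simpa [commutatorElement_def, mul_assoc] using B.mul_mem hb (hB.conj_mem _ (B.inv_mem hb) a)
  have w1 := (kA _ c1).le_W
  have w2 := (kB _ c2).le_W
  have k : ∀ {A B : Subgroup G} [B.Normal], ⁅b, a⁆ ∈ B → A ≤ W (cl A ⁅b, a⁆) →
      cl A ⁅b, a⁆ ≤ cl B ⁅b, a⁆ := fun h w => cl_le fun g hg => by
    obtain ⟨u, hu, e⟩ := W_conj (w hg)
    rw [e _ (mem_cl _ _)]
    exact cl_conj (cl_normal h hu)
  rw [le_antisymm (k c1 w2) (k c2 w1)] at w2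
  obtain ⟨e, he, b', hb', rfl⟩ := w2 hb
  exact ⟨e, cl_self c1 he, b', (B.mul_mem_cancel_left (cl_normal c2 he)).1 hb, rfl,
    comp kA (cl_self c1) w1 he hb' (w1 ha) (mem_cl _ _), fun z hz h =>
      comp kA (cl_self c1) w1 he hb' (w1 hz) (by
        rw [commutatorElement_eq_one_iff_commute.2 h]; exact one_mem _)⟩

lemma P.eq_one {A : Subgroup G} {u : G} (h : P A 1 u) : u = 1 := by
  obtain ⟨g, -, rfl⟩ := h; exact p_one fun _ => Commute.one_right _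

lemma cross {A B : Subgroup G} [A.Normal] [B.Normal] (kA : KI A) (kB : KI B) {a : G}
    (ha : a ∈ A) : B ≤ W (cl A a) := by
  intro b hb
  have w := (kA a ha).le_W
  obtain ⟨-, a1, a2, h1, h2, h⟩ := kA a ha
  have m1 := h1.mem fun g hg => cl_self ha (cl_conj hg)
  have m2 := h2.mem fun g hg => cl_self ha (cl_conj hg)
  obtain ⟨e1, he1, b1, hb1, rfl, k1, -⟩ := split kA kB m1 hb
  obtain ⟨e2, he2, b2, hb2, rfl, k2, k3⟩ := split kA kB m2 hb1
  have k4 := k3 _ m1 k1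
  refine mul_mem (w he1) (mul_mem (w he2) ⟨1, one_mem _, b2, fun d hd => ?_, by simp⟩)
  obtain ⟨e, he, b3, -, rfl, k5, k6⟩ := split kA kB (cl_self ha hd) hb2
  have t : ∀ {z}, z ∈ A → Commute (e * b3) z → ⁅e, z⁆ = 1 := fun hz hc =>
    commutatorElement_eq_one_iff_commute.2 (by simpa using hc.mul_left (k6 _ hz hc).inv_left)
  obtain ⟨u, v, hu, hv, hc⟩ := h e he
  rw [t m1 k4] at hu
  rw [t m2 k2] at hv
  rw [hu.eq_one, hv.eq_one, cm_iff] at hc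
  have : d * e = e * d := by simpa using hc d hd
  exact Commute.mul_right this k5.symm

instance (x : G) : (cl ⊤ x).Normal := ⟨fun _ hz _ => cl_norm trivial hz⟩

lemma P.mul {D E : Subgroup G} [D.Normal] [E.Normal] (hc : ∀ d ∈ D, ∀ e ∈ E, Commute d e)
    (wD : ⊤ ≤ W D) (wE : ⊤ ≤ W E) {x y u v : G} (hx : x ∈ D) (hy : y ∈ E) (hu : P ⊤ x u)
    (hv : P ⊤ y v) : P ⊤ (x * y) (u * v) := by
  obtain ⟨g, hg, rfl⟩ := hu.into wD hx
  obtain ⟨k, hk, rfl⟩ := hv.into wE hy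
  let f : D × E →* G := D.subtype.noncommCoprod E.subtype fun d e => hc d d.2 e e.2
  have := (show P ⊤ ((⟨x, hx⟩, ⟨y, hy⟩) : D × E) _ from
    ⟨fun i => (⟨g i, hg i⟩, ⟨k i, hk i⟩), fun _ => trivial, rfl⟩).map f
  exact this.mono le_top

lemma Ax.mul {x y : G} (hx : Ax ⊤ x) (hy : Ax ⊤ y)
    (hc : ∀ d ∈ cl ⊤ x, ∀ e ∈ cl ⊤ y, Commute d e) : Ax ⊤ (x * y) := by
  have w1 := hx.le_W
  have w2 := hy.le_W
  obtain ⟨h0, a, b, ha, hb, h⟩ := hx
  obtain ⟨h0', a', b', ha', hb', h'⟩ := hy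
  have m := @P.mul _ _ _ _ _ _ hc w1 w2
  refine ⟨m (mem_cl _ _) (mem_cl _ _) h0 h0', _, _, m (mem_cl _ _) (mem_cl _ _) ha ha',
    m (mem_cl _ _) (mem_cl _ _) hb hb', fun z _ => ?_⟩
  obtain ⟨u, v, hu, hv, k⟩ := h z trivial
  obtain ⟨u', v', hu', hv', k'⟩ := h' z trivial
  have c : ∀ {x a : G}, P ⊤ x a → ⁅z, a⁆ ∈ cl ⊤ x := fun ha => by
    have := ha.mem fun g => cl_conj
    exact mul_mem (cl_norm trivial this) (inv_mem this)
  have c' : ∀ {x a u : G}, P ⊤ x a → P ⊤ ⁅z, a⁆ u → u ∈ cl ⊤ x := fun ha hu =>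
    hu.mem fun g hg => cl_norm hg (c ha)
  have e : ∀ {a a'}, P ⊤ x a → P ⊤ y a' → ⁅z, a * a'⁆ = ⁅z, a⁆ * ⁅z, a'⁆ := fun {a a'} ha ha' => by
    have := (hc _ (ha.mem fun g => cl_conj) _ (c ha')).inv_left.eq
    rw [commutatorElement_def z a, mul_assoc _ a⁻¹, this]; group
  refine ⟨u * u', v * v', e ha ha' ▸ m (c ha) (c ha') hu hu', e hb hb' ▸ m (c hb) (c hb') hv hv',
    fun g _ => ?_⟩
  rw [← conj_mul]
  have e1 := (hc _ (c' hb hv) _ (c' ha' hu')).eq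
  have e2 := (hc _ (mul_mem (c' ha hu) (c' hb hv)) _ (mul_mem (c' ha' hu') (c' hb' hv'))).eq
  have e3 : u * u' * (v * v') = u * v * (u' * v') := by
    rw [mul_assoc u, ← mul_assoc u', ← e1]; group
  refine Commute.mul_right ?_ ?_
  · rw [e3, mul_inv_rev, mul_assoc]
    exact (hc _ (cl_conj trivial) _ (mul_mem (c' ha' hu') (c' hb' hv'))).symm.inv_left.mul_left
      (k g trivial)
  · rw [e3, e2, mul_inv_rev, mul_assoc]
    exact (hc _ (mul_mem (c' ha hu) (c' hb hv)) _ (cl_conj trivial)).inv_left.mul_left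
      (k' g trivial)

lemma join {A B : Subgroup G} [A.Normal] [B.Normal] (kA : ∀ x ∈ A, Ax ⊤ x) (kB : ∀ x ∈ B, Ax ⊤ x)
    {x : G} (hx : x ∈ A ⊔ B) : Ax ⊤ x := by
  rw [← SetLike.mem_coe, mul_normal] at hx
  obtain ⟨a, ha, b, hb, rfl⟩ := hx
  have w := (kA a ha).le_W
  obtain ⟨b1, h1, b2, h2, rfl⟩ := w (mem_top b)
  have m : b1 ∈ B := by
    obtain ⟨g, hg, e⟩ := (kA _ (cl_normal ha h1)).1.into w h1
    rw [← QuotientGroup.eq_one_iff, ← QuotientGroup.mk'_apply, e, map_p]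
    have : QuotientGroup.mk' B b1 = (QuotientGroup.mk' B b2)⁻¹ := by
      rw [eq_inv_iff_mul_eq_one, ← map_mul]; exact (QuotientGroup.eq_one_iff _).2 hb
    rw [this]
    exact p_one fun i => (Commute.map (h2 _ (hg i)) _).inv_right
  have m1 : a * b1 ∈ cl ⊤ a := mul_mem (mem_cl _ _) h1
  beta_reduce
  rw [← mul_assoc]
  exact (kA _ (cl_normal ha m1)).mul (kB _ ((B.mul_mem_cancel_left m).1 hb)) fun d hd e he =>
    cl_normal h2 he d (cl_normal m1 hd)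

lemma Ax.one : Ax ⊤ (1 : G) :=
  ⟨P.one _ _, 1, 1, P.one _ _, P.one _ _, fun _ _ => ⟨1, 1, P.one _ _, P.one _ _, fun g _ => by
    simp⟩⟩

theorem gen (h : sSup {N : Subgroup G | N.Normal ∧ KI N} = ⊤) : KI (⊤ : Subgroup G) := by
  let R : Subgroup G :=
    { carrier := {x | ∀ z ∈ cl ⊤ x, Ax ⊤ z}
      one_mem' := fun z hz => by
        rw [mem_bot.1 (cl_normal (N := ⊥) (one_mem _) hz)]; exact Ax.one
      mul_mem' := fun {x y} hx hy z hz => join hx hy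
        (cl_normal (mul_mem (mem_sup_left (mem_cl _ x)) (mem_sup_right (mem_cl _ y))) hz)
      inv_mem' := fun {x} hx z hz => hx z (cl_normal (inv_mem (mem_cl _ x)) hz) }
  have : ⊤ ≤ R := by
    rw [← h]
    refine sSup_le ?_
    rintro A ⟨hA, kA⟩ x hx z hz
    have hz := cl_normal hx hz
    refine up hz (kA z hz) ?_
    rw [← h]
    refine sSup_le ?_
    rintro B ⟨hB, kB⟩
    exact cross kA kB hz
  exact fun x hx => this hx x (mem_cl _ _)

theorem image (f : G →* H) (hf : Function.Surjective f) (h : ∀ x, Ax ⊤ x ∨ f x = 1) :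
    KI (⊤ : Subgroup H) := by
  intro y _
  obtain ⟨x, rfl⟩ := hf y
  rcases h x with h | h
  · simpa [map_top_of_surjective f hf] using h.map f
  · rw [h]; exact Ax.one

end Pool.Agent.Lib.helper17.RC
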