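import Mathlib
import Pool.Agent.Lib.helper17.RC1

set_option autoImplicit false

namespace Pool.Agent.Lib.helper17.RC

open Subgroup
open scoped commutatorElement

@[ext] structure S (F : Type*) [Field F] where
  a : F
  b : F
  c : F
  d : F
  h : a * d - b * c = 1

variable {F : Type*} [Field F]

instance : Mul (S F) := ⟨fun x y => ⟨x.a * y.a + x.b * y.c, x.a * y.b + x.b * y.d,
  x.c * y.a + x.d * y.c, x.c * y.b + x.d * y.d, by
    linear_combination (y.a * y.d - y.b * y.c) * x.h + y.h⟩⟩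
instance : One (S F) := ⟨⟨1, 0, 0, 1, by ring⟩⟩
instance : Inv (S F) := ⟨fun x => ⟨x.d, -x.b, -x.c, x.a, by linear_combination x.h⟩⟩

@[simp] lemma mul_a (x y : S F) : (x * y).a = x.a * y.a + x.b * y.c := rfl
@[simp] lemma mul_b (x y : S F) : (x * y).b = x.a * y.b + x.b * y.d := rfl
@[simp] lemma mul_c (x y : S F) : (x * y).c = x.c * y.a + x.d * y.c := rfl
@[simp] lemma mul_d (x y : S F) : (x * y).d = x.c * y.b + x.d * y.d := rfl
@[simp] lemma one_a : (1 : S F).a = 1 := rfl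
@[simp] lemma one_b : (1 : S F).b = 0 := rfl
@[simp] lemma one_c : (1 : S F).c = 0 := rfl
@[simp] lemma one_d : (1 : S F).d = 1 := rfl
@[simp] lemma inv_a (x : S F) : x⁻¹.a = x.d := rfl
@[simp] lemma inv_b (x : S F) : x⁻¹.b = -x.b := rfl
@[simp] lemma inv_c (x : S F) : x⁻¹.c = -x.c := rfl
@[simp] lemma inv_d (x : S F) : x⁻¹.d = x.a := rfl

instance : Group (S F) := Group.ofLeftAxioms
  (fun x y z => by ext <;> simp <;> ring) (fun x => by ext <;> simp)
  (fun x => by ext <;> simp <;> first | linear_combination x.h | ring)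

def U (t : F) : S F := ⟨1, t, 0, 1, by ring⟩
def Lo (t : F) : S F := ⟨1, 0, t, 1, by ring⟩
def w : S F := ⟨0, 1, -1, 0, by ring⟩
def D (t : F) (h : t ≠ 0) : S F := ⟨t, 0, 0, t⁻¹, by simp [h]⟩

def Q (x u : S F) : Prop := ∃ g h, u = q x g h

lemma Q.conj {x u : S F} (h : Q x u) (k : S F) : Q x (k * u * k⁻¹) := by
  obtain ⟨g, h, rfl⟩ := h
  exact ⟨k * g, k * h, by simp only [q]; group⟩

lemma Q.of_conj {x u k : S F} (h : Q (k * x * k⁻¹) u) : Q x u := by
  obtain ⟨g, h, rfl⟩ := h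
  exact ⟨g * k, h * k, by simp only [q]; group⟩

lemma mem_center_S {x : S F} : x ∈ center (S F) ↔ x.b = 0 ∧ x.c = 0 ∧ x.a = x.d := by
  rw [mem_center_iff]
  constructor
  · intro h
    have h1 := congrArg S.a (h (U 1))
    have h2 := congrArg S.b (h (U 1))
    have h3 := congrArg S.d (h (Lo 1))
    simp [U, Lo] at h1 h2 h3
    exact ⟨h3, h1, by linear_combination -h2⟩
  · rintro ⟨h1, h2, h3⟩ g
    ext <;> simp [h1, h2, h3, mul_comm]

variable [IsAlgClosed F] [CharZero F]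

omit [IsAlgClosed F] in
lemma Q_U0 {x : S F} (hx : x ∉ center (S F)) (hc : x.c = 0) : ∃ t ≠ 0, Q x (U t) := by
  have h := x.h
  rw [hc] at h
  have ha : x.a ≠ 0 := by rintro e; simp [e] at h
  by_cases e : x.a = x.d
  · have hb : x.b ≠ 0 := fun hb => hx (mem_center_S.2 ⟨hb, hc, e⟩)
    refine ⟨3 * x.a * x.b, by simp [ha, hb], D 2 two_ne_zero, 1, ?_⟩
    ext <;> simp [q, U, D, hc] <;> first | linear_combination -h | ring
  · refine ⟨x.a * (x.d - x.a), mul_ne_zero ha (sub_ne_zero.2 (Ne.symm e)), U 1, 1, ?_⟩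
    ext <;> simp [q, U, hc] <;> first | linear_combination -h | ring

lemma Q_U1 {x : S F} (hx : x ∉ center (S F)) : ∃ t ≠ 0, Q x (U t) := by
  have k : ∀ k : S F, (k * x * k⁻¹).c = 0 → ∃ t ≠ 0, Q x (U t) := fun k hk => by
    obtain ⟨t, h1, h2⟩ := Q_U0 (x := k * x * k⁻¹)
      (fun e => hx (by simpa [mul_assoc] using (Normal.conj_mem inferInstance _ e k⁻¹))) hk
    exact ⟨t, h1, h2.of_conj⟩
  by_cases hb : x.b = 0
  · exact k w (by simp [w, hb])
  · obtain ⟨m, hm⟩ := exists_quadratic_eq_zero (b := x.d - x.a) (c := -x.c) hb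
      (IsAlgClosed.exists_eq_mul_self _)
    exact k (Lo m) (by simp [Lo]; linear_combination -hm)

lemma Q_U {x : S F} (hx : x ∉ center (S F)) (s : F) : Q x (U s) := by
  by_cases hs : s = 0
  · exact ⟨1, 1, by rw [hs]; simp [q]; rfl⟩
  obtain ⟨t, h1, h2⟩ := Q_U1 hx
  obtain ⟨c, hc⟩ := IsAlgClosed.exists_eq_mul_self (s / t)
  have c0 : c ≠ 0 := by rintro rfl; simp [hs, h1] at hc
  convert h2.conj (D c c0) using 1
  ext <;> simp [U, D, c0]
  field_simp at hc
  linear_combination hc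

lemma Q_L {x : S F} (hx : x ∉ center (S F)) (s : F) : Q x (Lo s) := by
  convert (Q_U hx (-s)).conj w using 1
  ext <;> simp [U, Lo, w]

lemma P_all {x : S F} (hx : x ∉ center (S F)) (y : S F) : P ⊤ x y := by
  have k : ∀ (y : S F), y.c ≠ 0 → y = U ((y.a - 1) / y.c) * Lo y.c * U ((y.d - 1) / y.c) :=
    fun y hy => by
      have := y.h
      ext <;> simp [U, Lo] <;> field_simp <;> first | linear_combination -this | ring
  have k2 : ∀ r s t u, P ⊤ x (Lo r * U s * Lo t * U u) := fun r s t u => by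
    obtain ⟨g0, g1, e1⟩ := Q_L hx r
    obtain ⟨g2, g3, e2⟩ := Q_U hx s
    obtain ⟨g4, g5, e3⟩ := Q_L hx t
    obtain ⟨g6, g7, e4⟩ := Q_U hx u
    exact ⟨![g0, g1, g2, g3, g4, g5, g6, g7], fun _ => trivial, by rw [e1, e2, e3, e4]; rfl⟩
  by_cases hy : y.c = 0
  · have h := y.h
    have : (Lo 1 * y).c ≠ 0 := by
      simp [Lo, hy]; rintro e; simp [e, hy] at h
    have e := k _ this
    have e2 : Lo (-1) * Lo 1 = (1 : S F) := by ext <;> simp [Lo]
    rw [← one_mul y, ← e2, mul_assoc, e, ← mul_assoc, ← mul_assoc]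
    exact k2 _ _ _ _
  · have e2 : Lo 0 = (1 : S F) := rfl
    rw [← one_mul y, k y hy, ← e2, ← mul_assoc, ← mul_assoc]
    exact k2 _ _ _ _

lemma ax_S {x : S F} (hx : x ∉ center (S F)) : Ax ⊤ x := by
  refine ⟨P_all hx _, U 1, Lo 1, P_all hx _, P_all hx _, fun y _ => ?_⟩
  by_cases h1 : ⁅y, U 1⁆ ∈ center (S F)
  · by_cases h2 : ⁅y, Lo 1⁆ ∈ center (S F)
    · refine ⟨1, 1, P.one _ _, P.one _ _, fun g _ => ?_⟩
      have : y ∈ center (S F) := by
        have h := y.h
        simp [mem_center_S, commutatorElement_def, U, Lo] at h1 h2 ⊢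
        grind
      rw [mul_one, inv_one, one_mul]
      exact (mem_center_iff.1 this _).symm
    · exact ⟨1, y, P.one _ _, P_all h2 _, fun g _ => by simp⟩
  · exact ⟨y, 1, P_all h1 _, P.one _ _, fun g _ => by simp⟩

theorem KI_S : KI (⊤ : Subgroup (S F ⧸ center (S F))) :=
  image (QuotientGroup.mk' _) (QuotientGroup.mk'_surjective _) fun x =>
    (em (x ∈ center (S F))).elim (fun h => Or.inr ((QuotientGroup.eq_one_iff _).2 h))
      fun h => Or.inl (ax_S h)

omit [IsAlgClosed F] in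
theorem inf_S : ¬ IsOfFinOrder (QuotientGroup.mk' (center (S F)) (U 1)) := by
  rw [isOfFinOrder_iff_pow_eq_one]
  rintro ⟨n, hn, h⟩
  have e : ∀ n : ℕ, U (1 : F) ^ n = U (n : F) := fun n => by
    induction n with
    | zero => ext <;> simp [U]
    | succ n ih => rw [pow_succ, ih]; ext <;> simp [U, add_comm]
  rw [← map_pow, e, QuotientGroup.mk'_apply, QuotientGroup.eq_one_iff, mem_center_S] at h
  exact hn.ne' (by simpa [U] using h.1)

end Pool.Agent.Lib.helper17.RC
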