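import Mathlib

set_option autoImplicit false

namespace H17Ramsey

open Finset

theorem ramsey (κ : Type) [Fintype κ] (t : ℕ) : ∀ N, ∃ n, ∀ (α : Type) [DecidableEq α]
    (X : Finset α) (χ : Finset α → κ), n ≤ #X →
      ∃ Y ⊆ X, #Y = N ∧ ∃ c, ∀ T ⊆ Y, #T = t → χ T = c := by
  classical
  induction t with
  | zero =>
    refine fun N => ⟨N, fun α _ X χ h => ?_⟩
    obtain ⟨Y, h1, h2⟩ := exists_subset_card_eq h
    exact ⟨Y, h1, h2, χ ∅, fun T _ e => by rw [card_eq_zero.mp e]⟩
  | succ t ih =>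
    have key : ∀ M, ∃ n, ∀ (α : Type) [DecidableEq α] (X : Finset α) (χ : Finset α → κ), n ≤ #X →
        ∃ Z ⊆ X, #Z = M ∧ ∃ ψ : α → κ, ∀ T ⊆ Z, #T = t + 1 → ∃ x ∈ T, χ T = ψ x := by
      intro M
      induction M with
      | zero => exact ⟨0, fun α _ X χ _ => ⟨∅, by simp, rfl, fun _ => χ ∅, by simp⟩⟩
      | succ M ihM =>
        obtain ⟨n1, h1⟩ := ihM
        obtain ⟨n2, h2⟩ := ih n1
        refine ⟨n2 + 1, fun α _ X χ h => ?_⟩
        obtain ⟨x, hx⟩ := card_pos.mp (show 0 < #X by omega)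
        obtain ⟨Y, a1, a2, c, a3⟩ := h2 α (X.erase x) (fun T => χ (insert x T))
          (by rw [card_erase_of_mem hx]; omega)
        obtain ⟨Z, b1, b2, ψ, b3⟩ := h1 α Y χ a2.ge
        have hz : x ∉ Z := fun h => notMem_erase x X (a1 (b1 h))
        refine ⟨insert x Z, insert_subset hx (b1.trans (a1.trans (erase_subset _ _))),
          by rw [card_insert_of_notMem hz, b2], Function.update ψ x c, fun T c1 c2 => ?_⟩
        by_cases e : x ∈ T
        · refine ⟨x, e, ?_⟩
          rw [Function.update_self, ← a3 (T.erase x) ((subset_insert_iff.mp c1).trans b1)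
            (by rw [card_erase_of_mem e, c2]; rfl), insert_erase e]
        · obtain ⟨y, d1, d2⟩ := b3 T ((subset_insert_iff_of_notMem e).mp c1) c2
          exact ⟨y, d1, by rw [Function.update_of_ne (ne_of_mem_of_not_mem d1 e), d2]⟩
    intro N
    obtain ⟨n, h⟩ := key (Fintype.card κ * N + 1)
    refine ⟨n, fun α _ X χ hX => ?_⟩
    obtain ⟨Z, b1, b2, ψ, b3⟩ := h α X χ hX
    obtain ⟨c, _, hc⟩ := exists_lt_card_fiber_of_mul_lt_card_of_maps_to (s := Z) (t := univ) (f := ψ)
      (n := N) (by simp) (by rw [b2, card_univ]; omega)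
    obtain ⟨Y, h1, h2⟩ := exists_subset_card_eq hc.le
    refine ⟨Y, h1.trans ((filter_subset _ _).trans b1), h2, c, fun T d1 d2 => ?_⟩
    obtain ⟨x, e1, e2⟩ := b3 T (d1.trans (h1.trans (filter_subset _ _))) d2
    rw [e2, (mem_filter.mp (h1 (d1 e1))).2]

theorem ramsey_le (κ : Type) [Fintype κ] (t : ℕ) : ∀ N, ∃ n, ∀ (α : Type) [DecidableEq α]
    (X : Finset α) (χ : Finset α → κ), n ≤ #X →
      ∃ Y ⊆ X, #Y = N ∧ ∀ T ⊆ Y, ∀ T' ⊆ Y, #T = #T' → #T < t → χ T = χ T' := by
  induction t with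
  | zero =>
    refine fun N => ⟨N, fun α _ X χ h => ?_⟩
    obtain ⟨Y, h1, h2⟩ := exists_subset_card_eq h
    exact ⟨Y, h1, h2, by simp⟩
  | succ t ih =>
    intro N
    obtain ⟨n1, h1⟩ := ih N
    obtain ⟨n2, h2⟩ := ramsey κ t n1
    refine ⟨n2, fun α _ X χ h => ?_⟩
    obtain ⟨Y, a1, a2, c, a3⟩ := h2 α X χ h
    obtain ⟨Z, b1, b2, b3⟩ := h1 α Y χ a2.ge
    refine ⟨Z, b1.trans a1, b2, fun T c1 T' c2 c3 c4 => ?_⟩
    by_cases e : #T = t
    · rw [a3 T (c1.trans b1) e, a3 T' (c2.trans b1) (c3 ▸ e)]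
    · exact b3 T c1 T' c2 c3 (by omega)

theorem johnson {α β : Type} [DecidableEq α] (X : Finset α) (k : ℕ) (φ : Finset α → β)
    (h : ∀ T ⊆ X, #T + 1 = k → ∀ x ∈ X, ∀ y ∈ X, x ∉ T → y ∉ T → φ (insert x T) = φ (insert y T))
    (B : Finset α) (b1 : B ⊆ X) (b2 : #B = k) : ∀ m, ∀ A ⊆ X, #A = k → #(A \ B) = m → φ A = φ B := by
  intro m
  induction m with
  | zero =>
    intro A _ a2 a3
    rw [eq_of_subset_of_card_le (sdiff_eq_empty_iff_subset.mp (card_eq_zero.mp a3)) (by omega)]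
  | succ m ih =>
    intro A a1 a2 a3
    obtain ⟨x, hx⟩ := card_pos.mp (show 0 < #(A \ B) by omega)
    obtain ⟨y, hy⟩ := card_pos.mp (show 0 < #(B \ A) by rw [card_sdiff_comm (b2.trans a2.symm)]; omega)
    rw [mem_sdiff] at hx hy
    have e := card_erase_add_one hx.1
    have e' : y ∉ A.erase x := fun h => hy.2 (mem_of_mem_erase h)
    rw [← insert_erase hx.1, h _ ((erase_subset _ _).trans a1) (by omega) x (a1 hx.1) y (b1 hy.1)
      (notMem_erase _ _) e']
    refine ih _ (insert_subset (b1 hy.1) ((erase_subset _ _).trans a1))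
      (by rw [card_insert_of_notMem e']; omega) ?_
    rw [insert_sdiff_of_mem _ hy.1, erase_sdiff_comm, card_erase_of_mem (mem_sdiff.mpr hx), a3]
    rfl

theorem incl {α : Type} [DecidableEq α] (k : ℕ) : ∀ (l : ℕ) (X : Finset α) (F : Finset α → ℚ),
    k ≤ l → k + l ≤ #X → (∀ L ⊆ X, #L = l → ∑ K ∈ powersetCard k L, F K = 0) →
    ∀ K ⊆ X, #K = k → F K = 0 := by
  induction k with
  | zero =>
    intro l X F _ h2 h K _ a
    obtain ⟨L, b1, b2⟩ := exists_subset_card_eq (show l ≤ #X by omega)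
    simpa [card_eq_zero.mp a] using h L b1 b2
  | succ k ih =>
    intro l X F h1 h2 h K a1 a2
    obtain ⟨L, b1, b2⟩ := exists_subset_card_eq (show l ≤ #X by omega)
    have := h L b1 b2
    rw [sum_congr rfl (g := fun _ => F K) fun A hA => johnson X (k + 1) F ?_ K a1 a2 _ A
      ((mem_powersetCard.mp hA).1.trans b1) (mem_powersetCard.mp hA).2 rfl] at this
    · simpa [b2, (Nat.choose_pos h1).ne'] using this
    intro T c1 c2 x hx y hy d1 d2
    by_cases e : x = y
    · rw [e]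
    have s : ∀ z ∈ X, ∀ L' ⊆ X, z ∉ L' → #L' = l - 1 → ∑ A ∈ powersetCard k L', F (insert z A) =
        - ∑ A ∈ powersetCard (k + 1) L', F A := by
      intro z hz L' e1 e2 e3
      have := h (insert z L') (insert_subset hz e1) (by rw [card_insert_of_notMem e2]; omega)
      rw [powersetCard_succ_insert e2, sum_union, sum_image] at this
      · linarith
      · intro A hA B hB f
        rw [← erase_insert (fun h => e2 ((mem_powersetCard.mp hA).1 h)), f,
          erase_insert (fun h => e2 ((mem_powersetCard.mp hB).1 h))]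
      · refine disjoint_left.mpr fun A hA hB => ?_
        obtain ⟨B, _, rfl⟩ := mem_image.mp hB
        exact e2 ((mem_powersetCard.mp hA).1 (mem_insert_self _ _))
    refine sub_eq_zero.mp (ih (l - 1) ((X.erase x).erase y) (fun T => F (insert x T) - F (insert y T))
      (by omega) (by rw [card_erase_of_mem (by simp [hy, Ne.symm e]), card_erase_of_mem hx]; omega)
      (fun L' e1 e2 => ?_) T (by intro z hz; grind) (by omega))
    have e3 := e1.trans ((erase_subset _ _).trans (erase_subset _ _))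
    rw [sum_sub_distrib, s x hx L' e3 (fun h => by simpa using e1 h) e2,
      s y hy L' e3 (fun h => by simpa using e1 h) e2, sub_self]

end H17Ramsey
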