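import Mathlib

set_option autoImplicit false

namespace Pool.Agent.Lib.helper17.ResFinInf

open FirstOrder FirstOrder.Language

universe u

/-- formulas of L_{infty,infty} over a signature without relation symbols;
the index is the type of free variables -/
inductive Fm (L : FirstOrder.Language.{0, 0}) : Type → Type 1
  | eq {α : Type} (t s : L.Term α) : Fm L α
  | not {α : Type} (φ : Fm L α) : Fm L α
  | conj {α : Type} (ι : Type) (φ : ι → Fm L α) : Fm L α
  | disj {α : Type} (ι : Type) (φ : ι → Fm L α) : Fm L α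
  | ex {α : Type} (β : Type) (φ : Fm L (α ⊕ β)) : Fm L α
  | all {α : Type} (β : Type) (φ : Fm L (α ⊕ β)) : Fm L α

/-- satisfaction -/
def Sat {L : FirstOrder.Language.{0, 0}} (M : Type u) [L.Structure M] :
    {α : Type} → Fm L α → (α → M) → Prop
  | _, Fm.eq t s, v => t.realize v = s.realize v
  | _, Fm.not φ, v => ¬ Sat M φ v
  | _, Fm.conj ι φ, v => ∀ i : ι, Sat M (φ i) v
  | _, Fm.disj ι φ, v => ∃ i : ι, Sat M (φ i) v
  | _, Fm.ex β φ, v => ∃ w : β → M, Sat M φ (Sum.elim v w)
  | _, Fm.all β φ, v => ∀ w : β → M, Sat M φ (Sum.elim v w)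

inductive RF : ℕ → Type
  | add : RF 2
  | mul : RF 2
  | neg : RF 1
  | zero : RF 0

/-- signature +, *, -, 0 -/
def LR : FirstOrder.Language.{0, 0} := { Functions := RF, Relations := fun _ => Empty }

@[reducible] def strR (R : Type u) [NonUnitalRing R] : LR.Structure R where
  funMap := fun {n} f =>
    match n, f with
    | _, RF.add => fun x => x 0 + x 1
    | _, RF.mul => fun x => x 0 * x 1
    | _, RF.neg => fun x => -x 0
    | _, RF.zero => fun _ => 0
  RelMap := fun {_} r => Empty.elim r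

inductive GF : ℕ → Type
  | mul : GF 2
  | inv : GF 1
  | one : GF 0

/-- signature *, inverse, 1 -/
def LG : FirstOrder.Language.{0, 0} := { Functions := GF, Relations := fun _ => Empty }

@[reducible] def strG (G : Type u) [Group G] : LG.Structure G where
  funMap := fun {n} f =>
    match n, f with
    | _, GF.mul => fun x => x 0 * x 1
    | _, GF.inv => fun x => (x 0)⁻¹
    | _, GF.one => fun _ => 1
  RelMap := fun {_} r => Empty.elim r

def ResFinRing (R : Type u) [NonUnitalRing R] : Prop :=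
  ∀ a : R, a ≠ 0 → ∃ I : TwoSidedIdeal R, Finite I.ringCon.Quotient ∧ a ∉ I

def ResFinGroup (G : Type u) [Group G] : Prop :=
  ∀ g : G, g ≠ 1 → ∃ N : Subgroup G, N.Normal ∧ N.FiniteIndex ∧ g ∉ N

section General

variable {L : FirstOrder.Language.{0, 0}}

def and2 {α : Type} (φ ψ : Fm L α) : Fm L α := Fm.conj Bool (fun b => cond b φ ψ)

def or2 {α : Type} (φ ψ : Fm L α) : Fm L α := Fm.disj Bool (fun b => cond b φ ψ)

lemma sat_and2 (M : Type u) [L.Structure M] {α : Type} (φ ψ : Fm L α) (v : α → M) :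
    Sat M (and2 φ ψ) v ↔ Sat M φ v ∧ Sat M ψ v := by
  simp [and2, Sat, and_comm]

lemma sat_or2 (M : Type u) [L.Structure M] {α : Type} (φ ψ : Fm L α) (v : α → M) :
    Sat M (or2 φ ψ) v ↔ Sat M φ v ∨ Sat M ψ v := by
  simp [or2, Sat, or_comm]

def Col (L : FirstOrder.Language.{0, 0}) (M : Type u) [L.Structure M] : Prop :=
  ∀ a b : M, a ≠ b → ∃ (k : ℕ) (c : M → Fin k), c a ≠ c b ∧
    ∀ (m : ℕ) (F : L.Functions m) (x y : Fin m → M), (∀ i, c (x i) = c (y i)) →
      c (Structure.funMap F x) = c (Structure.funMap F y)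

abbrev VV (n : ℕ) : Type := (Empty ⊕ Bool) ⊕ Fin n

def xv {n : ℕ} (i : Fin n) : L.Term (VV n) := Term.var (Sum.inr i)

def pv {n : ℕ} (b : Bool) : L.Term (VV n) := Term.var (Sum.inl (Sum.inr b))

def inner1 {n k : ℕ} (f : Fin n → Fin k) : Fm L (VV n) :=
  Fm.conj {p : Fin n × Fin n // f p.1 = f p.2} (fun p =>
    Fm.not (and2 (Fm.eq (xv p.1.1) (pv true)) (Fm.eq (xv p.1.2) (pv false))))

def inner2 {n k : ℕ} (f : Fin n → Fin k) : Fm L (VV n) :=
  Fm.conj (Σ m : ℕ, L.Functions m × {q : (Fin m → Fin n) × (Fin m → Fin n) × Fin n × Fin n //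
      (∀ i, f (q.1 i) = f (q.2.1 i)) ∧ f q.2.2.1 ≠ f q.2.2.2}) (fun p =>
    Fm.not (and2 (Fm.eq (Term.func p.2.1 (fun i => xv (p.2.2.1.1 i))) (xv p.2.2.1.2.2.1))
      (Fm.eq (Term.func p.2.1 (fun i => xv (p.2.2.1.2.1 i))) (xv p.2.2.1.2.2.2))))

def colF (L : FirstOrder.Language.{0, 0}) : Fm L Empty :=
  Fm.all Bool (or2 (Fm.eq (Term.var (Sum.inr true)) (Term.var (Sum.inr false)))
    (Fm.disj ℕ (fun k => Fm.conj ℕ (fun n => Fm.all (Fin n)
      (Fm.disj (Fin n → Fin k) (fun f => and2 (inner1 f) (inner2 f)))))))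

lemma sat_colF (M : Type u) [L.Structure M] : Sat M (colF L) Empty.elim ↔ Col L M := by
  have key : Sat M (colF L) Empty.elim ↔ ∀ w : Bool → M, w true = w false ∨
      ∃ k : ℕ, ∀ (n : ℕ) (x : Fin n → M), ∃ f : Fin n → Fin k,
        (∀ i j, f i = f j → ¬ (x i = w true ∧ x j = w false)) ∧
        (∀ (m : ℕ) (F : L.Functions m) (p q : Fin m → Fin n) (l l' : Fin n),
          (∀ i, f (p i) = f (q i)) → f l ≠ f l' →
          ¬ (Structure.funMap F (fun i => x (p i)) = x l ∧
            Structure.funMap F (fun i => x (q i)) = x l')) := by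
    simp only [colF, Sat, sat_or2, sat_and2, inner1, inner2, xv, pv, Term.realize, Sum.elim_inr,
      Sum.elim_inl, Subtype.forall, Prod.forall, Sigma.forall, and_imp]
  rw [key]
  constructor
  · intro h a b hab
    classical
    rcases h (fun t => cond t a b) with h | ⟨k, h⟩
    · exact absurd h hab
    choose f hf1 hf2 using h
    obtain ⟨χ, hχ⟩ := Finset.rado_selection_subtype (β := fun _ : M => Fin k)
      (fun s a => f s.card (fun i => (s.equivFin.symm i : M)) (s.equivFin a))
    refine ⟨k, χ, ?_, ?_⟩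
    · obtain ⟨t, hst, ht⟩ := hχ {a, b}
      have ha := ht ⟨a, by simp⟩
      have hb := ht ⟨b, by simp⟩
      simp only at ha hb
      rw [ha, hb]
      intro he
      exact hf1 _ _ _ _ he (by simp)
    · intro m F x y hxy
      obtain ⟨t, hst, ht⟩ := hχ (Finset.univ.image x ∪ Finset.univ.image y ∪
        {Structure.funMap F x, Structure.funMap F y})
      have hv : ∀ (z : M) (hz : z ∈ Finset.univ.image x ∪ Finset.univ.image y ∪
          {Structure.funMap F x, Structure.funMap F y}),
          χ z = f t.card (fun i => (t.equivFin.symm i : M)) (t.equivFin ⟨z, hst hz⟩) :=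
        fun z hz => ht ⟨z, hz⟩
      have mx : ∀ i, x i ∈ Finset.univ.image x ∪ Finset.univ.image y ∪
          {Structure.funMap F x, Structure.funMap F y} := by intro i; simp
      have my : ∀ i, y i ∈ Finset.univ.image x ∪ Finset.univ.image y ∪
          {Structure.funMap F x, Structure.funMap F y} := by intro i; simp
      by_contra hne
      rw [hv _ (by simp), hv (Structure.funMap F y) (by simp)] at hne
      refine hf2 _ _ m F (fun i => t.equivFin ⟨x i, hst (mx i)⟩)
        (fun i => t.equivFin ⟨y i, hst (my i)⟩) _ _ ?_ hne ?_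
      · intro i
        rw [← hv _ (mx i), ← hv _ (my i)]
        exact hxy i
      · simp
  · intro h w
    by_cases hw : w true = w false
    · exact Or.inl hw
    obtain ⟨k, c, h1, h2⟩ := h _ _ hw
    refine Or.inr ⟨k, fun n x => ⟨fun i => c (x i), ?_, ?_⟩⟩
    · rintro i j hij ⟨e1, e2⟩
      apply h1
      rw [← e1, ← e2]
      exact hij
    · rintro m F p q l l' hpq hl ⟨e1, e2⟩
      apply hl
      have := h2 m F (fun i => x (p i)) (fun i => x (q i)) hpq
      rwa [e1, e2] at this

end General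

lemma colG (G : Type u) [Group G] : @Col LG G (strG G) ↔ ResFinGroup G := by
  constructor
  · intro h g hg
    obtain ⟨k, c, h1, h2⟩ := h g 1 hg
    have hm : ∀ a b a' b', c a = c a' → c b = c b' → c (a * b) = c (a' * b') := by
      intro a b a' b' e1 e2
      exact h2 2 GF.mul ![a, b] ![a', b'] (by intro i; fin_cases i <;> assumption)
    have hi : ∀ a a', c a = c a' → c a⁻¹ = c a'⁻¹ := by
      intro a a' e1
      exact h2 1 GF.inv ![a] ![a'] (by intro i; fin_cases i; assumption)
    let N : Subgroup G :=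
      { carrier := {x | c x = c 1}
        mul_mem' := fun {a b} ha hb => by simpa using hm a b 1 1 ha hb
        one_mem' := rfl
        inv_mem' := fun {a} ha => by simpa using hi a 1 ha }
    have hN : ∀ x, x ∈ N ↔ c x = c 1 := fun x => Iff.rfl
    refine ⟨N, ⟨?_⟩, ?_, h1⟩
    · intro n hn g
      rw [hN] at hn ⊢
      simpa using hm (g * n) g⁻¹ (g * 1) g⁻¹ (hm g n g 1 rfl hn) rfl
    · have : Finite (G ⧸ N) := by
        refine Finite.of_injective (fun q : G ⧸ N => c q.out) ?_
        intro q q' hq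
        rw [← q.out_eq', ← q'.out_eq']
        apply QuotientGroup.eq.2
        rw [hN]
        simpa using (hm q.out⁻¹ q.out q.out⁻¹ q'.out rfl hq).symm
      exact Subgroup.finiteIndex_of_finite_quotient
  · intro h a b hab
    obtain ⟨N, hN, hf, hg⟩ := h (a⁻¹ * b) (fun e => hab (by rwa [inv_mul_eq_one] at e))
    obtain ⟨k, ⟨e⟩⟩ := Finite.exists_equiv_fin (G ⧸ N)
    refine ⟨k, fun x => e (x : G ⧸ N), ?_, ?_⟩
    · intro he
      exact hg (QuotientGroup.eq.1 (e.injective he))
    · intro m F x y hxy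
      have hxy' : ∀ i, (x i : G ⧸ N) = y i := fun i => e.injective (hxy i)
      cases F
      · change e ((x 0 * x 1 : G) : G ⧸ N) = e ((y 0 * y 1 : G) : G ⧸ N)
        rw [QuotientGroup.mk_mul, QuotientGroup.mk_mul, hxy', hxy']
      · change e (((x 0)⁻¹ : G) : G ⧸ N) = e (((y 0)⁻¹ : G) : G ⧸ N)
        rw [QuotientGroup.mk_inv, QuotientGroup.mk_inv, hxy']
      · rfl

lemma colR (R : Type u) [NonUnitalRing R] : @Col LR R (strR R) ↔ ResFinRing R := by
  constructor
  · intro h g hg
    obtain ⟨k, c, h1, h2⟩ := h g 0 hg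
    let r : RingCon R :=
      { r := fun x y => c x = c y
        iseqv := ⟨fun _ => rfl, Eq.symm, Eq.trans⟩
        mul' := fun {a a' b b'} e1 e2 =>
          h2 2 RF.mul ![a, b] ![a', b'] (by intro i; fin_cases i <;> assumption)
        add' := fun {a a' b b'} e1 e2 =>
          h2 2 RF.add ![a, b] ![a', b'] (by intro i; fin_cases i <;> assumption) }
    refine ⟨TwoSidedIdeal.ofRingCon r, ?_, h1⟩
    refine Finite.of_injective (fun q : r.Quotient => c (Quotient.out q)) ?_
    intro q q' hq
    rw [← Quotient.out_eq q, ← Quotient.out_eq q']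
    exact Quotient.sound hq
  · intro h a b hab
    obtain ⟨I, hf, hg⟩ := h (a - b) (sub_ne_zero.2 hab)
    obtain ⟨k, ⟨e⟩⟩ := Finite.exists_equiv_fin I.ringCon.Quotient
    have hq : ∀ x y : R, e (x : I.ringCon.Quotient) = e (y : I.ringCon.Quotient) ↔
        I.ringCon x y := by
      intro x y
      rw [e.injective.eq_iff, RingCon.eq]
    refine ⟨k, fun x => e (x : I.ringCon.Quotient), ?_, ?_⟩
    · intro he
      exact hg ((I.rel_iff _ _).1 ((hq _ _).1 he))
    · intro m F x y hxy
      have hxy' : ∀ i, I.ringCon (x i) (y i) := fun i => (hq _ _).1 (hxy i)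
      apply (hq _ _).2
      cases F
      · exact I.ringCon.add (hxy' 0) (hxy' 1)
      · exact I.ringCon.mul (hxy' 0) (hxy' 1)
      · exact I.ringCon.neg (hxy' 0)
      · exact I.ringCon.refl _

def v3 {L : FirstOrder.Language.{0, 0}} (i : Fin 3) : L.Term (Empty ⊕ Fin 3) :=
  Term.var (Sum.inr i)

def f2 {L : FirstOrder.Language.{0, 0}} {α : Type} (F : L.Functions 2) (s t : L.Term α) :
    L.Term α := Term.func F ![s, t]

def f1 {L : FirstOrder.Language.{0, 0}} {α : Type} (F : L.Functions 1) (s : L.Term α) :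
    L.Term α := Term.func F ![s]

def f0 {L : FirstOrder.Language.{0, 0}} {α : Type} (F : L.Functions 0) :
    L.Term α := Term.func F ![]

section
variable {L : FirstOrder.Language.{0, 0}} {α : Type} {M : Type u} [L.Structure M]

lemma r2 (F : L.Functions 2) (s t : L.Term α) (v : α → M) :
    (f2 F s t).realize v = Structure.funMap F ![s.realize v, t.realize v] := by
  simp only [f2, Term.realize]
  congr 1
  funext i; fin_cases i <;> rfl

lemma r1 (F : L.Functions 1) (s : L.Term α) (v : α → M) :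
    (f1 F s).realize v = Structure.funMap F ![s.realize v] := by
  simp only [f1, Term.realize]
  congr 1
  funext i; fin_cases i; rfl

lemma r0 (F : L.Functions 0) (v : α → M) :
    (f0 F : L.Term α).realize v = Structure.funMap F ![] := by
  simp only [f0, Term.realize]
  congr 1
  funext i; exact i.elim0

lemma rv (i : Fin 3) (w : Fin 3 → M) :
    (v3 i : L.Term (Empty ⊕ Fin 3)).realize (Sum.elim Empty.elim w) = w i := rfl

end

abbrev gm : LG.Functions 2 := GF.mul
abbrev gi : LG.Functions 1 := GF.inv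
abbrev g1 : LG.Functions 0 := GF.one

def axG : Fm LG Empty :=
  Fm.all (Fin 3) (and2 (Fm.eq (f2 gm (f2 gm (v3 0) (v3 1)) (v3 2))
      (f2 gm (v3 0) (f2 gm (v3 1) (v3 2))))
    (and2 (Fm.eq (f2 gm (f0 g1) (v3 0)) (v3 0))
      (Fm.eq (f2 gm (f1 gi (v3 0)) (v3 0)) (f0 g1))))

lemma sat_axG (M : Type u) (s : LG.Structure M) :
    Sat M axG Empty.elim ↔ ∃ _ : Group M, s = strG M := by
  simp only [axG, Sat, sat_and2, r2, r1, r0, rv]
  constructor
  · intro h
    let _ : Mul M := ⟨fun a b => Structure.funMap gm ![a, b]⟩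
    let _ : Inv M := ⟨fun a => Structure.funMap gi ![a]⟩
    let _ : One M := ⟨Structure.funMap g1 ![]⟩
    refine ⟨Group.ofLeftAxioms (fun a b c => (h ![a, b, c]).1) (fun a => (h ![a, a, a]).2.1)
      (fun a => (h ![a, a, a]).2.2), ?_⟩
    ext n F x
    · cases F
      · change _ = Structure.funMap gm ![x 0, x 1]
        congr 1
        funext i; fin_cases i <;> rfl
      · change _ = Structure.funMap gi ![x 0]
        congr 1
        funext i; fin_cases i; rfl
      · change _ = Structure.funMap g1 ![]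
        congr 1
        funext i; exact i.elim0
    · cases F
  · rintro ⟨g, rfl⟩ w
    exact ⟨mul_assoc (w 0) (w 1) (w 2), one_mul (w 0), inv_mul_cancel (w 0)⟩

abbrev ra : LR.Functions 2 := RF.add
abbrev rm : LR.Functions 2 := RF.mul
abbrev rn : LR.Functions 1 := RF.neg
abbrev rz : LR.Functions 0 := RF.zero

def axR : Fm LR Empty :=
  Fm.all (Fin 3) (and2 (Fm.eq (f2 ra (f2 ra (v3 0) (v3 1)) (v3 2))
      (f2 ra (v3 0) (f2 ra (v3 1) (v3 2))))
    (and2 (Fm.eq (f2 ra (f0 rz) (v3 0)) (v3 0))
    (and2 (Fm.eq (f2 ra (f1 rn (v3 0)) (v3 0)) (f0 rz))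
    (and2 (Fm.eq (f2 ra (v3 0) (v3 1)) (f2 ra (v3 1) (v3 0)))
    (and2 (Fm.eq (f2 rm (f2 rm (v3 0) (v3 1)) (v3 2)) (f2 rm (v3 0) (f2 rm (v3 1) (v3 2))))
    (and2 (Fm.eq (f2 rm (v3 0) (f2 ra (v3 1) (v3 2)))
      (f2 ra (f2 rm (v3 0) (v3 1)) (f2 rm (v3 0) (v3 2))))
    (Fm.eq (f2 rm (f2 ra (v3 0) (v3 1)) (v3 2))
      (f2 ra (f2 rm (v3 0) (v3 2)) (f2 rm (v3 1) (v3 2))))))))))

lemma sat_axR (M : Type u) (s : LR.Structure M) :
    Sat M axR Empty.elim ↔ ∃ _ : NonUnitalRing M, s = strR M := by
  simp only [axR, Sat, sat_and2, r2, r1, r0, rv]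
  constructor
  · intro h
    let _ : Add M := ⟨fun a b => Structure.funMap ra ![a, b]⟩
    let _ : Neg M := ⟨fun a => Structure.funMap rn ![a]⟩
    let _ : Zero M := ⟨Structure.funMap rz ![]⟩
    let ag : AddGroup M := AddGroup.ofLeftAxioms (fun a b c => (h ![a, b, c]).1)
      (fun a => (h ![a, a, a]).2.1) (fun a => (h ![a, a, a]).2.2.1)
    let ac : AddCommGroup M := { ag with add_comm := fun a b => (h ![a, b, b]).2.2.2.1 }
    let _ : Mul M := ⟨fun a b => Structure.funMap rm ![a, b]⟩
    have hl : ∀ a b c : M, a * (b + c) = a * b + a * c := fun a b c => (h ![a, b, c]).2.2.2.2.2.1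
    have hr : ∀ a b c : M, (a + b) * c = a * c + b * c := fun a b c => (h ![a, b, c]).2.2.2.2.2.2
    refine ⟨{ ac with
      mul := fun a b => a * b
      left_distrib := hl
      right_distrib := hr
      zero_mul := fun a => by
        have := hr 0 0 a
        rw [add_zero] at this
        exact left_eq_add.1 this
      mul_zero := fun a => by
        have := hl a 0 0
        rw [add_zero] at this
        exact left_eq_add.1 this
      mul_assoc := fun a b c => (h ![a, b, c]).2.2.2.2.1 }, ?_⟩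
    ext n F x
    · cases F
      · change _ = Structure.funMap ra ![x 0, x 1]
        congr 1
        funext i; fin_cases i <;> rfl
      · change _ = Structure.funMap rm ![x 0, x 1]
        congr 1
        funext i; fin_cases i <;> rfl
      · change _ = Structure.funMap rn ![x 0]
        congr 1
        funext i; fin_cases i; rfl
      · change _ = Structure.funMap rz ![]
        congr 1
        funext i; exact i.elim0
    · cases F
  · rintro ⟨g, rfl⟩ w
    exact ⟨add_assoc (w 0) (w 1) (w 2), zero_add (w 0), neg_add_cancel (w 0),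
      add_comm (w 0) (w 1), mul_assoc (w 0) (w 1) (w 2), mul_add (w 0) (w 1) (w 2),
      add_mul (w 0) (w 1) (w 2)⟩

end Pool.Agent.Lib.helper17.ResFinInf
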