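import Mathlib

set_option autoImplicit false

namespace Pool.Agent.Lib.helper17.SG

open Filter Function

abbrev F : Type := RatFunc (ZMod 2)
noncomputable def t : F := RatFunc.X

lemma t_pow {a b : ℕ} (h : t ^ a = t ^ b) : a = b := by
  rw [t, ← RatFunc.algebraMap_X, ← map_pow, ← map_pow] at h
  simpa using congrArg Polynomial.natDegree (IsFractionRing.injective _ _ h)

variable {R : Type} [Ring R] (ι : F →+* R)

def L (n m : ℕ) (T : R) : Prop := ∀ a : F, T * ι (a ^ 2 ^ n) = ι (a ^ 2 ^ m) * T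

def Rd (d : ℤ) : AddSubgroup R where
  carrier := {T | ∀ᶠ n : ℕ in atTop, L ι n (n + d).toNat T}
  add_mem' ha hb := (ha.and hb).mono fun n h a => by rw [add_mul, mul_add, h.1, h.2]
  zero_mem' := Eventually.of_forall fun n a => by simp
  neg_mem' ha := ha.mono fun n h a => by rw [neg_mul, mul_neg, h]

variable {ι}

lemma L_up {n m : ℕ} {T : R} (h : L ι n m T) (k : ℕ) : L ι (n + k) (m + k) T := fun a => by
  rw [add_comm n, add_comm m, pow_add, pow_add, pow_mul, pow_mul]
  exact h _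

lemma L_mul {n m l : ℕ} {T U : R} (h : L ι n m T) (k : L ι m l U) : L ι n l (U * T) := fun a => by
  rw [mul_assoc, h, ← mul_assoc, k, mul_assoc]

lemma mem_of_L {n m : ℕ} {T : R} {d : ℤ} (h : L ι n m T) (e : d = m - n) : T ∈ Rd ι d := by
  filter_upwards [eventually_ge_atTop n] with k hk
  obtain ⟨k, rfl⟩ := Nat.exists_eq_add_of_le hk
  convert L_up h k
  omega

lemma L_of_mem {T : R} {d : ℤ} (h : T ∈ Rd ι d) : ∃ n m : ℕ, d = m - n ∧ L ι n m T := by
  obtain ⟨n, h1, h2⟩ := (h.and (eventually_ge_atTop d.natAbs)).exists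
  exact ⟨n, _, by omega, h1⟩

lemma mul_mem' {T U : R} {d e c : ℤ} (hU : U ∈ Rd ι e) (hT : T ∈ Rd ι d) (h : c = e + d) :
    U * T ∈ Rd ι c := by
  obtain ⟨n, m, rfl, h1⟩ := L_of_mem hT
  obtain ⟨n', m', rfl, h2⟩ := L_of_mem hU
  exact mem_of_L (L_mul (L_up h1 n') (add_comm m n' ▸ L_up h2 m)) (by push_cast; omega)

lemma ι_mem (c : F) : ι c ∈ Rd ι 0 :=
  mem_of_L (n := 0) (m := 0) (fun a => by rw [← map_mul, ← map_mul, mul_comm]) rfl

def Bim (ι : F →+* R) (N : AddSubgroup R) : Prop := ∀ a ∈ Rd ι 0, ∀ x ∈ N, a * x ∈ N ∧ x * a ∈ N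

structure H (ι : F →+* R) (x y : Bool → R) : Prop where
  c0 : ∀ T, L ι 0 0 T → ∃ c, T = ι c
  hx : ∀ i, L ι 1 0 (x i)
  hy : ∀ i, L ι 0 1 (y i)
  one : y true * x true + y false * x false = 1

variable {x y : Bool → R}

lemma simple (h : H ι x y) (n : ℕ) : ∀ (m : ℕ) (N : AddSubgroup R) (T : R), Bim ι N → T ∈ N →
    T ≠ 0 → L ι n m T → Rd ι (m - n) ≤ N := by
  have X : ∀ i, x i ∈ Rd ι (-1) := fun i => mem_of_L (h.hx i) rfl
  have Y : ∀ i, y i ∈ Rd ι 1 := fun i => mem_of_L (h.hy i) rfl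
  induction n with
  | zero =>
    intro m
    induction m with
    | zero =>
      intro N T b hT h0 l U hU
      obtain ⟨c, rfl⟩ := h.c0 T l
      have := (b U hU _ (b _ (ι_mem c⁻¹) _ hT).1).1
      rwa [← map_mul, inv_mul_cancel₀ (fun e => h0 (by simp [e])), map_one, mul_one] at this
    | succ m ih =>
      intro N T b hT h0 l U hU
      obtain ⟨i, hi⟩ : ∃ i, x i * T ≠ 0 := by
        by_contra e
        push Not at e
        exact h0 (by rw [← one_mul T, ← h.one, add_mul, mul_assoc, mul_assoc, e, e]; simp)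
      let N' : AddSubgroup R :=
        { carrier := {U | ∀ p ∈ Rd ι 1, p * U ∈ N}
          add_mem' := fun ha hb p hp => mul_add p _ _ ▸ add_mem (ha p hp) (hb p hp)
          zero_mem' := fun p _ => by simp
          neg_mem' := fun ha p hp => mul_neg p _ ▸ neg_mem (ha p hp) }
      have := ih N' _ (fun a ha V hV => ⟨fun p hp => mul_assoc p a V ▸ hV _ (mul_mem' hp ha rfl),
        fun p hp => mul_assoc p V a ▸ (b a ha _ (hV p hp)).2⟩)
        (fun p hp => mul_assoc p _ T ▸ (b _ (mul_mem' hp (X i) rfl) T hT).1) hi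
        (L_mul l (by simpa [add_comm] using L_up (h.hx i) m))
      rw [← one_mul U, ← h.one, add_mul, mul_assoc, mul_assoc]
      exact add_mem (this (mul_mem' (X _) hU (by push_cast; omega)) _ (Y _))
        (this (mul_mem' (X _) hU (by push_cast; omega)) _ (Y _))
  | succ n ih =>
    intro m N T b hT h0 l U hU
    obtain ⟨i, hi⟩ : ∃ i, T * y i ≠ 0 := by
      by_contra e
      push Not at e
      exact h0 (by rw [← mul_one T, ← h.one, mul_add, ← mul_assoc, ← mul_assoc, e, e]; simp)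
    let N' : AddSubgroup R :=
      { carrier := {U | ∀ p ∈ Rd ι (-1), U * p ∈ N}
        add_mem' := fun ha hb p hp => add_mul _ _ p ▸ add_mem (ha p hp) (hb p hp)
        zero_mem' := fun p _ => by simp
        neg_mem' := fun ha p hp => neg_mul _ p ▸ neg_mem (ha p hp) }
    have := ih m N' _ (fun a ha V hV => ⟨fun p hp => mul_assoc a V p ▸ (b a ha _ (hV p hp)).1,
      fun p hp => mul_assoc V a p ▸ hV _ (mul_mem' ha hp rfl)⟩)
      (fun p hp => mul_assoc T _ p ▸ (b _ (mul_mem' (Y i) hp rfl) T hT).2) hi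
      (L_mul (by simpa [add_comm] using L_up (h.hy i) n) l)
    rw [← mul_one U, ← h.one, mul_add, ← mul_assoc, ← mul_assoc]
    exact add_mem (this (mul_mem' hU (Y _) (by push_cast; omega)) _ (X _))
      (this (mul_mem' hU (Y _) (by push_cast; omega)) _ (X _))

lemma simple' (h : H ι x y) {d : ℤ} {N : AddSubgroup R} {T : R} (b : Bim ι N) (hT : T ∈ N)
    (h0 : T ≠ 0) (l : T ∈ Rd ι d) : Rd ι d ≤ N := by
  obtain ⟨n, m, rfl, l'⟩ := L_of_mem l
  exact simple h n m N T b hT h0 l'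

lemma extract {N : AddSubgroup R} (b : Bim ι N) (s : Finset ℤ) : ∀ T : ℤ → R,
    (∀ d ∈ s, T d ∈ Rd ι d) → ∑ d ∈ s, T d ∈ N → ∀ d ∈ s, T d ∈ N := by
  induction s using Finset.induction_on with
  | empty => simp
  | insert g s hg ih =>
    intro T h1 h2
    obtain ⟨n, hn⟩ := ((eventually_all_finset _).2 fun d hd =>
      (h1 d hd).and (eventually_ge_atTop d.natAbs)).exists
    let c : ℤ → F := fun d => t ^ 2 ^ (n + d).toNat - t ^ 2 ^ (n + g).toNat
    have k : ∑ d ∈ insert g s, ι (c d) * T d ∈ N := by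
      convert sub_mem (b _ (ι_mem (t ^ 2 ^ n)) _ h2).2 (b _ (ι_mem (t ^ 2 ^ (n + g).toNat)) _ h2).1
      rw [Finset.sum_mul, Finset.mul_sum, ← Finset.sum_sub_distrib]
      exact Finset.sum_congr rfl fun d hd => by rw [(hn d hd).1, map_sub, sub_mul]
    rw [Finset.sum_insert hg, show c g = 0 from sub_self _, map_zero, zero_mul, zero_add] at k
    have r : ∀ d ∈ s, T d ∈ N := fun d hd => by
      have := (b _ (ι_mem (c d)⁻¹) _ (ih _ (fun d hd => mul_mem' (ι_mem _)
        (h1 d (Finset.mem_insert_of_mem hd)) (zero_add d).symm) k d hd)).1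
      rwa [← mul_assoc, ← map_mul, inv_mul_cancel₀, map_one, one_mul] at this
      intro e
      have e1 := Nat.pow_right_injective le_rfl (t_pow (sub_eq_zero.1 e))
      have e2 := (hn d (Finset.mem_insert_of_mem hd)).2
      have e3 := (hn g (Finset.mem_insert_self _ _)).2
      exact hg ((show d = g by omega) ▸ hd)
    intro d hd
    rcases Finset.mem_insert.1 hd with rfl | hd
    · rw [Finset.sum_insert hg] at h2
      simpa using sub_mem h2 (sum_mem r)
    · exact r d hd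

lemma rep {S : Set ℤ} {z : R} (h : z ∈ ⨆ d ∈ S, Rd ι d) : ∃ T : ℤ →₀ R, ↑T.support ⊆ S ∧
    (∀ d, T d ∈ Rd ι d) ∧ z = ∑ d ∈ T.support, T d := by
  rw [iSup_subtype'] at h
  refine AddSubgroup.iSup_induction _ (C := fun z => ∃ T : ℤ →₀ R, ↑T.support ⊆ S ∧
    (∀ d, T d ∈ Rd ι d) ∧ z = T.sum fun _ => id) h (fun d z hz => ⟨Finsupp.single d z, ?_, ?_, ?_⟩)
    ⟨0, by simp, fun _ => zero_mem _, by simp⟩ ?_
  · exact (Finset.coe_subset.2 Finsupp.support_single_subset).trans (by simp)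
  · intro e
    rw [Finsupp.single_apply]
    split_ifs with k
    exacts [k ▸ hz, zero_mem _]
  · simp
  · rintro _ _ ⟨T, a1, a2, rfl⟩ ⟨U, b1, b2, rfl⟩
    exact ⟨T + U, (Finset.coe_subset.2 Finsupp.support_add).trans (by simp [a1, b1]),
      fun d => add_mem (a2 d) (b2 d), (Finsupp.sum_add_index' (by simp) (by simp)).symm⟩

lemma deg {S : Set ℤ} {z : R} {d : ℤ} (h : z ∈ ⨆ d ∈ S, Rd ι d) (hd : z ∈ Rd ι d) (h0 : z ≠ 0) :
    d ∈ S := by
  by_contra e
  obtain ⟨T, a1, a2, a3⟩ := rep h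
  have hs : d ∉ T.support := fun k => e (a1 k)
  have := extract (N := ⊥) (fun a _ x hx => by simp [AddSubgroup.mem_bot.1 hx]) (insert d T.support)
    (update T d (-z)) (fun c _ => by
      by_cases k : c = d
      · subst k; simpa using hd
      · rw [update_of_ne k]; exact a2 c) (by
      rw [Finset.sum_insert hs, update_self, Finset.sum_update_of_notMem hs, ← a3]; simp) d
    (Finset.mem_insert_self _ _)
  exact h0 (by simpa using this)

lemma bim_sup (S : Set ℤ) : Bim ι (⨆ d ∈ S, Rd ι d) := fun a ha z hz => by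
  obtain ⟨T, a1, a2, rfl⟩ := rep hz
  rw [Finset.mul_sum, Finset.sum_mul]
  have k : ∀ d ∈ T.support, Rd ι d ≤ ⨆ d ∈ S, Rd ι d := fun d hd => le_biSup (Rd ι) (a1 hd)
  exact ⟨sum_mem fun d hd => k d hd (mul_mem' ha (a2 d) (zero_add d).symm),
    sum_mem fun d hd => k d hd (mul_mem' (a2 d) ha (add_zero d).symm)⟩

end Pool.Agent.Lib.helper17.SG
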