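import Mathlib
import Pool.Agent.Lib.helper17.SG1

set_option autoImplicit false

namespace Pool.Agent.Lib.helper17.SG

open Filter Function

lemma dec_poly (p : Polynomial (ZMod 2)) : ∃ a b : F, algebraMap _ F p = a ^ 2 + t * b ^ 2 := by
  induction p using Polynomial.induction_on' with
  | add p q hp hq =>
    obtain ⟨a, b, h⟩ := hp
    obtain ⟨c, d, k⟩ := hq
    exact ⟨a + c, b + d, by rw [map_add, h, k, add_pow_char, add_pow_char]; ring⟩
  | monomial n c =>
    have hc : c = 0 ∨ c = 1 := by revert c; decide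
    rcases hc with rfl | rfl
    · exact ⟨0, 0, by simp⟩
    · rw [← Polynomial.X_pow_eq_monomial, map_pow, RatFunc.algebraMap_X]
      obtain ⟨k, rfl | rfl⟩ := Nat.even_or_odd' n
      · exact ⟨t ^ k, 0, by rw [t]; ring⟩
      · exact ⟨0, t ^ k, by rw [t]; ring⟩

lemma dec (f : F) : ∃ a b : F, f = a ^ 2 + t * b ^ 2 := by
  obtain ⟨a, b, h⟩ := dec_poly (f.num * f.denom)
  have h0 : algebraMap _ F f.denom ≠ 0 := RatFunc.algebraMap_ne_zero f.denom_ne_zero
  refine ⟨a / algebraMap _ F f.denom, b / algebraMap _ F f.denom, ?_⟩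
  conv_lhs => rw [← f.num_div_denom]
  rw [map_mul] at h
  field_simp
  exact h

noncomputable def ψ : F × F →+ F where
  toFun p := p.1 ^ 2 + t * p.2 ^ 2
  map_zero' := by simp
  map_add' p q := by simp only [Prod.fst_add, Prod.snd_add, add_pow_char]; ring

lemma t_ne : t ≠ 0 := RatFunc.X_ne_zero

lemma ψ_bij : Bijective ψ := by
  refine ⟨(injective_iff_map_eq_zero _).2 fun p h => ?_, fun f => ?_⟩
  · have h : p.1 ^ 2 + t * p.2 ^ 2 = 0 := h
    have b : p.2 = 0 := by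
      by_contra b
      have e : t = (p.1 / p.2) * (p.1 / p.2) := by
        field_simp
        rw [← CharTwo.neg_eq (p.1 ^ 2)]
        linear_combination h
      have h0 : p.1 / p.2 ≠ 0 := fun k => t_ne (by rw [e, k, mul_zero])
      have := congrArg RatFunc.intDegree e
      rw [RatFunc.intDegree_mul h0 h0, t, RatFunc.intDegree_X] at this
      omega
    exact Prod.ext (by simpa [b] using h) b
  · obtain ⟨a, b, h⟩ := dec f
    exact ⟨(a, b), h.symm⟩

noncomputable def χ : F × F ≃+ F := AddEquiv.ofBijective ψ ψ_bij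

lemma χ_smul (c f : F) : χ.symm (c ^ 2 * f) = c • χ.symm f := by
  obtain ⟨p, rfl⟩ := χ.surjective f
  rw [AddEquiv.symm_apply_eq, χ.symm_apply_apply]
  show c ^ 2 * (p.1 ^ 2 + t * p.2 ^ 2) = (c * p.1) ^ 2 + t * (c * p.2) ^ 2
  ring

abbrev E : Type := AddMonoid.End F
noncomputable def μ : F →+* E := Module.toAddMonoidEnd F F
noncomputable def xE (i : Bool) : E :=
  (bif i then AddMonoidHom.fst F F else AddMonoidHom.snd F F).comp χ.symm.toAddMonoidHom
noncomputable def yE (i : Bool) : E :=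
  ψ.comp (bif i then AddMonoidHom.inl F F else AddMonoidHom.inr F F)

lemma xt (f : F) : xE true f = (χ.symm f).1 := rfl
lemma xf (f : F) : xE false f = (χ.symm f).2 := rfl
lemma yt (f : F) : yE true f = f ^ 2 + t * 0 ^ 2 := rfl
lemma yf (f : F) : yE false f = 0 ^ 2 + t * f ^ 2 := rfl

lemma L_E {n m : ℕ} {T : E} : L μ n m T ↔ ∀ a f, T (a ^ 2 ^ n * f) = a ^ 2 ^ m * T f :=
  forall_congr' fun _ => DFunLike.ext_iff

lemma HE : H μ xE yE := by
  refine ⟨fun T h => ⟨T 1, AddMonoidHom.ext fun f => ?_⟩, fun i => L_E.2 fun a f => ?_,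
    fun i => L_E.2 fun a f => ?_, AddMonoidHom.ext fun f => ?_⟩
  · have := L_E.1 h f 1
    simp only [pow_zero, pow_one, mul_one] at this
    exact this.trans (mul_comm _ _)
  · cases i <;> simp [xt, xf, χ_smul]
  · cases i <;> simp [yt, yf] <;> ring
  · refine Eq.trans ?_ (χ.apply_symm_apply f)
    show ψ (_, 0) + ψ (0, _) = ψ _
    rw [← map_add, Prod.mk_add_mk, add_zero, zero_add]; rfl

lemma x_one : xE true 1 = 1 := by
  have : χ.symm 1 = (1, 0) := χ.symm_apply_eq.2 (by show 1 = ψ _; simp [ψ])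
  simp [xt, this]

lemma x_t : xE true t = 0 := by
  have : χ.symm t = (0, 1) := χ.symm_apply_eq.2 (by show t = ψ _; simp [ψ])
  simp [xt, this]

lemma x_surj : Surjective (xE true) := fun a => ⟨χ (a, 0), by simp [xt]⟩

lemma ex_one (d : ℤ) : ∃ z ∈ Rd μ d, z 1 = 1 := by
  induction d using Int.induction_on with
  | zero => exact ⟨_, ι_mem 1, by simp⟩
  | succ n ih =>
    obtain ⟨z, h1, h2⟩ := ih
    exact ⟨_, mul_mem' h1 (mem_of_L (HE.hy true) rfl) (by simp), by simpa [yt] using h2⟩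
  | pred n ih =>
    obtain ⟨z, h1, h2⟩ := ih
    exact ⟨_, mul_mem' h1 (mem_of_L (HE.hx true) rfl) (by simp; ring), by simpa [x_one] using h2⟩

lemma span (n : ℕ) : ∃ (I : Type) (_ : Fintype I) (b : I → F), ∀ f, ∃ c : I → F,
    f = ∑ i, c i ^ 2 ^ n * b i := by
  induction n with
  | zero => exact ⟨Unit, inferInstance, fun _ => 1, fun f => ⟨fun _ => f, by simp⟩⟩
  | succ n ih =>
    obtain ⟨I, _, b, h⟩ := ih
    refine ⟨I ⊕ I, inferInstance, Sum.elim (fun i => b i ^ 2) fun i => t * b i ^ 2, fun f => ?_⟩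
    obtain ⟨u, v, rfl⟩ := dec f
    obtain ⟨c, rfl⟩ := h u
    obtain ⟨d, rfl⟩ := h v
    refine ⟨Sum.elim c d, ?_⟩
    simp only [Fintype.sum_sum_type, Sum.elim_inl, Sum.elim_inr, sum_pow_char, Finset.mul_sum,
      pow_succ 2 n, pow_mul, mul_pow]
    congr 1
    exact Finset.sum_congr rfl fun i _ => by ring

lemma inj_of_surj {S : E} (h : S ∈ Rd μ 0) (hs : Surjective S) : Injective S := by
  obtain ⟨n, m, e, l⟩ := L_of_mem h
  obtain rfl : n = m := by omega
  let C := (iterateFrobenius F 2 n).fieldRange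
  obtain ⟨I, _, b, hb⟩ := span n
  have : Module.Finite C F := Module.Finite.of_surjective (Fintype.linearCombination C b) fun f => by
    obtain ⟨c, rfl⟩ := hb f
    exact ⟨fun i => ⟨_, c i, rfl⟩, rfl⟩
  let S' : F →ₗ[C] F :=
    { toFun := S, map_add' := map_add S
      map_smul' := by rintro ⟨_, a, rfl⟩ f; exact L_E.1 l a f }
  exact (LinearMap.injective_iff_surjective (f := S')).2 hs

lemma no_unit {u : E} (h : u ∈ Rd μ 1) (v : E) (h1 : u * v = 1) : False := by
  have s : ∀ f, u (v f) = f := fun f => DFunLike.congr_fun h1 f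
  have i := inj_of_surj (S := xE true * u) (mul_mem' (mem_of_L (HE.hx true) rfl) h rfl)
    (x_surj.comp fun f => ⟨_, s f⟩)
  have : v t = 0 := i (by show xE true (u (v t)) = _; rw [s, x_t, map_zero])
  exact t_ne (by rw [← s t, this, map_zero])

noncomputable def RR : Subring E :=
  { (⨆ d ∈ Set.univ, Rd μ d : AddSubgroup E) with
    one_mem' := le_biSup (Rd μ) (Set.mem_univ 0) (map_one μ ▸ ι_mem 1)
    mul_mem' := fun {a b} ha hb => by
      obtain ⟨T, -, a2, rfl⟩ := rep ha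
      obtain ⟨U, -, b2, rfl⟩ := rep hb
      rw [Finset.sum_mul_sum]
      exact sum_mem (S := (⨆ d ∈ Set.univ, Rd μ d : AddSubgroup E)) fun d _ => sum_mem fun e _ =>
        le_biSup (Rd μ) (Set.mem_univ _) (mul_mem' (a2 d) (b2 e) rfl) }

lemma mem_RR {T : E} {d : ℤ} (h : T ∈ Rd μ d) : T ∈ RR := le_biSup (Rd μ) (Set.mem_univ d) h

noncomputable def ν : F →+* RR := μ.codRestrict RR fun c => mem_RR (ι_mem c)

lemma L_coe {n m : ℕ} {T : RR} : L ν n m T ↔ L μ n m T.1 := forall_congr' fun _ => Subtype.ext_iff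

lemma Rd_coe {d : ℤ} {T : RR} : T ∈ Rd ν d ↔ T.1 ∈ Rd μ d :=
  eventually_congr (Eventually.of_forall fun _ => L_coe)

lemma HR : H ν (fun i => ⟨xE i, mem_RR (mem_of_L (HE.hx i) rfl)⟩)
    (fun i => ⟨yE i, mem_RR (mem_of_L (HE.hy i) rfl)⟩) :=
  ⟨fun _ h => (HE.c0 _ (L_coe.1 h)).imp fun _ => Subtype.ext, fun i => L_coe.2 (HE.hx i),
    fun i => L_coe.2 (HE.hy i), Subtype.ext HE.one⟩

lemma top (z : RR) : z ∈ ⨆ d ∈ Set.univ, Rd ν d := by
  obtain ⟨T, -, a2, e⟩ := rep z.2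
  have : z = ∑ d ∈ T.support, ⟨T d, mem_RR (a2 d)⟩ := Subtype.ext (by simpa using e)
  rw [this]
  exact sum_mem fun d _ => le_biSup (Rd ν) (Set.mem_univ d) (Rd_coe.2 (a2 d))

lemma nz (g h : ℤ) : ∃ p ∈ Rd ν g, ∃ q ∈ Rd ν h, p * q ≠ 0 := by
  obtain ⟨p, p1, p2⟩ := ex_one g
  obtain ⟨q, q1, q2⟩ := ex_one h
  refine ⟨⟨p, mem_RR p1⟩, Rd_coe.2 p1, ⟨q, mem_RR q1⟩, Rd_coe.2 q1, fun e => ?_⟩
  have : p (q 1) = 0 := DFunLike.congr_fun (congrArg Subtype.val e) 1
  rw [q2, p2] at this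
  exact one_ne_zero this

end Pool.Agent.Lib.helper17.SG
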