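import Mathlib

set_option autoImplicit false
set_option maxHeartbeats 4000000
set_option synthInstance.maxSize 4096

namespace H17Skel

def m3 {N : ℕ} (i j k : Fin N) (a b c : Fin N → ℝ) : ℝ :=
  a i * b j * c k - a i * b k * c j - a j * b i * c k + a j * b k * c i + a k * b i * c j
    - a k * b j * c i

def H : Fin 8 → Fin 4 → ℝ :=
  ![![0, 0, 0, 1], ![2, 0, 0, 1], ![2, 2, 1, 1], ![0, 2, 0, 1], ![1, -1, 0, 1], ![3, 1, 0, 1],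
    ![1, 3, 0, 1], ![-1, 1, 0, 1]]

def T : Fin 4 → Finset (Fin 8) := ![{0, 1, 4}, {1, 2, 5}, {2, 3, 6}, {0, 3, 7}]

def adj (x y : Fin 8) : Prop := x ≠ y ∧ ∃ j, ({x, y} : Finset (Fin 8)) ⊆ T j

instance (x y : Fin 8) : Decidable (adj x y) := by unfold adj; infer_instance

theorem LA (c : Fin 8 → Fin 8 → Fin 4 → ℝ) (hs : ∀ x y, c x y = c y x)
    (h0 : ∀ x y, ¬ adj x y → c x y = 0)
    (hv : ∀ y i j k, ∑ x, m3 i j k (c x y) (H x) (H y) = 0) :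
    ∃ g : Fin 4 → ℝ, ∀ x y w j, x < y → w ∉ ({x, y} : Finset (Fin 8)) → insert w {x, y} = T j →
      ∃ s t : ℝ, c x y - g j • H w = s • H x + t • H y := by
  have E : ∀ y i j k, m3 i j k (c 0 y) (H 0) (H y) + m3 i j k (c 1 y) (H 1) (H y)
      + m3 i j k (c 2 y) (H 2) (H y) + m3 i j k (c 3 y) (H 3) (H y)
      + m3 i j k (c 4 y) (H 4) (H y) + m3 i j k (c 5 y) (H 5) (H y)
      + m3 i j k (c 6 y) (H 6) (H y) + m3 i j k (c 7 y) (H 7) (H y) = 0 := by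
    intro y i j k
    have := hv y i j k
    rwa [Fin.sum_univ_eight] at this
  have e00 := E 0 0 1 2
  rw [h0 0 0 (by decide), hs 1 0, h0 2 0 (by decide), hs 3 0, hs 4 0, h0 5 0 (by decide), h0 6 0 (by decide), hs 7 0] at e00
  simp [m3, H] at e00
  have e01 := E 0 0 1 3
  rw [h0 0 0 (by decide), hs 1 0, h0 2 0 (by decide), hs 3 0, hs 4 0, h0 5 0 (by decide), h0 6 0 (by decide), hs 7 0] at e01
  simp [m3, H] at e01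
  have e02 := E 0 0 2 3
  rw [h0 0 0 (by decide), hs 1 0, h0 2 0 (by decide), hs 3 0, hs 4 0, h0 5 0 (by decide), h0 6 0 (by decide), hs 7 0] at e02
  simp [m3, H] at e02
  have e03 := E 0 1 2 3
  rw [h0 0 0 (by decide), hs 1 0, h0 2 0 (by decide), hs 3 0, hs 4 0, h0 5 0 (by decide), h0 6 0 (by decide), hs 7 0] at e03
  simp [m3, H] at e03
  have e10 := E 1 0 1 2
  rw [h0 1 1 (by decide), hs 2 1, h0 3 1 (by decide), hs 4 1, hs 5 1, h0 6 1 (by decide), h0 7 1 (by decide)] at e10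
  simp [m3, H] at e10
  have e11 := E 1 0 1 3
  rw [h0 1 1 (by decide), hs 2 1, h0 3 1 (by decide), hs 4 1, hs 5 1, h0 6 1 (by decide), h0 7 1 (by decide)] at e11
  simp [m3, H] at e11
  have e12 := E 1 0 2 3
  rw [h0 1 1 (by decide), hs 2 1, h0 3 1 (by decide), hs 4 1, hs 5 1, h0 6 1 (by decide), h0 7 1 (by decide)] at e12
  simp [m3, H] at e12
  have e13 := E 1 1 2 3
  rw [h0 1 1 (by decide), hs 2 1, h0 3 1 (by decide), hs 4 1, hs 5 1, h0 6 1 (by decide), h0 7 1 (by decide)] at e13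
  simp [m3, H] at e13
  have e20 := E 2 0 1 2
  rw [h0 0 2 (by decide), h0 2 2 (by decide), hs 3 2, h0 4 2 (by decide), hs 5 2, hs 6 2, h0 7 2 (by decide)] at e20
  simp [m3, H] at e20
  have e21 := E 2 0 1 3
  rw [h0 0 2 (by decide), h0 2 2 (by decide), hs 3 2, h0 4 2 (by decide), hs 5 2, hs 6 2, h0 7 2 (by decide)] at e21
  simp [m3, H] at e21
  have e22 := E 2 0 2 3
  rw [h0 0 2 (by decide), h0 2 2 (by decide), hs 3 2, h0 4 2 (by decide), hs 5 2, hs 6 2, h0 7 2 (by decide)] at e22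
  simp [m3, H] at e22
  have e23 := E 2 1 2 3
  rw [h0 0 2 (by decide), h0 2 2 (by decide), hs 3 2, h0 4 2 (by decide), hs 5 2, hs 6 2, h0 7 2 (by decide)] at e23
  simp [m3, H] at e23
  have e30 := E 3 0 1 2
  rw [h0 1 3 (by decide), h0 3 3 (by decide), h0 4 3 (by decide), h0 5 3 (by decide), hs 6 3, hs 7 3] at e30
  simp [m3, H] at e30
  have e31 := E 3 0 1 3
  rw [h0 1 3 (by decide), h0 3 3 (by decide), h0 4 3 (by decide), h0 5 3 (by decide), hs 6 3, hs 7 3] at e31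
  simp [m3, H] at e31
  have e32 := E 3 0 2 3
  rw [h0 1 3 (by decide), h0 3 3 (by decide), h0 4 3 (by decide), h0 5 3 (by decide), hs 6 3, hs 7 3] at e32
  simp [m3, H] at e32
  have e33 := E 3 1 2 3
  rw [h0 1 3 (by decide), h0 3 3 (by decide), h0 4 3 (by decide), h0 5 3 (by decide), hs 6 3, hs 7 3] at e33
  simp [m3, H] at e33
  have e40 := E 4 0 1 2
  rw [h0 2 4 (by decide), h0 3 4 (by decide), h0 4 4 (by decide), h0 5 4 (by decide), h0 6 4 (by decide), h0 7 4 (by decide)] at e40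
  simp [m3, H] at e40
  have e41 := E 4 0 1 3
  rw [h0 2 4 (by decide), h0 3 4 (by decide), h0 4 4 (by decide), h0 5 4 (by decide), h0 6 4 (by decide), h0 7 4 (by decide)] at e41
  simp [m3, H] at e41
  have e42 := E 4 0 2 3
  rw [h0 2 4 (by decide), h0 3 4 (by decide), h0 4 4 (by decide), h0 5 4 (by decide), h0 6 4 (by decide), h0 7 4 (by decide)] at e42
  simp [m3, H] at e42
  have e43 := E 4 1 2 3
  rw [h0 2 4 (by decide), h0 3 4 (by decide), h0 4 4 (by decide), h0 5 4 (by decide), h0 6 4 (by decide), h0 7 4 (by decide)] at e43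
  simp [m3, H] at e43
  have e50 := E 5 0 1 2
  rw [h0 0 5 (by decide), h0 3 5 (by decide), h0 4 5 (by decide), h0 5 5 (by decide), h0 6 5 (by decide), h0 7 5 (by decide)] at e50
  simp [m3, H] at e50
  have e51 := E 5 0 1 3
  rw [h0 0 5 (by decide), h0 3 5 (by decide), h0 4 5 (by decide), h0 5 5 (by decide), h0 6 5 (by decide), h0 7 5 (by decide)] at e51
  simp [m3, H] at e51
  have e52 := E 5 0 2 3
  rw [h0 0 5 (by decide), h0 3 5 (by decide), h0 4 5 (by decide), h0 5 5 (by decide), h0 6 5 (by decide), h0 7 5 (by decide)] at e52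
  simp [m3, H] at e52
  have e53 := E 5 1 2 3
  rw [h0 0 5 (by decide), h0 3 5 (by decide), h0 4 5 (by decide), h0 5 5 (by decide), h0 6 5 (by decide), h0 7 5 (by decide)] at e53
  simp [m3, H] at e53
  have e60 := E 6 0 1 2
  rw [h0 0 6 (by decide), h0 1 6 (by decide), h0 4 6 (by decide), h0 5 6 (by decide), h0 6 6 (by decide), h0 7 6 (by decide)] at e60
  simp [m3, H] at e60
  have e61 := E 6 0 1 3
  rw [h0 0 6 (by decide), h0 1 6 (by decide), h0 4 6 (by decide), h0 5 6 (by decide), h0 6 6 (by decide), h0 7 6 (by decide)] at e61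
  simp [m3, H] at e61
  have e62 := E 6 0 2 3
  rw [h0 0 6 (by decide), h0 1 6 (by decide), h0 4 6 (by decide), h0 5 6 (by decide), h0 6 6 (by decide), h0 7 6 (by decide)] at e62
  simp [m3, H] at e62
  have e63 := E 6 1 2 3
  rw [h0 0 6 (by decide), h0 1 6 (by decide), h0 4 6 (by decide), h0 5 6 (by decide), h0 6 6 (by decide), h0 7 6 (by decide)] at e63
  simp [m3, H] at e63
  have e70 := E 7 0 1 2
  rw [h0 1 7 (by decide), h0 2 7 (by decide), h0 4 7 (by decide), h0 5 7 (by decide), h0 6 7 (by decide), h0 7 7 (by decide)] at e70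
  simp [m3, H] at e70
  have e71 := E 7 0 1 3
  rw [h0 1 7 (by decide), h0 2 7 (by decide), h0 4 7 (by decide), h0 5 7 (by decide), h0 6 7 (by decide), h0 7 7 (by decide)] at e71
  simp [m3, H] at e71
  have e72 := E 7 0 2 3
  rw [h0 1 7 (by decide), h0 2 7 (by decide), h0 4 7 (by decide), h0 5 7 (by decide), h0 6 7 (by decide), h0 7 7 (by decide)] at e72
  simp [m3, H] at e72
  have e73 := E 7 1 2 3
  rw [h0 1 7 (by decide), h0 2 7 (by decide), h0 4 7 (by decide), h0 5 7 (by decide), h0 6 7 (by decide), h0 7 7 (by decide)] at e73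
  simp [m3, H] at e73
  obtain ⟨g0, hg0⟩ : ∃ g, g = (1/2 : ℝ) * c 0 4 0 + (1/2 : ℝ) * c 0 4 1 := ⟨_, rfl⟩
  obtain ⟨g1, hg1⟩ : ∃ g, g = c 1 5 2 := ⟨_, rfl⟩
  obtain ⟨g2, hg2⟩ : ∃ g, g = (-3/2 : ℝ) * c 2 6 0 + (1/2 : ℝ) * c 2 6 1 + (2 : ℝ) * c 2 6 2 := ⟨_, rfl⟩
  obtain ⟨g3, hg3⟩ : ∃ g, g = (1/2 : ℝ) * c 0 7 0 + (1/2 : ℝ) * c 0 7 1 := ⟨_, rfl⟩
  refine ⟨![g0, g1, g2, g3], ?_⟩
  have hc : ∀ (x y w : Fin 8) (j : Fin 4), x < y → w ∉ ({x, y} : Finset (Fin 8)) →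
      insert w {x, y} = T j →
      (x = 0 ∧ y = 1 ∧ w = 4 ∧ j = 0) ∨
      (x = 0 ∧ y = 4 ∧ w = 1 ∧ j = 0) ∨
      (x = 1 ∧ y = 4 ∧ w = 0 ∧ j = 0) ∨
      (x = 1 ∧ y = 2 ∧ w = 5 ∧ j = 1) ∨
      (x = 1 ∧ y = 5 ∧ w = 2 ∧ j = 1) ∨
      (x = 2 ∧ y = 5 ∧ w = 1 ∧ j = 1) ∨
      (x = 2 ∧ y = 3 ∧ w = 6 ∧ j = 2) ∨
      (x = 2 ∧ y = 6 ∧ w = 3 ∧ j = 2) ∨
      (x = 3 ∧ y = 6 ∧ w = 2 ∧ j = 2) ∨
      (x = 0 ∧ y = 3 ∧ w = 7 ∧ j = 3) ∨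
      (x = 0 ∧ y = 7 ∧ w = 3 ∧ j = 3) ∨
      (x = 3 ∧ y = 7 ∧ w = 0 ∧ j = 3) := by decide +kernel
  intro x y w j h1 h2 h3
  rcases hc x y w j h1 h2 h3 with ⟨rfl, rfl, rfl, rfl⟩ | ⟨rfl, rfl, rfl, rfl⟩ | ⟨rfl, rfl, rfl, rfl⟩ | ⟨rfl, rfl, rfl, rfl⟩ | ⟨rfl, rfl, rfl, rfl⟩ | ⟨rfl, rfl, rfl, rfl⟩ | ⟨rfl, rfl, rfl, rfl⟩ | ⟨rfl, rfl, rfl, rfl⟩ | ⟨rfl, rfl, rfl, rfl⟩ | ⟨rfl, rfl, rfl, rfl⟩ | ⟨rfl, rfl, rfl, rfl⟩ | ⟨rfl, rfl, rfl, rfl⟩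
  · refine ⟨((-1/2 : ℝ) * (c 0 1 0 - g0 * (1 : ℝ)) - (-1 : ℝ) * (c 0 1 3 - g0 * (1 : ℝ))),
      ((0 : ℝ) * (c 0 1 3 - g0 * (1 : ℝ)) - (-1/2 : ℝ) * (c 0 1 0 - g0 * (1 : ℝ))), ?_⟩
    funext i
    fin_cases i <;> simp [H] <;> linarith
  · refine ⟨((-1 : ℝ) * (c 0 4 0 - g0 * (2 : ℝ)) - (-1 : ℝ) * (c 0 4 3 - g0 * (1 : ℝ))),
      ((0 : ℝ) * (c 0 4 3 - g0 * (1 : ℝ)) - (-1 : ℝ) * (c 0 4 0 - g0 * (2 : ℝ))), ?_⟩
    funext i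
    fin_cases i <;> simp [H] <;> linarith
  · refine ⟨((1/2 : ℝ) * (c 1 4 0 - g0 * (0 : ℝ)) - (-1/2 : ℝ) * (c 1 4 1 - g0 * (0 : ℝ))),
      ((-1 : ℝ) * (c 1 4 1 - g0 * (0 : ℝ)) - (0 : ℝ) * (c 1 4 0 - g0 * (0 : ℝ))), ?_⟩
    funext i
    fin_cases i <;> simp [H] <;> linarith
  · refine ⟨((1/2 : ℝ) * (c 1 2 0 - g1 * (3 : ℝ)) - (1/2 : ℝ) * (c 1 2 1 - g1 * (1 : ℝ))),
      ((1/2 : ℝ) * (c 1 2 1 - g1 * (1 : ℝ)) - (0 : ℝ) * (c 1 2 0 - g1 * (3 : ℝ))), ?_⟩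
    funext i
    fin_cases i <;> simp [H] <;> linarith
  · refine ⟨((1/2 : ℝ) * (c 1 5 0 - g1 * (2 : ℝ)) - (3/2 : ℝ) * (c 1 5 1 - g1 * (2 : ℝ))),
      ((1 : ℝ) * (c 1 5 1 - g1 * (2 : ℝ)) - (0 : ℝ) * (c 1 5 0 - g1 * (2 : ℝ))), ?_⟩
    funext i
    fin_cases i <;> simp [H] <;> linarith
  · refine ⟨((-1/4 : ℝ) * (c 2 5 0 - g1 * (2 : ℝ)) - (-3/4 : ℝ) * (c 2 5 1 - g1 * (0 : ℝ))),
      ((-1/2 : ℝ) * (c 2 5 1 - g1 * (0 : ℝ)) - (-1/2 : ℝ) * (c 2 5 0 - g1 * (2 : ℝ))), ?_⟩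
    funext i
    fin_cases i <;> simp [H] <;> linarith
  · refine ⟨((1/2 : ℝ) * (c 2 3 0 - g2 * (1 : ℝ)) - (0 : ℝ) * (c 2 3 1 - g2 * (3 : ℝ))),
      ((1/2 : ℝ) * (c 2 3 1 - g2 * (3 : ℝ)) - (1/2 : ℝ) * (c 2 3 0 - g2 * (1 : ℝ))), ?_⟩
    funext i
    fin_cases i <;> simp [H] <;> linarith
  · refine ⟨((3/4 : ℝ) * (c 2 6 0 - g2 * (0 : ℝ)) - (1/4 : ℝ) * (c 2 6 1 - g2 * (2 : ℝ))),
      ((1/2 : ℝ) * (c 2 6 1 - g2 * (2 : ℝ)) - (1/2 : ℝ) * (c 2 6 0 - g2 * (0 : ℝ))), ?_⟩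
    funext i
    fin_cases i <;> simp [H] <;> linarith
  · refine ⟨((-3/2 : ℝ) * (c 3 6 0 - g2 * (2 : ℝ)) - (-1/2 : ℝ) * (c 3 6 1 - g2 * (2 : ℝ))),
      ((0 : ℝ) * (c 3 6 1 - g2 * (2 : ℝ)) - (-1 : ℝ) * (c 3 6 0 - g2 * (2 : ℝ))), ?_⟩
    funext i
    fin_cases i <;> simp [H] <;> linarith
  · refine ⟨((-1/2 : ℝ) * (c 0 3 1 - g3 * (1 : ℝ)) - (-1 : ℝ) * (c 0 3 3 - g3 * (1 : ℝ))),
      ((0 : ℝ) * (c 0 3 3 - g3 * (1 : ℝ)) - (-1/2 : ℝ) * (c 0 3 1 - g3 * (1 : ℝ))), ?_⟩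
    funext i
    fin_cases i <;> simp [H] <;> linarith
  · refine ⟨((1 : ℝ) * (c 0 7 0 - g3 * (0 : ℝ)) - (-1 : ℝ) * (c 0 7 3 - g3 * (1 : ℝ))),
      ((0 : ℝ) * (c 0 7 3 - g3 * (1 : ℝ)) - (1 : ℝ) * (c 0 7 0 - g3 * (0 : ℝ))), ?_⟩
    funext i
    fin_cases i <;> simp [H] <;> linarith
  · refine ⟨((1/2 : ℝ) * (c 3 7 0 - g3 * (0 : ℝ)) - (-1/2 : ℝ) * (c 3 7 1 - g3 * (0 : ℝ))),
      ((0 : ℝ) * (c 3 7 1 - g3 * (0 : ℝ)) - (1 : ℝ) * (c 3 7 0 - g3 * (0 : ℝ))), ?_⟩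
    funext i
    fin_cases i <;> simp [H] <;> linarith

end H17Skel
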