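import Mathlib

set_option autoImplicit false

namespace H17SD

open Set Topology

/-- `ω + 1` (left part) next to the poset `b, y < 0, 1, 2, …` (right part) -/
inductive Y : Type
  | c (n : ℕ∞) : Y
  | m (t : Bool) : Y
  | t (n : ℕ) : Y

def le : Y → Y → Prop
  | Y.c a, Y.c b => a ≤ b
  | Y.m a, Y.m b => a = b
  | Y.m _, Y.t _ => True
  | Y.t a, Y.t b => a = b
  | _, _ => False

theorem le_rf (x : Y) : le x x := by cases x <;> simp [le]

theorem le_tr {x y z : Y} (h : le x y) (h' : le y z) : le x z := by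
  cases x <;> cases y <;> cases z <;> simp only [le] at h h' ⊢ <;> exact h.trans h'

theorem le_as {x y : Y} (h : le x y) (h' : le y x) : x = y := by
  cases x <;> cases y <;> simp only [le] at h h'
  · rw [le_antisymm h h']
  · rw [h]
  · rw [h]

instance : TopologicalSpace Y where
  IsOpen U := (∀ x y, le x y → x ∈ U → y ∈ U) ∧ (Y.c ⊤ ∈ U → ∃ n : ℕ, Y.c n ∈ U)
  isOpen_univ := ⟨fun _ _ _ _ => trivial, fun _ => ⟨0, trivial⟩⟩
  isOpen_inter := fun s t hs ht => ⟨fun x y h hx => ⟨hs.1 x y h hx.1, ht.1 x y h hx.2⟩, fun h => by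
    obtain ⟨a, ha⟩ := hs.2 h.1
    obtain ⟨b, hb⟩ := ht.2 h.2
    exact ⟨a + b, hs.1 _ _ (by simp [le]) ha, ht.1 _ _ (by simp [le]) hb⟩⟩
  isOpen_sUnion := fun _ hS => ⟨fun x y h ⟨t, ht, hx⟩ => ⟨t, ht, (hS t ht).1 x y h hx⟩,
    fun ⟨t, ht, h⟩ => by
      obtain ⟨a, ha⟩ := (hS t ht).2 h
      exact ⟨a, t, ht, ha⟩⟩

theorem mem_cl {x y : Y} : x ∈ closure ({y} : Set Y) ↔ le x y := by
  constructor
  · intro h
    by_contra hn
    obtain ⟨z, h1, h2⟩ := mem_closure_iff.mp h {z | ¬ le z y}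
      ⟨fun a b hab ha hb => ha (le_tr hab hb), fun h' => by
        cases y with
        | c a =>
          cases a with
          | top => exact absurd (le_rf _) h'
          | coe a => exact ⟨a + 1, by
              simp only [mem_ofPred_eq, le, not_le]; exact_mod_cast Nat.lt_succ_self a⟩
        | m a => exact ⟨0, by simp [le]⟩
        | t a => exact ⟨0, by simp [le]⟩⟩ hn
    exact h1 (h2 ▸ le_rf _)
  · intro h
    exact mem_closure_iff.mpr fun U hU hx => ⟨y, hU.1 _ _ h hx, rfl⟩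

instance : T0Space Y :=
  ⟨fun _ _ h => le_as (mem_cl.mp (specializes_iff_mem_closure.mp h.specializes'))
    (mem_cl.mp (specializes_iff_mem_closure.mp h.specializes))⟩

theorem strong (D : Set Y) (hne : D.Nonempty)
    (hD : ∀ a ∈ D, ∀ b ∈ D, ∃ c ∈ D, le a c ∧ le b c) (x : Y) (U : Set Y) (hU : IsOpen U)
    (h : ∀ z, (∀ d ∈ D, le d z) → le x z → z ∈ U) :
    ∃ d ∈ D, ∀ z, le d z → le x z → z ∈ U := by
  by_cases hm : ∃ d ∈ D, ∀ e ∈ D, le e d
  · obtain ⟨d, hd, h1⟩ := hm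
    exact ⟨d, hd, fun z hz hx => h z (fun e he => le_tr (h1 e he) hz) hx⟩
  push Not at hm
  have hs : ∀ d ∈ D, ∃ e ∈ D, le d e ∧ ¬ le e d := by
    intro d hd
    obtain ⟨e, he, h1⟩ := hm d hd
    obtain ⟨c, hc, h2, h3⟩ := hD d hd e he
    exact ⟨c, hc, h2, fun h4 => h1 (le_tr h3 h4)⟩
  have hc : ∀ d ∈ D, ∃ n : ℕ, d = Y.c n := by
    intro d hd
    obtain ⟨e, he, h1, h2⟩ := hs d hd
    obtain ⟨f, _, h3, h4⟩ := hs e he
    cases d with
    | c a =>
      cases a with
      | top =>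
        cases e <;> simp only [le] at h1 h2
        exact absurd le_top h2
      | coe a => exact ⟨a, rfl⟩
    | m a =>
      cases e <;> cases f <;> simp only [le] at h1 h2 h3 h4
      all_goals first | exact absurd h1.symm h2 | exact absurd h3.symm h4
    | t a =>
      cases e <;> simp only [le] at h1 h2
      exact absurd h1.symm h2
  have hub : ∀ n : ℕ, ∃ k : ℕ, n ≤ k ∧ Y.c k ∈ D := by
    intro n
    induction n with
    | zero =>
      obtain ⟨d, hd⟩ := hne
      obtain ⟨k, rfl⟩ := hc d hd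
      exact ⟨k, Nat.zero_le _, hd⟩
    | succ n ih =>
      obtain ⟨k, h1, h2⟩ := ih
      obtain ⟨e, he, _, h4⟩ := hs _ h2
      obtain ⟨k', rfl⟩ := hc e he
      simp only [le, Nat.cast_le, not_le] at h4
      exact ⟨k', by omega, he⟩
  by_cases hx : le x (Y.c ⊤)
  · obtain ⟨n, hn⟩ := hU.2 (h _ (fun d hd => by
      obtain ⟨k, rfl⟩ := hc d hd
      simp [le]) hx)
    obtain ⟨k, h1, h2⟩ := hub n
    exact ⟨_, h2, fun z hz _ => hU.1 _ _ (le_tr (by simpa [le] using h1) hz) hn⟩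
  · obtain ⟨k, _, h2⟩ := hub 0
    refine ⟨_, h2, fun z hz hx' => absurd (le_tr hx' ?_) hx⟩
    cases z <;> simp only [le] at hz ⊢
    exact le_top

theorem mem_cl_pi {x y : Bool → Y} :
    x ∈ closure ({y} : Set (Bool → Y)) ↔ ∀ i, le (x i) (y i) := by
  rw [← specializes_iff_mem_closure, specializes_pi]
  simp only [specializes_iff_mem_closure, mem_cl]

def d (n : ℕ) : Bool → Y := fun i => cond i (Y.c n) (Y.m true)

def x0 : Bool → Y := fun i => cond i (Y.c 0) (Y.m false)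

def UU : Set (Bool → Y) := ⋃ n : ℕ, {f | le (Y.c n) (f true) ∧ f false = Y.t n}

theorem UU_open : IsOpen UU := by
  refine isOpen_iUnion fun n => ?_
  have h1 : IsOpen {y | le (Y.c n) y} := ⟨fun _ _ h h' => le_tr h' h, fun _ => ⟨n, le_rf (Y.c n)⟩⟩
  have h2 : IsOpen {y | y = Y.t n} := ⟨by
    rintro x y h rfl
    cases y <;> simp only [le] at h
    simp [h], by simp⟩
  exact (h1.preimage (continuous_apply (A := fun _ : Bool => Y) true)).inter
    (h2.preimage (continuous_apply (A := fun _ : Bool => Y) false))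

theorem d_le {a b : ℕ} (h : a ≤ b) : ∀ i, le (d a i) (d b i) := by
  rintro (_ | _)
  · exact le_rf _
  · simpa [d, le] using h

theorem hyp (z : Bool → Y) (h1 : ∀ n i, le (d n i) (z i)) (h2 : ∀ i, le (x0 i) (z i)) :
    z ∈ UU := by
  have a1 := h1 0 false
  have a2 := h2 false
  simp only [d, x0, cond_false] at a1 a2
  cases hz : z false with
  | c n => simp [hz, le] at a1
  | m t => simp only [hz, le] at a1 a2; simp [← a1] at a2
  | t n => exact mem_iUnion.mpr ⟨n, h1 n true, hz⟩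

def zz (n : ℕ) : Bool → Y := fun i => cond i (Y.c n) (Y.t (n + 1))

theorem zz1 (n : ℕ) : ∀ i, le (d n i) (zz n i) := by
  rintro (_ | _) <;> simp [d, zz, le]

theorem zz2 (n : ℕ) : ∀ i, le (x0 i) (zz n i) := by
  rintro (_ | _) <;> simp [x0, zz, le]

theorem zz3 (n : ℕ) : zz n ∉ UU := by
  intro h
  obtain ⟨k, h1, h2⟩ := mem_iUnion.mp h
  simp only [zz, cond_true, cond_false, le, Nat.cast_le, Y.t.injEq] at h1 h2
  omega

end H17SD
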