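import Mathlib

set_option autoImplicit false

namespace H17Tope

open Finset Matrix Polynomial

section
variable {n d : ℕ} (a : Fin n → Fin d → ℝ)

/-- The `i`-th hyperplane, with normal vector `a i`. -/
def hyp (i : Fin n) : Submodule ℝ (Fin d → ℝ) := LinearMap.ker (dotProductBilin ℝ ℝ (a i))

/-- The normals are nonzero and define distinct hyperplanes. -/
def IsArr : Prop := (∀ i, a i ≠ 0) ∧ Function.Injective (hyp a)

/-- The rank: codimension of the intersection of all hyperplanes. -/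
noncomputable def rk : ℕ := d - Module.finrank ℝ (⨅ i, hyp a i : Submodule ℝ (Fin d → ℝ))

/-- The complement of the arrangement. -/
def U : Set (Fin d → ℝ) := {x | ∀ i, x ∉ hyp a i}

/-- Chambers: connected components of the complement. -/
def Ch : Type := {C : Set (Fin d → ℝ) // ∃ x ∈ U a, C = connectedComponentIn (U a) x}

/-- The number of hyperplanes separating two chambers. -/
noncomputable def sep (C D : Ch a) : ℕ :=
  {i | ∃ x ∈ C.1, ∃ y ∈ D.1, (a i ⬝ᵥ x) * (a i ⬝ᵥ y) < 0}.ncard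

/-- The tope graph. -/
def tope : SimpleGraph (Ch a) := SimpleGraph.fromRel fun C D => sep a C D = 1

/-- Vertex-transitive graphs. -/
def VT {V : Type} (G : SimpleGraph V) : Prop := ∀ x y, ∃ φ : G ≃g G, φ x = y

theorem comp {x : Fin d → ℝ} (h : x ∈ U a) :
    connectedComponentIn (U a) x = {y | ∀ i, 0 < (a i ⬝ᵥ x) * (a i ⬝ᵥ y)} := by
  have hx : ∀ i, 0 < (a i ⬝ᵥ x) * (a i ⬝ᵥ x) := fun i => mul_self_pos.mpr (h i)
  refine Set.Subset.antisymm (fun y hy i => not_le.mp fun g => ?_)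
    (IsPreconnected.subset_connectedComponentIn (Convex.isPreconnected ?_) hx
      fun y hy i g => (hy i).ne' (mul_eq_zero_of_right _ g))
  · obtain ⟨z, z1, z2⟩ := isPreconnected_connectedComponentIn.intermediate_value hy
      (mem_connectedComponentIn h) (f := fun y => (a i ⬝ᵥ x) * (a i ⬝ᵥ y)) (by fun_prop)
      ⟨g, (hx i).le⟩
    exact mul_ne_zero (h i) (connectedComponentIn_subset _ _ z1 i) z2
  · rw [Set.ofPred_forall]
    exact convex_iInter fun i => convex_halfSpace_gt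
      ⟨fun _ _ => by simp [mul_add], fun _ _ => by simp [mul_left_comm]⟩ 0

theorem same {x y : Fin d → ℝ} (hx : x ∈ U a) (hy : y ∈ U a) :
    connectedComponentIn (U a) x = connectedComponentIn (U a) y ↔
      ∀ i, 0 < (a i ⬝ᵥ x) * (a i ⬝ᵥ y) :=
  ⟨fun h => by simpa [comp a hx] using h.ge (mem_connectedComponentIn hy),
    fun h => connectedComponentIn_eq (comp a hx ▸ h)⟩

instance fin : Finite (Ch a) := by
  choose p h1 h2 using fun C : Ch a => C.2
  refine Finite.of_injective (fun C i => 0 < a i ⬝ᵥ p C) fun C D e => Subtype.ext ?_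
  rw [h2, h2, same a (h1 _) (h1 _)]
  intro i
  have : a i ⬝ᵥ p C ≠ 0 := h1 C i
  have : a i ⬝ᵥ p D ≠ 0 := h1 D i
  have := congrFun e i
  rw [mul_pos_iff]
  grind

open Classical in
/-- The magnitude: sum of all entries of the inverse of the matrix `q ^ sep C D` over `Q(q)`. -/
noncomputable def Mag : RatFunc ℚ :=
  letI := Fintype.ofFinite (Ch a)
  ∑ C, ∑ D, (Matrix.of fun C D : Ch a => (RatFunc.X : RatFunc ℚ) ^ sep a C D)⁻¹ C D

end

noncomputable def pl (R : Type) [CommRing R] : List ℤ → R[X]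
  | [] => 0
  | c :: l => (c : R[X]) + X * pl R l

def ev (B : ℤ) (l : List ℤ) : ℤ := l.foldr (fun c r => c + B * r) 0

theorem cpl (R : Type) [CommRing R] (l : List ℤ) : ∀ m, (pl R l).coeff m = l.getD m 0 := by
  induction l with
  | nil => simp [pl]
  | cons c l ih => intro m; rw [pl, ← C_eq_intCast]; cases m <;> simp [ih, coeff_C, -map_intCast]

theorem kron {N : ℕ} (δ : Fin N → ℕ) (W : Fin N → List ℤ) (D : List ℤ) (b B : ℕ)
    (hW : ∀ l, ∀ c ∈ W l, c.natAbs ≤ b) (hD : ∀ c ∈ D, c.natAbs ≤ b) (hB : (N + 1) * b < B)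
    (h : ∑ l, B ^ δ l * ev B (W l) = ev B D) : ∑ l, X ^ δ l * pl ℚ (W l) = pl ℚ D := by
  have m : ∀ l, (pl ℤ l).map (Int.castRingHom ℚ) = pl ℚ l := fun l => by ext; simp [cpl]
  have e : ∀ l, (pl ℤ l).eval (B : ℤ) = ev B l := fun l => by induction l <;> simp [pl, ev, *]
  have c : ∀ l : List ℤ, (∀ c ∈ l, c.natAbs ≤ b) → ∀ m, |(pl ℤ l).coeff m| ≤ b := fun l h m => by
    rw [cpl, List.getD_eq_getElem?_getD]
    cases g : l[m]? with
    | none => simp
    | some x => have := h x (List.mem_of_getElem? g); simp only [Option.getD, Int.cast_id]; grind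
  suffices ∑ l, X ^ δ l * pl ℤ (W l) - pl ℤ D = 0 by
    simpa [Polynomial.map_sum, m, sub_eq_zero] using congrArg (map (Int.castRingHom ℚ)) this
  by_contra g
  obtain ⟨q, q1, q2⟩ := exists_eq_pow_rootMultiplicity_mul_and_not_dvd _ g 0
  generalize rootMultiplicity (0 : ℤ) _ = k at q1
  simp only [C_0, sub_zero] at q1 q2
  have a := congrArg (eval (B : ℤ)) q1
  simp only [eval_sub, eval_finsetSum, eval_mul, eval_pow, eval_X, e, h, sub_self] at a
  have a' := sub_dvd_eval_sub (B : ℤ) 0 q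
  rw [(mul_eq_zero.mp a.symm).resolve_left (pow_ne_zero _ (by omega)), sub_zero, zero_sub, dvd_neg,
    ← coeff_zero_eq_eval_zero] at a'
  have d := Int.le_of_dvd (abs_pos.mpr fun g => q2 (X_dvd_iff.mpr g)) ((dvd_abs _ _).mpr a')
  rw [← coeff_X_pow_mul q k, ← q1, coeff_sub, finsetSum_coeff] at d
  have := (abs_sub _ _).trans' d |>.trans (add_le_add ((abs_sum_le_sum_abs _ _).trans
    (sum_le_card_nsmul _ _ (b : ℤ) fun l _ => by
      rw [coeff_X_pow_mul']
      split_ifs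
      exacts [c _ (hW l) _, by simp])) (c _ hD _))
  simp only [card_fin, nsmul_eq_mul] at this
  nlinarith

theorem mag {V : Type} [Fintype V] [DecidableEq V] (δ : V → V → ℕ) (h : ∀ x y, δ x y = 0 ↔ x = y)
    (W : V → ℚ[X]) (D : ℚ[X]) (e : ∀ x, ∑ y, X ^ δ x y * W y = D) :
    (∑ x, ∑ y, (Matrix.of fun x y => (RatFunc.X : RatFunc ℚ) ^ δ x y)⁻¹ x y) *
      algebraMap _ _ D = algebraMap _ _ (∑ x, W x) := by
  have a : (Matrix.of fun x y => (X : ℚ[X]) ^ δ x y).det ≠ 0 := fun g => by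
    have := congrArg (evalRingHom 0) g
    rw [RingHom.map_det, show (evalRingHom 0).mapMatrix (Matrix.of fun x y => (X : ℚ[X]) ^ δ x y) = 1 by
      ext x y; simp [one_apply, zero_pow_eq, h]] at this
    simp at this
  have b : IsUnit (Matrix.of fun x y => (RatFunc.X : RatFunc ℚ) ^ δ x y).det := by
    have := (map_ne_zero_iff _ (IsFractionRing.injective ℚ[X] (RatFunc ℚ))).mpr a
    rw [RingHom.map_det] at this
    rw [show (Matrix.of fun x y => (RatFunc.X : RatFunc ℚ) ^ δ x y) = (algebraMap ℚ[X] _).mapMatrix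
      (Matrix.of fun x y => X ^ δ x y) from Matrix.ext fun x y => by simp]
    exact this.isUnit
  have c : (Matrix.of fun x y => (RatFunc.X : RatFunc ℚ) ^ δ x y) *ᵥ
      (fun y => algebraMap _ _ (W y)) = fun _ => algebraMap _ _ D := by
    ext x; simp [mulVec, dotProduct, ← e x]
  have := congrArg ((Matrix.of fun x y => (RatFunc.X : RatFunc ℚ) ^ δ x y)⁻¹ *ᵥ ·) c
  simp only [mulVec_mulVec, nonsing_inv_mul _ b, one_mulVec] at this
  rw [map_sum, sum_mul]
  exact sum_congr rfl fun x _ => (sum_mul _ _ _).trans (congrFun this x).symm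

def ds {n d N : ℕ} (a : Fin n → Fin d → ℤ) (p : Fin N → Fin d → ℤ) (k l : Fin N) : ℕ :=
  #{i | (a i ⬝ᵥ p k) * (a i ⬝ᵥ p l) < 0}

theorem model {n d N : ℕ} (a : Fin n → Fin d → ℤ) (p : Fin N → Fin d → ℤ)
    (cs : List (Fin n → ℤ)) (h1 : ∀ k i, a i ⬝ᵥ p k ≠ 0) (h2 : ∀ k l, ds a p k l = 0 → k = l)
    (h3 : ∀ c ∈ cs, c ≠ 0 ∧ c ᵥ* a = 0)
    (h4 : ∀ s : Fin n → Bool, (∃ k, ∀ i, s i = decide (0 < a i ⬝ᵥ p k)) ∨
      ∃ c ∈ cs, ∀ i, if s i then 0 ≤ c i else c i ≤ 0) :
    ∃ e : Fin N ≃ Ch fun i j => (a i j : ℝ), ∀ k l, sep _ (e k) (e l) = ds a p k l := by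
  have c : ∀ i k, (fun j => (a i j : ℝ)) ⬝ᵥ (fun j => (p k j : ℝ)) = (a i ⬝ᵥ p k : ℤ) := by
    simp [dotProduct]
  have u : ∀ k, (fun j => (p k j : ℝ)) ∈ U fun i j => (a i j : ℝ) := fun k i g =>
    h1 k i (by exact_mod_cast (c i k).symm.trans g)
  let e : Fin N → Ch fun i j => (a i j : ℝ) := fun k => ⟨_, _, u k, rfl⟩
  have s : ∀ k l, sep _ (e k) (e l) = ds a p k l := fun k l => by
    rw [sep, ds, ← Set.ncard_coe_finset]
    congr 1
    ext i
    simp only [e, comp _ (u _), c, Set.mem_ofPred_eq, coe_filter, mem_univ, true_and]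
    rw [← Int.cast_lt (R := ℝ), Int.cast_mul, Int.cast_zero]
    refine ⟨fun ⟨x, hx, y, hy, g⟩ => ?_, fun g => ⟨fun j => p k j, fun j => ?_,
      fun j => p l j, fun j => ?_, by rwa [c, c]⟩⟩
    · have := hx i; have := hy i
      rw [mul_pos_iff, mul_neg_iff] at *
      grind
    all_goals rw [c]; exact mul_self_pos.mpr (Int.cast_ne_zero.mpr (h1 _ _))
  refine ⟨.ofBijective e ⟨fun k l g => h2 k l ?_, fun ⟨C, x, hx, g⟩ => ?_⟩, s⟩
  · rw [← s, g, s]
    simp [ds, mul_self_nonneg]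
  rcases h4 fun i => decide (0 < (fun j => (a i j : ℝ)) ⬝ᵥ x) with ⟨k, f⟩ | ⟨v, v1, v2⟩
  · refine ⟨k, Subtype.ext (((same _ (u k) hx).mpr fun i => ?_).trans g.symm)⟩
    have := f i
    have : (fun j => (a i j : ℝ)) ⬝ᵥ x ≠ 0 := hx i
    have := h1 k i
    rw [c, mul_pos_iff, Int.cast_pos, Int.cast_lt_zero]
    grind
  obtain ⟨w1, w2⟩ := h3 v v1
  obtain ⟨i, hi⟩ := Function.ne_iff.mp w1
  have z : ∑ i, (v i : ℝ) * (fun j => (a i j : ℝ)) ⬝ᵥ x = 0 := by
    simp only [dotProduct, mul_sum, ← mul_assoc]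
    rw [sum_comm]
    refine sum_eq_zero fun j _ => ?_
    rw [← sum_mul]
    exact mul_eq_zero_of_left (by exact_mod_cast congrFun w2 j) _
  refine absurd ((sum_eq_zero_iff_of_nonneg fun j _ => ?_).mp z i (mem_univ _))
    (mul_ne_zero (Int.cast_ne_zero.mpr hi) (hx i))
  have := v2 j
  split_ifs at this with f
  · exact mul_nonneg (Int.cast_nonneg_iff.mpr this) (of_decide_eq_true f).le
  · exact mul_nonneg_of_nonpos_of_nonpos (Int.cast_nonpos.mpr this) (by simpa using f)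

def cv (n : ℕ) (c : ℕ × ℕ) (i : Fin n) : ℤ :=
  if c.1.testBit i then 1 else if c.2.testBit i then -1 else 0

theorem final {n d : ℕ} (a : Fin n → Fin d → ℤ) (L : List (List ℤ × ℕ × List ℤ))
    (cs : List (ℕ × ℕ)) (D S : List ℤ) (b B u v : ℕ) (pc : ℕ → ℕ)
    (hp : ∀ z < 2 ^ n, pc z = #{i : Fin n | z.testBit i})
    (h1 : ∀ x ∈ L, x.2.1 < 2 ^ n ∧ ∀ i, (a i ⬝ᵥ fun j => x.1.getD j 0) ≠ 0 ∧
      x.2.1.testBit i = decide (0 < a i ⬝ᵥ fun j => x.1.getD j 0))
    (h2 : (L.map (·.2.1)).IsChain (· < ·)) (h3 : ∀ c ∈ cs, cv n c ≠ 0 ∧ cv n c ᵥ* a = 0)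
    (h4 : ∀ t < 2 ^ n, (∃ c ∈ cs, t &&& c.1 = c.1 ∧ t &&& c.2 = 0) ∨ t ∈ L.map (·.2.1))
    (h5 : ∀ x ∈ L, ∀ c ∈ x.2.2, c.natAbs ≤ b) (h6 : ∀ c ∈ D ++ S, c.natAbs ≤ b)
    (h7 : (L.length + 1) * b < B)
    (h8 : ∀ x ∈ L.map (·.2.1), ((L.map fun y => (y.2.1, ev B y.2.2)).map
      fun y => (B : ℤ) ^ pc (x ^^^ y.1) * y.2).sum = ev B D)
    (h9 : (L.map fun y => ev B y.2.2).sum = ev B S) (hu : u < L.length) (hv : v < L.length)
    (h : #{j : Fin L.length | pc (L[u].2.1 ^^^ L[j].2.1) = 1} ≠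
      #{j : Fin L.length | pc (L[v].2.1 ^^^ L[j].2.1) = 1}) :
    Mag (fun i j => (a i j : ℝ)) * algebraMap _ _ (pl ℚ D) = algebraMap _ _ (pl ℚ S) ∧
      ¬ VT (tope fun i j => (a i j : ℝ)) := by
  classical
  let δ : Fin L.length → Fin L.length → ℕ := fun k l => pc (L[k].2.1 ^^^ L[l].2.1)
  have s : ∀ k l, δ k l = δ l k := fun k l => by simp [δ, Nat.xor_comm]
  have q : ∀ k l, δ k l = #{i : Fin n | (L[k].2.1 ^^^ L[l].2.1).testBit i} := fun k l =>
    hp _ (Nat.xor_lt_two_pow (h1 _ (List.getElem_mem k.2)).1 (h1 _ (List.getElem_mem l.2)).1)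
  have h0 : ∀ k l, δ k l = 0 ↔ k = l := fun k l => by
    refine ⟨fun g => ?_, fun g => by simp [q, g]⟩
    have : L[k].2.1 = L[l].2.1 := Nat.eq_of_testBit_eq fun i => by
      by_cases f : i < n
      · have := filter_eq_empty_iff.mp (card_eq_zero.mp ((q k l).symm.trans g))
          (mem_univ (⟨i, f⟩ : Fin n))
        simpa using this
      · have := Nat.pow_le_pow_right two_pos (not_lt.mp f)
        exact (Nat.testBit_lt_two_pow ((h1 _ (List.getElem_mem k.2)).1.trans_le this)).trans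
          (Nat.testBit_lt_two_pow ((h1 _ (List.getElem_mem l.2)).1.trans_le this)).symm
    have p := List.pairwise_iff_getElem.mp (List.pairwise_map.mp (List.isChain_iff_pairwise.mp h2))
    rcases lt_trichotomy k l with f | f | f
    · exact absurd this (p _ _ _ _ f).ne
    · exact f
    · exact absurd this (p _ _ _ _ f).ne'
  have t : ∀ k l, ds a (fun (k : Fin L.length) j => L[k].1.getD j 0) k l = δ k l := fun k l => by
    rw [q, ds]
    congr 1
    refine filter_congr fun i _ => ?_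
    have := (h1 _ (List.getElem_mem k.2)).2 i
    have := (h1 _ (List.getElem_mem l.2)).2 i
    rw [mul_neg_iff, Nat.testBit_xor]
    grind
  obtain ⟨e, he⟩ := model a (fun (k : Fin L.length) j => L[k].1.getD j 0) (cs.map (cv n))
    (fun k i => ((h1 _ (List.getElem_mem k.2)).2 i).1) (fun k l g => (h0 k l).mp (t k l ▸ g))
    (List.forall_mem_map.mpr h3) fun s => by
      rcases h4 _ (Nat.ofBits_lt_two_pow s) with ⟨c, c1, c2, c3⟩ | g
      · refine Or.inr ⟨_, List.mem_map_of_mem c1, fun i => ?_⟩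
        have := congrArg (·.testBit i) c2
        have := congrArg (·.testBit i) c3
        simp only [Nat.testBit_and, Nat.testBit_ofBits_lt s i i.2, Nat.zero_testBit] at *
        unfold cv
        grind
      · obtain ⟨x, x1, x2⟩ := List.mem_map.mp g
        obtain ⟨k, hk, rfl⟩ := List.getElem_of_mem x1
        exact Or.inl ⟨⟨k, hk⟩, fun i => by
          rw [← Nat.testBit_ofBits_lt s i i.2, ← x2]; exact ((h1 _ x1).2 i).2⟩
  simp only [t] at he
  let _ := Fintype.ofFinite (Ch fun i j => (a i j : ℝ))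
  constructor
  · rw [Mag, mag _ (fun x y => by
      rw [← e.apply_symm_apply x, ← e.apply_symm_apply y, he, h0, e.apply_eq_iff_eq])
      (fun x => pl ℚ L[e.symm x].2.2) (pl ℚ D) fun x => ?_]
    · rw [e.symm.sum_comp fun l => pl ℚ L[l].2.2]
      congr 1
      simpa using kron (fun _ => 0) (fun l : Fin L.length => L[l].2.2) S b B
        (fun l => h5 _ (List.getElem_mem l.2)) (fun c g => h6 c (by simp [g])) h7
        (by simpa using (Fin.sum_univ_fun_getElem L fun y => ev B y.2.2).trans h9)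
    · obtain ⟨k, rfl⟩ := e.surjective x
      rw [← e.sum_comp]
      simp only [he, e.symm_apply_apply]
      refine kron (δ k) (fun l : Fin L.length => L[l].2.2) D b B
        (fun l => h5 _ (List.getElem_mem l.2)) (fun c g => h6 c (by simp [g])) h7 ?_
      rw [← h8 _ (List.mem_map_of_mem (List.getElem_mem k.2)), List.map_map]
      exact Fin.sum_univ_fun_getElem L fun y => (B : ℤ) ^ pc (L[k].2.1 ^^^ y.2.1) * ev B y.2.2
  · intro w
    obtain ⟨φ, g⟩ := w (e ⟨u, hu⟩) (e ⟨v, hv⟩)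
    have : ∀ k, ((tope _).neighborSet (e k)).ncard = #{j | δ k j = 1} := fun k => by
      rw [← Set.ncard_coe_finset, ← Set.ncard_image_of_injective _ e.injective]
      congr 1
      ext x
      obtain ⟨j, rfl⟩ := e.surjective x
      have := h0 k j
      simp [tope, he, s j k]
      grind
    refine h ((this ⟨u, hu⟩).symm.trans (Eq.trans ?_ (this ⟨v, hv⟩)))
    rw [← g]
    exact Nat.card_congr (φ.mapNeighborSet _)

end H17Tope
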