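import Mathlib

set_option autoImplicit false

namespace Pool.Agent.Lib.helper17.WA

open Polynomial

section gen
variable {G : Type} [Group G]

structure Wa (P : Set G) : Prop where
  one : (1 : G) ∈ P
  mul : ∀ a ∈ P, ∀ b ∈ P, a * b ∈ P
  anti : ∀ a ∈ P, a⁻¹ ∈ P → a = 1
  conj : ∀ a ∈ P, ∀ x : G, x⁻¹ * a * x ∈ P
  wa : ∀ a ∈ P, ∀ x : G, (x⁻¹ * a * x)⁻¹ * a ^ 2 ∈ P

lemma Wa.pow {P : Set G} (h : Wa P) {a : G} (ha : a ∈ P) (n : ℕ) : a ^ n ∈ P := by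
  induction n with
  | zero => simpa using h.one
  | succ n ih => rw [pow_succ]; exact h.mul _ ih _ ha

structure Cl (V : Set G) : Prop where
  mul : ∀ a ∈ V, ∀ b ∈ V, a * b ∈ V
  conj : ∀ a ∈ V, ∀ x : G, x⁻¹ * a * x ∈ V
  wa : ∀ a ∈ V, ∀ x y : G, (x⁻¹ * a * x)⁻¹ * (y⁻¹ * a * y) * a ∈ V

lemma Cl.pow {V : Set G} (h : Cl V) {a : G} (ha : a ∈ V) (n : ℕ) (hn : 1 ≤ n) : a ^ n ∈ V := by
  induction n, hn using Nat.le_induction with
  | base => simpa using ha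
  | succ n _ ih => rw [pow_succ]; exact h.mul _ ih _ ha

lemma ext_le {P V : Set G} (hP : Maximal Wa P) (hV : Cl V) (h : ∀ w ∈ V, w⁻¹ ∉ P) : V ⊆ P := by
  obtain ⟨hP, hmax⟩ := hP
  let P' : Set G := {x | x ∈ P ∨ ∃ q ∈ P, ∃ w ∈ V, x = q * w}
  have hc : ∀ q ∈ P, ∀ x : G, x * q * x⁻¹ ∈ P := fun q hq x => by simpa using hP.conj q hq x⁻¹
  have hm : ∀ q ∈ P, ∀ w ∈ V, ∀ y ∈ P', ∃ q' ∈ P, ∃ w' ∈ V, q * w * y = q' * w' := by
    rintro q hq w hw y (hy | ⟨q', hq', w', hw', rfl⟩)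
    · exact ⟨_, hP.mul _ hq _ (hc _ hy w), _, hw, by group⟩
    · exact ⟨_, hP.mul _ hq _ (hc _ hq' w), _, hV.mul _ hw _ hw', by group⟩
  have hP' : Wa P' := by
    refine ⟨Or.inl hP.one, ?_, ?_, ?_, ?_⟩
    · rintro x (hx | ⟨q, hq, w, hw, rfl⟩) y hy
      · rcases hy with hy | ⟨q', hq', w', hw', rfl⟩
        · exact Or.inl (hP.mul _ hx _ hy)
        · exact Or.inr ⟨_, hP.mul _ hx _ hq', _, hw', by group⟩
      · exact Or.inr (hm q hq w hw y hy)
    · have hn : ∀ q ∈ P, ∀ w ∈ V, ∀ y ∈ P', q * w * y ≠ 1 := by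
        intro q hq w hw y hy e
        obtain ⟨q', hq', w', hw', e'⟩ := hm q hq w hw y hy
        apply h w' hw'
        rwa [← eq_inv_of_mul_eq_one_left (e'.symm.trans e)]
      rintro x (hx | ⟨q, hq, w, hw, rfl⟩) hy
      · rcases hy with hy | ⟨q', hq', w', hw', e⟩
        · exact hP.anti x hx hy
        · exact absurd (by rw [← e]; group) (hn q' hq' w' hw' x (Or.inl hx))
      · exact absurd (by group) (hn q hq w hw _ hy)
    · rintro x (hx | ⟨q, hq, w, hw, rfl⟩) y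
      · exact Or.inl (hP.conj _ hx y)
      · exact Or.inr ⟨_, hP.conj _ hq y, _, hV.conj _ hw y, by group⟩
    · rintro x (hx | ⟨q, hq, w, hw, rfl⟩) y
      · exact Or.inl (hP.wa _ hx y)
      · refine Or.inr ⟨_, hP.conj _ (hP.wa _ hq y) (y⁻¹ * w * y), _, hV.wa _ hw y q, ?_⟩
        simp only [pow_two]
        group
  intro w hw
  exact hmax hP' (fun x hx => Or.inl hx) (Or.inr ⟨1, hP.one, w, hw, by group⟩)

theorem crit (W : G → Set G) (h0 : ∀ g, g ∈ W g) (hc : ∀ g, Cl (W g))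
    (hi : ∀ g, ∀ w ∈ W g, w⁻¹ ∈ W g⁻¹) (h1 : ∀ g, g ≠ 1 → 1 ∉ W g)
    (h2 : ∀ g, ∀ a ∈ W g, ∀ b ∈ W g, ∃ e, e ∈ W a ∧ e ∈ W b)
    (h3 : ∀ P, Wa P → ∀ p ∈ P, p ≠ 1 → ∀ w ∈ W p, w⁻¹ ∉ P) (P : Set G) (hP : Wa P) :
    ∃ Q, P ⊆ Q ∧ Wa Q ∧ ∀ a, a ∈ Q ∨ a⁻¹ ∈ Q := by
  obtain ⟨Q, hPQ, hQ⟩ := zorn_subset_nonempty {Q | Wa Q} (by
    intro c hcs hch hne
    refine ⟨⋃₀ c, ?_, fun s hs => Set.subset_sUnion_of_mem hs⟩
    obtain ⟨s0, hs0⟩ := hne
    have two : ∀ a ∈ ⋃₀ c, ∀ b ∈ ⋃₀ c, ∃ s ∈ c, a ∈ s ∧ b ∈ s := by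
      rintro a ⟨s, hs, ha⟩ b ⟨t, ht, hb⟩
      rcases hch.total hs ht with h | h
      · exact ⟨t, ht, h ha, hb⟩
      · exact ⟨s, hs, ha, h hb⟩
    refine ⟨⟨s0, hs0, (hcs hs0).one⟩, fun a ha b hb => ?_, fun a ha hb => ?_, ?_, ?_⟩
    · obtain ⟨s, hs, h, h'⟩ := two a ha b hb
      exact ⟨s, hs, (hcs hs).mul _ h _ h'⟩
    · obtain ⟨s, hs, h, h'⟩ := two a ha _ hb
      exact (hcs hs).anti _ h h'
    · rintro a ⟨s, hs, ha⟩ x
      exact ⟨s, hs, (hcs hs).conj _ ha x⟩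
    · rintro a ⟨s, hs, ha⟩ x
      exact ⟨s, hs, (hcs hs).wa _ ha x⟩) P hP
  have hQ' : Maximal Wa Q := hQ
  refine ⟨Q, hPQ, hQ'.1, fun g => ?_⟩
  by_contra hg
  push Not at hg
  have hg1 : g ≠ 1 := fun e => hg.1 (e ▸ hQ'.1.one)
  obtain ⟨a, ha, ha'⟩ : ∃ a ∈ W g, a⁻¹ ∈ Q := by
    by_contra hh
    push Not at hh
    exact hg.1 (ext_le hQ' (hc g) hh (h0 g))
  obtain ⟨b, hb, hb'⟩ : ∃ b ∈ W g⁻¹, b⁻¹ ∈ Q := by
    by_contra hh
    push Not at hh
    exact hg.2 (ext_le hQ' (hc _) hh (h0 _))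
  have hb2 := hi _ _ hb
  rw [inv_inv] at hb2
  have a1 : a ≠ 1 := fun e => h1 g hg1 (e ▸ ha)
  have b1 : b⁻¹ ≠ 1 := fun e => h1 g hg1 (e ▸ hb2)
  obtain ⟨e, e1, e2⟩ := h2 g a ha _ hb2
  have e3 := ext_le hQ' (hc _) (h3 Q hQ'.1 _ hb' b1) e2
  have e4 := ext_le hQ' (hc _) (h3 Q hQ'.1 _ ha' (by simpa using a1)) (hi _ _ e1)
  exact h1 a a1 (hQ'.1.anti e e3 e4 ▸ e1)

end gen

/-- polynomials not vanishing at 1 and at -2 -/
def SS : Submonoid ℚ[X] where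
  carrier := {f | f.eval 1 ≠ 0 ∧ f.eval (-2) ≠ 0}
  mul_mem' := fun {f g} hf hg => by
    simp only [Set.mem_ofPred_eq, eval_mul] at *
    exact ⟨mul_ne_zero hf.1 hg.1, mul_ne_zero hf.2 hg.2⟩
  one_mem' := by simp

abbrev A : Type := Localization SS

lemma SS_le : SS ≤ nonZeroDivisors ℚ[X] := fun f hf =>
  mem_nonZeroDivisors_of_ne_zero (fun h => hf.1 (by simp [h]))

instance : IsDomain A := IsLocalization.isDomain_localization SS_le

noncomputable def ev : A →+* ℚ :=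
  IsLocalization.lift (M := SS) (g := evalRingHom 1) (fun y => isUnit_iff_ne_zero.2 y.2.1)

noncomputable def ph : A →+* ℚ :=
  IsLocalization.lift (M := SS) (g := evalRingHom (-2)) (fun y => isUnit_iff_ne_zero.2 y.2.2)

lemma ev_alg (f : ℚ[X]) : ev (algebraMap ℚ[X] A f) = f.eval 1 := IsLocalization.lift_eq _ f

lemma ph_alg (f : ℚ[X]) : ph (algebraMap ℚ[X] A f) = f.eval (-2) := IsLocalization.lift_eq _ f

noncomputable def lam : Aˣ :=
  (IsLocalization.map_units A (⟨X, by simp [SS]⟩ : SS)).unit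

lemma lam_eq : (lam : A) = algebraMap ℚ[X] A X := rfl

noncomputable def cc : ℚ →+* A := (algebraMap ℚ[X] A).comp C

@[simp] lemma ev_cc (q : ℚ) : ev (cc q) = q := by simp [cc, ev_alg]

@[simp] lemma ev_lam : ev lam = 1 := by simp [lam_eq, ev_alg]

@[simp] lemma ph_lam : ph lam = -2 := by simp [lam_eq, ph_alg]

lemma rep (x : A) : ∃ (f : ℚ[X]) (u : Aˣ), x = algebraMap ℚ[X] A f * u := by
  obtain ⟨⟨f, s⟩, h⟩ := IsLocalization.surj SS x
  obtain ⟨u, hu⟩ := IsLocalization.map_units A s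
  exact ⟨f, u⁻¹, by rw [← h, ← hu]; simp⟩

lemma ev_unit (u : Aˣ) : ev u ≠ 0 := (u.isUnit.map ev).ne_zero

lemma ph_unit (u : Aˣ) : ph u ≠ 0 := (u.isUnit.map ph).ne_zero

lemma unit_of {x : A} (h1 : ev x ≠ 0) (h2 : ph x ≠ 0) : IsUnit x := by
  obtain ⟨f, u, rfl⟩ := rep x
  rw [map_mul, ev_alg] at h1
  rw [map_mul, ph_alg] at h2
  exact (IsLocalization.map_units A
    (⟨f, left_ne_zero_of_mul h1, left_ne_zero_of_mul h2⟩ : SS)).mul u.isUnit

lemma dvd_t {x : A} (h : ev x = 0) : (lam : A) - 1 ∣ x := by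
  obtain ⟨f, u, rfl⟩ := rep x
  rw [map_mul, ev_alg] at h
  have h2 : X - C 1 ∣ f := dvd_iff_isRoot.2 ((mul_eq_zero.1 h).resolve_right (ev_unit u))
  have := map_dvd (algebraMap ℚ[X] A) h2
  simp only [map_sub, map_one] at this
  exact this.mul_right _

lemma dvd_s {x : A} (h : ev x ≠ 0) : ∃ N : ℕ, x ∣ ((lam : A) + 2) ^ N := by
  obtain ⟨f, u, rfl⟩ := rep x
  rw [map_mul, ev_alg] at h
  have h1 := left_ne_zero_of_mul h
  have h0 : f ≠ 0 := fun e => h1 (by simp [e])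
  obtain ⟨g, hg, hn⟩ := exists_eq_pow_rootMultiplicity_mul_and_not_dvd f h0 (-2)
  generalize rootMultiplicity (-2) f = N at hg
  subst hg
  have h2 : g ∈ SS := ⟨fun e => h1 (by simp [e]), fun e => hn (dvd_iff_isRoot.2 e)⟩
  refine ⟨N, ?_⟩
  rw [Units.mul_right_dvd, map_mul, (IsLocalization.map_units A (⟨g, h2⟩ : SS)).mul_right_dvd]
  have : (C (-2 : ℚ) : ℚ[X]) = -2 := by rw [map_neg]; rfl
  rw [this]
  simp only [map_pow, map_ofNat, lam_eq, sub_neg_eq_add, map_add]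
  exact dvd_rfl

noncomputable def L (k : ℤ) : A := ((lam ^ k : Aˣ) : A)

lemma L_add (j k : ℤ) : L (j + k) = L j * L k := by simp [L, zpow_add]

@[simp] lemma L_zero : L 0 = 1 := by simp [L]

lemma L_one : L 1 = lam := by simp [L]

lemma L_neg (k : ℤ) : L (-k) * L k = 1 := by rw [← L_add]; simp

@[simp] lemma ev_L (k : ℤ) : ev (L k) = 1 := by
  have : ev (L k) = ((Units.map (ev : A →* ℚ) (lam ^ k) : ℚˣ) : ℚ) := rfl
  rw [this, map_zpow, Units.val_zpow_eq_zpow_val]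
  simp

lemma ph_L (k : ℤ) : ph (L k) = (-2) ^ k := by
  have : ph (L k) = ((Units.map (ph : A →* ℚ) (lam ^ k) : ℚˣ) : ℚ) := rfl
  rw [this, map_zpow, Units.val_zpow_eq_zpow_val]
  simp

noncomputable def dd (x : A) : A := Classical.choose (dvd_t (x := x - cc (ev x)) (by simp))

lemma dd_spec (x : A) : x = cc (ev x) + (lam - 1) * dd x := by
  have := Classical.choose_spec (dvd_t (x := x - cc (ev x)) (by simp))
  rw [dd, ← this]; ring

lemma t_ne : (lam : A) - 1 ≠ 0 := fun h => by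
  have := congrArg ph h
  simp at this
  norm_num at this

noncomputable def de (x : A) : ℚ := ev (dd x)

lemma de_eq {x z : A} (h : x = cc (ev x) + (lam - 1) * z) : de x = ev z := by
  have := dd_spec x
  rw [de, mul_left_cancel₀ t_ne (add_left_cancel (this.symm.trans h))]

lemma de_add (x y : A) : de (x + y) = de x + de y := by
  rw [de_eq (z := dd x + dd y), map_add, de, de]
  rw [map_add, map_add]
  linear_combination dd_spec x + dd_spec y

lemma de_mul (x y : A) : de (x * y) = ev x * de y + de x * ev y := by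
  rw [de_eq (z := x * dd y + dd x * cc (ev y))]
  · simp [de]
  · rw [map_mul, map_mul]
    linear_combination x * dd_spec y + cc (ev y) * dd_spec x

lemma de_neg (x : A) : de (-x) = -de x := by
  rw [de_eq (z := -dd x), map_neg, de]
  rw [map_neg, map_neg]
  linear_combination -dd_spec x

lemma de_one : de 1 = 0 := by rw [de_eq (z := 0)] <;> simp

lemma de_L (k : ℤ) : de (L k) = k := by
  have h1 : de (L 1) = 1 := by rw [de_eq (z := 1)] <;> simp [L_one]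
  have h2 : ∀ j, de (L (j + 1)) = de (L j) + 1 := fun j => by
    rw [L_add, de_mul, h1]; simp [add_comm]
  induction k with
  | zero => simp [de_one]
  | succ n ih => rw [h2, ih]; simp
  | pred n ih =>
    have := h2 (-n - 1)
    rw [sub_add_cancel, ih] at this
    push_cast at this ⊢
    linarith

lemma dvd_L {k : ℤ} (hk : k ≠ 0) {x : A} (h : ev x = 0) : L k - 1 ∣ x := by
  have e := dd_spec (L k)
  have hu : IsUnit (dd (L k)) := by
    refine unit_of ?_ (fun h2 => ?_)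
    · change de (L k) ≠ 0
      rw [de_L]; exact_mod_cast hk
    · have := congrArg ph e
      rw [ph_L, map_add, map_mul, h2, ev_L, map_one, map_one, mul_zero, add_zero] at this
      have h3 := congrArg abs this
      rw [abs_zpow, abs_one, abs_neg, abs_two] at h3
      exact hk ((zpow_eq_one_iff_right₀ (by norm_num) (by norm_num)).1 h3)
  have : L k - 1 = (lam - 1) * dd (L k) := by
    rw [ev_L, map_one] at e
    linear_combination e
  rw [this, hu.mul_right_dvd]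
  exact dvd_t h

end Pool.Agent.Lib.helper17.WA
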