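import Mathlib
import Pool.Agent.Lib.helper17.WA1

set_option autoImplicit false

namespace Pool.Agent.Lib.helper17.WA

open LaurentPolynomial

@[ext] structure GG where
  a : A
  b : A
  c : A
  k : ℤ

noncomputable instance : Mul GG := ⟨fun x y => ⟨x.a + L x.k * y.a, x.b + L x.k * y.b,
  x.c + L x.k ^ 2 * y.c + x.a * (L x.k * y.b), x.k + y.k⟩⟩

noncomputable instance : One GG := ⟨⟨0, 0, 0, 0⟩⟩

noncomputable instance : Inv GG := ⟨fun x => ⟨-(L (-x.k) * x.a), -(L (-x.k) * x.b),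
  L (-x.k) ^ 2 * (x.a * x.b - x.c), -x.k⟩⟩

@[simp] lemma mul_a (x y : GG) : (x * y).a = x.a + L x.k * y.a := rfl
@[simp] lemma mul_b (x y : GG) : (x * y).b = x.b + L x.k * y.b := rfl
@[simp] lemma mul_c (x y : GG) :
    (x * y).c = x.c + L x.k ^ 2 * y.c + x.a * (L x.k * y.b) := rfl
@[simp] lemma mul_k (x y : GG) : (x * y).k = x.k + y.k := rfl
@[simp] lemma one_a : (1 : GG).a = 0 := rfl
@[simp] lemma one_b : (1 : GG).b = 0 := rfl
@[simp] lemma one_c : (1 : GG).c = 0 := rfl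
@[simp] lemma one_k : (1 : GG).k = 0 := rfl
@[simp] lemma inv_a (x : GG) : x⁻¹.a = -(L (-x.k) * x.a) := rfl
@[simp] lemma inv_b (x : GG) : x⁻¹.b = -(L (-x.k) * x.b) := rfl
@[simp] lemma inv_c (x : GG) : x⁻¹.c = L (-x.k) ^ 2 * (x.a * x.b - x.c) := rfl
@[simp] lemma inv_k (x : GG) : x⁻¹.k = -x.k := rfl

noncomputable instance : Group GG := Group.ofLeftAxioms
  (fun x y z => by ext <;> simp only [mul_a, mul_b, mul_c, mul_k, L_add] <;> ring)
  (fun x => by ext <;> simp)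
  (fun x => by ext <;> simp <;> ring)

abbrev LP : Type := ℚ[T;T⁻¹]

noncomputable def e0 : LP →+* ℚ := eval₂ (RingHom.id ℚ) 1
noncomputable def e1 : LP →+* A := eval₂ cc lam
noncomputable def e2 : LP →+* A := eval₂ cc (lam ^ 2)

@[simp] lemma e0_T (k : ℤ) : e0 (T k) = 1 := by simp [e0, eval₂_T]
@[simp] lemma e0_C (q : ℚ) : e0 (C q) = q := by simp [e0, eval₂_C]
@[simp] lemma e1_T (k : ℤ) : e1 (T k) = L k := by simp [e1, eval₂_T, L]
@[simp] lemma e1_C (q : ℚ) : e1 (C q) = cc q := by simp [e1, eval₂_C]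
@[simp] lemma e2_T (k : ℤ) : e2 (T k) = L k ^ 2 := by
  rw [e2, eval₂_T, L, ← Units.val_pow_eq_pow_val, ← zpow_natCast, ← zpow_natCast, ← zpow_mul,
    ← zpow_mul, mul_comm]
@[simp] lemma e2_C (q : ℚ) : e2 (C q) = cc q := by simp [e2, eval₂_C]

lemma ev_e1 (f : LP) : ev (e1 f) = e0 f := by
  induction f using LaurentPolynomial.induction_on' with
  | add p q h1 h2 => simp [h1, h2]
  | C_mul_T n a => simp

lemma ev_e2 (f : LP) : ev (e2 f) = e0 f := by
  induction f using LaurentPolynomial.induction_on' with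
  | add p q h1 h2 => simp [h1, h2]
  | C_mul_T n a => simp

def Ph (g : GG) (f : LP) (w : GG) : Prop := w.k = 0 ∧ w.a = e1 f * g.a ∧ w.b = e1 f * g.b ∧
  ∃ r s, w.c = e2 f * g.c + r * g.a + s * g.b

lemma Ph.mul {g w w' : GG} {f f' : LP} (h : Ph g f w) (h' : Ph g f' w') :
    Ph g (f + f') (w * w') := by
  obtain ⟨h1, h2, h3, r, s, h4⟩ := h
  obtain ⟨k1, k2, k3, r', s', k4⟩ := h'
  refine ⟨by simp [h1, k1], ?_, ?_, r + r' + e1 f * e1 f' * g.b, s + s', ?_⟩ <;>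
    simp only [mul_a, mul_b, mul_c, h1, h2, h3, h4, k2, k3, k4, L_zero, map_add] <;> ring

lemma Ph.inv {g w : GG} {f : LP} (h : Ph g f w) : Ph g (-f) w⁻¹ := by
  obtain ⟨h1, h2, h3, r, s, h4⟩ := h
  refine ⟨by simp [h1], ?_, ?_, -r + e1 f * e1 f * g.b, -s, ?_⟩ <;>
    simp only [inv_a, inv_b, inv_c, h1, h2, h3, h4, L_zero, map_neg, neg_zero] <;> ring

lemma Ph.conj {g w : GG} {f : LP} (h : Ph g f w) (x : GG) :
    Ph g (T (-x.k) * f) (x⁻¹ * w * x) := by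
  obtain ⟨h1, h2, h3, r, s, h4⟩ := h
  refine ⟨by simp [h1], ?_, ?_, L (-x.k) ^ 2 * (r + e1 f * x.b), L (-x.k) ^ 2 * (s - e1 f * x.a),
    ?_⟩ <;>
    simp only [mul_a, mul_b, mul_c, mul_k, inv_a, inv_b, inv_c, inv_k, h1, h2, h3, h4, map_mul,
      add_zero, e1_T, e2_T] <;> ring

lemma Ph.self {g : GG} (h : g.k = 0) : Ph g 1 g := ⟨h, by simp, by simp, 0, 0, by simp⟩

lemma Ph.pow {g w : GG} {f : LP} (h : Ph g f w) (n : ℕ) : Ph g (n * f) (w ^ n) := by
  induction n with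
  | zero => exact ⟨rfl, by simp, by simp, 0, 0, by simp⟩
  | succ n ih =>
    have := ih.mul h
    rwa [← pow_succ, show n * f + f = (n + 1 : ℕ) * f by push_cast; ring] at this

lemma Ph.trans {g w v : GG} {f f' : LP} (h : Ph g f w) (h' : Ph w f' v) : Ph g (f' * f) v := by
  obtain ⟨h1, h2, h3, r, s, h4⟩ := h
  obtain ⟨k1, k2, k3, r', s', k4⟩ := h'
  refine ⟨k1, ?_, ?_, e2 f' * r + r' * e1 f, e2 f' * s + s' * e1 f, ?_⟩ <;>
    simp only [h2, h3, h4, k2, k3, k4, map_mul] <;> ring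

lemma Ph.ginv {g w : GG} {f : LP} (hg : g.k = 0) (h : Ph g f w) : Ph g⁻¹ f w⁻¹ := by
  have h1 := (Ph.self (g := g⁻¹) (by simp [hg])).inv
  rw [inv_inv] at h1
  simpa using h1.trans h.inv

lemma Ph.w1 {g : GG} {f : LP} (hg : g.k = 0) (hf : 0 < e0 f) (h : Ph g f 1) : g = 1 := by
  obtain ⟨-, h2, h3, r, s, h4⟩ := h
  have n1 : e1 f ≠ 0 := fun e => hf.ne' (by rw [← ev_e1, e, map_zero])
  have n2 : e2 f ≠ 0 := fun e => hf.ne' (by rw [← ev_e2, e, map_zero])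
  have a0 := (mul_eq_zero.1 h2.symm).resolve_left n1
  have b0 := (mul_eq_zero.1 h3.symm).resolve_left n1
  rw [a0, b0, mul_zero, mul_zero, add_zero, add_zero] at h4
  exact GG.ext a0 b0 ((mul_eq_zero.1 h4.symm).resolve_left n2) hg

lemma Ph.w2 {g a b : GG} {f f' : LP} (hf : 0 < e0 f) (hf' : 0 < e0 f') (h : Ph g f a)
    (h' : Ph g f' b) : ∃ e F F', 0 < e0 F ∧ 0 < e0 F' ∧ Ph a F e ∧ Ph b F' e := by
  obtain ⟨h1, h2, h3, r, s, h4⟩ := h
  obtain ⟨k1, k2, k3, r', s', k4⟩ := h'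
  obtain ⟨N, z, hz⟩ := dvd_s (x := e1 f) (by rw [ev_e1]; exact hf.ne')
  have h5 : e2 ((4 - T 1) ^ N) = e1 f * (z * (2 - lam) ^ N) := by
    rw [← mul_assoc, ← hz, ← mul_pow, map_pow, map_sub, e2_T, L_one, map_ofNat]
    congr 1; ring
  have h6 : 0 < e0 ((4 - T 1) ^ N) := by
    rw [map_pow, map_sub, e0_T, map_ofNat]; positivity
  generalize z * (2 - lam) ^ N = u at h5
  generalize (4 - T 1 : LP) ^ N = F at h5 h6
  refine ⟨⟨e1 (F * f) * b.a, e1 (F * f) * b.b, e2 (F * f) * b.c, 0⟩, F * f', F * f,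
    by rw [map_mul]; positivity, by rw [map_mul]; positivity,
    ⟨rfl, ?_, ?_, u * (e2 f * r' - e2 f' * r), u * (e2 f * s' - e2 f' * s), ?_⟩,
    ⟨rfl, rfl, rfl, 0, 0, by simp⟩⟩ <;>
    simp only [h2, h3, h4, k2, k3, k4, map_mul, h5] <;> ring

section w3
variable {P : Set GG}

def M (P : Set GG) (q : GG) (f : LP) : Prop := ∃ m : ℕ, 1 ≤ m ∧ ∃ w ∈ P, Ph q (m * f) w

def Sg (P : Set GG) (f : LP) : Prop := ∀ q ∈ P, q.k = 0 → M P q f

lemma M.add (hP : Wa P) {q : GG} {f f' : LP} (h : M P q f) (h' : M P q f') : M P q (f + f') := by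
  obtain ⟨m, hm, w, hw, h1⟩ := h
  obtain ⟨n, hn, v, hv, h2⟩ := h'
  refine ⟨m * n, Nat.mul_pos hm hn, _, hP.mul _ (hP.pow hw n) _ (hP.pow hv m), ?_⟩
  convert (h1.pow n).mul (h2.pow m) using 1
  push_cast; ring

lemma M.smul {q : GG} {f f' : LP} (h : M P q f) (h' : Sg P f') : M P q (f' * f) := by
  obtain ⟨m, hm, w, hw, h1⟩ := h
  obtain ⟨n, hn, v, hv, h2⟩ := h' w hw h1.1
  refine ⟨m * n, Nat.mul_pos hm hn, v, hv, ?_⟩
  convert h1.trans h2 using 1
  push_cast; ring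

lemma Sg.add (hP : Wa P) {f f' : LP} (h : Sg P f) (h' : Sg P f') : Sg P (f + f') :=
  fun q hq hk => (h q hq hk).add hP (h' q hq hk)

lemma Sg.mul {f f' : LP} (h : Sg P f) (h' : Sg P f') : Sg P (f * f') :=
  fun q hq hk => (h' q hq hk).smul h

lemma Sg_C (hP : Wa P) {r : ℚ} (hr : 0 ≤ r) : Sg P (C r) := by
  intro q hq hk
  refine ⟨r.den, r.den_pos, _, hP.pow hq r.num.toNat, ?_⟩
  convert (Ph.self hk).pow r.num.toNat using 1
  have : (r.den : ℚ) * r = (r.num.toNat : ℕ) := by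
    rw [Rat.den_mul_eq_num, ← Int.cast_natCast, Int.toNat_of_nonneg (Rat.num_nonneg.2 hr)]
  rw [← map_natCast C, ← map_mul, this, map_natCast, mul_one]

lemma Sg_T (hP : Wa P) (j : ℤ) : Sg P (T j) := fun q hq hk =>
  ⟨1, le_rfl, _, hP.conj q hq ⟨0, 0, 0, -j⟩, by simpa using (Ph.self hk).conj ⟨0, 0, 0, -j⟩⟩

lemma Sg_up (hP : Wa P) (i : ℕ) : ∀ j : ℤ, Sg P (C (1 + (1 / 2) ^ i) - T j) := by
  induction i with
  | zero =>
    intro j q hq hk
    refine ⟨1, le_rfl, _, hP.wa q hq ⟨0, 0, 0, -j⟩, ?_⟩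
    convert ((Ph.self hk).conj ⟨0, 0, 0, -j⟩).inv.mul ((Ph.self hk).pow 2) using 1
    simp only [pow_zero, map_add, map_one, neg_neg]
    push_cast; ring
  | succ i ih =>
    intro j
    have h0 : (0 : ℚ) < 1 + (1 / 2) ^ i := by positivity
    have e : (1 : ℚ) + (1 / 2) ^ (i + 1) = (1 + (1 / 2) ^ i + 1) / 2 := by ring
    rw [e]
    generalize (1 : ℚ) + (1 / 2) ^ i = c at h0 ih
    have := (Sg_C hP (r := 1 / (2 * c)) (by positivity)).mul
      (((ih j).mul (ih j)).add hP (ih (j + j)))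
    convert this using 1
    have e1 : (C (1 / (2 * c)) * (2 * C c) : LP) = 1 := by
      rw [← map_ofNat C 2, ← map_mul, ← map_mul, ← map_one C]; congr 1; field_simp
    have e2 : (C ((c + 1) / 2) : LP) = C (1 / (2 * c)) * (C c * C c + C c) := by
      rw [← map_mul, ← map_add, ← map_mul]; congr 1; field_simp
    rw [T_add, e2]
    linear_combination (T j) * e1

lemma Sg_up' (hP : Wa P) {r : ℚ} (hr : 0 < r) (j : ℤ) : Sg P (C r + (1 - T j)) := by
  obtain ⟨i, hi⟩ := exists_pow_lt_of_lt_one hr (show (1 / 2 : ℚ) < 1 by norm_num)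
  convert (Sg_up hP i j).add hP (Sg_C hP (sub_pos.2 hi).le) using 1
  simp only [map_add, map_sub, map_one]; ring

lemma Sg_down (hP : Wa P) {r : ℚ} (hr : 0 < r) (j : ℤ) : Sg P (C r + (T j - 1)) := by
  obtain ⟨u, u0, u1⟩ : ∃ u : ℚ, 0 < u ∧ u + u * u ≤ r := by
    refine ⟨min (r / 2) 1, by positivity, ?_⟩
    have := min_le_left (r / 2) 1
    have := min_le_right (r / 2) 1
    have : 0 < min (r / 2) 1 := by positivity
    nlinarith
  have := (((Sg_up' hP u0 (-j)).mul (Sg_T hP j)).add hP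
    ((Sg_C hP u0.le).mul (Sg_up' hP u0 j))).add hP (Sg_C hP (sub_nonneg.2 u1))
  convert this using 1
  have e : (T (-j) * T j : LP) = 1 := by rw [← T_add]; simp
  simp only [map_add, map_sub, map_mul]
  linear_combination e

lemma Sg_all (hP : Wa P) (f : LP) : ∀ r : ℚ, 0 < r → Sg P (C r + (f - C (e0 f))) := by
  induction f using LaurentPolynomial.induction_on' with
  | add p q h1 h2 =>
    intro r hr
    convert (h1 (r / 2) (by positivity)).add hP (h2 (r / 2) (by positivity)) using 1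
    have : (C r : LP) = C (r / 2) + C (r / 2) := by rw [← map_add]; congr 1; ring
    rw [this, map_add, map_add]; ring
  | C_mul_T n a =>
    intro r hr
    rw [map_mul, e0_T, e0_C, mul_one]
    rcases lt_trichotomy a 0 with h | rfl | h
    · convert (Sg_C hP (neg_pos.2 h).le).mul (Sg_up' hP (div_pos hr (neg_pos.2 h)) n) using 1
      have : (C r : LP) = C (-a) * C (r / -a) := by
        rw [← map_mul]; congr 1; have := h.ne; field_simp
      rw [this, map_neg]; ring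
    · simpa using Sg_C hP hr.le
    · convert (Sg_C hP h.le).mul (Sg_down hP (div_pos hr h) n) using 1
      have : (C r : LP) = C a * C (r / a) := by
        rw [← map_mul]; congr 1; field_simp
      rw [this]; ring

lemma Ph.w3 (hP : Wa P) {p w : GG} {f : LP} (hp : p ∈ P) (hk : p.k = 0) (hf : 0 < e0 f)
    (h : Ph p f w) (hw : w⁻¹ ∈ P) : p = 1 := by
  have h1 : M P p (-f) := ⟨1, le_rfl, _, hw, by simpa using h.inv⟩
  have h2 := ((Sg_all hP f (e0 f / 2) (by positivity) p hp hk).add hP h1).smul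
    (Sg_C hP (r := 2 / e0 f) (by positivity))
  have e : C (2 / e0 f) * (C (e0 f / 2) + (f - C (e0 f)) + -f) = -1 := by
    have : (C (2 / e0 f) * (C (e0 f / 2) - C (e0 f)) : LP) = -1 := by
      rw [← map_sub, ← map_mul, ← map_one C, ← map_neg]; congr 1; field_simp; norm_num
    linear_combination this
  rw [e] at h2
  obtain ⟨m, hm, z, hz, h3⟩ := h2
  obtain ⟨n, rfl⟩ := Nat.exists_eq_add_of_le hm
  have h4 := (h3.mul ((Ph.self hk).pow n)).inv
  have h5 := hP.mul _ hz _ (hP.pow hp n)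
  rw [show -(((1 + n : ℕ) : LP) * -1 + n * 1) = 1 by push_cast; ring] at h4
  generalize z * p ^ n = v at h4 h5
  obtain ⟨k1, k2, k3, r, s, k4⟩ := h4
  have h6 : v⁻¹ = (⟨-s, r, 0, 0⟩ : GG)⁻¹ * p * ⟨-s, r, 0, 0⟩ := by
    refine GG.ext ?_ ?_ ?_ ?_
    · rw [k2]; simp [hk]
    · rw [k3]; simp [hk]
    · rw [k4]; simp [hk]; ring
    · rw [k1]; simp [hk]
  have h7 := hP.anti v h5 (h6 ▸ hP.conj p hp _)
  rw [h7, inv_one] at h6
  have := congrArg (fun u => (⟨-s, r, 0, 0⟩ : GG) * u * (⟨-s, r, 0, 0⟩ : GG)⁻¹) h6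
  simp only [mul_one, mul_inv_cancel] at this
  rw [this]; group

end w3

end Pool.Agent.Lib.helper17.WA
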