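import Mathlib
import Pool.Agent.Lib.helper17.WA2

set_option autoImplicit false

namespace Pool.Agent.Lib.helper17.WA

open LaurentPolynomial

lemma de_zero : de 0 = 0 := by simpa using de_mul 0 0

lemma de_sub (x y : A) : de (x - y) = de x - de y := by
  rw [sub_eq_add_neg, de_add, de_neg]; ring

def Ps (g : GG) (n : ℤ) (w : GG) : Prop := w.k = n * g.k ∧ ev w.a = n * ev g.a ∧
  ev w.b = n * ev g.b ∧
  g.k * ev w.c - ev g.a * de w.b + ev g.b * de w.a - n ^ 2 * g.k * ev g.a * ev g.b / 2 =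
    n * (g.k * ev g.c - ev g.a * de g.b + ev g.b * de g.a - g.k * ev g.a * ev g.b / 2)

lemma Ps.self (g : GG) : Ps g 1 g := ⟨by simp, by simp, by simp, by simp⟩

lemma Ps.mul {g w w' : GG} {n n' : ℤ} (h : Ps g n w) (h' : Ps g n' w') :
    Ps g (n + n') (w * w') := by
  obtain ⟨h1, h2, h3, h4⟩ := h
  obtain ⟨k1, k2, k3, k4⟩ := h'
  refine ⟨by rw [mul_k, h1, k1]; ring, ?_, ?_, ?_⟩ <;>
    simp only [mul_a, mul_b, mul_c, map_add, map_mul, map_pow, ev_L, de_add, de_mul, de_L, h2, h3,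
      k2, k3] <;> push_cast
  · ring
  · ring
  · rw [h1]; push_cast
    linear_combination h4 + k4

lemma Ps.inv {g w : GG} {n : ℤ} (h : Ps g n w) : Ps g (-n) w⁻¹ := by
  obtain ⟨h1, h2, h3, h4⟩ := h
  refine ⟨by rw [inv_k, h1]; ring, ?_, ?_, ?_⟩ <;>
    simp only [inv_a, inv_b, inv_c, map_sub, map_neg, map_mul, map_pow, ev_L, de_neg, de_mul, de_L,
      h2, h3] <;> push_cast
  · ring
  · ring
  · rw [h1]; push_cast
    linear_combination -h4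

lemma Ps.conj {g w : GG} {n : ℤ} (h : Ps g n w) (x : GG) : Ps g n (x⁻¹ * w * x) := by
  obtain ⟨h1, h2, h3, h4⟩ := h
  refine ⟨by simp [h1], ?_, ?_, ?_⟩ <;>
    simp only [mul_a, mul_b, mul_c, mul_k, inv_a, inv_b, inv_c, inv_k, map_add, map_sub, map_neg,
      map_mul, map_pow, ev_L, de_add, de_neg, de_mul, de_L, h2, h3] <;> push_cast
  · ring
  · ring
  · rw [h1]; push_cast
    linear_combination h4

lemma Ps.pow (g : GG) (n : ℕ) : Ps g n (g ^ n) := by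
  induction n with
  | zero => exact ⟨by simp, by simp, by simp, by simp [de_zero]⟩
  | succ n ih => rw [pow_succ]; exact_mod_cast ih.mul (Ps.self g)

lemma Ps.cj {g u v : GG} {n : ℤ} (hk : g.k ≠ 0) (hn : n ≠ 0) (hu : Ps g n u) (hv : Ps g n v) :
    ∃ y : GG, u = y⁻¹ * v * y := by
  obtain ⟨h1, h2, h3, h4⟩ := hu
  obtain ⟨k1, k2, k3, k4⟩ := hv
  have hK : v.k ≠ 0 := k1 ▸ mul_ne_zero hn hk
  obtain ⟨x, hx⟩ := dvd_L hK (x := u.a - v.a) (by rw [map_sub, h2, k2, sub_self])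
  obtain ⟨y, hy⟩ := dvd_L hK (x := u.b - v.b) (by rw [map_sub, h3, k3, sub_self])
  have dx := congrArg de hx
  have dy := congrArg de hy
  simp only [de_sub, de_mul, de_L, de_one, map_sub, ev_L, map_one] at dx dy
  rw [k1] at dx dy
  push_cast at dx dy
  obtain ⟨z, hz⟩ := dvd_L (k := v.k + v.k) (by omega)
    (x := u.c - (v.c + v.a * L v.k * y - x * v.b + x * y * (1 - L v.k))) (by
      simp only [map_sub, map_add, map_mul, ev_L, map_one, k2, k3]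
      have : (g.k : ℚ) ≠ 0 := by exact_mod_cast hk
      apply mul_left_cancel₀ this
      linear_combination h4 - k4 + ev g.a * dy - ev g.b * dx)
  rw [L_add] at hz
  refine ⟨⟨x, y, z, 0⟩, GG.ext ?_ ?_ ?_ ?_⟩ <;>
    simp only [mul_a, mul_b, mul_c, mul_k, inv_a, inv_b, inv_c, inv_k, neg_zero, L_zero, zero_add]
  · linear_combination hx
  · linear_combination hy
  · linear_combination hz
  · rw [h1, k1, add_zero]

lemma Ps.cj' {g u : GG} {n : ℤ} (hk : g.k ≠ 0) (hn : 0 < n) (hu : Ps g n u) :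
    ∃ (m : ℕ) (y : GG), 1 ≤ m ∧ u = y⁻¹ * g ^ m * y := by
  obtain ⟨m, rfl⟩ := Int.eq_ofNat_of_zero_le hn.le
  obtain ⟨y, hy⟩ := hu.cj hk hn.ne' (Ps.pow g m)
  exact ⟨m, y, by exact_mod_cast hn, hy⟩

def W (g : GG) : Set GG :=
  {w | (g.k = 0 ∧ ∃ f, 0 < e0 f ∧ Ph g f w) ∨ (g.k ≠ 0 ∧ ∃ n : ℤ, 0 < n ∧ Ps g n w)}

lemma W0 {g w : GG} (h : g.k = 0) : w ∈ W g ↔ ∃ f, 0 < e0 f ∧ Ph g f w := by simp [W, h]

lemma W1 {g w : GG} (h : g.k ≠ 0) : w ∈ W g ↔ ∃ n : ℤ, 0 < n ∧ Ps g n w := by simp [W, h]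

lemma W_self (g : GG) : g ∈ W g := by
  by_cases h : g.k = 0
  · exact (W0 h).2 ⟨1, by simp, Ph.self h⟩
  · exact (W1 h).2 ⟨1, one_pos, Ps.self g⟩

lemma W_cl (g : GG) : Cl (W g) := by
  by_cases h : g.k = 0
  · refine ⟨fun a ha b hb => ?_, fun a ha x => ?_, fun a ha x y => ?_⟩
    · obtain ⟨f, h1, h2⟩ := (W0 h).1 ha
      obtain ⟨f', h3, h4⟩ := (W0 h).1 hb
      exact (W0 h).2 ⟨_, by rw [map_add]; positivity, h2.mul h4⟩
    · obtain ⟨f, h1, h2⟩ := (W0 h).1 ha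
      exact (W0 h).2 ⟨_, by simpa using h1, h2.conj x⟩
    · obtain ⟨f, h1, h2⟩ := (W0 h).1 ha
      exact (W0 h).2 ⟨_, by simpa using h1, ((h2.conj x).inv.mul (h2.conj y)).mul h2⟩
  · refine ⟨fun a ha b hb => ?_, fun a ha x => ?_, fun a ha x y => ?_⟩
    · obtain ⟨f, h1, h2⟩ := (W1 h).1 ha
      obtain ⟨f', h3, h4⟩ := (W1 h).1 hb
      exact (W1 h).2 ⟨_, by positivity, h2.mul h4⟩
    · obtain ⟨f, h1, h2⟩ := (W1 h).1 ha
      exact (W1 h).2 ⟨_, h1, h2.conj x⟩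
    · obtain ⟨f, h1, h2⟩ := (W1 h).1 ha
      exact (W1 h).2 ⟨_, by simpa using h1, ((h2.conj x).inv.mul (h2.conj y)).mul h2⟩

theorem ext_wa (P : Set GG) (hP : Wa P) : ∃ Q, P ⊆ Q ∧ Wa Q ∧ ∀ a, a ∈ Q ∨ a⁻¹ ∈ Q := by
  refine crit W W_self W_cl ?_ ?_ ?_ ?_ P hP
  · intro g w hw
    by_cases h : g.k = 0
    · obtain ⟨f, h1, h2⟩ := (W0 h).1 hw
      exact (W0 (by simp [h])).2 ⟨f, h1, h2.ginv h⟩
    · obtain ⟨n, h1, h2⟩ := (W1 h).1 hw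
      obtain ⟨m, y, hm, rfl⟩ := h2.cj' h h1
      have := (W_cl _).conj _ ((W_cl _).pow (W_self g⁻¹) m hm) y
      convert this using 1
      group
  · intro g hg hw
    by_cases h : g.k = 0
    · obtain ⟨f, h1, h2⟩ := (W0 h).1 hw
      exact hg (h2.w1 h h1)
    · obtain ⟨n, h1, h2⟩ := (W1 h).1 hw
      exact mul_ne_zero h1.ne' h h2.1.symm
  · intro g a ha b hb
    by_cases h : g.k = 0
    · obtain ⟨f, h1, h2⟩ := (W0 h).1 ha
      obtain ⟨f', h3, h4⟩ := (W0 h).1 hb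
      obtain ⟨e, F, F', h5, h6, h7, h8⟩ := h2.w2 h1 h3 h4
      exact ⟨e, (W0 h2.1).2 ⟨F, h5, h7⟩, (W0 h4.1).2 ⟨F', h6, h8⟩⟩
    · obtain ⟨n, h1, h2⟩ := (W1 h).1 ha
      obtain ⟨n', h3, h4⟩ := (W1 h).1 hb
      obtain ⟨m, y, hm, e1⟩ := h2.cj' h h1
      obtain ⟨m', y', hm', e2⟩ := h4.cj' h h3
      refine ⟨g ^ (m * m'), ?_, ?_⟩
      · have := (W_cl _).conj _ ((W_cl _).pow (W_self a) m' hm') y⁻¹
        convert this using 1
        have e : a = y⁻¹ * g ^ m * y⁻¹⁻¹ := by rw [inv_inv, e1]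
        rw [e, conj_pow, ← pow_mul]
        group
      · have := (W_cl _).conj _ ((W_cl _).pow (W_self b) m hm) y'⁻¹
        convert this using 1
        have e : b = y'⁻¹ * g ^ m' * y'⁻¹⁻¹ := by rw [inv_inv, e2]
        rw [e, conj_pow, ← pow_mul, mul_comm m]
        group
  · intro P hP p hp h1 w hw hw'
    by_cases h : p.k = 0
    · obtain ⟨f, h2, h3⟩ := (W0 h).1 hw
      exact h1 (h3.w3 hP hp h h2 hw')
    · obtain ⟨n, h2, h3⟩ := (W1 h).1 hw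
      obtain ⟨m, y, hm, e⟩ := h3.cj' h h2
      have := hP.anti w (e ▸ hP.conj _ (hP.pow hp m) y) hw'
      rw [this] at h3
      exact mul_ne_zero h2.ne' h h3.1.symm

def P0 : Set GG := {g | g.k = 0 ∧ ph g.a = 0 ∧ ph g.b = 0 ∧ (0 < ph g.c ∨ g = 1)}

lemma P0_mul : ∀ a ∈ P0, ∀ b ∈ P0, a * b ∈ P0 := by
  rintro a ⟨h1, h2, h3, h4 | rfl⟩ b ⟨k1, k2, k3, k4 | rfl⟩
  · refine ⟨by simp [h1, k1], by simp [h2, k2], by simp [h3, k3], Or.inl ?_⟩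
    simp only [mul_c, map_add, map_mul, h1, h2, L_zero, one_pow, one_mul, zero_mul, add_zero]
    positivity
  · rw [mul_one]; exact ⟨h1, h2, h3, Or.inl h4⟩
  · rw [one_mul]; exact ⟨k1, k2, k3, Or.inl k4⟩
  · rw [one_mul]; exact ⟨k1, k2, k3, Or.inr rfl⟩

lemma P0_anti : ∀ a ∈ P0, a⁻¹ ∈ P0 → a = 1 := by
  rintro a ⟨h1, h2, h3, h4 | rfl⟩ ⟨-, -, -, k4 | k4⟩
  · simp [h1, h2] at k4
    linarith
  · exact inv_eq_one.1 k4
  · rfl
  · rfl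

lemma P0_conj : ∀ a ∈ P0, ∀ x : GG, x⁻¹ * a * x ∈ P0 := by
  rintro a ⟨h1, h2, h3, h4 | rfl⟩ x
  · refine ⟨by simp [h1], by simp [h1, h2], by simp [h1, h3], Or.inl ?_⟩
    have : ph (x⁻¹ * a * x).c = ph (L (-x.k)) ^ 2 * ph a.c := by
      simp only [mul_a, mul_c, mul_k, inv_a, inv_c, inv_k, map_add, map_sub, map_neg,
        map_mul, map_pow, h1, h2, h3, add_zero]
      ring
    rw [this, ph_L]
    have : ((-2 : ℚ) ^ (-x.k)) ≠ 0 := zpow_ne_zero _ (by norm_num)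
    positivity
  · simp only [mul_one, inv_mul_cancel]
    exact ⟨rfl, by simp, by simp, Or.inr rfl⟩

lemma no_ext (Q : Set GG) (h0 : P0 ⊆ Q) (h1 : ∀ a ∈ Q, ∀ b ∈ Q, a * b ∈ Q)
    (h2 : ∀ a ∈ Q, a⁻¹ ∈ Q → a = 1) (h3 : ∀ a ∈ Q, ∀ x : GG, x⁻¹ * a * x ∈ Q)
    (h4 : ∀ a, a ∈ Q ∨ a⁻¹ ∈ Q) : False := by
  have key : ∀ e : A, e * e = 1 → (⟨e, 0, 0, 0⟩ : GG) ∉ Q := by
    intro e he hg
    have h5 := h1 _ (h1 _ (h3 _ hg ⟨0, -e, 0, 0⟩) _ hg) _ (h3 _ hg ⟨0, 0, 0, -1⟩)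
    have h6 : (⟨0, -e, 0, 0⟩ : GG)⁻¹ * ⟨e, 0, 0, 0⟩ * ⟨0, -e, 0, 0⟩ * ⟨e, 0, 0, 0⟩ *
        ((⟨0, 0, 0, -1⟩ : GG)⁻¹ * ⟨e, 0, 0, 0⟩ * ⟨0, 0, 0, -1⟩) = ⟨(2 + lam) * e, 0, -1, 0⟩ := by
      refine GG.ext ?_ ?_ ?_ ?_
      · simp [L_one]; ring
      · simp
      · simp
        linear_combination -he
      · simp
    rw [h6] at h5
    have h7 := h2 _ h5 (h0 ⟨by simp, by simp [map_ofNat], by simp, Or.inl (by simp)⟩)
    have := congrArg GG.c h7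
    simp at this
  rcases h4 ⟨1, 0, 0, 0⟩ with h | h
  · exact key 1 (by simp) h
  · refine key (-1) (by ring) ?_
    convert h using 1
    refine GG.ext ?_ ?_ ?_ ?_ <;> simp

end Pool.Agent.Lib.helper17.WA
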