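import Mathlib

set_option autoImplicit false

namespace Pool.Agent.Lib.helper17.WO

inductive Atom (α : Type*) where
  | Y (a : α)
  | Z (a : α)
  | E (a b : α)
  | N (a b c : α)

namespace Atom

variable {α β γ : Type*}

def map (f : α → β) : Atom α → Atom β
  | Y a => Y (f a)
  | Z a => Z (f a)
  | E a b => E (f a) (f b)
  | N a b c => N (f a) (f b) (f c)

def All (P : α → Prop) : Atom α → Prop
  | Y a => P a
  | Z a => P a
  | E a b => P a ∧ P b
  | N a b c => P a ∧ P b ∧ P c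

lemma map_map (f : α → β) (g : β → γ) (t : Atom α) : (t.map f).map g = t.map (g ∘ f) := by
  cases t <;> rfl

lemma map_id (t : Atom α) : t.map id = t := by cases t <;> rfl

lemma all_map (f : α → β) (P : β → Prop) (t : Atom α) : (t.map f).All P ↔ t.All (fun a => P (f a)) := by
  cases t <;> rfl

lemma All.mono {P Q : α → Prop} (h : ∀ a, P a → Q a) {t : Atom α} (ht : t.All P) : t.All Q := by
  cases t <;> simp only [All] at * <;> tauto

lemma all_of {P : α → Prop} (h : ∀ a, P a) (t : Atom α) : t.All P := by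
  cases t <;> simp [All, h]

lemma All.and {P Q : α → Prop} {t : Atom α} (h : t.All P) (h' : t.All Q) :
    t.All (fun a => P a ∧ Q a) := by
  cases t <;> simp only [All] at * <;> tauto

lemma map_congr {f g : α → β} {t : Atom α} (h : t.All (fun a => f a = g a)) : t.map f = t.map g := by
  cases t <;> simp only [All, map] at * <;> simp [h]

lemma map_inj {f : α → β} (hf : Function.Injective f) : Function.Injective (map f) := by
  intro s t h
  cases s <;> cases t <;> simp only [map, reduceCtorEq, Y.injEq, Z.injEq, E.injEq, N.injEq] at h ⊢ <;>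
    simp only [hf.eq_iff] at h <;> exact h

lemma lift (g : α → β) {t : Atom β} (h : t.All (fun b => b ∈ Set.range g)) :
    ∃ s : Atom α, s.map g = t := by
  cases t with
  | Y a => obtain ⟨a, rfl⟩ := h; exact ⟨Y a, rfl⟩
  | Z a => obtain ⟨a, rfl⟩ := h; exact ⟨Z a, rfl⟩
  | E a b => obtain ⟨⟨a, rfl⟩, ⟨b, rfl⟩⟩ := h; exact ⟨E a b, rfl⟩
  | N a b c => obtain ⟨⟨a, rfl⟩, ⟨b, rfl⟩, ⟨c, rfl⟩⟩ := h; exact ⟨N a b c, rfl⟩

instance [Finite α] : Finite (Atom α) := by
  let f : α ⊕ α ⊕ (α × α) ⊕ (α × α × α) → Atom α := fun x => match x with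
    | .inl a => Y a
    | .inr (.inl a) => Z a
    | .inr (.inr (.inl (a, b))) => E a b
    | .inr (.inr (.inr (a, b, c))) => N a b c
  refine Finite.of_surjective f fun t => ?_
  cases t with
  | Y a => exact ⟨.inl a, rfl⟩
  | Z a => exact ⟨.inr (.inl a), rfl⟩
  | E a b => exact ⟨.inr (.inr (.inl (a, b))), rfl⟩
  | N a b c => exact ⟨.inr (.inr (.inr (a, b, c))), rfl⟩

end Atom

abbrev Str (α : Type*) := Atom α → Prop

variable {α β γ M : Type*}

def comap (S : Str β) (f : α → β) : Str α := fun t => S (t.map f)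

lemma comap_comap (S : Str γ) (g : β → γ) (f : α → β) : comap (comap S g) f = comap S (g ∘ f) := by
  funext t; simp [comap, Atom.map_map]

lemma comap_id (S : Str α) : comap S id = S := by
  funext t; simp [comap, Atom.map_id]

structure Valid (S : Str α) : Prop where
  c1 : ∀ u v, S (.E u v) → ¬ (S (.Y u) ∧ S (.Z v)) ∧ ¬ (S (.Z u) ∧ S (.Y v))
  c2 : ∀ x a y, S (.N x a y) → S (.E x a) ∧ ¬ S (.Y x) ∧ ¬ S (.Y a)
  c3 : ∀ x a y b, S (.N x a y) → S (.E b a) → S (.E x b) → S (.E y b) → False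

lemma Valid.comap {S : Str β} (h : Valid S) (f : α → β) : Valid (comap S f) :=
  ⟨fun _ _ => h.c1 _ _, fun _ _ _ => h.c2 _ _ _, fun _ _ _ _ => h.c3 _ _ _ _⟩

lemma valid_of_fin {S : Str α} (h : ∀ v : Fin 4 → α, Valid (comap S v)) : Valid S :=
  ⟨fun u v => (h ![u, v, u, u]).c1 0 1, fun x a y => (h ![x, a, y, y]).c2 0 1 2,
    fun x a y b => (h ![x, a, y, b]).c3 0 1 2 3⟩

def Emb (A : Str M) (v : α → M) (S : Str α) : Prop := Function.Injective v ∧ comap A v = S

lemma Emb.comp {A : Str M} {v : α → M} {S : Str α} (h : Emb A v S) {g : β → α}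
    (hg : Function.Injective g) : Emb A (v ∘ g) (comap S g) :=
  ⟨h.1.comp hg, by rw [← h.2, comap_comap]⟩

/-- free amalgam -/
def Am (A : Str M) (v : α → M) (S : Str (β ⊕ α)) : Str (β ⊕ M) := fun t =>
  (∃ t0 : Atom M, t0.map Sum.inr = t ∧ A t0) ∨ (∃ t1, Atom.map (Sum.map id v) t1 = t ∧ S t1)

section Am
variable {A : Str M} {v : α → M} {S : Str (β ⊕ α)}

lemma am_aux {t0 : Atom M} {t1 : Atom (β ⊕ α)} (h : Emb A v (comap S Sum.inr))
    (e : t0.map Sum.inr = t1.map (Sum.map id v)) : A t0 ↔ S t1 := by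
  have h1 : t1.All (fun b => b ∈ Set.range Sum.inr) := by
    have : (t1.map (Sum.map id v)).All (fun b => b ∈ Set.range Sum.inr) := by
      rw [← e, Atom.all_map]; exact Atom.all_of (fun a => ⟨a, rfl⟩) _
    rw [Atom.all_map] at this
    refine this.mono fun a ha => ?_
    rcases a with a | a
    · simp at ha
    · exact ⟨a, rfl⟩
  obtain ⟨s, rfl⟩ := Atom.lift _ h1
  rw [Atom.map_map] at e
  have e' : t0 = s.map v := by
    apply Atom.map_inj (f := (Sum.inr : M → β ⊕ M)) Sum.inr_injective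
    rw [e, Atom.map_map]; rfl
  subst e'
  exact iff_of_eq (congrFun h.2 s)

lemma am_inr (h : Emb A v (comap S Sum.inr)) : comap (Am A v S) Sum.inr = A := by
  funext t
  refine propext ⟨?_, fun ht => Or.inl ⟨t, rfl, ht⟩⟩
  rintro (⟨t0, e, h0⟩ | ⟨t1, e, h1⟩)
  · rwa [← Atom.map_inj Sum.inr_injective e]
  · exact (am_aux h e.symm).2 h1

lemma am_map (h : Emb A v (comap S Sum.inr)) : comap (Am A v S) (Sum.map id v) = S := by
  funext t
  refine propext ⟨?_, fun ht => Or.inr ⟨t, rfl, ht⟩⟩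
  rintro (⟨t0, e, h0⟩ | ⟨t1, e, h1⟩)
  · exact (am_aux h e).1 h0
  · rwa [← Atom.map_inj (Function.injective_id.sumMap h.1) e]

lemma am_side {t : Atom (β ⊕ M)} (ht : Am A v S t) :
    t.All (fun b => b ∈ Set.range Sum.inr) ∨ t.All (fun b => b ∈ Set.range (Sum.map id v)) := by
  rcases ht with ⟨t0, rfl, -⟩ | ⟨t1, rfl, -⟩
  · left; rw [Atom.all_map]; exact Atom.all_of (fun a => ⟨a, rfl⟩) _
  · right; rw [Atom.all_map]; exact Atom.all_of (fun a => ⟨a, rfl⟩) _

lemma am_valid (hA : Valid A) (hS : Valid S) (h : Emb A v (comap S Sum.inr)) :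
    Valid (Am A v S) := by
  have h1 : Valid (comap (Am A v S) Sum.inr) := by rw [am_inr h]; exact hA
  have h2 : Valid (comap (Am A v S) (Sum.map id v)) := by rw [am_map h]; exact hS
  refine ⟨fun u w he => ?_, fun x a y hn => ?_, fun x a y b hn e1 e2 e3 => ?_⟩
  · rcases am_side he with ⟨⟨u, rfl⟩, ⟨w, rfl⟩⟩ | ⟨⟨u, rfl⟩, ⟨w, rfl⟩⟩
    · exact h1.c1 _ _ he
    · exact h2.c1 _ _ he
  · rcases am_side hn with ⟨⟨x, rfl⟩, ⟨a, rfl⟩, ⟨y, rfl⟩⟩ | ⟨⟨x, rfl⟩, ⟨a, rfl⟩, ⟨y, rfl⟩⟩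
    · exact h1.c2 _ _ _ hn
    · exact h2.c2 _ _ _ hn
  · have k : (x ∈ Set.range Sum.inr ∧ a ∈ Set.range Sum.inr ∧ y ∈ Set.range Sum.inr ∧
        b ∈ Set.range Sum.inr) ∨ (x ∈ Set.range (Sum.map id v) ∧ a ∈ Set.range (Sum.map id v) ∧
        y ∈ Set.range (Sum.map id v) ∧ b ∈ Set.range (Sum.map id v)) := by
      have := am_side hn; have := am_side e1; have := am_side e2; have := am_side e3
      simp only [Atom.All] at *
      tauto
    rcases k with ⟨⟨x, rfl⟩, ⟨a, rfl⟩, ⟨y, rfl⟩, ⟨b, rfl⟩⟩ | ⟨⟨x, rfl⟩, ⟨a, rfl⟩, ⟨y, rfl⟩, ⟨b, rfl⟩⟩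
    · exact h1.c3 _ _ _ _ hn e1 e2 e3
    · exact h2.c3 _ _ _ _ hn e1 e2 e3

end Am

def ExtFin (A : Str M) : Prop := ∀ (n k : ℕ) (S : Str (Fin k ⊕ Fin n)), Valid S →
  ∀ v : Fin n → M, Emb A v (comap S Sum.inr) → ∃ w : Fin k → M, Emb A (Sum.elim w v) S

lemma ExtFin.ext {A : Str M} (hA : ExtFin A) [Finite α] [Finite β] {S : Str (β ⊕ α)} (hS : Valid S)
    {v : α → M} (h : Emb A v (comap S Sum.inr)) : ∃ w : β → M, Emb A (Sum.elim w v) S := by
  obtain ⟨n, ⟨e⟩⟩ := Finite.exists_equiv_fin α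
  obtain ⟨k, ⟨e'⟩⟩ := Finite.exists_equiv_fin β
  obtain ⟨w, hw⟩ := hA n k (comap S (Sum.map e'.symm e.symm)) (hS.comap _) (v ∘ e.symm) (by
    have := h.comp e.symm.injective
    rw [comap_comap] at this ⊢
    exact this)
  refine ⟨w ∘ e', ?_⟩
  have := hw.comp (g := Sum.map e' e) (e'.injective.sumMap e.injective)
  rw [comap_comap] at this
  convert this using 1
  · funext x; rcases x with x | x <;> simp
  · have : (Sum.map e'.symm e.symm ∘ Sum.map e' e : β ⊕ α → β ⊕ α) = id := by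
      funext x; rcases x with x | x <;> simp
    rw [this, comap_id]

section Limit

abbrev Datum := Σ n k : ℕ, (Fin n → ℕ × ℕ) × Str (Fin k ⊕ Fin n)

def iota (m k : ℕ) (p : ℕ × ℕ) : Fin k ⊕ (ℕ × ℕ) :=
  if h : p.1 = m ∧ p.2 < k then Sum.inl ⟨p.2, h.2⟩ else Sum.inr p

open Classical in
noncomputable def step (m : ℕ) (d : Datum) (A : Str (ℕ × ℕ)) : Str (ℕ × ℕ) :=
  if Valid d.2.2.2 ∧ Emb A d.2.2.1 (comap d.2.2.2 Sum.inr) then
    comap (Am A d.2.2.1 d.2.2.2) (iota m d.2.1) else A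

noncomputable def stage (g : ℕ → Datum) : ℕ → Str (ℕ × ℕ)
  | 0 => fun _ => False
  | m + 1 => step m (g m) (stage g m)

lemma stage_valid (g : ℕ → Datum) (m : ℕ) : Valid (stage g m) := by
  induction m with
  | zero => exact ⟨fun _ _ h => h.elim, fun _ _ _ h => h.elim, fun _ _ _ _ h => h.elim⟩
  | succ m ih =>
    simp only [stage, step]
    split_ifs with h
    · exact (am_valid ih h.1 h.2).comap _
    · exact ih

lemma stage_succ (g : ℕ → Datum) (m : ℕ) {t : Atom (ℕ × ℕ)} (ht : t.All (fun p => p.1 < m)) :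
    stage g (m + 1) t ↔ stage g m t := by
  simp only [stage, step]
  split_ifs with h
  · have : t.map (iota m (g m).2.1) = t.map Sum.inr :=
      Atom.map_congr (ht.mono fun p hp => by simp [iota, hp.ne])
    simp only [comap]
    rw [this]
    exact iff_of_eq (congrFun (am_inr h.2) t)
  · rfl

lemma stage_add (g : ℕ → Datum) (m j : ℕ) {t : Atom (ℕ × ℕ)} (ht : t.All (fun p => p.1 < m)) :
    stage g (m + j) t ↔ stage g m t := by
  induction j with
  | zero => rfl
  | succ j ih => rw [← add_assoc, stage_succ g _ (ht.mono fun p hp => by omega), ih]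

def lim (g : ℕ → Datum) : Str (ℕ × ℕ) := fun t => ∃ m0, ∀ m, m0 ≤ m → stage g m t

lemma lim_comap (g : ℕ → Datum) (m : ℕ) (v : α → ℕ × ℕ) (hv : ∀ a, (v a).1 < m) :
    comap (lim g) v = comap (stage g m) v := by
  funext t
  have ht : (t.map v).All (fun p => p.1 < m) := by rw [Atom.all_map]; exact Atom.all_of hv _
  refine propext ⟨fun ⟨m0, h⟩ => (stage_add g m m0 ht).1 (h _ (by omega)), fun h => ⟨m, fun k hk => ?_⟩⟩
  obtain ⟨j, rfl⟩ := Nat.exists_eq_add_of_le hk
  exact (stage_add g m j ht).2 h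

lemma bdd [Finite α] (v : α → ℕ × ℕ) : ∃ m, ∀ a, (v a).1 < m := by
  obtain ⟨m, hm⟩ := (Set.finite_range fun a => (v a).1).bddAbove
  exact ⟨m + 1, fun a => Nat.lt_succ_of_le (hm ⟨a, rfl⟩)⟩

theorem ex_model : ∃ A : Str (ℕ × ℕ), Valid A ∧ ExtFin A := by
  have : Nonempty Datum := ⟨⟨0, 0, fun i => i.elim0, fun _ => False⟩⟩
  obtain ⟨g, hg⟩ := exists_surjective_nat (Datum × ℕ)
  refine ⟨lim (fun m => (g m).1), valid_of_fin fun v => ?_, fun n k S hS v hv => ?_⟩
  · obtain ⟨m, hm⟩ := bdd v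
    rw [lim_comap _ m v hm]
    exact (stage_valid _ m).comap _
  · obtain ⟨m0, hm0⟩ := bdd v
    have : ∃ m, m0 ≤ m ∧ (g m).1 = ⟨n, k, v, S⟩ := by
      choose s hs using fun j : ℕ => hg (⟨n, k, v, S⟩, j)
      have hi : Function.Injective s := fun i j h => by
        have := hs i; rw [h, hs j] at this; exact (congrArg Prod.snd this).symm
      obtain ⟨_, ⟨j, rfl⟩, hj⟩ := (Set.infinite_range_of_injective hi).exists_gt m0
      exact ⟨s j, hj.le, by rw [hs]⟩
    obtain ⟨m, hm, hd⟩ := this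
    have hv' : Emb (stage (fun m => (g m).1) m) v (comap S Sum.inr) :=
      ⟨hv.1, by rw [← lim_comap _ m v (fun a => (hm0 a).trans_le hm)]; exact hv.2⟩
    have hio : iota m k ∘ Sum.elim (fun i : Fin k => (m, i.1)) v = Sum.map id v := by
      funext x
      rcases x with i | a
      · simp [iota]
      · have := (hm0 a).trans_le hm
        simp [iota, this.ne]
    refine ⟨fun i => (m, i.1), ?_, ?_⟩
    · refine Function.Injective.of_comp (f := iota m k) ?_
      rw [hio]; exact Function.injective_id.sumMap hv.1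
    · rw [lim_comap _ (m + 1) _ (by
        rintro (i | a)
        · simp
        · have := (hm0 a).trans_le hm; simp; omega)]
      have e : stage (fun m => (g m).1) (m + 1) =
          step m ⟨n, k, v, S⟩ (stage (fun m => (g m).1) m) := by
        rw [← hd]; rfl
      rw [e]
      simp only [step]
      rw [if_pos ⟨hS, hv'⟩, comap_comap, hio, am_map hv']

end Limit

end Pool.Agent.Lib.helper17.WO
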