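import Mathlib
import Pool.Agent.Lib.helper17.WO1

set_option autoImplicit false

namespace Pool.Agent.Lib.helper17.WO

open FirstOrder FirstOrder.Language

inductive Rel : ℕ → Type
  | Y : Rel 1
  | Z : Rel 1
  | E : Rel 2
  | N : Rel 3

def L : FirstOrder.Language.{0, 0} := ⟨fun _ => Empty, Rel⟩

variable {α β γ : Type*}

def mkAtom : {n : ℕ} → Rel n → (Fin n → α) → Atom α
  | _, .Y, x => .Y (x 0)
  | _, .Z, x => .Z (x 0)
  | _, .E, x => .E (x 0) (x 1)
  | _, .N, x => .N (x 0) (x 1) (x 2)

lemma mkAtom_map {n : ℕ} (r : Rel n) (x : Fin n → α) (f : α → β) :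
    (mkAtom r x).map f = mkAtom r (f ∘ x) := by cases r <;> rfl

lemma mkAtom_all {n : ℕ} (r : Rel n) (x : Fin n → α) {P : α → Prop} (h : ∀ i, P (x i)) :
    (mkAtom r x).All P := by cases r <;> simp [mkAtom, Atom.All, h]

@[reducible] def ofStr {M : Type*} (A : Str M) : L.Structure M where
  funMap f := f.elim
  RelMap r x := A (mkAtom r x)

def str (M : Type*) [L.Structure M] : Str M
  | .Y a => Structure.RelMap (L := L) Rel.Y ![a]
  | .Z a => Structure.RelMap (L := L) Rel.Z ![a]
  | .E a b => Structure.RelMap (L := L) Rel.E ![a, b]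
  | .N a b c => Structure.RelMap (L := L) Rel.N ![a, b, c]

lemma str_ofStr {M : Type*} (A : Str M) : @str M (ofStr A) = A := by
  funext t; cases t <;> rfl

section
variable {M : Type*} [L.Structure M]

lemma str_mkAtom {n : ℕ} (r : Rel n) (x : Fin n → M) :
    str M (mkAtom r x) ↔ Structure.RelMap (L := L) r x := by
  cases r <;> simp only [mkAtom, str] <;> apply iff_of_eq <;> congr 1 <;> funext i <;>
    fin_cases i <;> rfl

def atomF : Atom α → L.Formula α
  | .Y a => Relations.formula (L := L) Rel.Y ![Term.var a]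
  | .Z a => Relations.formula (L := L) Rel.Z ![Term.var a]
  | .E a b => Relations.formula (L := L) Rel.E ![Term.var a, Term.var b]
  | .N a b c => Relations.formula (L := L) Rel.N ![Term.var a, Term.var b, Term.var c]

lemma r_atomF (t : Atom α) (v : α → M) : (atomF t).Realize v ↔ str M (t.map v) := by
  cases t <;> simp only [atomF, Atom.map, str] <;> refine Formula.realize_rel.trans ?_ <;>
    apply iff_of_eq <;> congr 1 <;> funext i <;> fin_cases i <;> rfl

open Classical in
noncomputable def diag0 [Finite α] (S : Str α) : L.Formula α :=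
  Formula.iInf fun t : Atom α => if S t then atomF t else (atomF t).not

lemma r_diag0 [Finite α] (S : Str α) (v : α → M) : (diag0 S).Realize v ↔ comap (str M) v = S := by
  simp only [diag0, Formula.realize_iInf, funext_iff, comap]
  refine forall_congr' fun t => ?_
  by_cases h : S t <;> simp [h, r_atomF]

open Classical in
noncomputable def diag [Finite α] (S : Str α) : L.Formula α :=
  (Formula.iInf fun p : α × α => if p.1 = p.2 then ⊤ else
    ((Term.var p.1).equal (Term.var p.2)).not) ⊓ diag0 S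

lemma r_diag [Finite α] (S : Str α) (v : α → M) : (diag S).Realize v ↔ Emb (str M) v S := by
  simp only [diag, Formula.realize_inf, r_diag0, Emb, Formula.realize_iInf]
  refine and_congr_left' ⟨fun h a b e => ?_, fun h p => ?_⟩
  · by_contra hab
    have := h (a, b)
    simp [hab] at this
    exact this e
  · by_cases e : p.1 = p.2
    · simp [e]
    · simp [e]; exact fun e' => e (h e')

lemma transfer {M0 : Type*} [L.Structure M0] [M ⊨ L.completeTheory M0] [Finite α]
    (φ : L.Formula α) (h : ∀ v : α → M0, φ.Realize v) (v : α → M) : φ.Realize v := by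
  let σ : L.Sentence := Formula.iAlls α (φ.relabel Sum.inr)
  have h0 : M0 ⊨ σ := by
    simp only [σ, Sentence.Realize, Formula.realize_iAlls, Formula.realize_relabel]
    intro i; exact h _
  have h1 : M ⊨ σ := (realize_iff_of_model_completeTheory M0 M σ).2 h0
  simp only [σ, Sentence.Realize, Formula.realize_iAlls, Formula.realize_relabel] at h1
  exact h1 v

lemma valid_transfer {M0 : Type*} [L.Structure M0] [M ⊨ L.completeTheory M0]
    (h : Valid (str M0)) : Valid (str M) := by
  refine valid_of_fin fun v => ?_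
  by_contra hv
  have := transfer (M := M) (M0 := M0) (diag0 (comap (str M) v)).not (fun w => by
    rw [Formula.realize_not, r_diag0]
    intro e
    exact hv (e ▸ h.comap w)) v
  rw [Formula.realize_not, r_diag0] at this
  exact this rfl

lemma ext_transfer {M0 : Type*} [L.Structure M0] [M ⊨ L.completeTheory M0]
    (h : ExtFin (str M0)) : ExtFin (str M) := by
  intro n k S hS v hv
  have := transfer (M := M) (M0 := M0) ((diag (comap S Sum.inr)).imp
    (Formula.iExs (Fin k) ((diag S).relabel Sum.swap))) (fun w => by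
    simp only [Formula.realize_imp, Formula.realize_iExs, Formula.realize_relabel, r_diag]
    intro hw
    obtain ⟨u, hu⟩ := h n k S hS w hw
    exact ⟨u, by convert hu using 1; funext x; rcases x with x | x <;> rfl⟩) v
  simp only [Formula.realize_imp, Formula.realize_iExs, Formula.realize_relabel, r_diag] at this
  obtain ⟨u, hu⟩ := this hv
  exact ⟨u, by convert hu using 1; funext x; rcases x with x | x <;> rfl⟩

/-- partial isomorphisms -/
def PI (A : Str M) (f g : M × M → M) (I : Set (M × M)) : Prop :=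
  (∀ p ∈ I, ∀ q ∈ I, f p = f q ↔ g p = g q) ∧
    ∀ t : Atom (M × M), t.All (· ∈ I) → (A (t.map f) ↔ A (t.map g))

omit [L.Structure M] in
lemma PI.symm {A : Str M} {f g : M × M → M} {I : Set (M × M)} (h : PI A f g I) : PI A g f I :=
  ⟨fun p hp q hq => (h.1 p hp q hq).symm, fun t ht => (h.2 t ht).symm⟩

omit [L.Structure M] in
lemma pi_of_emb {A : Str M} {f g : M × M → M} {I : Set (M × M)} {S : Str α} (e : α → M × M)
    (he : I ⊆ Set.range e) (h1 : Emb A (f ∘ e) S) (h2 : Emb A (g ∘ e) S) : PI A f g I := by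
  refine ⟨fun p hp q hq => ?_, fun t ht => ?_⟩
  · obtain ⟨a, rfl⟩ := he hp
    obtain ⟨b, rfl⟩ := he hq
    exact h1.1.eq_iff.trans h2.1.eq_iff.symm
  · obtain ⟨s, rfl⟩ := Atom.lift e (ht.mono fun p hp => he hp)
    rw [Atom.map_map, Atom.map_map]
    exact iff_of_eq ((congrFun h1.2 s).trans (congrFun h2.2 s).symm)

omit [L.Structure M] in
lemma PI.forth {A : Str M} (hV : Valid A) (hE : ExtFin A) {f g : M × M → M}
    (hi : ∀ p q, f p = f q → g p = g q → p = q) (hs : ∀ a b, ∃ p, f p = a ∧ g p = b)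
    {I : Set (M × M)} (hI : I.Finite) (h : PI A f g I) (w : M) :
    ∃ p, f p = w ∧ PI A f g (insert p I) := by
  by_cases hw : ∃ p ∈ I, f p = w
  · obtain ⟨p, hp, e⟩ := hw
    exact ⟨p, e, by rwa [Set.insert_eq_of_mem hp]⟩
  have := hI.to_subtype
  let u : Unit ⊕ I → M := Sum.elim (fun _ => w) (fun p => f p.1)
  obtain ⟨w', hw'⟩ := hE.ext (α := I) (β := Unit) (S := comap A u) (hV.comap _)
    (v := fun p => g p.1) ⟨fun p q e => Subtype.ext (hi _ _ ((h.1 _ p.2 _ q.2).2 e) e), by
      funext t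
      have := h.2 (t.map Subtype.val) (by rw [Atom.all_map]; exact Atom.all_of (fun a => a.2) _)
      simp only [Atom.map_map] at this
      simp only [comap, Atom.map_map]
      exact propext this.symm⟩
  obtain ⟨p, e1, e2⟩ := hs w (w' ())
  refine ⟨p, e1, pi_of_emb (S := comap A u) (Sum.elim (fun _ : Unit => p) (fun q : I => q.1)) ?_ ?_ ?_⟩
  · rintro q (rfl | hq)
    · exact ⟨.inl (), rfl⟩
    · exact ⟨.inr ⟨q, hq⟩, rfl⟩
  · have : f ∘ Sum.elim (fun _ : Unit => p) (fun q : I => q.1) = u := by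
      funext x; rcases x with x | x <;> simp [u, e1]
    rw [this]
    refine ⟨?_, rfl⟩
    rintro (a | a) (b | b) e
    · rfl
    · exact (hw ⟨b.1, b.2, e.symm⟩).elim
    · exact (hw ⟨a.1, a.2, e⟩).elim
    · exact congrArg _ (Subtype.ext (hi _ _ e ((h.1 _ a.2 _ b.2).1 e)))
  · convert hw' using 1
    funext x; rcases x with x | x <;> simp [e2]

lemma term_var (t : L.Term α) : ∃ a, t = Term.var a := by
  cases t with
  | var a => exact ⟨a, rfl⟩
  | func f _ => exact f.elim

theorem qe (hV : Valid (str M)) (hE : ExtFin (str M)) {n : ℕ} (φ : L.BoundedFormula β n) :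
    ∃ s : Set β, s.Finite ∧ ∀ I : Set (M × M), I.Finite → PI (str M) Prod.fst Prod.snd I →
      ∀ (v v' : β → M) (xs xs' : Fin n → M), (∀ b ∈ s, (v b, v' b) ∈ I) →
        (∀ i, (xs i, xs' i) ∈ I) → (φ.Realize v xs ↔ φ.Realize v' xs') := by
  induction φ with
  | falsum => exact ⟨∅, Set.finite_empty, fun _ _ _ _ _ _ _ _ _ => Iff.rfl⟩
  | @equal n t1 t2 =>
    obtain ⟨a, rfl⟩ := term_var t1
    obtain ⟨b, rfl⟩ := term_var t2
    refine ⟨Sum.inl ⁻¹' {a, b}, (Set.toFinite _).preimage Sum.inl_injective.injOn,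
      fun I _ hI v v' xs xs' h1 h2 => ?_⟩
    have k : ∀ c ∈ ({a, b} : Set _), (Sum.elim v xs c, Sum.elim v' xs' c) ∈ I := by
      rintro (c | c) hc
      · exact h1 c hc
      · exact h2 c
    exact hI.1 _ (k a (by simp)) _ (k b (by simp))
  | @rel n l r ts =>
    choose x hx using fun i => term_var (ts i)
    refine ⟨Sum.inl ⁻¹' Set.range x, (Set.finite_range _).preimage Sum.inl_injective.injOn,
      fun I _ hI v v' xs xs' h1 h2 => ?_⟩
    have k : ∀ c ∈ Set.range x, (Sum.elim v xs c, Sum.elim v' xs' c) ∈ I := by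
      rintro (c | c) hc
      · exact h1 c hc
      · exact h2 c
    have := hI.2 (mkAtom r fun i => (Sum.elim v xs (x i), Sum.elim v' xs' (x i)))
      (mkAtom_all _ _ fun i => k _ ⟨i, rfl⟩)
    erw [mkAtom_map, mkAtom_map, str_mkAtom, str_mkAtom] at this
    simp only [BoundedFormula.Realize, hx, Term.realize_var]
    exact this
  | imp φ ψ ih1 ih2 =>
    obtain ⟨s1, f1, h1⟩ := ih1
    obtain ⟨s2, f2, h2⟩ := ih2
    refine ⟨s1 ∪ s2, f1.union f2, fun I hf hI v v' xs xs' k1 k2 => ?_⟩
    simp only [BoundedFormula.Realize]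
    rw [h1 I hf hI v v' xs xs' (fun b hb => k1 b (Or.inl hb)) k2,
      h2 I hf hI v v' xs xs' (fun b hb => k1 b (Or.inr hb)) k2]
  | @all n φ ih =>
    obtain ⟨s, f, h⟩ := ih
    refine ⟨s, f, fun I hf hI v v' xs xs' k1 k2 => ?_⟩
    simp only [BoundedFormula.Realize]
    have k : ∀ p : M × M, PI (str M) Prod.fst Prod.snd (insert p I) →
        (φ.Realize v (Fin.snoc xs p.1) ↔ φ.Realize v' (Fin.snoc xs' p.2)) := fun p hp =>
      h _ (hf.insert p) hp _ _ _ _ (fun b hb => Or.inr (k1 b hb)) (fun i => by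
        refine Fin.lastCases ?_ (fun j => ?_) i
        · simp
        · simp [k2 j])
    constructor
    · intro H w
      obtain ⟨p, rfl, hp⟩ := hI.symm.forth hV hE (fun p q a b => Prod.ext b a)
        (fun a b => ⟨(b, a), rfl, rfl⟩) hf w
      exact (k p hp.symm).1 (H _)
    · intro H w
      obtain ⟨p, rfl, hp⟩ := hI.forth hV hE (fun p q a b => Prod.ext a b)
        (fun a b => ⟨(a, b), rfl, rfl⟩) hf w
      exact (k p hp).2 (H _)

/-- two embeddings of the same finite structure satisfy the same formulas -/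
lemma qe_emb (hV : Valid (str M)) (hE : ExtFin (str M)) [Finite α] {S : Str α} {f g : α → M}
    (hf : Emb (str M) f S) (hg : Emb (str M) g S) (φ : L.Formula α) :
    φ.Realize f ↔ φ.Realize g := by
  obtain ⟨s, -, h⟩ := qe hV hE φ
  exact h (Set.range fun a => (f a, g a)) (Set.finite_range _)
    (pi_of_emb (fun a => (f a, g a)) subset_rfl hf hg) f g _ _ (fun b _ => ⟨b, rfl⟩)
    (fun i => i.elim0)

lemma supp (hV : Valid (str M)) (hE : ExtFin (str M)) (φ : L.Formula β) :
    ∃ s : Set β, s.Finite ∧ ∀ I : Set (M × M), I.Finite → PI (str M) Prod.fst Prod.snd I →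
      ∀ (v v' : β → M), (∀ b ∈ s, (v b, v' b) ∈ I) → (φ.Realize v ↔ φ.Realize v') := by
  obtain ⟨s, hs, h⟩ := qe hV hE φ
  exact ⟨s, hs, fun I h1 h2 v v' h3 => h I h1 h2 v v' _ _ h3 (fun i => i.elim0)⟩

end

theorem ex_theory : ∃ T : L.Theory, T.IsComplete ∧ ∀ (U : Type*) [L.Structure U], U ⊨ T →
    Valid (str U) ∧ ExtFin (str U) := by
  obtain ⟨A, h1, h2⟩ := ex_model
  let := ofStr A
  have e : str (ℕ × ℕ) = A := str_ofStr A
  refine ⟨L.completeTheory (ℕ × ℕ), completeTheory.isComplete _ _, fun U _ hU => ?_⟩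
  exact ⟨valid_transfer (M0 := ℕ × ℕ) (e ▸ h1), ext_transfer (M0 := ℕ × ℕ) (e ▸ h2)⟩

end Pool.Agent.Lib.helper17.WO
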